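import Pool.Agent.MP_66cee2_co.P.Spec

/-
Maps of the plane into three dimensional space: from real to complex jets, and the case of rank two.
-/

namespace Pool.Agent.MP_66cee2_co.P

open MeasureTheory Set Filter Metric Topology Matrix Pool.Agent.MP_66cee2_co.X
open scoped ENNReal RealInnerProductSpace

namespace Alg

theorem sq_one {n : E2} (h : ‖n‖ = 1) : n 0 ^ 2 + n 1 ^ 2 = 1 := by
  have h2 := EuclideanSpace.real_norm_sq_eq n
  rw [h, Fin.sum_univ_two] at h2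
  linarith

theorem sq_c {n : E2} (h : ‖n‖ = 1) : ((n 0 : ℝ) : ℂ) ^ 2 + ((n 1 : ℝ) : ℂ) ^ 2 = 1 := by
  have h2 := congrArg (fun r : ℝ => (r : ℂ)) (sq_one h)
  simpa using h2

theorem toC_re (n : E2) : (toC n).re = n 0 := by simp [toC]

theorem toC_im (n : E2) : (toC n).im = n 1 := by simp [toC]

theorem ofC_toC (n : E2) : ofC (toC n) = n := by
  ext i
  fin_cases i
  · simp [ofC, toC_re]
  · simp [ofC, toC_im]

theorem toC_inj : Function.Injective toC := fun a b h => by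
  rw [← ofC_toC a, ← ofC_toC b, h]

theorem toC_norm {n : E2} (h : ‖n‖ = 1) : ‖toC n‖ = 1 := by
  have h2 : ‖toC n‖ ^ 2 = 1 := by
    rw [Complex.sq_norm, Complex.normSq_apply, toC_re, toC_im, ← sq_one h]
    ring
  have h3 := norm_nonneg (toC n)
  nlinarith

theorem jr0 (n : E2) : Jr n 0 = -n 1 := by simp [Jr]

theorem jr1 (n : E2) : Jr n 1 = n 0 := by simp [Jr]

theorem ze_toC (n : E2) : ze * toC n = toC (Rot n) := by
  apply Complex.ext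
  · simp [ze, Rot, toC, jr0, jr1]
    ring
  · simp [ze, Rot, toC, jr0, jr1]

theorem toC_inv {n : E2} (h : ‖n‖ = 1) : (toC n)⁻¹ = n 0 - n 1 * Complex.I := by
  have h2 := sq_c h
  apply inv_eq_of_mul_eq_one_right
  unfold toC
  linear_combination h2 - ((n 1 : ℝ) : ℂ) ^ 2 * Complex.I_sq

theorem id1 (x y j a b : ℂ) (h : x ^ 2 + y ^ 2 = 1) (hj : j ^ 2 = -1) :
    (a + j * b) / 2 - (x + y * j) ^ 2 * ((a - j * b) / 2) =
      j * (x + y * j) * (-y * a + x * b) := by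
  grind

theorem id2 (x y j a b c d e : ℂ) (h : x ^ 2 + y ^ 2 = 1) (hj : j ^ 2 = -1) :
    (c - e + j * d) / 4 - (x + y * j) ^ 2 * ((c + e) / 2) + (x + y * j) ^ 4 * ((c - e - j * d) / 4)
        - (x + y * j) ^ 3 * ((a - j * b) / 2) =
      -(x + y * j) ^ 2 * (1 / 2 * (x * a + y * b) +
        (-y * -y * c + (-y * x + x * -y) / 2 * d + x * x * e)) +
        j * (x + y * j) ^ 2 / 2 * (-y * a + x * b) := by
  grind

theorem id3 (x y j a b c d e f g k l : ℂ) (h : x ^ 2 + y ^ 2 = 1) (hj : j ^ 2 = -1) :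
    (f + j * g - k - j * l) / 8 - (x + y * j) ^ 2 * ((3 * f + j * g + k + 3 * j * l) / 8) +
        (x + y * j) ^ 4 * ((3 * f - j * g + k - 3 * j * l) / 8) -
        (x + y * j) ^ 6 * ((f - j * g - k + j * l) / 8) - (x + y * j) ^ 4 * ((a - j * b) / 2) -
        (x + y * j) ^ 3 * ((c + e) / 2) + 2 * (x + y * j) ^ 5 * ((c - e - j * d) / 4) =
      -j * (x + y * j) ^ 3 * ((-y * x * c + (-y * y + x * x) / 2 * d + x * y * e +
        ((-y) ^ 3 * f + (-y) ^ 2 * x * g + -y * x ^ 2 * k + x ^ 3 * l)) -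
        1 / 2 * (-y * a + x * b) -
        j * (1 / 2 * (x * a + y * b) + (-y * -y * c + (-y * x + x * -y) / 2 * d + x * x * e))) := by
  grind

/-- a real vector as a complex vector. -/
def cx (v : Fin 3 → ℝ) : Fin 3 → ℂ := fun a => (v a : ℂ)

theorem cx_dot (v w : Fin 3 → ℝ) : cx v ⬝ᵥ cx w = ((v ⬝ᵥ w : ℝ) : ℂ) := by
  simp [cx, dotProduct]

theorem p1_eq (c : ℕ → ℕ → Fin 3 → ℝ) {n : E2} (h : ‖n‖ = 1) :
    (toCJ c).p1 (toC n) = (Complex.I * toC n) • cx (Lm c (Jr n)) := by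
  funext a
  have := id1 (n 0) (n 1) Complex.I (c 1 0 a) (c 0 1 a) (sq_c h) Complex.I_sq
  simp only [CJ.p1, toCJ, toC, cx, Lm, jr0, jr1, Pi.sub_apply, Pi.add_apply, Pi.smul_apply,
    smul_eq_mul]
  push_cast
  linear_combination this

theorem p2_eq (c : ℕ → ℕ → Fin 3 → ℝ) {n : E2} (h : ‖n‖ = 1) :
    (toCJ c).p2 (toC n) = (-toC n ^ 2) • cx ((1 / 2 : ℝ) • Lm c n + Qm c (Jr n) (Jr n)) +
      (Complex.I * toC n ^ 2 / 2) • cx (Lm c (Jr n)) := by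
  funext a
  have := id2 (n 0) (n 1) Complex.I (c 1 0 a) (c 0 1 a) (c 2 0 a) (c 1 1 a) (c 0 2 a) (sq_c h)
    Complex.I_sq
  simp only [CJ.p2, toCJ, toC, cx, Lm, Qm, jr0, jr1, Pi.sub_apply, Pi.add_apply, Pi.smul_apply,
    smul_eq_mul]
  push_cast
  linear_combination this

theorem p3_eq (c : ℕ → ℕ → Fin 3 → ℝ) {n : E2} (h : ‖n‖ = 1) :
    (toCJ c).p3 (toC n) = (-Complex.I * toC n ^ 3) • (cx (Qm c (Jr n) n + Cm c (Jr n)) -
      (1 / 2 : ℂ) • cx (Lm c (Jr n)) -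
      Complex.I • cx ((1 / 2 : ℝ) • Lm c n + Qm c (Jr n) (Jr n))) := by
  funext a
  have := id3 (n 0) (n 1) Complex.I (c 1 0 a) (c 0 1 a) (c 2 0 a) (c 1 1 a) (c 0 2 a) (c 3 0 a)
    (c 2 1 a) (c 1 2 a) (c 0 3 a) (sq_c h) Complex.I_sq
  simp only [CJ.p3, toCJ, toC, cx, Lm, Qm, Cm, jr0, jr1, Pi.sub_apply, Pi.add_apply,
    Pi.smul_apply, smul_eq_mul]
  push_cast
  linear_combination this

theorem lm_eq (c : ℕ → ℕ → Fin 3 → ℝ) {n : E2} (h : ‖n‖ = 1) :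
    cx (Lm c n) = toC n • (toCJ c).B + (toC n)⁻¹ • (toCJ c).A := by
  funext a
  rw [toC_inv h]
  simp only [toCJ, toC, cx, Lm, Pi.add_apply, Pi.smul_apply, smul_eq_mul]
  push_cast
  linear_combination ((n 1 : ℝ) : ℂ) * ((c 0 1 a : ℝ) : ℂ) * Complex.I_sq

theorem aa_eq (c : ℕ → ℕ → Fin 3 → ℝ) : (toCJ c).A ⬝ᵥ (toCJ c).A =
    (((c 1 0 ⬝ᵥ c 1 0 - c 0 1 ⬝ᵥ c 0 1) / 4 : ℝ) : ℂ) +
      ((c 1 0 ⬝ᵥ c 0 1 / 2 : ℝ) : ℂ) * Complex.I := by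
  simp only [toCJ, dotProduct, Fin.sum_univ_three]
  push_cast
  linear_combination (((c 0 1 0 : ℝ) : ℂ) ^ 2 + ((c 0 1 1 : ℝ) : ℂ) ^ 2 +
    ((c 0 1 2 : ℝ) : ℂ) ^ 2) / 4 * Complex.I_sq

theorem bb_eq (c : ℕ → ℕ → Fin 3 → ℝ) : (toCJ c).B ⬝ᵥ (toCJ c).B =
    (((c 1 0 ⬝ᵥ c 1 0 - c 0 1 ⬝ᵥ c 0 1) / 4 : ℝ) : ℂ) -
      ((c 1 0 ⬝ᵥ c 0 1 / 2 : ℝ) : ℂ) * Complex.I := by
  simp only [toCJ, dotProduct, Fin.sum_univ_three]
  push_cast
  linear_combination (((c 0 1 0 : ℝ) : ℂ) ^ 2 + ((c 0 1 1 : ℝ) : ℂ) ^ 2 +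
    ((c 0 1 2 : ℝ) : ℂ) ^ 2) / 4 * Complex.I_sq

theorem ab_eq (c : ℕ → ℕ → Fin 3 → ℝ) : (toCJ c).A ⬝ᵥ (toCJ c).B =
    (((c 1 0 ⬝ᵥ c 1 0 + c 0 1 ⬝ᵥ c 0 1) / 4 : ℝ) : ℂ) := by
  simp only [toCJ, dotProduct, Fin.sum_univ_three]
  push_cast
  linear_combination (-(((c 0 1 0 : ℝ) : ℂ) ^ 2 + ((c 0 1 1 : ℝ) : ℂ) ^ 2 +
    ((c 0 1 2 : ℝ) : ℂ) ^ 2) / 4) * Complex.I_sq

theorem ab1_eq (c : ℕ → ℕ → Fin 3 → ℝ) : (toCJ c).A ⬝ᵥ (toCJ c).B1 =
    ((c 1 0 ⬝ᵥ (c 2 0 + c 0 2) / 4 : ℝ) : ℂ) +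
      ((c 0 1 ⬝ᵥ (c 2 0 + c 0 2) / 4 : ℝ) : ℂ) * Complex.I := by
  simp only [toCJ, dotProduct, Fin.sum_univ_three, Pi.add_apply]
  push_cast
  ring

theorem re_im {p q : ℝ} (h : (p : ℂ) + (q : ℂ) * Complex.I = 0) : p = 0 ∧ q = 0 := by
  have h1 := congrArg Complex.re h
  have h2 := congrArg Complex.im h
  simp at h1 h2
  exact ⟨h1, h2⟩

theorem gram {u v : Fin 3 → ℝ} (h : crossProduct u v ≠ 0) :
    (u ⬝ᵥ v) ^ 2 ≠ (u ⬝ᵥ u) * (v ⬝ᵥ v) := by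
  intro h2
  apply h
  have h3 := cross_dot_cross u v u v
  rw [dotProduct_comm v u] at h3
  have h4 : crossProduct u v ⬝ᵥ crossProduct u v = 0 := by
    rw [h3]
    linear_combination -h2
  exact dotProduct_self_eq_zero.mp h4

theorem iso_of {c : ℕ → ℕ → Fin 3 → ℝ} {Θ : Set E2} {ν : E2 → Fin 3 → ℝ} (H : Hex c Θ ν)
    (h0 : (toCJ c).A ⬝ᵥ (toCJ c).A = 0) (h1 : 2 * (toCJ c).A ⬝ᵥ (toCJ c).B = 1)
    (h2 : {τ ∈ toC '' Θ | (fun a => (ν (ofC τ) a : ℂ)) ≠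
      τ • (toCJ c).B + τ⁻¹ • (toCJ c).A}.Finite) : IsoC c Θ ν := by
  rw [aa_eq] at h0
  obtain ⟨e1, e2⟩ := re_im h0
  rw [ab_eq] at h1
  have e3 : 2 * ((c 1 0 ⬝ᵥ c 1 0 + c 0 1 ⬝ᵥ c 0 1) / 4) = 1 := by
    have h3 := congrArg Complex.re h1
    simpa only [Complex.mul_re, Complex.re_ofNat, Complex.im_ofNat, Complex.ofReal_re,
      Complex.ofReal_im, mul_zero, sub_zero, Complex.one_re] using h3
  refine ⟨by linarith, by linarith, by linarith, ?_⟩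
  refine (h2.preimage toC_inj.injOn).subset ?_
  rintro n ⟨hn, hne⟩
  refine ⟨⟨n, hn, rfl⟩, fun h => hne ?_⟩
  rw [← lm_eq c (H.unit n hn), ofC_toC] at h
  funext a
  have h4 := congrFun h a
  simp only [cx] at h4
  exact_mod_cast h4

end Alg

open Alg

theorem sBridge : SBridge := by
  intro c Θ ν H hx
  have key : ∀ n ∈ Θ, (fun a => (ν (ofC (toC n)) a : ℂ)) = cx (ν n) := fun n _ => by
    rw [ofC_toC]
    rfl
  refine ⟨?_, ?_, ?_, ?_, H.inf.image toC_inj.injOn, ?_, ?_, ?_, ?_, ?_, ?_, ?_, ?_⟩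
  · funext a
    apply Complex.ext <;> simp [toCJ]
  · funext a
    apply Complex.ext <;> simp [toCJ]
  · funext a
    apply Complex.ext <;> simp [toCJ]
  · intro h
    apply gram hx
    rw [aa_eq, bb_eq, ab_eq] at h
    have h2 : (((c 1 0 ⬝ᵥ c 0 1) ^ 2 : ℝ) : ℂ) =
        (((c 1 0 ⬝ᵥ c 1 0) * (c 0 1 ⬝ᵥ c 0 1) : ℝ) : ℂ) := by
      push_cast at h ⊢
      linear_combination 4 * h + ((c 1 0 ⬝ᵥ c 0 1 : ℝ) : ℂ) ^ 2 * Complex.I_sq
    exact_mod_cast h2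
  · rintro _ ⟨n, hn, rfl⟩
    exact toC_norm (H.unit n hn)
  · rintro _ ⟨n, hn, rfl⟩
    exact ⟨Rot n, H.rot n hn, (ze_toC n).symm⟩
  · rintro _ ⟨n, hn, rfl⟩
    funext a
    simp
  · rintro _ ⟨n, hn, rfl⟩
    rw [key n hn, p1_eq c (H.unit n hn), dotProduct_smul, cx_dot, (H.eqs n hn).e1]
    simp
  · rintro _ ⟨n, hn, rfl⟩
    have e1 := (H.eqs n hn).e1
    have e2 := (H.eqs n hn).e2
    have e4 : ν n ⬝ᵥ ((1 / 2 : ℝ) • Lm c n + Qm c (Jr n) (Jr n)) =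
        Lm c (Jr n) ⬝ᵥ Lm c (Jr n) / 2 := by
      rw [dotProduct_add, dotProduct_smul, smul_eq_mul]
      linarith
    rw [key n hn, p1_eq c (H.unit n hn), p2_eq c (H.unit n hn)]
    simp only [dotProduct_add, dotProduct_smul, smul_dotProduct, cx_dot, smul_eq_mul, e1, e4]
    push_cast
    linear_combination (-toC n ^ 2 * ((Lm c (Jr n) ⬝ᵥ Lm c (Jr n) : ℝ) : ℂ)) * Complex.I_sq
  · rintro _ ⟨n, hn, rfl⟩
    have e1 := (H.eqs n hn).e1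
    have e2 := (H.eqs n hn).e2
    have e3 := (H.eqs n hn).e3
    have e4 : ν n ⬝ᵥ ((1 / 2 : ℝ) • Lm c n + Qm c (Jr n) (Jr n)) =
        Lm c (Jr n) ⬝ᵥ Lm c (Jr n) / 2 := by
      rw [dotProduct_add, dotProduct_smul, smul_eq_mul]
      linarith
    rw [key n hn, p1_eq c (H.unit n hn), p2_eq c (H.unit n hn), p3_eq c (H.unit n hn)]
    generalize (1 / 2 : ℝ) • Lm c n + Qm c (Jr n) (Jr n) = U at e3 e4 ⊢
    generalize Qm c (Jr n) n + Cm c (Jr n) = W at e3 ⊢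
    simp only [dotProduct_add, dotProduct_sub, dotProduct_smul, smul_dotProduct, cx_dot,
      smul_eq_mul, e1, e3, e4]
    push_cast
    ring
  · rintro _ ⟨n, hn, rfl⟩
    rw [key n hn, cx_dot, H.nrm n hn]
    simp
  · rintro _ ⟨n, hn, rfl⟩
    rw [ze_toC, key n hn, key _ (H.rot n hn), cx_dot, H.hex n hn]
    simp

theorem sAlg (h1 : SBridge) (h2 : SCaseS) (h3 : SLaur) (h4 : SRfin) (h5 : SU0) (h6 : SEndA) :
    SAlg := by
  intro c Θ ν H hx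
  have K := h1 c Θ ν H hx
  constructor
  · rcases h2 _ _ _ K with hR | ⟨a0, a1, u, hu⟩
    · have a0 := h3 _ _ _ K hR
      obtain ⟨b1, b2⟩ := (h6 _ _ _ K a0).2 (h4 _ _ _ K hR a0)
      exact Or.inl (iso_of H a0 b1 b2)
    · right
      have hu0 := h5 _ _ _ K a0 a1 u hu
      rw [hu0, zero_smul] at hu
      have hc : ∀ a, c 2 0 a - c 0 2 a = 0 ∧ c 1 1 a = 0 := fun a => by
        apply re_im
        have h7 := congrFun hu a
        simp only [toCJ, Pi.zero_apply] at h7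
        push_cast
        linear_combination 4 * h7
      have e1 : c 2 0 = c 0 2 := funext fun a => sub_eq_zero.mp (hc a).1
      rw [aa_eq] at a0
      rw [ab1_eq, ← e1, dotProduct_add, dotProduct_add] at a1
      obtain ⟨b1, b2⟩ := re_im a0
      obtain ⟨b3, b4⟩ := re_im a1
      refine ⟨by linarith, by linarith, funext fun a => (hc a).2, e1, ?_, ?_⟩
      · rw [dotProduct_comm]
        linarith
      · rw [dotProduct_comm]
        linarith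
  · rintro ⟨t1, t2, t3, t4, -, -⟩ t5
    have a0 : (toCJ c).A ⬝ᵥ (toCJ c).A = 0 := by
      rw [aa_eq, t1, t2]
      simp
    have a2 : (toCJ c).A2 = 0 := by
      funext a
      simp [toCJ, t3, ← t4]
    have a3 : (toCJ c).B1 = 0 := by
      funext a
      simp [toCJ, ← t4, t5]
    obtain ⟨b0, b1⟩ := h6 _ _ _ K a0
    obtain ⟨b2, b3⟩ := b1 (Set.finite_empty.subset fun τ hτ => hτ.2 (b0 a2 a3 τ hτ.1))
    exact iso_of H a0 b2 b3

end Pool.Agent.MP_66cee2_co.P
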