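import Pool.Agent.MP_66cee2_co.P.Spec
import Pool.Agent.MP_66cee2_co.XT.Main
import Pool.Agent.MP_66cee2_co.XR.All

/-
From the measurable theorem to all maps of the plane into three dimensional space.
-/

namespace Pool.Agent.MP_66cee2_co.P

open MeasureTheory Matrix Pool.Agent.MP_66cee2_co.XT Pool.Agent.MP_66cee2_co.XT.BRA

theorem ms_of (h : SM23) : MS 2 (JM 3) (Pi.single X.sI 1) := by
  intro P hm hp ho
  have hF : X.Field P := by
    refine ⟨hm, ?_, ?_⟩
    · filter_upwards [hp] with x hx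
      rw [quad, trace_eq] at hx
      exact ⟨hx.1, hx.2.2, hx.2.1⟩
    · filter_upwards [ho] with x hx
      filter_upwards [hx] with z hz a b
      rw [← entry, hz]
      rfl
  obtain ⟨g, hg, hP⟩ := h P hF
  refine ⟨_, hP, fun x hx y hy => ?_⟩
  have e : ∀ z, (∀ a b, P z a b = P z X.sI X.sI * X.lift (g z) a * X.lift (g z) b) →
      P z *ᵥ Pi.single X.sI 1 = P z X.sI X.sI • X.lift (g z) := fun z hz => by
    funext a
    have := hz a X.sI
    simpa [X.lift] using this
  rw [quad, quad, e x hx, e y hy, mulVec_smul, smul_dotProduct, dotProduct_smul, lift_JM.ip, hg]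
  simp only [smul_eq_mul]
  ring

theorem allIso_of (h : SM23) : AllIso 2 3 :=
  rowT X.KK 1 3 _ (JM 3) (Pi.single X.sI 1) _ X.kk_le_KK le_rfl
    (fun φ h1 h2 => (X.sRPDAll 1 φ h1 h2).imp fun _ hψ => ⟨hψ.1, fun z hz => hψ.2 z hz.1 hz.2⟩)
    lift_JM (ms_of h)

end Pool.Agent.MP_66cee2_co.P
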