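import Pool.Agent.MP_66cee2_co.P.Spec

/-
Regular families, contact points, and the band of unit circles.
-/

namespace Pool.Agent.MP_66cee2_co.P

open MeasureTheory Set Filter Metric Topology Pool.Agent.MP_66cee2_co.X
open scoped RealInnerProductSpace

namespace CL

theorem idem (S : Set E2) : interior (closure (interior (closure S))) = interior (closure S) :=
  Subset.antisymm (interior_mono (closure_minimal interior_subset isClosed_closure))
    isOpen_interior.subset_interior_closure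

theorem reg (O : E3 → Set E2) (h : Fam O) : Fam fun v => interior (closure (O v)) := by
  refine ⟨fun v => isOpen_interior, h.dense.mono (iUnion_mono fun v =>
    (h.opn v).subset_interior_closure), ?_⟩
  intro v v' y z hy hz hyz
  have o1 : IsOpen {u : E2 | z + (u - y) ∈ interior (closure (O v'))} :=
    isOpen_interior.preimage (by fun_prop)
  obtain ⟨u, hu1, hu2⟩ := _root_.mem_closure_iff.1 (interior_subset hy) _ o1 (by simpa using hz)
  have o2 : IsOpen {w : E2 | y + (w - z) ∈ O v} := (h.opn v).preimage (by fun_prop)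
  obtain ⟨w, hw1, hw2⟩ := _root_.mem_closure_iff.1 (interior_subset hu1) _ o2 (by simpa using hu2)
  refine h.unit v v' _ _ hw1 hw2 ?_
  rw [← hyz]
  exact congrArg norm (by abel)

theorem contact (O : E3 → Set E2) (h : Fam O) (hr : ∀ v, interior (closure (O v)) = O v)
    (G : Set E2) (hG : IsOpen G) (hc : IsPreconnected G) (hp : ∃ y ∈ G, ∃ z ∈ G, ‖y - z‖ = 1) :
    ∃ (q : E3) (c e : E2) (ρ : ℝ), 0 < ρ ∧ ‖e‖ = 1 ∧ ball c ρ ⊆ O q ∧ c ∈ G ∧ c + ρ • e ∈ G ∧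
      ∀ δ : ℝ, 0 < δ → ∃ (q' : E3) (ζ : E2), q' ≠ q ∧ ζ ∈ O q' ∧ ‖ζ - (c + ρ • e)‖ < δ := by
  obtain ⟨y, hy, z, hz, hyz⟩ := hp
  obtain ⟨x, hxG, hx⟩ := h.dense.inter_open_nonempty G hG ⟨y, hy⟩
  obtain ⟨q, hq⟩ := mem_iUnion.1 hx
  have hn : ¬ G ⊆ O q := fun hs => by
    have := h.unit q q y z (hs hy) (hs hz) hyz
    simp at this
  obtain ⟨a, haG, ha1, ha2⟩ : ∃ a ∈ G, a ∈ closure (O q) ∧ a ∉ O q := by
    by_contra hh
    push Not at hh
    refine hn (hc.subset_left_of_subset_union (h.opn q) isClosed_closure.isOpen_compl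
      (disjoint_compl_right.mono_left subset_closure) (fun a ha => ?_) ⟨x, hxG, hq⟩)
    by_cases h1 : a ∈ closure (O q)
    · exact Or.inl (hh a ha h1)
    · exact Or.inr h1
  obtain ⟨ε, hε, hb⟩ := Metric.isOpen_iff.1 hG a haG
  obtain ⟨c, hcO, hca⟩ := Metric.mem_closure_iff.1 ha1 (ε / 3) (by positivity)
  have hcl : IsClosed (O q)ᶜ := (h.opn q).isClosed_compl
  have hne : ((O q)ᶜ).Nonempty := ⟨a, ha2⟩
  obtain ⟨p, hpO, hpd⟩ := hcl.exists_infDist_eq_dist hne c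
  have hρ : 0 < infDist c (O q)ᶜ := (hcl.notMem_iff_infDist_pos hne).1 (fun hh => hh hcO)
  have hle : infDist c (O q)ᶜ ≤ dist c a := infDist_le_dist_of_mem ha2
  set ρ := infDist c (O q)ᶜ with hρd
  have hn' : ‖p - c‖ = ρ := by rw [hpd, dist_comm, dist_eq_norm]
  have hpe : c + ρ • (ρ⁻¹ • (p - c)) = p := by
    rw [smul_smul, mul_inv_cancel₀ hρ.ne', one_smul]; abel
  have hca' : dist c a < ε / 3 := by rwa [dist_comm]
  refine ⟨q, c, ρ⁻¹ • (p - c), ρ, hρ, ?_, ?_, hb (by rw [mem_ball]; linarith), ?_, ?_⟩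
  · rw [norm_smul, hn', norm_inv, Real.norm_of_nonneg hρ.le, inv_mul_cancel₀ hρ.ne']
  · simpa using ball_infDist_subset_compl (x := c) (s := (O q)ᶜ)
  · rw [hpe]
    refine hb ?_
    have := dist_triangle p c a
    rw [dist_comm p c, ← hpd] at this
    rw [mem_ball]; linarith
  · intro δ hδ
    rw [hpe]
    have h1 : ¬ ball p δ ⊆ closure (O q) := fun hs =>
      hpO (hr q ▸ (interior_maximal hs isOpen_ball (mem_ball_self hδ)))
    obtain ⟨b, hb1, hb2⟩ := not_subset.1 h1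
    obtain ⟨ζ, ⟨hζ1, hζ2⟩, hζ⟩ := h.dense.inter_open_nonempty (ball p δ ∩ (closure (O q))ᶜ)
      (isOpen_ball.inter isClosed_closure.isOpen_compl) ⟨b, hb1, hb2⟩
    obtain ⟨q', hq'⟩ := mem_iUnion.1 hζ
    refine ⟨q', ζ, fun e => hζ2 (subset_closure (e ▸ hq')), hq', ?_⟩
    rwa [mem_ball, dist_eq_norm] at hζ1

theorem no_open (S : Set E2) (hS : IsOpen S) : IsOpen (No S) := by
  refine isOpen_iff_forall_mem_open.2 fun y hy => ?_
  obtain ⟨w, hw, hyw⟩ := hy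
  refine ⟨{u : E2 | w + (u - y) ∈ S}, fun u hu => ⟨_, hu, ?_⟩, hS.preimage (by fun_prop),
    by simpa using hw⟩
  rw [← hyw]
  exact congrArg norm (by abel)

theorem mem_no (c p n : E2) (ρ : ℝ) (hn : ‖n‖ = 1) (h1 : 1 - ρ < ‖p - c‖) (h2 : ‖p - c‖ < 1 + ρ) :
    p ∈ No (ball c ρ) := by
  by_cases hp : p - c = 0
  · have e : p = c := sub_eq_zero.1 hp
    rw [hp, norm_zero] at h1
    refine ⟨c - n, ?_, ?_⟩
    · rw [mem_ball, dist_eq_norm, sub_sub_cancel_left, norm_neg, hn]; linarith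
    · rw [e, sub_sub_cancel, hn]
  · have ht : 0 < ‖p - c‖ := norm_pos_iff.2 hp
    set t := ‖p - c‖ with htd
    refine ⟨p - t⁻¹ • (p - c), ?_, ?_⟩
    · have e : p - t⁻¹ • (p - c) - c = (1 - t⁻¹) • (p - c) := by
        rw [sub_smul, one_smul]; abel
      rw [mem_ball, dist_eq_norm, e, norm_smul, ← htd, Real.norm_eq_abs, ← abs_of_pos ht,
        ← abs_mul, abs_of_pos ht, sub_mul, inv_mul_cancel₀ ht.ne', one_mul, abs_lt]
      constructor <;> linarith
    · rw [sub_sub_cancel, norm_smul, norm_inv, Real.norm_of_nonneg ht.le, ← htd,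
        inv_mul_cancel₀ ht.ne']

theorem band (c e : E2) (ρ β : ℝ) (hρ : 0 < ρ) (he : ‖e‖ = 1) (hβ : β < 1) :
    ∃ δ : ℝ, 0 < δ ∧ ∀ ζ n : E2, ‖ζ - (c + ρ • e)‖ < δ → ‖n‖ = 1 → |⟪n, e⟫| ≤ β →
      ζ + n ∈ No (ball c ρ) := by
  have h1 : 0 < 1 - β := by linarith
  set m := ρ * (1 - β) / (1 + ρ) with hm
  have hm0 : 0 < m := by positivity
  have hmm : m * (1 + ρ) = ρ * (1 - β) := div_mul_cancel₀ _ (by positivity)
  refine ⟨m, hm0, fun ζ n hζ hn hne => ?_⟩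
  have hβ0 : 0 ≤ β := (abs_nonneg _).trans hne
  have hmρ : m ≤ ρ := by nlinarith
  have hsq : ‖n + ρ • e‖ ^ 2 = 1 + 2 * (ρ * ⟪n, e⟫) + ρ ^ 2 := by
    rw [norm_add_sq_real, hn, real_inner_smul_right, norm_smul, he, Real.norm_of_nonneg hρ.le]
    ring
  obtain ⟨l1, l2⟩ := abs_le.1 hne
  have u1 := mul_le_mul_of_nonneg_left l1 hρ.le
  have u2 := mul_le_mul_of_nonneg_left l2 hρ.le
  have hup : ‖n + ρ • e‖ ≤ 1 + ρ - m :=
    abs_le_of_sq_le_sq' (by nlinarith) (by linarith) |>.2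
  have hlo : 1 - ρ + m ≤ ‖n + ρ • e‖ :=
    abs_le_of_sq_le_sq' (by nlinarith) (norm_nonneg _) |>.2
  have e1 : ζ + n - c = (n + ρ • e) + (ζ - (c + ρ • e)) := by abel
  have t1 := norm_add_le (n + ρ • e) (ζ - (c + ρ • e))
  have t2 := norm_sub_le (ζ + n - c) (ζ - (c + ρ • e))
  have e2 : ζ + n - c - (ζ - (c + ρ • e)) = n + ρ • e := by abel
  rw [← e1] at t1
  rw [e2] at t2
  exact mem_no c _ n ρ hn (by linarith) (by linarith)

end CL

theorem sCL : SCL :=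
  ⟨fun O h => ⟨_, CL.reg O h, fun v => CL.idem (O v)⟩, CL.contact⟩

theorem sBand : SBand := ⟨CL.no_open, CL.band⟩

end Pool.Agent.MP_66cee2_co.P
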