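import Pool.Agent.MP_66cee2_co.P.Spec

/-
The dichotomy for the data on the unit circle.
-/

namespace Pool.Agent.MP_66cee2_co.P

open Matrix Polynomial

namespace CaseS

/-- polynomial functions. -/
def IsP (f : ℂ → ℂ) : Prop := ∃ P : ℂ[X], ∀ τ, P.eval τ = f τ

/-- vectors of polynomial functions. -/
def IsV (f : ℂ → Fin 3 → ℂ) : Prop := ∀ a, IsP fun τ => f τ a

theorem IsP.add {f g : ℂ → ℂ} (hf : IsP f) (hg : IsP g) : IsP fun τ => f τ + g τ := by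
  obtain ⟨P, hP⟩ := hf
  obtain ⟨Q, hQ⟩ := hg
  exact ⟨P + Q, fun τ => by rw [eval_add, hP, hQ]⟩

theorem IsP.sub {f g : ℂ → ℂ} (hf : IsP f) (hg : IsP g) : IsP fun τ => f τ - g τ := by
  obtain ⟨P, hP⟩ := hf
  obtain ⟨Q, hQ⟩ := hg
  exact ⟨P - Q, fun τ => by rw [eval_sub, hP, hQ]⟩

theorem IsP.mul {f g : ℂ → ℂ} (hf : IsP f) (hg : IsP g) : IsP fun τ => f τ * g τ := by
  obtain ⟨P, hP⟩ := hf
  obtain ⟨Q, hQ⟩ := hg
  exact ⟨P * Q, fun τ => by rw [eval_mul, hP, hQ]⟩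

theorem cst (c : ℂ) : IsP fun _ => c := ⟨C c, fun _ => eval_C⟩

theorem pw (n : ℕ) : IsP fun τ => τ ^ n := ⟨X ^ n, fun τ => by rw [eval_pow, eval_X]⟩

theorem IsP.zero {f : ℂ → ℂ} (hf : IsP f) {Θ : Set ℂ} (hΘ : Θ.Infinite) (h : ∀ τ ∈ Θ, f τ = 0)
    (τ : ℂ) : f τ = 0 := by
  obtain ⟨P, hP⟩ := hf
  have : P = 0 := P.eq_zero_of_infinite_isRoot (hΘ.mono fun x hx => by
    show P.eval x = 0
    rw [hP, h x hx])
  rw [← hP, this, eval_zero]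

theorem cstV (v : Fin 3 → ℂ) : IsV fun _ => v := fun a => cst (v a)

theorem IsV.add {f g : ℂ → Fin 3 → ℂ} (hf : IsV f) (hg : IsV g) : IsV fun τ => f τ + g τ :=
  fun a => (hf a).add (hg a)

theorem IsV.sub {f g : ℂ → Fin 3 → ℂ} (hf : IsV f) (hg : IsV g) : IsV fun τ => f τ - g τ :=
  fun a => (hf a).sub (hg a)

theorem IsV.smul {c : ℂ → ℂ} {g : ℂ → Fin 3 → ℂ} (hc : IsP c) (hg : IsV g) :
    IsV fun τ => c τ • g τ := fun a => hc.mul (hg a)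

theorem IsV.dot {f g : ℂ → Fin 3 → ℂ} (hf : IsV f) (hg : IsV g) : IsP fun τ => f τ ⬝ᵥ g τ := by
  have h := (((hf 0).mul (hg 0)).add ((hf 1).mul (hg 1))).add ((hf 2).mul (hg 2))
  obtain ⟨P, hP⟩ := h
  exact ⟨P, fun τ => by rw [hP]; simp only [dotProduct, Fin.sum_univ_three]⟩

theorem IsV.cross {f g : ℂ → Fin 3 → ℂ} (hf : IsV f) (hg : IsV g) :
    IsV fun τ => crossProduct (f τ) (g τ) := by
  intro a
  fin_cases a
  · obtain ⟨P, hP⟩ := ((hf 1).mul (hg 2)).sub ((hf 2).mul (hg 1))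
    exact ⟨P, fun τ => by rw [hP]; simp [cross_apply]⟩
  · obtain ⟨P, hP⟩ := ((hf 2).mul (hg 0)).sub ((hf 0).mul (hg 2))
    exact ⟨P, fun τ => by rw [hP]; simp [cross_apply]⟩
  · obtain ⟨P, hP⟩ := ((hf 0).mul (hg 1)).sub ((hf 1).mul (hg 0))
    exact ⟨P, fun τ => by rw [hP]; simp [cross_apply]⟩

theorem v1 (K : CJ) : IsV K.p1 := (cstV _).sub (IsV.smul (pw 2) (cstV _))

theorem v2 (K : CJ) : IsV K.p2 :=
  (((cstV _).sub (IsV.smul (pw 2) (cstV _))).add (IsV.smul (pw 4) (cstV _))).sub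
    (IsV.smul (pw 3) (cstV _))

theorem v3 (K : CJ) : IsV K.p3 :=
  ((((((cstV _).sub (IsV.smul (pw 2) (cstV _))).add (IsV.smul (pw 4) (cstV _))).sub
    (IsV.smul (pw 6) (cstV _))).sub (IsV.smul (pw 4) (cstV _))).sub
    (IsV.smul (pw 3) (cstV _))).add (IsV.smul ((cst 2).mul (pw 5)) (cstV _))

/-- the numerator in the rule of Cramer. -/
noncomputable def V (p q r : Fin 3 → ℂ) : Fin 3 → ℂ :=
  ((p ⬝ᵥ p) * (1 / 2)) • crossProduct r p + (p ⬝ᵥ q) • crossProduct p q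

theorem cramer (p q r ν : Fin 3 → ℂ) (e1 : ν ⬝ᵥ p = 0) (e2 : 2 * ν ⬝ᵥ q = p ⬝ᵥ p)
    (e3 : ν ⬝ᵥ r = p ⬝ᵥ q) (a : Fin 3) : (p ⬝ᵥ crossProduct q r) * ν a = V p q r a := by
  unfold V
  rw [← e2, ← e3]
  simp only [dotProduct, Fin.sum_univ_three] at e1
  fin_cases a <;> simp [cross_apply, dotProduct, Fin.sum_univ_three]
  · linear_combination (q 1 * r 2 - q 2 * r 1) * e1
  · linear_combination (q 2 * r 0 - q 0 * r 2) * e1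
  · linear_combination (q 0 * r 1 - q 1 * r 0) * e1

theorem comp {x : Fin 3 → ℂ} (h : x = 0) : x 0 = 0 ∧ x 1 = 0 ∧ x 2 = 0 := by
  subst h; exact ⟨rfl, rfl, rfl⟩

/-- an isotropic vector. -/
theorem iso (k q r : Fin 3 → ℂ) (hk : k ⬝ᵥ k = 0) (h : V k q r = 0) : k ⬝ᵥ q = 0 := by
  unfold V at h
  rw [hk, zero_mul, zero_smul, zero_add] at h
  by_contra hne
  have h' : crossProduct k q = 0 := (smul_eq_zero.mp h).resolve_left hne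
  obtain ⟨h0, h1, h2⟩ := comp h'
  simp [cross_apply] at h0 h1 h2
  simp only [dotProduct, Fin.sum_univ_three] at hk hne
  have : (k 0 * q 0 + k 1 * q 1 + k 2 * q 2) ^ 2 = 0 := by
    linear_combination (q 0 * q 0 + q 1 * q 1 + q 2 * q 2) * hk - (k 1 * q 2 - k 2 * q 1) * h0 -
      (k 2 * q 0 - k 0 * q 2) * h1 - (k 0 * q 1 - k 1 * q 0) * h2
  exact hne (pow_eq_zero_iff (two_ne_zero) |>.mp this)

theorem step1 (K : CJ) (hB : K.B = star K.A)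
    (rk : (K.A ⬝ᵥ K.A) * (K.B ⬝ᵥ K.B) ≠ (K.A ⬝ᵥ K.B) ^ 2)
    (hV : ∀ τ, V (K.p1 τ) (K.p2 τ) (K.p3 τ) = 0) : K.A ⬝ᵥ K.A = 0 ∧ K.B ⬝ᵥ K.B = 0 := by
  have hb : K.B ⬝ᵥ K.B = star (K.A ⬝ᵥ K.A) := by
    rw [hB]; simp [dotProduct, Fin.sum_univ_three]
  suffices h : K.A ⬝ᵥ K.A = 0 from ⟨h, by rw [hb, h, star_zero]⟩
  by_contra ha
  have hb0 : K.B ⬝ᵥ K.B ≠ 0 := by rw [hb]; exact star_ne_zero.mpr ha
  obtain ⟨s, hs⟩ := IsAlgClosed.exists_eq_mul_self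
    ((K.A ⬝ᵥ K.B) ^ 2 - (K.A ⬝ᵥ K.A) * (K.B ⬝ᵥ K.B))
  obtain ⟨τ, hτ⟩ := IsAlgClosed.exists_eq_mul_self ((K.A ⬝ᵥ K.B + s) / (K.B ⬝ᵥ K.B))
  have hT : τ ^ 2 * (K.B ⬝ᵥ K.B) = K.A ⬝ᵥ K.B + s := by
    rw [pow_two, ← hτ]; field_simp
  have hq : K.A ⬝ᵥ K.A - 2 * τ ^ 2 * (K.A ⬝ᵥ K.B) + τ ^ 4 * (K.B ⬝ᵥ K.B) = 0 := by
    apply mul_left_cancel₀ hb0
    linear_combination (τ ^ 2 * (K.B ⬝ᵥ K.B) - K.A ⬝ᵥ K.B + s) * hT - hs
  have hτ0 : τ ≠ 0 := by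
    rintro rfl
    apply ha
    linear_combination hq
  have hk : K.p1 τ ⬝ᵥ K.p1 τ = 0 := by
    simp only [dotProduct, Fin.sum_univ_three, CJ.p1, Pi.sub_apply, Pi.smul_apply,
      smul_eq_mul] at hq ⊢
    linear_combination hq
  have hm : K.p1 (-τ) = K.p1 τ := by simp [CJ.p1]
  have h1 := iso _ _ _ hk (hV τ)
  have h2 := iso _ _ _ (by rw [hm]; exact hk) (hV (-τ))
  rw [hm] at h2
  have h3 : K.A ⬝ᵥ K.B - τ ^ 2 * (K.B ⬝ᵥ K.B) = 0 := by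
    apply mul_left_cancel₀ (pow_ne_zero 3 hτ0)
    simp only [dotProduct, Fin.sum_univ_three, CJ.p1, CJ.p2, Pi.sub_apply, Pi.add_apply,
      Pi.smul_apply, smul_eq_mul] at h1 h2 ⊢
    linear_combination (1 / 2 : ℂ) * h2 - (1 / 2 : ℂ) * h1
  apply rk
  linear_combination (K.B ⬝ᵥ K.B) * hq - (K.A ⬝ᵥ K.B - τ ^ 2 * (K.B ⬝ᵥ K.B)) * h3

/-- the odd part. -/
theorem odd (k E F G B : Fin 3 → ℂ) (t : ℂ) (ht : t ≠ 0)
    (h1 : V k (E - t • B) (F + t • G) = 0) (h2 : V k (E - (-t) • B) (F + (-t) • G) = 0) :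
    ((k ⬝ᵥ k) * (1 / 2)) • crossProduct G k - (k ⬝ᵥ B) • crossProduct k E -
      (k ⬝ᵥ E) • crossProduct k B = 0 := by
  obtain ⟨a0, a1, a2⟩ := comp h1
  obtain ⟨b0, b1, b2⟩ := comp h2
  simp [V, cross_apply, dotProduct, Fin.sum_univ_three] at a0 a1 a2 b0 b1 b2
  funext a
  apply mul_left_cancel₀ ht
  fin_cases a <;> simp [cross_apply, dotProduct, Fin.sum_univ_three, -mul_eq_zero]
  · linear_combination (1 / 2 : ℂ) * a0 - (1 / 2 : ℂ) * b0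
  · linear_combination (1 / 2 : ℂ) * a1 - (1 / 2 : ℂ) * b1
  · linear_combination (1 / 2 : ℂ) * a2 - (1 / 2 : ℂ) * b2

theorem at0 {f : ℂ → Fin 3 → ℂ} (hf : IsV f) (h : ∀ T, T ≠ 0 → f T = 0) : f 0 = 0 := by
  funext a
  exact (hf a).zero (Θ := {0}ᶜ) (Set.Finite.infinite_compl (Set.finite_singleton _))
    (fun T hT => by rw [h T hT]; rfl) 0

theorem idp : IsP fun τ => τ := ⟨X, fun _ => eval_X⟩

/-- the odd part as a function of the square of the variable. -/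
noncomputable def W (A B A2 B1 C0 : Fin 3 → ℂ) (T : ℂ) : Fin 3 → ℂ :=
  (((A - T • B) ⬝ᵥ (A - T • B)) * (1 / 2)) • crossProduct ((2 * T) • C0 - B1) (A - T • B) -
    ((A - T • B) ⬝ᵥ B) • crossProduct (A - T • B) (A2 - T • B1 + T ^ 2 • C0) -
    ((A - T • B) ⬝ᵥ (A2 - T • B1 + T ^ 2 • C0)) • crossProduct (A - T • B) B

theorem vW (A B A2 B1 C0 : Fin 3 → ℂ) : IsV (W A B A2 B1 C0) := by
  have hk : IsV fun T => A - T • B := (cstV _).sub (IsV.smul idp (cstV _))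
  have hE : IsV fun T => A2 - T • B1 + T ^ 2 • C0 :=
    ((cstV _).sub (IsV.smul idp (cstV _))).add (IsV.smul (pw 2) (cstV _))
  have hG : IsV fun T => (2 * T) • C0 - B1 :=
    (IsV.smul ((cst 2).mul idp) (cstV _)).sub (cstV _)
  exact ((IsV.smul ((hk.dot hk).mul (cst _)) (hG.cross hk)).sub
    (IsV.smul (hk.dot (cstV _)) (hk.cross hE))).sub (IsV.smul (hk.dot hE) (hk.cross (cstV _)))

theorem W_zero (K : CJ) (hV : ∀ τ, V (K.p1 τ) (K.p2 τ) (K.p3 τ) = 0) (T : ℂ) (hT : T ≠ 0) :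
    W K.A K.B K.A2 K.B1 K.C0 T = 0 := by
  obtain ⟨τ, rfl⟩ := IsAlgClosed.exists_eq_mul_self T
  have hτ : τ ≠ 0 := left_ne_zero_of_mul hT
  refine odd (K.A - (τ * τ) • K.B) (K.A2 - (τ * τ) • K.B1 + (τ * τ) ^ 2 • K.C0)
    (K.A3 - τ ^ 2 • K.B2 + τ ^ 4 • K.C1 - τ ^ 6 • K.D0 - τ ^ 4 • K.B)
    ((2 * (τ * τ)) • K.C0 - K.B1) K.B (τ ^ 3) (pow_ne_zero 3 hτ) ?_ ?_
  · rw [← hV τ]
    congr 1
    · funext a; simp only [CJ.p1, Pi.sub_apply, Pi.smul_apply, smul_eq_mul]; ring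
    · funext a; simp [CJ.p2]; ring
    · funext a; simp [CJ.p3]; ring
  · rw [← hV (-τ)]
    congr 1
    · funext a; simp only [CJ.p1, Pi.sub_apply, Pi.smul_apply, smul_eq_mul]; ring
    · funext a; simp [CJ.p2]; ring
    · funext a; simp [CJ.p3]; ring

theorem ord0 (A B A2 B1 C0 : Fin 3 → ℂ) (ha : A ⬝ᵥ A = 0) (hg : A ⬝ᵥ B ≠ 0)
    (h : W A B A2 B1 C0 0 = 0) : ∃ u : ℂ, A2 = u • A := by
  unfold W at h
  simp only [zero_smul, sub_zero, ha, zero_mul, mul_zero, ne_eq, OfNat.ofNat_ne_zero,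
    not_false_eq_true, zero_pow, add_zero, zero_sub] at h
  obtain ⟨h0, h1, h2⟩ := comp h
  simp [cross_apply, dotProduct, Fin.sum_univ_three] at h0 h1 h2
  have hA : A ⬝ᵥ A2 = 0 := by
    apply mul_left_cancel₀ (pow_ne_zero 2 hg)
    simp only [dotProduct, Fin.sum_univ_three] at ha ⊢
    linear_combination (1 / 2 : ℂ) * ((A 1 * B 2 - A 2 * B 1) * h0 + (A 2 * B 0 - A 0 * B 2) * h1 +
      (A 0 * B 1 - A 1 * B 0) * h2) + (1 / 2 : ℂ) *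
      ((A 0 * B 0 + A 1 * B 1 + A 2 * B 2) * (A2 0 * B 0 + A2 1 * B 1 + A2 2 * B 2) +
        (A 0 * A2 0 + A 1 * A2 1 + A 2 * A2 2) * (B 0 * B 0 + B 1 * B 1 + B 2 * B 2)) * ha
  refine ⟨(B ⬝ᵥ A2) / (A ⬝ᵥ B), ?_⟩
  funext a
  simp only [Pi.smul_apply, smul_eq_mul]
  rw [div_mul_eq_mul_div, eq_div_iff hg]
  apply mul_left_cancel₀ hg
  simp only [dotProduct, Fin.sum_univ_three] at hA ⊢
  fin_cases a <;> simp only [Fin.zero_eta, Fin.mk_one, Fin.reduceFinMk]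
  · linear_combination (B 1) * h2 - (B 2) * h1 +
      (B 1 * (A 0 * B 1 - A 1 * B 0) - B 2 * (A 2 * B 0 - A 0 * B 2)) * hA
  · linear_combination (B 2) * h0 - (B 0) * h2 +
      (B 2 * (A 1 * B 2 - A 2 * B 1) - B 0 * (A 0 * B 1 - A 1 * B 0)) * hA
  · linear_combination (B 0) * h1 - (B 1) * h0 +
      (B 0 * (A 2 * B 0 - A 0 * B 2) - B 1 * (A 1 * B 2 - A 2 * B 1)) * hA

/-- the quotient by the variable. -/
noncomputable def R (A B B1 C0 : Fin 3 → ℂ) (u T : ℂ) : Fin 3 → ℂ :=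
  (-(A ⬝ᵥ B)) • crossProduct ((2 * T) • C0 - B1) (A - T • B) -
    (A ⬝ᵥ B) • (u • crossProduct A B - crossProduct A B1 +
      T • (crossProduct A C0 + crossProduct B B1) - T ^ 2 • crossProduct B C0) -
    (-(A ⬝ᵥ B1) - u * (A ⬝ᵥ B) + T * (A ⬝ᵥ C0 + B ⬝ᵥ B1) - T ^ 2 * (B ⬝ᵥ C0)) • crossProduct A B

theorem vR (A B B1 C0 : Fin 3 → ℂ) (u : ℂ) : IsV (R A B B1 C0 u) := by
  have hk : IsV fun T => A - T • B := (cstV _).sub (IsV.smul idp (cstV _))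
  have hG : IsV fun T => (2 * T) • C0 - B1 :=
    (IsV.smul ((cst 2).mul idp) (cstV _)).sub (cstV _)
  exact ((IsV.smul (cst _) (hG.cross hk)).sub (IsV.smul (cst _)
    (((cstV _).add (IsV.smul idp (cstV _))).sub (IsV.smul (pw 2) (cstV _))))).sub
    (IsV.smul (((cst _).add (idp.mul (cst _))).sub ((pw 2).mul (cst _))) (cstV _))

theorem WR (A B B1 C0 : Fin 3 → ℂ) (u T : ℂ) (ha : A ⬝ᵥ A = 0) (hb : B ⬝ᵥ B = 0) :
    W A B (u • A) B1 C0 T = T • R A B B1 C0 u T := by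
  have e1 : ((A - T • B) ⬝ᵥ (A - T • B)) * (1 / 2) = T * -(A ⬝ᵥ B) := by
    simp only [dotProduct, Fin.sum_univ_three, Pi.sub_apply, Pi.smul_apply, smul_eq_mul] at *
    linear_combination (1 / 2 : ℂ) * ha + (T ^ 2 / 2) * hb
  have e2 : (A - T • B) ⬝ᵥ B = A ⬝ᵥ B := by
    simp only [dotProduct, Fin.sum_univ_three, Pi.sub_apply, Pi.smul_apply, smul_eq_mul] at *
    linear_combination (-T) * hb
  have e3 : (A - T • B) ⬝ᵥ (u • A - T • B1 + T ^ 2 • C0) =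
      T * (-(A ⬝ᵥ B1) - u * (A ⬝ᵥ B) + T * (A ⬝ᵥ C0 + B ⬝ᵥ B1) - T ^ 2 * (B ⬝ᵥ C0)) := by
    simp only [dotProduct, Fin.sum_univ_three, Pi.sub_apply, Pi.add_apply, Pi.smul_apply,
      smul_eq_mul] at *
    linear_combination u * ha
  unfold W R
  rw [e1, e2, e3]
  generalize A ⬝ᵥ B = g
  generalize -(A ⬝ᵥ B1) - u * g + T * (A ⬝ᵥ C0 + B ⬝ᵥ B1) - T ^ 2 * (B ⬝ᵥ C0) = e
  funext a
  fin_cases a <;> simp [cross_apply] <;> ring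

theorem ord1 (A B B1 C0 : Fin 3 → ℂ) (u : ℂ) (ha : A ⬝ᵥ A = 0) (hg : A ⬝ᵥ B ≠ 0)
    (h : R A B B1 C0 u 0 = 0) : A ⬝ᵥ B1 = 0 := by
  unfold R at h
  obtain ⟨h0, h1, h2⟩ := comp h
  simp [cross_apply, dotProduct, Fin.sum_univ_three] at h0 h1 h2
  apply mul_left_cancel₀ (pow_ne_zero 2 hg)
  simp only [dotProduct, Fin.sum_univ_three] at ha ⊢
  linear_combination -((A 1 * B 2 - A 2 * B 1) * h0 + (A 2 * B 0 - A 0 * B 2) * h1 +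
    (A 0 * B 1 - A 1 * B 0) * h2) +
    (A 0 * B1 0 + A 1 * B1 1 + A 2 * B1 2) * (B 0 * B 0 + B 1 * B 1 + B 2 * B 2) * ha

end CaseS

open CaseS in
theorem sCaseS : SCaseS := by
  intro K Θ ν H
  obtain ⟨D, hD⟩ := (v1 K).dot ((v2 K).cross (v3 K))
  have hN : IsV fun τ => V (K.p1 τ) (K.p2 τ) (K.p3 τ) :=
    (IsV.smul (((v1 K).dot (v1 K)).mul (cst _)) ((v3 K).cross (v1 K))).add
      (IsV.smul ((v1 K).dot (v2 K)) ((v1 K).cross (v2 K)))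
  have hc : ∀ τ ∈ Θ, ∀ a, D.eval τ * ν τ a = V (K.p1 τ) (K.p2 τ) (K.p3 τ) a := fun τ hτ a => by
    rw [hD]
    exact cramer _ _ _ _ (H.e1 τ hτ) (H.e2 τ hτ) (H.e3 τ hτ) a
  by_cases h0 : D = 0
  · right
    have hV : ∀ τ, V (K.p1 τ) (K.p2 τ) (K.p3 τ) = 0 := fun τ => funext fun a =>
      (hN a).zero H.inf (fun σ hσ => (hc σ hσ a).symm.trans (by
        rw [h0, eval_zero, zero_mul])) τ
    obtain ⟨ha, hb⟩ := step1 K H.hB H.rk hV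
    have hg : K.A ⬝ᵥ K.B ≠ 0 := fun h => H.rk (by rw [ha, h]; ring)
    have hW := W_zero K hV
    obtain ⟨u, hu⟩ := ord0 _ _ _ _ _ ha hg (at0 (vW _ _ _ _ _) hW)
    refine ⟨ha, ord1 _ _ _ K.C0 u ha hg (at0 (vR _ _ _ _ _) fun T hT => ?_), u, hu⟩
    have := hW T hT
    rw [hu, WR _ _ _ _ _ _ ha hb] at this
    exact (smul_eq_zero.mp this).resolve_left hT
  · left
    choose N hN using hN
    exact ⟨D, N, h0, fun τ hτ a => by rw [hc τ hτ a, hN]⟩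

end Pool.Agent.MP_66cee2_co.P
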