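import Pool.Agent.MP_66cee2_co.P.Spec

/-
A chord of a small disc on a unit circle.
-/

namespace Pool.Agent.MP_66cee2_co.P

open scoped RealInnerProductSpace

namespace Chord

theorem nsq (v : E2) : ‖v‖ ^ 2 = v 0 ^ 2 + v 1 ^ 2 := by
  rw [EuclideanSpace.norm_sq_eq]
  simp [Fin.sum_univ_two]

theorem inn (n v : E2) : ⟪n, v⟫ = n 0 * v 0 + n 1 * v 1 := by
  simp [PiLp.inner_apply, Fin.sum_univ_two, mul_comm]

theorem unit {n : E2} (hn : ‖n‖ = 1) : n 0 ^ 2 + n 1 ^ 2 = 1 := by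
  rw [← nsq, hn]; norm_num

theorem det_le {n : E2} (hn : ‖n‖ = 1) (v : E2) : |det2 n v| ≤ ‖v‖ := by
  refine abs_le_of_sq_le_sq ?_ (norm_nonneg v)
  have h := unit hn
  have h2 : ‖v‖ ^ 2 = (n 0 ^ 2 + n 1 ^ 2) * (v 0 ^ 2 + v 1 ^ 2) := by rw [h, one_mul, nsq]
  rw [h2, det2]
  nlinarith [sq_nonneg (n 0 * v 0 + n 1 * v 1)]

theorem comb0 (n : E2) (x y : ℝ) : (x • n + y • Jr n) 0 = x * n 0 - y * n 1 := by
  simp [Jr]; ring

theorem comb1 (n : E2) (x y : ℝ) : (x • n + y • Jr n) 1 = x * n 1 + y * n 0 := by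
  simp [Jr]

theorem comb_sq {n : E2} (hn : ‖n‖ = 1) (x y : ℝ) : ‖x • n + y • Jr n‖ ^ 2 = x ^ 2 + y ^ 2 := by
  have h := unit hn
  rw [nsq, comb0, comb1]
  linear_combination (x ^ 2 + y ^ 2) * h

theorem comb_le {n : E2} (hn : ‖n‖ = 1) (x y : ℝ) : ‖x • n + y • Jr n‖ ≤ |x| + |y| := by
  refine le_of_sq_le_sq ?_ (by positivity)
  rw [comb_sq hn]
  nlinarith [sq_abs x, sq_abs y, mul_nonneg (abs_nonneg x) (abs_nonneg y)]

theorem comb_det {n : E2} (hn : ‖n‖ = 1) (x y : ℝ) : det2 n (x • n + y • Jr n) = y := by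
  have h := unit hn
  rw [det2, comb0, comb1]
  linear_combination y * h

theorem decomp {n : E2} (hn : ‖n‖ = 1) (v : E2) : v = ⟪n, v⟫ • n + det2 n v • Jr n := by
  have h := unit hn
  ext i
  fin_cases i
  · show v 0 = (⟪n, v⟫ • n + det2 n v • Jr n) 0
    rw [comb0, inn, det2]
    linear_combination (-v 0) * h
  · show v 1 = (⟪n, v⟫ • n + det2 n v • Jr n) 1
    rw [comb1, inn, det2]
    linear_combination (-v 1) * h

theorem det_split (n b v : E2) : det2 n v = det2 n b + det2 n (v - b) := by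
  simp [det2]; ring

theorem pick {r e l : ℝ} (he : 0 ≤ e) (hel : e ≤ l) (hr : |r| ≤ l) :
    ∃ s : ℝ, e ≤ |s| ∧ |s| ≤ l ∧ |r + s| ≤ 2 * e := by
  by_cases h : e ≤ |r|
  · refine ⟨-r, by rwa [abs_neg], by rwa [abs_neg], ?_⟩
    rw [add_neg_cancel, abs_zero]
    linarith
  · refine ⟨e, le_abs_self e, by rwa [abs_of_nonneg he], ?_⟩
    have h1 := abs_add_le r e
    rw [abs_of_nonneg he] at h1
    linarith [not_le.1 h]

theorem root_le {s : ℝ} (hs : s ^ 2 ≤ 1) : |1 - √(1 - s ^ 2)| ≤ s ^ 2 := by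
  have h0 : 0 ≤ 1 - s ^ 2 := by linarith
  have h1 := Real.sqrt_nonneg (1 - s ^ 2)
  have h2 := Real.sq_sqrt h0
  have h3 : √(1 - s ^ 2) ≤ 1 := by nlinarith [sq_nonneg s]
  rw [abs_of_nonneg (by linarith)]
  nlinarith

end Chord

open Chord in
theorem sChord : SChord := by
  intro β hβ hβ1
  set lam : ℝ := (1 + β) / (2 * β) with hlam
  set g : ℝ := (1 - β) / 2 with hg
  have hl : 1 < lam := by rw [hlam, lt_div_iff₀ (by positivity)]; linarith
  have hbl : β * lam = 1 - g := by rw [hlam, hg]; field_simp; ring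
  have hg0 : 0 < g := by rw [hg]; linarith
  have hg1 : g < 1 := by rw [hg]; linarith
  have hl2 : 1 < lam ^ 2 := by nlinarith
  have ht1 : g / (2 * lam ^ 2) ≤ 1 := by rw [div_le_one (by positivity)]; linarith
  refine ⟨lam, g / 10, g / (2 * lam ^ 2), hl, by positivity, by positivity, by nlinarith, ?_⟩
  intro τ η n hτ hτ0 hη hn hin
  have h1 : lam ^ 2 * τ ≤ g / 2 := by
    rw [le_div_iff₀ (by positivity)] at hτ0
    linarith
  have hr : |det2 n η| ≤ lam * τ := (det_le hn η).trans hη.le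
  obtain ⟨s, hs1, hs2, hs3⟩ := pick (e := g / 5 * τ) (by positivity) (by nlinarith) hr
  have hs4 : s ^ 2 ≤ g / 2 * τ := by
    have h2 : s ^ 2 ≤ (lam * τ) ^ 2 := by
      rw [← sq_abs s]
      exact pow_le_pow_left₀ (abs_nonneg s) hs2 2
    nlinarith
  have hτ1 : τ ≤ 1 := hτ0.trans ht1
  have hs5 : s ^ 2 ≤ 1 := by nlinarith
  refine ⟨(-√(1 - s ^ 2)) • n + s • Jr n, ?_, fun n' _ hb => ⟨?_, ?_⟩⟩
  · refine (sq_eq_sq₀ (norm_nonneg _) zero_le_one).1 ?_
    rw [comb_sq hn, neg_sq, Real.sq_sqrt (by linarith)]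
    ring
  · have h2 : η + n + n' = ((⟪n, η⟫ + (1 - √(1 - s ^ 2))) • n + (det2 n η + s) • Jr n) +
        (n' - ((-√(1 - s ^ 2)) • n + s • Jr n)) := by
      conv_lhs => rw [decomp hn η]
      module
    have h3 := comb_le hn (⟪n, η⟫ + (1 - √(1 - s ^ 2))) (det2 n η + s)
    have h4 := abs_add_le ⟪n, η⟫ (1 - √(1 - s ^ 2))
    have h5 := root_le hs5
    have h6 : β * ‖η‖ ≤ (1 - g) * τ := by
      rw [← hbl, mul_assoc]
      exact mul_le_mul_of_nonneg_left hη.le hβ.le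
    rw [h2]
    refine (norm_add_le _ _).trans_lt ?_
    linarith
  · have h2 := det_split n ((-√(1 - s ^ 2)) • n + s • Jr n) n'
    rw [comb_det hn] at h2
    have h3 := det_le hn (n' - ((-√(1 - s ^ 2)) • n + s • Jr n))
    have h4 : |s| ≤ |det2 n n'| + |det2 n (n' - ((-√(1 - s ^ 2)) • n + s • Jr n))| := by
      refine le_trans (le_of_eq ?_) (abs_sub _ _)
      rw [h2, add_sub_cancel_right]
    linarith

end Pool.Agent.MP_66cee2_co.P
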