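import Pool.Agent.MP_66cee2_co.P.Spec
import Pool.Agent.MP_66cee2_co.XJ.Sig

/-
Maps of the plane into three dimensional space: the classification of the points.
-/

namespace Pool.Agent.MP_66cee2_co.P

open MeasureTheory Set Filter Metric Topology Matrix Pool.Agent.MP_66cee2_co.X
open scoped ENNReal RealInnerProductSpace

namespace Cls

theorem nsq3 (u : E3) : ‖u‖ ^ 2 = u 0 ^ 2 + u 1 ^ 2 + u 2 ^ 2 := by
  rw [EuclideanSpace.norm_sq_eq, Fin.sum_univ_three]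
  simp only [Real.norm_eq_abs, sq_abs]

theorem nsq2 (u : E2) : ‖u‖ ^ 2 = u 0 ^ 2 + u 1 ^ 2 := by
  rw [EuclideanSpace.norm_sq_eq, Fin.sum_univ_two]
  simp only [Real.norm_eq_abs, sq_abs]

theorem dot_self {p q : E3} (h : ‖p - q‖ = 1) :
    (fun a => q a - p a) ⬝ᵥ (fun a => q a - p a) = 1 := by
  have h1 := nsq3 (p - q)
  rw [h] at h1
  simp only [PiLp.sub_apply] at h1
  simp only [dotProduct, Fin.sum_univ_three]
  linarith

theorem dot_hex {p q r : E3} (h : ‖p - q‖ = 1) (h' : ‖p - r‖ = 1) (h'' : ‖q - r‖ = 1) :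
    (fun a => q a - p a) ⬝ᵥ (fun a => r a - p a) = 1 / 2 := by
  have h1 := nsq3 (p - q)
  have h2 := nsq3 (p - r)
  have h3 := nsq3 (q - r)
  rw [h] at h1
  rw [h'] at h2
  rw [h''] at h3
  simp only [PiLp.sub_apply] at h1 h2 h3
  simp only [dotProduct, Fin.sum_univ_three]
  linarith

theorem ae_notMem {F : Set E2} (h : F.Finite) : ∀ᵐ n ∂sig 2, n ∉ F := by
  refine compl_mem_ae_iff.2 ?_
  rw [← biUnion_of_singleton F]
  exact (measure_biUnion_null_iff h.countable).2 fun n _ => sSig.point 2 le_rfl n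

theorem infinite_of_ae {Θ : Set E2} (h : ∀ᵐ n ∂sig 2, n ∈ Θ) : Θ.Infinite := by
  intro hf
  refine sSig.ne 2 (by norm_num) (ae_eq_bot.1 (eventually_false_iff_eq_bot.1 ?_))
  filter_upwards [h, ae_notMem hf] with n h1 h2 using h2 h1

/-- the linear part as a linear map. -/
noncomputable def linL (c : ℕ → ℕ → Fin 3 → ℝ) : E2 →ₗ[ℝ] E3 where
  toFun v := WithLp.toLp 2 (Lm c v)
  map_add' v w := by
    ext a
    simp only [Lm, PiLp.add_apply, Pi.add_apply, Pi.smul_apply, smul_eq_mul]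
    ring
  map_smul' t v := by
    ext a
    simp only [Lm, PiLp.smul_apply, Pi.add_apply, Pi.smul_apply, smul_eq_mul, RingHom.id_apply]
    ring

theorem linL_norm {c : ℕ → ℕ → Fin 3 → ℝ} (h1 : c 1 0 ⬝ᵥ c 1 0 = 1) (h2 : c 0 1 ⬝ᵥ c 0 1 = 1)
    (h3 : c 1 0 ⬝ᵥ c 0 1 = 0) (v : E2) : ‖linL c v‖ = ‖v‖ := by
  refine (sq_eq_sq₀ (norm_nonneg _) (norm_nonneg _)).1 ?_
  rw [nsq3, nsq2]
  simp only [dotProduct, Fin.sum_univ_three] at h1 h2 h3
  have e : ∀ a, linL c v a = v 0 * c 1 0 a + v 1 * c 0 1 a := fun a => rfl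
  simp only [e]
  linear_combination v 0 ^ 2 * h1 + v 1 ^ 2 * h2 + 2 * v 0 * v 1 * h3

theorem isoAt_of {f : E2 → E3} {x : E2} {c : ℕ → ℕ → Fin 3 → ℝ} {Θ : Set E2}
    (hΘ : ∀ᵐ n ∂sig 2, n ∈ Θ) (h : IsoC c Θ fun n a => f (x + n) a - f x a) : IsoAt f x := by
  obtain ⟨h1, h2, h3, h4⟩ := h
  refine ⟨⟨linL c, linL_norm h1 h2 h3⟩, ?_⟩
  filter_upwards [hΘ, ae_notMem h4] with n hn hn'
  have e : (fun a => f (x + n) a - f x a) = Lm c n := by
    by_contra hne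
    exact hn' ⟨hn, hne⟩
  ext a
  have e1 : f (x + n) a - f x a = Lm c n a := congrFun e a
  have e2 : (f x + linL c n) a = f x a + Lm c n a := rfl
  exact (by linarith : f (x + n) a = (f x + linL c n) a)

end Cls

theorem sCls (hK : SKit) (h1 : SPairE) (h2 : SFW0) (h3 : SFW1) (h4 : SRk1) (h5 : SAlg) : SCls := by
  intro f hf hj
  classical
  obtain ⟨φ, hφ⟩ : ∃ φ : E2 → Fin 3 → MvPowerSeries (Fin 2) ℝ,
      ∀ x ∈ {x | ∃ ψ, JetV f x ψ}, JetV f x (φ x) :=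
    ⟨fun x => if h : ∃ ψ, JetV f x ψ then h.choose else 0, fun x hx => by
      have hx' : ∃ ψ, JetV f x ψ := hx
      simp only [dif_pos hx']
      exact hx'.choose_spec⟩
  have hm : MeasurableSet {z : E2 × E2 | ‖f z.1 - f z.2‖ = 1} :=
    measurableSet_eq_fun ((hf.meas.comp measurable_fst).sub (hf.meas.comp measurable_snd)).norm
      measurable_const
  filter_upwards [hj, h2 f φ _ hφ, h3 f φ _ hφ, sSig.right 2 _ hj, hf.unit,
    hK.hex _ hm hf.unit] with x hx a2 a3 b1 b2 b3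
  have a2 := a2 hx
  have a3 := a3 hx
  set p : E2 → Prop := fun n => ‖n‖ = 1 ∧ (∃ ψ, JetV f (x + n) ψ) ∧ ‖f x - f (x + n)‖ = 1 ∧
    ‖f (x + n) - f (x + Rot n)‖ = 1 with hp
  have hp0 : ∀ᵐ n ∂sig 2, p n := by
    filter_upwards [sSig.unit 2 (by norm_num), b1, b2, b3] with n c1 c2 c3 c4
    exact ⟨c1, c2, c3, c4⟩
  set Θ : Set E2 := {n | ∀ k : ℕ, p (Rot^[k] n)} with hΘd
  have hΘ : ∀ᵐ n ∂sig 2, n ∈ Θ := by
    refine ae_all_iff.2 fun k => ?_
    induction k with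
    | zero => exact hp0
    | succ k ih => exact hK.rot_ae (fun n => p (Rot^[k] n)) ih
  have hrot : ∀ n ∈ Θ, Rot n ∈ Θ := fun n hn k => hn (k + 1)
  have hH : Hex (cv (φ x)) Θ fun n a => f (x + n) a - f x a :=
    { inf := Cls.infinite_of_ae hΘ
      unit := fun n hn => (hn 0).1
      rot := hrot
      eqs := fun n hn => by
        obtain ⟨c1, ⟨ψ, c2⟩, -, -⟩ := hn 0
        exact h1 f (hK.all f hf) x n (φ x) ψ c1 (hφ x hx) c2
      nrm := fun n hn => Cls.dot_self (hn 0).2.2.1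
      hex := fun n hn => Cls.dot_hex (hn 0).2.2.1 (hrot n hn 0).2.2.1 (hn 0).2.2.2 }
  by_cases c0 : cv (φ x) 1 0 = 0 ∧ cv (φ x) 0 1 = 0
  · exact Or.inl (a2 c0.1 c0.2)
  by_cases c1 : crossProduct (cv (φ x) 1 0) (cv (φ x) 0 1) = 0
  · obtain ⟨q, q', hq⟩ := h4 _ _ _ hH c1 c0 (a3.1 c1).1 (a3.1 c1).2
    refine Or.inr (Or.inl ⟨f x + WithLp.toLp 2 q, f x + WithLp.toLp 2 q', ?_⟩)
    have key : ∀ (n : E2) (r : Fin 3 → ℝ), (fun a => f (x + n) a - f x a) = r →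
        f (x + n) = f x + WithLp.toLp 2 r := fun n r e => by
      ext a
      have e1 : f (x + n) a - f x a = r a := congrFun e a
      have e2 : (f x + WithLp.toLp 2 r) a = f x a + r a := rfl
      linarith
    filter_upwards [hΘ, Cls.ae_notMem hq, b3] with n hn hn' hn''
    refine ⟨?_, hn''⟩
    by_contra hc
    exact hn' ⟨hn, fun e => hc (Or.inl (key n q e)), fun e => hc (Or.inr (key n q' e))⟩
  · obtain ⟨d1, d2⟩ := h5 _ _ _ hH c1
    refine Or.inr (Or.inr (Cls.isoAt_of (c := cv (φ x)) hΘ ?_))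
    rcases d1 with d1 | d1
    · exact d1
    · exact d2 d1 (a3.2 d1)

end Pool.Agent.MP_66cee2_co.P
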