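import Pool.Agent.MP_66cee2_co.P.Spec
import Pool.Agent.MP_66cee2_co.XJ.Sig
import Pool.Agent.MP_66cee2_co.XJ.App

/-
Maps of the plane into three dimensional space: the doubling inequality.
-/

namespace Pool.Agent.MP_66cee2_co.P

open MeasureTheory Set Filter Metric Topology Matrix Pool.Agent.MP_66cee2_co.X
open scoped ENNReal RealInnerProductSpace

namespace CntD

theorem dot_le {ι : Type} [Fintype ι] (a b : ι → ℝ) :
    |a ⬝ᵥ b| ≤ Fintype.card ι * (‖a‖ * ‖b‖) := by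
  refine (Finset.abs_sum_le_sum_abs _ _).trans ?_
  have h : ∀ i ∈ (Finset.univ : Finset ι), |a i * b i| ≤ ‖a‖ * ‖b‖ := fun i _ => by
    rw [abs_mul]
    exact mul_le_mul (norm_le_pi_norm a i) (norm_le_pi_norm b i) (abs_nonneg _) (norm_nonneg _)
  simpa using Finset.sum_le_card_nsmul _ _ _ h

theorem meas_det : Measurable fun z : E2 × E2 => ENNReal.ofReal |det2 z.1 z.2| := by
  refine ENNReal.measurable_ofReal.comp (Continuous.measurable ?_)
  unfold det2
  fun_prop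

/-- the directions whose caps are filled by a small set are few. -/
theorem bad_le {CJ : ℝ≥0∞} (hJ : ∀ N : Set E2, MeasurableSet N →
      ∫⁻ z : E2 × E2, N.indicator 1 (z.1 + z.2) * ENNReal.ofReal |det2 z.1 z.2|
        ∂(sig 2).prod (sig 2) ≤ CJ * volume N)
    {c₀ : ℝ} (hC : ∀ (a : E2) (r : ℝ), ‖a‖ = 1 → 0 < r → r ≤ 1 →
      ENNReal.ofReal (c₀ * r) ≤ sig 2 (ball a r))
    {r : ℝ} (hr : 0 < r) (hr1 : r ≤ 1) {N B : Set E2} (hN : MeasurableSet N)
    (hB : MeasurableSet B)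
    (h : ∀ᵐ n ∂sig 2, n ∈ B → ∃ b : E2, ‖b‖ = 1 ∧
      ∀ᵐ n' ∂sig 2, n' ∈ ball b r → n + n' ∈ N ∧ r ≤ |det2 n n'|) :
    ENNReal.ofReal r * ENNReal.ofReal (c₀ * r) * sig 2 B ≤ CJ * volume N := by
  refine le_trans ?_ (hJ N hN)
  have hm : Measurable fun z : E2 × E2 =>
      N.indicator (1 : E2 → ℝ≥0∞) (z.1 + z.2) * ENNReal.ofReal |det2 z.1 z.2| :=
    ((measurable_one.indicator hN).comp measurable_add).mul meas_det
  rw [lintegral_prod _ hm.aemeasurable, ← lintegral_indicator_const hB]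
  refine lintegral_mono_ae (h.mono fun n hn => ?_)
  by_cases hb : n ∈ B
  · obtain ⟨b, hb1, hb2⟩ := hn hb
    rw [indicator_of_mem hb]
    refine le_trans (mul_le_mul_right (hC b r hb1 hr hr1) _) ?_
    rw [← lintegral_indicator_const measurableSet_ball]
    refine lintegral_mono_ae (hb2.mono fun n' hn' => ?_)
    by_cases hb' : n' ∈ ball b r
    · rw [indicator_of_mem hb', indicator_of_mem (hn' hb').1, Pi.one_apply, one_mul]
      exact ENNReal.ofReal_le_ofReal (hn' hb').2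
    · rw [indicator_of_notMem hb']
      exact zero_le
  · rw [indicator_of_notMem hb]
    exact zero_le

/-- the quadratic form is bounded by the two parts. -/
theorem int_le {T B : Set E2} (hT : MeasurableSet T) (hB : MeasurableSet B) {g : E2 → ℝ}
    {a b : ℝ} (h : ∀ᵐ n ∂sig 2, n ∈ T → |g n| ≤ b ∧ (n ∉ B → |g n| ≤ a)) :
    ∫ n in T, g n ^ 2 ∂sig 2 ≤ a ^ 2 * (sig 2).real univ + b ^ 2 * (sig 2).real B := by
  have i1 : Integrable (fun _ : E2 => a ^ 2) (sig 2) := integrable_const _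
  have i2 : Integrable (B.indicator fun _ : E2 => b ^ 2) (sig 2) :=
    (integrable_const _).indicator hB
  have i3 : Integrable (fun n => a ^ 2 + B.indicator (fun _ : E2 => b ^ 2) n) (sig 2) := i1.add i2
  have hn : ∀ n, 0 ≤ B.indicator (fun _ : E2 => b ^ 2) n := fun n =>
    indicator_nonneg (fun _ _ => sq_nonneg b) n
  have h1 : ∫ n in T, g n ^ 2 ∂sig 2 ≤
      ∫ n in T, (a ^ 2 + B.indicator (fun _ : E2 => b ^ 2) n) ∂sig 2 := by
    refine integral_mono_of_nonneg (Eventually.of_forall fun n => sq_nonneg _) i3.restrict ?_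
    filter_upwards [ae_restrict_of_ae h, ae_restrict_mem hT] with n h1 h2
    by_cases hb : n ∈ B
    · rw [indicator_of_mem hb]
      have := pow_le_pow_left₀ (abs_nonneg _) (h1 h2).1 2
      rw [sq_abs] at this
      linarith [sq_nonneg a]
    · have := pow_le_pow_left₀ (abs_nonneg _) ((h1 h2).2 hb) 2
      rw [sq_abs] at this
      linarith [hn n]
  refine h1.trans ((setIntegral_le_integral i3
    (Eventually.of_forall fun n => add_nonneg (sq_nonneg a) (hn n))).trans (le_of_eq ?_))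
  rw [integral_add i1 i2, integral_indicator_const _ hB, integral_const, smul_eq_mul, smul_eq_mul]
  ring

theorem far_meas {ι : Type} [Fintype ι] {J : E2 → Finset ι} {ξ : E2 → ι → ℝ}
    (hJ : ∀ S, MeasurableSet {y | J y = S}) (hξ : ∀ a, Measurable fun y => ξ y a) (x : E2)
    (t : ℝ) : MeasurableSet (Far J ξ x t) := by
  have h0 : Measurable fun η : E2 => x + η := measurable_const_add x
  have h1 : MeasurableSet {η : E2 | J (x + η) ≠ J x} := (h0 (hJ (J x))).compl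
  have h2 : Measurable fun η : E2 => ‖ξ (x + η) - ξ x‖ :=
    (((measurable_pi_lambda _ hξ).comp h0).sub measurable_const).norm
  exact h1.union (measurableSet_lt measurable_const h2)

/-- the good base points. -/
def Good {ι : Type} [Fintype ι] (c ξ : E2 → ι → ℝ) (y : E2) : Prop :=
  ∀ᵐ n ∂sig 2, ξ y ⬝ᵥ c (y + n) = 0 ∧ ∀ᵐ n' ∂sig 2, ξ (y + n + n') ⬝ᵥ c (y + n) = 0

theorem good_ae {ι : Type} [Fintype ι] {c ξ : E2 → ι → ℝ} (hc : ∀ a, Measurable fun y => c y a)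
    (hξ : ∀ a, Measurable fun y => ξ y a) (h : AllPair fun y x => ξ y ⬝ᵥ c x = 0) :
    ∀ᵐ y, Good c ξ y := by
  have hm := measurableSet_orth hξ hc
  have h1 : AePair fun y x => ξ y ⬝ᵥ c x = 0 := by
    have := Measure.ae_ae_of_ae_prod (allPair_prod hm h (sig 2) (s := fun _ => 0) (w := id)
      measurable_const measurable_id)
    filter_upwards [this] with y hy
    filter_upwards [hy, sSig.unit 2 (by norm_num)] with n h1 h2
    simpa using h1 h2
  have h2 := sSig.right 2 _ (sSig.swap 2 _ hm h1)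
  filter_upwards [h1, h2] with y a b
  exact a.and b

theorem arith {μ σ N K κ s z t : ℝ} (hμ : 0 < μ) (hσ : 0 ≤ σ) (hK : 0 ≤ K) (ht : 0 ≤ t)
    (hκ : κ ≤ μ / (2 * (N ^ 2 * K + 1))) (hκ0 : 0 < κ) (hs : s ≤ K * κ)
    (h : μ * z ^ 2 ≤ (N * t) ^ 2 * σ + (N * z) ^ 2 * s) : z ≤ (2 * σ * N ^ 2 / μ + 1) * t := by
  have h0 : 0 ≤ N ^ 2 * K := by positivity
  have h1 : κ * (2 * (N ^ 2 * K + 1)) ≤ μ := (le_div_iff₀ (by linarith)).1 hκ
  have h2 : (N * z) ^ 2 * s ≤ (N * z) ^ 2 * (K * κ) := mul_le_mul_of_nonneg_left hs (sq_nonneg _)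
  have h3 : N ^ 2 * K * κ ≤ μ / 2 := by nlinarith
  have h4 : (N * z) ^ 2 * (K * κ) ≤ μ / 2 * z ^ 2 := by
    have := mul_le_mul_of_nonneg_right h3 (sq_nonneg z)
    nlinarith
  set D := 2 * σ * N ^ 2 / μ with hD
  have hD0 : 0 ≤ D := by positivity
  have hD1 : μ * D = 2 * σ * N ^ 2 := by rw [hD]; field_simp
  have h5 : μ * z ^ 2 ≤ μ * (D * t ^ 2) := by
    rw [← mul_assoc, hD1]
    nlinarith
  have h6 : z ^ 2 ≤ D * t ^ 2 := le_of_mul_le_mul_left h5 hμ
  refine le_trans (le_abs_self z) (abs_le_of_sq_le_sq ?_ (by positivity))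
  have : D * t ^ 2 ≤ ((D + 1) * t) ^ 2 := by
    rw [mul_pow]
    exact mul_le_mul_of_nonneg_right (by nlinarith) (sq_nonneg t)
  linarith

theorem real_le {CJ : ℝ≥0∞} (hCJ : CJ ≠ ⊤) {c₀ c₁ τ κ : ℝ} (h₀ : 0 < c₀) (h₁ : 0 < c₁)
    (hτ : 0 < τ) (hκ : 0 < κ) {B : Set E2}
    (h : ENNReal.ofReal (c₁ * τ) * ENNReal.ofReal (c₀ * (c₁ * τ)) * sig 2 B ≤
      CJ * (ENNReal.ofReal κ * volume (ball (0 : E2) τ))) :
    (sig 2).real B ≤ (CJ * volume (ball (0 : E2) 1)).toReal / (c₀ * c₁ ^ 2) * κ := by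
  have hv : volume (ball (0 : E2) τ) = ENNReal.ofReal (τ ^ 2) * volume (ball (0 : E2) 1) := by
    have := vol_ball_mul (X := E2) (τ := 1) hτ
    simpa using this
  have hfin : CJ * (ENNReal.ofReal κ * volume (ball (0 : E2) τ)) ≠ ⊤ :=
    ENNReal.mul_ne_top hCJ (ENNReal.mul_ne_top ENNReal.ofReal_ne_top vol_ball_ne_top)
  have h2 := ENNReal.toReal_mono hfin h
  rw [hv] at h2
  simp only [ENNReal.toReal_mul] at h2 ⊢
  rw [ENNReal.toReal_ofReal (by positivity), ENNReal.toReal_ofReal (by positivity),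
    ENNReal.toReal_ofReal hκ.le, ENNReal.toReal_ofReal (by positivity)] at h2
  rw [div_mul_eq_mul_div, le_div_iff₀ (by positivity), Measure.real]
  refine le_of_mul_le_mul_left ?_ (pow_pos hτ 2)
  nlinarith

end CntD

open CntD in
theorem sCntD (hJ : SJac) (hC : SCap) (hQ : SQuad) (hH : SChord) : SCntD := by
  intro ι _ c J ξ hD
  obtain ⟨CJ, hCJ, hJ⟩ := hJ
  obtain ⟨c₀, hc₀, hC⟩ := hC
  have hc : ∀ a, Measurable fun y => c y a := hD.mb ()
  set d : E2 → ι → ℝ := fun y => (1 + ‖c y‖)⁻¹ • c y with hd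
  have hpos : ∀ y, 0 < 1 + ‖c y‖ := fun y => by linarith [norm_nonneg (c y)]
  have hdm : ∀ a, Measurable fun y => d y a := fun a =>
    ((measurable_const.add (measurable_pi_lambda _ hc).norm).inv).mul (hc a)
  have hd1 : ∀ y, ‖d y‖ ≤ 1 := fun y => by
    rw [hd]
    simp only
    rw [norm_smul, Real.norm_eq_abs, abs_of_pos (inv_pos.2 (hpos y)), inv_mul_le_iff₀ (hpos y)]
    linarith
  have hdot : ∀ (ζ : ι → ℝ) y, ζ ⬝ᵥ d y = (1 + ‖c y‖)⁻¹ * ζ ⬝ᵥ c y := fun ζ y => by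
    rw [hd]
    simp only
    rw [dotProduct_smul, smul_eq_mul]
  have hq := hQ ι d J hdm hd1 (hD.uniq.mono fun y hy ζ h1 h2 => hy ζ (h1.mono fun n hn _ => by
    rw [hdot] at hn
    exact (mul_eq_zero.1 hn).resolve_left (inv_pos.2 (hpos _)).ne') h2)
  have hdens : ∀ᵐ y : E2, ∀ S : Finset ι, y ∈ {y | J y = S} →
      Small fun _ => {η | y + η ∉ {y | J y = S}} :=
    ae_all_iff.2 fun S => sApp.dens 2 _ (hD.mJ S)
  have hgood := good_ae hc hD.mξ (hD.orth ())
  filter_upwards [hq, hdens] with x hx hxd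
  obtain ⟨β, μ, hβ, hβ1, hμ, hsm⟩ := hx
  obtain ⟨lam, c₁, τ₀, hlam, hc₁, hτ₀, hcτ, hH⟩ := hH β hβ hβ1
  set N : ℝ := ((Fintype.card ι : ℕ) : ℝ) with hN
  have hN0 : 0 ≤ N := Nat.cast_nonneg _
  set K : ℝ := (CJ * volume (ball (0 : E2) 1)).toReal / (c₀ * c₁ ^ 2) with hK
  have hK0 : 0 ≤ K := div_nonneg ENNReal.toReal_nonneg (by positivity)
  set σ : ℝ := (sig 2).real univ with hσ
  have hσ0 : 0 ≤ σ := measureReal_nonneg
  refine ⟨μ / (2 * (N ^ 2 * K + 1)), 2 * σ * N ^ 2 / μ + 1, lam, by positivity, by positivity,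
    hlam, fun κ hκ hκ₀ => ?_⟩
  have hgx : ∀ᵐ η : E2, Good c ξ (x + η) :=
    (measurePreserving_add_left volume x).quasiMeasurePreserving.ae hgood
  have hex := ((small_iff.1 (hxd (J x) rfl)).union (small_iff.1 hsm)).union (smR_of_ae hgx)
  have hev := (tendsto_scale (lt_trans one_pos hlam)).eventually (hex.eventually_le one_pos hκ)
  obtain ⟨τ₁, hτ₁, hsub⟩ := mem_nhdsGT_iff_exists_Ioc_subset.1 hev
  refine ⟨min τ₀ τ₁, lt_min hτ₀ hτ₁, fun τ t hτ hτm ht hF => ?_⟩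
  have hb := hsub ⟨hτ, hτm.trans (min_le_right _ _)⟩
  simp only [mem_ofPred_eq, one_mul] at hb
  refine le_trans (measure_mono ?_) hb
  rintro η ⟨hfar, hη⟩
  refine ⟨?_, hη⟩
  by_contra hn
  simp only [mem_union, mem_ofPred_eq, not_or, not_not] at hn
  obtain ⟨⟨hJη, hquad⟩, hg⟩ := hn
  have hlt : (2 * σ * N ^ 2 / μ + 1) * t < ‖ξ (x + η) - ξ x‖ := hfar.resolve_left (not_not.2 hJη)
  refine absurd hlt (not_lt.2 ?_)
  by_cases hη0 : η = 0
  · rw [hη0, add_zero, sub_self, norm_zero]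
    positivity
  have hηp : 0 < ‖η‖ := norm_pos_iff.2 hη0
  set ζ := ξ (x + η) - ξ x with hζ
  set e : E2 := ‖η‖⁻¹ • η with he
  have he1 : ‖e‖ = 1 := by
    rw [he, norm_smul, norm_inv, norm_norm, inv_mul_cancel₀ hηp.ne']
  have hζJ : ∀ a ∈ J x, ζ a = 0 := fun a ha => by
    rw [hζ, Pi.sub_apply, hD.nrm (x + η) x hJη a (hJη ▸ ha), sub_self]
  have hT : MeasurableSet {n : E2 | |⟪n, e⟫| ≤ β} :=
    measurableSet_le (Continuous.measurable (by fun_prop)) measurable_const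
  have hg1 : Measurable fun n : E2 => ζ ⬝ᵥ d (x + η + n) := by
    simp only [dotProduct]
    exact Finset.measurable_sum _ fun a _ =>
      measurable_const.mul ((hdm a).comp (measurable_const_add _))
  set B : Set E2 := {n | |⟪n, e⟫| ≤ β} ∩ {n | N * t < |ζ ⬝ᵥ d (x + η + n)|} with hB
  have hBm : MeasurableSet B := hT.inter (measurableSet_lt measurable_const hg1.abs)
  have hFm : MeasurableSet (Far J ξ x t ∩ ball 0 τ) :=
    (far_meas hD.mJ hD.mξ x t).inter measurableSet_ball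
  have hττ : τ ≤ τ₀ := hτm.trans (min_le_left _ _)
  have hbad := bad_le hJ hC (r := c₁ * τ) (mul_pos hc₁ hτ)
    ((mul_le_mul_of_nonneg_left hττ hc₁.le).trans hcτ)
    (N := (fun w => η + w) ⁻¹' (Far J ξ x t ∩ ball 0 τ)) (measurable_const_add η hFm) hBm (by
      filter_upwards [hg, sSig.unit 2 (by norm_num)] with n ⟨hn1, hn2⟩ hnu hnB
      have hin : |⟪n, η⟫| ≤ β * ‖η‖ := by
        have h1 : |⟪n, e⟫| ≤ β := hnB.1
        rw [he, real_inner_smul_right, abs_mul, abs_of_pos (inv_pos.2 hηp),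
          inv_mul_le_iff₀ hηp] at h1
        linarith
      obtain ⟨b, hb1, hb2⟩ := hH τ η n hτ hττ (mem_ball_zero_iff.1 hη) hnu hin
      refine ⟨b, hb1, ?_⟩
      filter_upwards [hn2, sSig.unit 2 (by norm_num)] with n' hn' hnu' hball
      obtain ⟨h1, h2⟩ := hb2 n' hnu' (by rwa [mem_ball, dist_eq_norm] at hball)
      refine ⟨⟨?_, mem_ball_zero_iff.2 ((congrArg norm (add_assoc η n n')).symm.trans_lt h1)⟩, h2⟩
      by_contra hnf
      have hle : ‖ξ (x + (η + (n + n'))) - ξ x‖ ≤ t := not_lt.1 fun h => hnf (Or.inr h)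
      rw [← add_assoc, ← add_assoc] at hle
      have hE : ζ ⬝ᵥ d (x + η + n) = (ξ (x + η + n + n') - ξ x) ⬝ᵥ d (x + η + n) := by
        rw [hdot, hdot, hζ, sub_dotProduct, sub_dotProduct, hn1, hn']
      have h3 : N * t < |ζ ⬝ᵥ d (x + η + n)| := hnB.2
      rw [hE] at h3
      have h4 := dot_le (ξ (x + η + n + n') - ξ x) (d (x + η + n))
      have h5 : ‖ξ (x + η + n + n') - ξ x‖ * ‖d (x + η + n)‖ ≤ t * 1 :=
        mul_le_mul hle (hd1 _) (norm_nonneg _) ht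
      have h6 := mul_le_mul_of_nonneg_left h5 hN0
      rw [mul_one] at h6
      linarith)
  rw [measure_preimage_add] at hbad
  have hs := real_le hCJ hc₀ hc₁ hτ hκ (hbad.trans (mul_le_mul_right hF CJ))
  have hint := int_le hT hBm (g := fun n => ζ ⬝ᵥ d (x + η + n)) (a := N * t) (b := N * ‖ζ‖)
    (Eventually.of_forall fun n hn => ⟨by
      have h4 := dot_le ζ (d (x + η + n))
      have h5 : ‖ζ‖ * ‖d (x + η + n)‖ ≤ ‖ζ‖ * 1 :=
        mul_le_mul_of_nonneg_left (hd1 _) (norm_nonneg _)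
      have h6 := mul_le_mul_of_nonneg_left h5 hN0
      rw [mul_one] at h6
      linarith, fun hnB => not_lt.1 fun h => hnB ⟨hn, h⟩⟩)
  exact arith hμ hσ0 hK0 ht hκ₀ hκ hs ((hquad e he1 ζ hζJ).trans hint)

end Pool.Agent.MP_66cee2_co.P
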