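import Pool.Agent.MP_66cee2_co.P.Spec

/-
Circles whose graph of unit chords is not bipartite, and the relation between two angles.
-/

namespace Pool.Agent.MP_66cee2_co.P

open Pool.Agent.MP_66cee2_co.X
open scoped RealInnerProductSpace

namespace Col

/-- a root of unity of odd order gives an algebraic integer. -/
theorem alg (ω : ℂ) (k : ℕ) (hk : Odd k) (h : ω ^ k = 1) (h1 : ω ≠ 1) :
    ∃ a : ℂ, IsIntegral ℤ a ∧ a * (ω + ω⁻¹) = 1 := by
  obtain ⟨j, rfl⟩ := hk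
  have hω : ω ≠ 0 := by
    rintro rfl
    simp at h
  have hi : IsIntegral ℤ ω := IsIntegral.of_pow (n := 2 * j + 1) (by omega) (h ▸ isIntegral_one)
  have hx : ω ^ 2 ≠ 1 := by
    intro h2
    apply h1
    rw [pow_succ, pow_mul, h2, one_pow, one_mul] at h
    exact h
  refine ⟨ω * ∑ i ∈ Finset.range (j + 1), (ω ^ 4) ^ i, hi.mul (IsIntegral.sum _ fun i _ =>
    (hi.pow 4).pow i), ?_⟩
  have hg := geom_sum_mul (ω ^ 4) (j + 1)
  have h4 : (ω ^ 4) ^ (j + 1) = ω ^ 2 := by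
    have : (ω ^ 4) ^ (j + 1) = (ω ^ (2 * j + 1)) ^ 2 * ω ^ 2 := by ring
    rw [this, h, one_pow, one_mul]
  rw [h4] at hg
  have hs : (∑ i ∈ Finset.range (j + 1), (ω ^ 4) ^ i) * (ω ^ 2 + 1) = 1 := by
    apply mul_right_cancel₀ (sub_ne_zero.2 hx)
    linear_combination hg
  have hv : ω * ω⁻¹ = 1 := mul_inv_cancel₀ hω
  linear_combination hs + (∑ i ∈ Finset.range (j + 1), (ω ^ 4) ^ i) * hv

/-- a complex coordinate on the plane of the circle. -/
theorem coord (p p' : E3) (hp : p ≠ p') : ∃ z : E3 → ℂ,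
    (∀ v ∈ gam p p', Complex.normSq (z v) = 1 - ‖p - p'‖ ^ 2 / 4) ∧
    ∀ v ∈ gam p p', ∀ v' ∈ gam p p', Complex.normSq (z v - z v') = ‖v - v'‖ ^ 2 := by
  have hd : ‖p - p'‖ ≠ 0 := norm_ne_zero_iff.2 (sub_ne_zero.2 hp)
  have ho : Orthonormal ℝ
      (({0} : Set (Fin 3)).domRestrict fun _ => (‖p - p'‖⁻¹ • (p - p') : E3)) := by
    refine ⟨fun i => ?_, fun i j hij => ?_⟩
    · simp [Set.domRestrict, norm_smul, hd]
    · exact absurd (Subsingleton.elim i j) hij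
  obtain ⟨b, hb⟩ := ho.exists_orthonormalBasis_extension_of_card_eq (by simp)
  have hb0 : b 0 = ‖p - p'‖⁻¹ • (p - p') := hb 0 rfl
  let y : E3 → ℂ := fun w => ⟨⟪b 1, w⟫, ⟪b 2, w⟫⟩
  have hy : ∀ w : E3, ⟪p - p', w⟫ = 0 → Complex.normSq (y w) = ‖w‖ ^ 2 := by
    intro w hw
    have h := b.sum_sq_inner_right w
    rw [Fin.sum_univ_three, hb0, real_inner_smul_left, hw] at h
    rw [Complex.normSq_mk, ← h]
    ring
  have hys : ∀ w w' : E3, y w - y w' = y (w - w') := by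
    intro w w'
    apply Complex.ext <;> simp [y, inner_sub_right]
  have key : ∀ v ∈ gam p p', ⟪p - p', v - (1 / 2 : ℝ) • (p + p')⟫ = 0 ∧
      ‖v - (1 / 2 : ℝ) • (p + p')‖ ^ 2 = 1 - ‖p - p'‖ ^ 2 / 4 := by
    rintro v ⟨h1, h2⟩
    have e1 : v - (1 / 2 : ℝ) • (p + p') = (1 / 2 : ℝ) • ((v - p) + (v - p')) := by module
    have e2 : p - p' = (v - p') - (v - p) := by abel
    rw [e1, e2]
    generalize v - p = a at h1
    generalize v - p' = a' at h2
    have haa : ⟪a, a⟫ = 1 := by rw [real_inner_self_eq_norm_sq, h1]; norm_num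
    have haa' : ⟪a', a'⟫ = 1 := by rw [real_inner_self_eq_norm_sq, h2]; norm_num
    have hc : ⟪a', a⟫ = ⟪a, a'⟫ := real_inner_comm _ _
    constructor
    · rw [real_inner_smul_right, inner_sub_left, inner_add_right, inner_add_right, haa, haa', hc]
      ring
    · rw [← real_inner_self_eq_norm_sq, ← real_inner_self_eq_norm_sq, real_inner_smul_right,
        real_inner_smul_left]
      simp only [inner_sub_left, inner_sub_right, inner_add_left, inner_add_right, haa, haa', hc]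
      ring
  refine ⟨fun v => y (v - (1 / 2 : ℝ) • (p + p')), fun v hv => ?_, fun v hv v' hv' => ?_⟩
  · rw [hy _ (key v hv).1, (key v hv).2]
  · rw [hys, hy]
    · congr 2
      abel
    · rw [inner_sub_right, (key v hv).1, (key v' hv').1, sub_zero]

/-- a unit chord turns by a fixed angle. -/
theorem turn (r : ℝ) (z z' : ℂ) (h : Complex.normSq z = r) (h' : Complex.normSq z' = r)
    (hd : Complex.normSq (z - z') = 1) :
    r ≠ 0 ∧ z' ^ 2 - 2 * ((1 - 1 / (2 * r) : ℝ) : ℂ) * z * z' + z ^ 2 = 0 := by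
  have hr : r ≠ 0 := by
    rintro rfl
    rw [Complex.normSq_eq_zero] at h h'
    rw [h, h'] at hd
    simp at hd
  refine ⟨hr, ?_⟩
  have hr' : (r : ℂ) ≠ 0 := Complex.ofReal_ne_zero.2 hr
  have e1 : z * (starRingEnd ℂ) z = r := by rw [Complex.mul_conj, h]
  have e2 : z' * (starRingEnd ℂ) z' = r := by rw [Complex.mul_conj, h']
  have e3 : (z - z') * ((starRingEnd ℂ) z - (starRingEnd ℂ) z') = 1 := by
    rw [← map_sub, Complex.mul_conj, hd]
    simp
  have hc : (r : ℂ) * (2 * ((1 - 1 / (2 * r) : ℝ) : ℂ)) = 2 * r - 1 := by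
    push_cast
    field_simp
  apply mul_left_cancel₀ hr'
  linear_combination (-z * z') * hc - z * z' * e3 + (z * z' - z' ^ 2) * e1 + (z * z' - z ^ 2) * e2

/-- four vectors of the space have a vanishing Gram determinant. -/
theorem gram (u v s t : E3) (huv : ⟪u, v⟫ = 0) (hus : ⟪u, s⟫ = 0) (hut : ⟪u, t⟫ = 0)
    (hvs : ⟪v, s⟫ = 0) (hvt : ⟪v, t⟫ = 0) (hu : u ≠ 0) (hv : v ≠ 0) :
    ⟪s, s⟫ * ⟪t, t⟫ = ⟪s, t⟫ ^ 2 := by
  have hu' : ⟪u, u⟫ ≠ 0 := fun h => hu (inner_self_eq_zero.1 h)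
  have hv' : ⟪v, v⟫ ≠ 0 := fun h => hv (inner_self_eq_zero.1 h)
  have key : ∀ uu uv us ut vv vs vt ss st tt : ℝ, uu = ⟪u, u⟫ → uv = ⟪u, v⟫ → us = ⟪u, s⟫ →
      ut = ⟪u, t⟫ → vv = ⟪v, v⟫ → vs = ⟪v, s⟫ → vt = ⟪v, t⟫ → ss = ⟪s, s⟫ → st = ⟪s, t⟫ →
      tt = ⟪t, t⟫ →
      uu * (vv * (ss * tt - st * st) - vs * (vs * tt - st * vt) + vt * (vs * st - ss * vt)) -
      uv * (uv * (ss * tt - st * st) - vs * (us * tt - st * ut) + vt * (us * st - ss * ut)) +
      us * (uv * (vs * tt - st * vt) - vv * (us * tt - st * ut) + vt * (us * vt - vs * ut)) -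
      ut * (uv * (vs * st - ss * vt) - vv * (us * st - ss * ut) + vs * (us * vt - vs * ut)) =
      0 := by
    intro uu uv us ut vv vs vt ss st tt h1 h2 h3 h4 h5 h6 h7 h8 h9 h10
    simp only [PiLp.inner_apply, Fin.sum_univ_three, RCLike.inner_apply, conj_trivial] at *
    subst h1 h2 h3 h4 h5 h6 h7 h8 h9 h10
    ring
  have h := key _ _ _ _ _ _ _ _ _ _ rfl huv.symm hus.symm hut.symm rfl hvs.symm hvt.symm rfl rfl rfl
  apply mul_left_cancel₀ (mul_ne_zero hu' hv')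
  linear_combination h

end Col

theorem sCol : SCol := by
  intro p p' hp H
  obtain ⟨z, hz, hzz⟩ := Col.coord p p' hp
  let G : SimpleGraph E3 :=
    { Adj := fun v v' => v ∈ gam p p' ∧ v' ∈ gam p p' ∧ ‖v - v'‖ = 1
      symm := ⟨fun v v' h => ⟨h.2.1, h.1, by rw [norm_sub_rev]; exact h.2.2⟩⟩
      loopless := ⟨fun v h => by simpa using h.2.2⟩ }
  have hG : ¬ G.Colorable 2 := by
    rintro ⟨C⟩
    refine H (fun v => decide (C v = 0)) fun v hv v' hv' h => ?_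
    have hne : C v ≠ C v' := C.valid (show G.Adj v v' from ⟨hv, hv', h⟩)
    generalize C v = i at hne
    generalize C v' = j at hne
    revert i j
    decide
  rw [SimpleGraph.two_colorable_iff_forall_loop_even] at hG
  push Not at hG
  obtain ⟨u, w, hw⟩ := hG
  obtain ⟨ω, hω⟩ : ∃ ω : ℂ, ω ^ 2 - 2 * (cs p p' : ℂ) * ω + 1 = 0 := by
    obtain ⟨σ, hσ⟩ := IsAlgClosed.exists_pow_nat_eq ((cs p p' : ℂ) ^ 2 - 1) (n := 2) (by norm_num)
    exact ⟨cs p p' + σ, by linear_combination hσ⟩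
  have hω0 : ω ≠ 0 := by
    rintro rfl
    simp at hω
  have hv : ω * ω⁻¹ = 1 := mul_inv_cancel₀ hω0
  have hsum : ω + ω⁻¹ = 2 * (cs p p' : ℂ) := by
    apply mul_left_cancel₀ hω0
    linear_combination hω + hv
  have edge : ∀ v v', G.Adj v v' → (1 - ‖p - p'‖ ^ 2 / 4 ≠ 0 ∧ z v ≠ 0) ∧
      (z v' = ω ^ (1 : ℤ) * z v ∨ z v' = ω ^ (-1 : ℤ) * z v) := by
    rintro v v' ⟨h1, h2, h3⟩
    obtain ⟨hr, ht⟩ := Col.turn _ (z v) (z v') (hz v h1) (hz v' h2)
      (by rw [hzz v h1 v' h2, h3]; norm_num)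
    refine ⟨⟨hr, fun h0 => hr ?_⟩, ?_⟩
    · rw [← hz v h1, h0, map_zero]
    · have ht' : z v' ^ 2 - 2 * (cs p p' : ℂ) * z v * z v' + z v ^ 2 = 0 := ht
      have : (z v' - ω * z v) * (z v' - ω⁻¹ * z v) = 0 := by
        linear_combination ht' - z v * z v' * hsum + z v ^ 2 * hv
      rw [zpow_one, zpow_neg_one]
      rcases mul_eq_zero.1 this with h | h
      · exact Or.inl (sub_eq_zero.1 h)
      · exact Or.inr (sub_eq_zero.1 h)
  have walk : ∀ (v v' : E3) (W : G.Walk v v'), ∃ j : ℤ, Even (j - W.length) ∧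
      z v' = ω ^ j * z v := by
    intro v v' W
    induction W with
    | nil => exact ⟨0, by simp, by simp⟩
    | cons h W ih =>
      obtain ⟨j, ⟨m, hm⟩, hj⟩ := ih
      rcases (edge _ _ h).2 with e | e
      · refine ⟨j + 1, ⟨m, ?_⟩, by rw [hj, e, zpow_add₀ hω0, mul_assoc]⟩
        rw [SimpleGraph.Walk.length_cons]
        push_cast
        omega
      · refine ⟨j + -1, ⟨m - 1, ?_⟩, by rw [hj, e, zpow_add₀ hω0, mul_assoc]⟩
        rw [SimpleGraph.Walk.length_cons]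
        push_cast
        omega
  have hu : 1 - ‖p - p'‖ ^ 2 / 4 ≠ 0 ∧ z u ≠ 0 := by
    cases w with
    | nil => simp at hw
    | cons h W => exact (edge _ _ h).1
  obtain ⟨j, ⟨m, hm⟩, hj⟩ := walk u u w
  have hj1 : ω ^ j = 1 := by
    apply mul_right_cancel₀ hu.2
    rw [← hj, one_mul]
  have hodd : Odd j.natAbs := by
    obtain ⟨l, hl⟩ := Nat.not_even_iff_odd.1 hw
    rw [Nat.odd_iff]
    omega
  have hk : ω ^ j.natAbs = 1 := by
    rcases Int.natAbs_eq j with e | e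
    · rw [← zpow_natCast, ← e, hj1]
    · have : ω ^ (-(j.natAbs : ℤ)) = 1 := by rw [← e, hj1]
      rwa [zpow_neg, inv_eq_one, zpow_natCast] at this
  have h1 : ω ≠ 1 := by
    rintro rfl
    have h2 : (cs p p' : ℂ) = 1 := by linear_combination (-1 / 2 : ℂ) * hω
    have h3 : cs p p' = 1 := by exact_mod_cast h2
    have h4 : 1 / (2 * (1 - ‖p - p'‖ ^ 2 / 4)) = 0 := by
      unfold cs at h3
      linarith
    exact (one_div_ne_zero (mul_ne_zero two_ne_zero hu.1)) h4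
  obtain ⟨a, ha, ha'⟩ := Col.alg ω _ hodd hk h1
  exact ⟨a, ha, by rw [← hsum, ha']⟩

theorem sRel : SRel := by
  rintro p p' q q' w hp hq ⟨h1, h2⟩ ⟨h3, h4⟩ ⟨h5, h6⟩ ⟨h7, h8⟩
  have sq : ∀ a b : E3, ‖a - b‖ = 1 → ⟪a - b, a - b⟫ = 1 := by
    intro a b h
    rw [real_inner_self_eq_norm_sq, h]
    norm_num
  have half : ∀ a b : E3, ‖w - a‖ = 1 → ‖w - b‖ = 1 → ‖b - a‖ = 1 → ⟪w - a, w - b⟫ = 1 / 2 := by
    intro a b ha hb hab
    have e : b - a = (w - a) - (w - b) := by abel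
    rw [e] at hab
    have := norm_sub_sq_real (w - a) (w - b)
    rw [hab, ha, hb] at this
    linarith
  have hcs : ∀ a b : E3, ‖w - a‖ = 1 → ‖w - b‖ = 1 →
      cs a b = 1 - 1 / (1 + ⟪w - a, w - b⟫) := by
    intro a b ha hb
    have e : a - b = -((w - a) - (w - b)) := by abel
    have := norm_sub_sq_real (w - a) (w - b)
    rw [ha, hb] at this
    unfold cs
    rw [e, norm_neg, this]
    congr 2
    ring
  have k1 := half p q h5 h7 h1
  have k2 := half p' q h6 h7 h2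
  have k3 := half p q' h5 h8 h3
  have k4 := half p' q' h6 h8 h4
  rw [hcs p p' h5 h6, hcs q q' h7 h8]
  have n1 := sq _ _ h5
  have n2 := sq _ _ h6
  have n3 := sq _ _ h7
  have n4 := sq _ _ h8
  have d1 : (w - p) - (w - p') ≠ 0 := fun h => hp (sub_right_injective (sub_eq_zero.1 h))
  have d2 : (w - q) - (w - q') ≠ 0 := fun h => hq (sub_right_injective (sub_eq_zero.1 h))
  generalize w - p = a at *
  generalize w - p' = a' at *
  generalize w - q = b at *
  generalize w - q' = b' at *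
  have c1 : ⟪a', a⟫ = ⟪a, a'⟫ := real_inner_comm _ _
  have c2 : ⟪b', b⟫ = ⟪b, b'⟫ := real_inner_comm _ _
  have c3 : ⟪b, a⟫ = 1 / 2 := (real_inner_comm _ _).trans k1
  have c4 : ⟪b, a'⟫ = 1 / 2 := (real_inner_comm _ _).trans k2
  have c5 : ⟪b', a⟫ = 1 / 2 := (real_inner_comm _ _).trans k3
  have c6 : ⟪b', a'⟫ = 1 / 2 := (real_inner_comm _ _).trans k4
  have h := Col.gram (a - a') (b - b') (a + a') (b + b') ?_ ?_ ?_ ?_ ?_ d1 d2
  · simp only [inner_add_left, inner_add_right, n1, n2, n3, n4, k1, k2, k3, k4, c1, c2] at h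
    generalize ⟪a, a'⟫ = x at h
    generalize ⟪b, b'⟫ = y at h
    have hxy : (1 + x) * (1 + y) = 1 := by linear_combination (1 / 4 : ℝ) * h
    have hx : 1 + x ≠ 0 := left_ne_zero_of_mul_eq_one hxy
    have hy : 1 + y ≠ 0 := right_ne_zero_of_mul_eq_one hxy
    field_simp
    linear_combination hxy
  all_goals
    simp only [inner_sub_left, inner_sub_right, inner_add_right, n1, n2, n3, n4, k1, k2, k3, k4,
      c1, c2, c3, c4, c5, c6]
    ring

end Pool.Agent.MP_66cee2_co.P
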