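import Pool.Agent.MP_66cee2_co.P.Spec
import Pool.Agent.MP_66cee2_co.XJ.Poly
import Pool.Agent.MP_66cee2_co.XJ.Jet

/-
First order compatibility of the jets along an arbitrary set.
-/

namespace Pool.Agent.MP_66cee2_co.P

open MeasureTheory Set Filter Metric Topology Pool.Agent.MP_66cee2_co.X
open scoped ENNReal Pointwise

namespace FW

variable {d : ℕ}

/-- the translate of a polynomial. -/
noncomputable def sh (h : E d) (p : MvPolynomial (Fin d) ℝ) : MvPolynomial (Fin d) ℝ :=
  MvPolynomial.aeval (fun i => MvPolynomial.X i + MvPolynomial.C (h i)) p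

theorem sh_C (h : E d) (c : ℝ) : sh h (MvPolynomial.C c) = MvPolynomial.C c := by simp [sh]

theorem sh_add (h : E d) (p q : MvPolynomial (Fin d) ℝ) : sh h (p + q) = sh h p + sh h q := by
  simp [sh]

theorem sh_mul_X (h : E d) (p : MvPolynomial (Fin d) ℝ) (i : Fin d) :
    sh h (p * MvPolynomial.X i) = sh h p * MvPolynomial.X i + MvPolynomial.C (h i) * sh h p := by
  simp only [sh, map_mul, MvPolynomial.aeval_X]
  ring

theorem ev_sh (h : E d) (p : MvPolynomial (Fin d) ℝ) (η : E d) : ev (sh h p) η = ev p (η + h) := by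
  induction p using MvPolynomial.induction_on with
  | C c => simp [sh_C]
  | add p q hp hq => simp [sh_add, hp, hq]
  | mul_X p i hp =>
    rw [sh_mul_X]
    simp only [ev_add, ev_mul, ev_X, ev_C, hp, PiLp.add_apply]
    ring

theorem deg_sh (h : E d) {p : MvPolynomial (Fin d) ℝ} {K : ℕ} (hp : p.totalDegree ≤ K) :
    (sh h p).totalDegree ≤ K := by
  obtain ⟨q, hq, e⟩ := (isPoly_ev p hp).shift h
  have : sh h p = q := MvPolynomial.funext fun x =>
    (ev_sh h p (WithLp.toLp 2 x)).trans (e (WithLp.toLp 2 x))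
  rwa [this]

/-- the derivative of the coefficients of the translate. -/
theorem sh_lim {h : ℕ → E d} {t : ℕ → ℝ} {e : Fin d} (ht : ∀ l, t l ≠ 0)
    (ht0 : Tendsto t atTop (𝓝 0))
    (hh : ∀ i, Tendsto (fun l => (t l)⁻¹ * h l i) atTop (𝓝 (if e = i then 1 else 0)))
    (p : MvPolynomial (Fin d) ℝ) (m : Fin d →₀ ℕ) :
    Tendsto (fun l => (t l)⁻¹ * ((sh (h l) p).coeff m - p.coeff m)) atTop
      (𝓝 ((MvPolynomial.pderiv e p).coeff m)) := by
  induction p using MvPolynomial.induction_on generalizing m with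
  | C c => simp [sh_C]
  | add p q hp hq =>
    simp only [sh_add, map_add, MvPolynomial.coeff_add]
    exact ((hp m).add (hq m)).congr fun l => by ring
  | mul_X p i hp =>
    have h1 : Tendsto (fun l => (sh (h l) p).coeff m) atTop (𝓝 (p.coeff m)) := by
      have := (ht0.mul (hp m)).add_const (p.coeff m)
      rw [zero_mul, zero_add] at this
      exact this.congr fun l => by rw [mul_inv_cancel_left₀ (ht l)]; ring
    have h2 := (hh i).mul h1
    have h3 : (p * MvPolynomial.pderiv e (MvPolynomial.X i)).coeff m =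
        (if e = i then 1 else 0) * p.coeff m := by
      split_ifs with hi
      · rw [hi, MvPolynomial.pderiv_X_self, mul_one, one_mul]
      · rw [MvPolynomial.pderiv_X_of_ne (Ne.symm hi), mul_zero, zero_mul, MvPolynomial.coeff_zero]
    simp only [sh_mul_X, MvPolynomial.pderiv_mul, MvPolynomial.coeff_add, h3,
      MvPolynomial.coeff_mul_X', MvPolynomial.coeff_C_mul]
    by_cases hi : i ∈ m.support
    · simp only [if_pos hi]
      exact ((hp _).add h2).congr fun l => by ring
    · simp only [if_neg hi, zero_add, sub_zero]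
      exact h2.congr fun l => by ring

/-- truncation of the expansions. -/
theorem trunc {g : E d → ℝ} {ψ : MvPowerSeries (Fin d) ℝ} (h : Jet g ψ) (K : ℕ) :
    ∃ T : MvPolynomial (Fin d) ℝ, T.totalDegree ≤ K ∧
      (∀ m : Fin d →₀ ℕ, m.degree < K → T.coeff m = MvPowerSeries.coeff m ψ) ∧ Tay g T K := by
  classical
  obtain ⟨T, hT, h⟩ := h K
  have hc : ∀ m : Fin d →₀ ℕ, m.degree < K →
      (∑ n ∈ T.support with n.degree < K, MvPolynomial.monomial n (T.coeff n)).coeff m =
        T.coeff m := fun m hm => by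
    simp only [MvPolynomial.coeff_sum, MvPolynomial.coeff_monomial, Finset.sum_ite_eq',
      Finset.mem_filter, MvPolynomial.mem_support_iff, hm, and_true]
    split_ifs with h0
    · rfl
    · exact (not_not.1 h0).symm
  refine ⟨∑ n ∈ T.support with n.degree < K, MvPolynomial.monomial n (T.coeff n),
    MvPolynomial.totalDegree_finsetSum_le fun n hn =>
      (MvPolynomial.totalDegree_monomial_le _ _).trans (Finset.mem_filter.1 hn).2.le,
    fun m hm => (hc m hm).trans (hT m hm), jet_nat.2 ?_⟩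
  have h1 := jet_small (p := T - ∑ n ∈ T.support with n.degree < K,
    MvPolynomial.monomial n (T.coeff n)) (k := K) fun m hm => by
      rw [MvPolynomial.coeff_sub, hc m hm, sub_self]
  exact ((jet_nat.1 h).add h1).congr_left fun z => by simp

/-- approach of a density point from a given direction. -/
theorem approach (A : Set (E d)) : ∀ᵐ x : E d, x ∈ A → ∀ v : E d, ∃ (w : ℕ → E d) (t : ℕ → ℝ),
    (∀ l, x + t l • w l ∈ A ∧ 0 < t l ∧ ‖w l - v‖ < 1) ∧ Tendsto t atTop (𝓝 0) ∧
      Tendsto w atTop (𝓝 v) := by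
  filter_upwards [ae_imp_of_ae_restrict (Besicovitch.ae_tendsto_measure_inter_div volume A)]
    with x hx hA v
  have h1 : ∀ l : ℕ, ∃ (w : E d) (t : ℝ), x + t • w ∈ A ∧ 0 < t ∧ t < 1 / ((l : ℝ) + 1) ∧
      ‖w - v‖ < 1 / ((l : ℝ) + 1) := fun l => by
    have hl : (0 : ℝ) < 1 / ((l : ℝ) + 1) := Nat.one_div_pos_of_nat
    obtain ⟨t, ⟨⟨y, hy, hy'⟩, ht⟩, ht'⟩ :=
      (((Measure.eventually_nonempty_inter_smul_of_density_one volume A x (hx hA)
        (ball v (1 / ((l : ℝ) + 1))) measurableSet_ball (measure_ball_pos volume v hl).ne').and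
          ev_pos).and (ev_lt hl)).exists
    obtain ⟨_, rfl, _, ⟨w, hw, rfl⟩, rfl⟩ := hy'
    exact ⟨w, t, hy, ht, ht', mem_ball_iff_norm.1 hw⟩
  choose w t h1 h2 h3 h4 using h1
  refine ⟨w, t, fun l => ⟨h1 l, h2 l, (h4 l).trans_le ?_⟩,
    squeeze_zero (fun l => (h2 l).le) (fun l => (h3 l).le) tendsto_one_div_add_atTop_nhds_zero_nat,
    tendsto_iff_norm_sub_tendsto_zero.2 (squeeze_zero (fun l => norm_nonneg _)
      (fun l => (h4 l).le) tendsto_one_div_add_atTop_nhds_zero_nat)⟩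
  rw [div_le_one (by positivity)]
  linarith [Nat.cast_nonneg (α := ℝ) l]

/-- a uniform form of the expansion. -/
def Uni (g : E2 → ℝ) (T : MvPolynomial (Fin 2) ℝ) (K N : ℕ) (x : E2) : Prop :=
  ∀ τ : ℝ, 0 < τ → τ < 1 / ((N : ℝ) + 1) →
    volume ({η | N * τ ^ K < |g (x + η) - ev T η|} ∩ ball 0 τ) ≤
      ENNReal.ofReal (1 / 10) * volume (ball (0 : E2) τ)

theorem uni_ev {g : E2 → ℝ} {T : MvPolynomial (Fin 2) ℝ} {K : ℕ} {x : E2}
    (h : Tay (fun η => g (x + η)) T K) : ∀ᶠ N in atTop, Uni g T K N x := by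
  obtain ⟨C, -, h⟩ := h.exists_nonneg
  have h1 := (small_iff.1 (h C le_rfl)).eventually_le one_pos (κ := 1 / 10) (by norm_num)
  obtain ⟨δ, hδ, h2⟩ := (nhdsGT_basis (0 : ℝ)).eventually_iff.1 h1
  filter_upwards [tendsto_natCast_atTop_atTop.eventually_ge_atTop C,
    tendsto_one_div_add_atTop_nhds_zero_nat.eventually (Iio_mem_nhds hδ)] with N hN hN' τ h0 hτ
  have h3 := h2 ⟨h0, hτ.trans hN'⟩
  simp only [one_mul, Real.rpow_natCast] at h3
  refine le_trans (measure_mono (inter_subset_inter_left _ fun η hη => ?_)) h3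
  exact lt_of_le_of_lt (mul_le_mul_of_nonneg_right hN (pow_nonneg h0.le _)) hη

/-- comparison of the expansions at two points. -/
theorem compare (K : ℕ) : ∃ C : ℝ, ∀ (g : E2 → ℝ) (T T' : MvPolynomial (Fin 2) ℝ) (N : ℕ)
    (x h : E2) (r : ℝ), T.totalDegree ≤ K → T'.totalDegree ≤ K → Uni g T K N x →
    Uni g T' K N (x + h) → ‖h‖ < r → 2 * r < 1 / ((N : ℝ) + 1) → ∀ m : Fin 2 →₀ ℕ,
      |(sh h T).coeff m - T'.coeff m| * r ^ m.degree ≤ C * N * r ^ K := by
  obtain ⟨C, hC⟩ := sPoly 2 K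
  refine ⟨C * (1 + 2 ^ K), fun g T T' N x h r hT hT' hx hy hh hr m => ?_⟩
  have h0 : 0 < r := (norm_nonneg h).trans_lt hh
  have h1 := hx (2 * r) (by linarith) hr
  have h2 := hy r h0 (by linarith)
  have h3 := hC (sh h T - T') r (N * r ^ K + N * (2 * r) ^ K)
    ((MvPolynomial.totalDegree_sub _ _).trans (max_le (deg_sh h hT) hT')) h0 (by positivity) ?_ m
  · rw [MvPolynomial.coeff_sub] at h3
    refine h3.trans (le_of_eq ?_)
    rw [mul_pow]
    ring
  have hs : {η | N * r ^ K + N * (2 * r) ^ K < |ev (sh h T - T') η|} ∩ ball 0 r ⊆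
      ({η | N * r ^ K < |g (x + h + η) - ev T' η|} ∩ ball 0 r) ∪
        (fun η => η + h) ⁻¹' ({η | N * (2 * r) ^ K < |g (x + η) - ev T η|} ∩ ball 0 (2 * r)) := by
    rintro η ⟨hη, hb⟩
    by_cases ha : N * r ^ K < |g (x + h + η) - ev T' η|
    · exact Or.inl ⟨ha, hb⟩
    · refine Or.inr ⟨?_, ?_⟩
      · simp only [mem_ofPred_eq, ev_sub, ev_sh] at hη ⊢
        have e : x + (η + h) = x + h + η := by abel
        rw [e]
        have := abs_sub_le (ev T (η + h)) (g (x + h + η)) (ev T' η)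
        rw [abs_sub_comm (ev T (η + h)) (g _)] at this
        linarith [not_lt.1 ha]
      · rw [mem_ball_zero_iff] at hb ⊢
        linarith [norm_add_le η h]
  have h4 := (measure_mono (μ := (volume : Measure E2)) hs).trans (measure_union_le _ _)
  rw [measure_preimage_add_right] at h4
  rw [vol_ball_mul (X := E2) two_pos, finrank_euclideanSpace_fin, ← mul_assoc] at h1
  refine (mul_le_mul_right (h4.trans (add_le_add h2 h1)) 2).trans (le_of_eq ?_)
  generalize volume (ball (0 : E2) r) = V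
  rw [← add_mul, ← mul_assoc, ← ENNReal.ofReal_mul (by norm_num),
    ← ENNReal.ofReal_add (by norm_num) (by norm_num), ← ENNReal.ofReal_ofNat 2,
    ← ENNReal.ofReal_mul (by norm_num)]
  norm_num

/-- the limit for one function. -/
theorem lim {g : E2 → ℝ} {T : MvPolynomial (Fin 2) ℝ} {T' : ℕ → MvPolynomial (Fin 2) ℝ}
    {D N : ℕ} {x : E2} {w : ℕ → E2} {t : ℕ → ℝ} {e : Fin 2} (hT : T.totalDegree ≤ D + 2)
    (hT' : ∀ l, (T' l).totalDegree ≤ D + 2) (hx : Uni g T (D + 2) N x)
    (hy : ∀ l, Uni g (T' l) (D + 2) N (x + t l • w l)) (ht : ∀ l, 0 < t l)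
    (hw : ∀ l, ‖w l‖ < 2) (ht0 : Tendsto t atTop (𝓝 0))
    (hw0 : Tendsto w atTop (𝓝 (EuclideanSpace.single e 1))) {m : Fin 2 →₀ ℕ}
    (hm : m.degree ≤ D) :
    Tendsto (fun l => (t l)⁻¹ * ((T' l).coeff m - T.coeff m)) atTop
      (𝓝 ((MvPolynomial.pderiv e T).coeff m)) := by
  obtain ⟨C, hC⟩ := compare (D + 2)
  have h1 := sh_lim (h := fun l => t l • w l) (e := e) (fun l => (ht l).ne') ht0 (fun i => by
    have := ((EuclideanSpace.proj i : E2 →L[ℝ] ℝ).continuous.tendsto _).comp hw0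
    simp only [EuclideanSpace.coe_proj, PiLp.single_apply, eq_comm (a := i)] at this
    refine this.congr fun l => ?_
    simp [inv_mul_cancel_left₀ (ht l).ne']) T m
  have h2 : Tendsto (fun l => (t l)⁻¹ * ((sh (t l • w l) T).coeff m - (T' l).coeff m)) atTop
      (𝓝 0) := by
    have hN : (0 : ℝ) < 1 / ((N : ℝ) + 1) / 4 := by positivity
    have h3 : Tendsto (fun l => |C| * N * 4 * t l) atTop (𝓝 0) := by
      simpa using ht0.const_mul (|C| * N * 4)
    refine squeeze_zero_norm' ?_ h3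
    filter_upwards [ht0.eventually (Iio_mem_nhds hN),
      ht0.eventually (Iio_mem_nhds one_half_pos)] with l hl hl'
    have h0 := ht l
    have h4 := hC g T (T' l) N x (t l • w l) (2 * t l) hT (hT' l) hx (hy l) (by
      rw [norm_smul, Real.norm_of_nonneg h0.le]
      nlinarith [hw l]) (by linarith) m
    have h5 : (2 * t l) ^ D ≤ (2 * t l) ^ m.degree :=
      pow_le_pow_of_le_one (by linarith) (by linarith) hm
    have h6 : C * N * (2 * t l) ^ (D + 2) ≤ |C| * N * 4 * t l * t l * (2 * t l) ^ m.degree := by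
      calc C * N * (2 * t l) ^ (D + 2) ≤ |C| * N * (2 * t l) ^ (D + 2) := by
            gcongr
            exact le_abs_self C
        _ = |C| * N * 4 * t l * t l * (2 * t l) ^ D := by ring
        _ ≤ _ := by gcongr
    have h7 := le_of_mul_le_mul_right (h4.trans h6) (by positivity)
    rw [Real.norm_eq_abs, abs_mul, abs_of_pos (inv_pos.2 h0), inv_mul_le_iff₀ h0]
    linarith
  have h3 := h1.sub h2
  rw [sub_zero] at h3
  exact h3.congr fun l => by ring

end FW

open FW in
theorem sFW : SFW := by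
  intro f φ S hS
  have hT : ∀ (D : ℕ) (x : E2) (a : Fin 3), ∃ T : MvPolynomial (Fin 2) ℝ, x ∈ S →
      T.totalDegree ≤ D + 2 ∧ (∀ m : Fin 2 →₀ ℕ, m.degree < D + 2 →
        T.coeff m = MvPowerSeries.coeff m (φ x a)) ∧
        Tay (fun η => f (x + η) a) T (D + 2 : ℕ) := fun D x a => by
    by_cases hx : x ∈ S
    · obtain ⟨T, h⟩ := trunc (hS x hx a).1 (D + 2)
      exact ⟨T, fun _ => h⟩
    · exact ⟨0, fun h => absurd h hx⟩
  choose T hT using hT
  have h1 : ∀ᵐ x : E2, ∀ D N : ℕ, _ := ae_all_iff.2 fun D => ae_all_iff.2 fun N =>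
    approach {x ∈ S | ∀ a, Uni (fun z => f z a) (T D x a) (D + 2) N x}
  filter_upwards [h1] with x hx hxS D e
  obtain ⟨N, hN⟩ := (eventually_all.2 fun a =>
    uni_ev (g := fun z => f z a) (hT D x a hxS).2.2).exists
  obtain ⟨w, t, h2, ht0, hw0⟩ := hx D N ⟨hxS, hN⟩ (EuclideanSpace.single e 1)
  refine ⟨fun l => x + t l • w l, t, fun l => ⟨(h2 l).1.1, (h2 l).2.1.ne'⟩, ht0,
    fun i j hij => tendsto_pi_nhds.2 fun a => ?_⟩
  have hm : (Finsupp.single (0 : Fin 2) i + Finsupp.single 1 j).degree = i + j := by simp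
  have h3 := lim (hT D x a hxS).1 (fun l => (hT D _ a (h2 l).1.1).1) (hN a)
    (fun l => (h2 l).1.2 a) (fun l => (h2 l).2.1) (fun l => by
      have := norm_add_le (w l - EuclideanSpace.single e 1) (EuclideanSpace.single e 1)
      rw [sub_add_cancel, PiLp.norm_single, norm_one] at this
      linarith [(h2 l).2.2]) ht0 hw0 (hm.trans_le hij)
  have h4 : (MvPolynomial.pderiv e (T D x a)).coeff
      (Finsupp.single (0 : Fin 2) i + Finsupp.single 1 j) = dcv (cv (φ x)) e i j a := by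
    rw [MvPolynomial.coeff_pderiv, (hT D x a hxS).2.1 _ (by
      rw [map_add, hm, Finsupp.degree_single]
      omega)]
    fin_cases e
    · simp [dcv, cv, add_right_comm, mul_comm]
    · simp [dcv, cv, add_assoc, mul_comm]
  rw [h4] at h3
  refine h3.congr fun l => ?_
  rw [(hT D x a hxS).2.1 _ (by omega), (hT D _ a (h2 l).1.1).2.1 _ (by omega)]
  rfl

end Pool.Agent.MP_66cee2_co.P
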