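import Pool.Agent.MP_66cee2_co.P.Spec
import Pool.Agent.MP_66cee2_co.XJ.Jet
import Pool.Agent.MP_66cee2_co.XJ.Poly

/-
Two consequences of the first order compatibility of the jets.
-/

namespace Pool.Agent.MP_66cee2_co.P

open MeasureTheory Set Filter Metric Topology Matrix Pool.Agent.MP_66cee2_co.X

namespace FW01

section DQ

variable {V W : Type} [NormedAddCommGroup V] [NormedSpace ℝ V] [NormedAddCommGroup W]
  [NormedSpace ℝ W]

/-- the difference quotients converge. -/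
def DQ (t : ℕ → ℝ) (u : ℕ → V) (u₀ du : V) : Prop :=
  Tendsto (fun l => (t l)⁻¹ • (u l - u₀)) atTop (𝓝 du)

theorem DQ.lim {t : ℕ → ℝ} {u : ℕ → V} {u₀ du : V} (h : DQ t u u₀ du) (ht : ∀ l, t l ≠ 0)
    (h0 : Tendsto t atTop (𝓝 0)) : Tendsto u atTop (𝓝 u₀) := by
  have h1 := (h0.smul h).const_add u₀
  rw [zero_smul, add_zero] at h1
  refine h1.congr fun l => ?_
  rw [smul_smul, mul_inv_cancel₀ (ht l), one_smul]
  abel

theorem DQ.eq {t : ℕ → ℝ} {u v : ℕ → V} {u₀ du v₀ dv : V} (h : DQ t u u₀ du)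
    (h' : DQ t v v₀ dv) (e : ∀ l, u l = v l) (e₀ : u₀ = v₀) : du = dv := by
  refine tendsto_nhds_unique h (Tendsto.congr (fun l => ?_) h')
  rw [e l, e₀]

theorem DQ.zero {t : ℕ → ℝ} {u : ℕ → V} {u₀ du : V} (h : DQ t u u₀ du) (e : ∀ l, u l = 0)
    (e₀ : u₀ = 0) : du = 0 := by
  refine h.eq (v := fun _ => 0) (v₀ := 0) ?_ e e₀
  simp only [DQ, sub_self, smul_zero]
  exact tendsto_const_nhds

theorem DQ.bil {t : ℕ → ℝ} {u v : ℕ → V} {u₀ du v₀ dv : V} (h : DQ t u u₀ du)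
    (h' : DQ t v v₀ dv) (ht : ∀ l, t l ≠ 0) (h0 : Tendsto t atTop (𝓝 0)) (B : V → V → W)
    (hc : Continuous fun p : V × V => B p.1 p.2)
    (hB : ∀ (s : ℝ) (a a₀ b b₀ : V), s • (B a b - B a₀ b₀) =
      B (s • (a - a₀)) b + B a₀ (s • (b - b₀))) :
    DQ t (fun l => B (u l) (v l)) (B u₀ v₀) (B du v₀ + B u₀ dv) := by
  have h1 := (hc.tendsto (du, v₀)).comp (Tendsto.prodMk_nhds h (h'.lim ht h0))
  have h2 := (hc.tendsto (u₀, dv)).comp (Tendsto.prodMk_nhds tendsto_const_nhds h')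
  exact (h1.add h2).congr fun l => (hB _ _ _ _ _).symm

end DQ

theorem dq_cross {t : ℕ → ℝ} {u v : ℕ → Fin 3 → ℝ} {u₀ du v₀ dv : Fin 3 → ℝ} (h : DQ t u u₀ du)
    (h' : DQ t v v₀ dv) (ht : ∀ l, t l ≠ 0) (h0 : Tendsto t atTop (𝓝 0)) :
    DQ t (fun l => crossProduct (u l) (v l)) (crossProduct u₀ v₀)
      (crossProduct du v₀ + crossProduct u₀ dv) := by
  refine h.bil h' ht h0 (fun a b => crossProduct a b) ?_ fun s a a₀ b b₀ => ?_
  · simp only [cross_apply]
    fun_prop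
  · simp only [map_smul, map_sub, LinearMap.smul_apply, LinearMap.sub_apply, smul_sub]
    abel

theorem dq_dot {t : ℕ → ℝ} {u v : ℕ → Fin 3 → ℝ} {u₀ du v₀ dv : Fin 3 → ℝ} (h : DQ t u u₀ du)
    (h' : DQ t v v₀ dv) (ht : ∀ l, t l ≠ 0) (h0 : Tendsto t atTop (𝓝 0)) :
    DQ t (fun l => u l ⬝ᵥ v l) (u₀ ⬝ᵥ v₀) (du ⬝ᵥ v₀ + u₀ ⬝ᵥ dv) := by
  refine h.bil h' ht h0 (fun a b => a ⬝ᵥ b) ?_ fun s a a₀ b b₀ => ?_
  · fun_prop
  · simp only [smul_dotProduct, dotProduct_smul, sub_dotProduct, dotProduct_sub, smul_eq_mul]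
    ring

theorem idx (m : Fin 2 →₀ ℕ) : m = Finsupp.single 0 (m 0) + Finsupp.single 1 (m 1) := by
  ext i
  fin_cases i <;> simp

theorem flat {f : E2 → E3} {x : E2} {φ : Fin 3 → MvPowerSeries (Fin 2) ℝ} (h : JetV f x φ)
    (h0 : ∀ i j, 1 ≤ i + j → cv φ i j = 0) : FlatAt f x := by
  have hJ := sJet sPoly
  have e : ∀ a, φ a - MvPowerSeries.C (f x a) = 0 := fun a => by
    ext m
    rw [map_sub, map_zero, MvPowerSeries.coeff_C]
    split_ifs with hm
    · rw [hm, MvPowerSeries.coeff_zero_eq_constantCoeff_apply, (h a).2, sub_self]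
    · have h1 : 1 ≤ m 0 + m 1 := by
        by_contra hn
        refine hm ?_
        rw [idx m, show m 0 = 0 by omega, show m 1 = 0 by omega]
        simp
      have h2 := congrFun (h0 _ _ h1) a
      simp only [cv, Pi.zero_apply] at h2
      rw [← idx m] at h2
      rw [h2, sub_zero]
  intro K
  have h1 : ∀ a, ∃ C : ℝ, Small fun τ => {η : E2 | C * τ ^ K < |f (x + η) a - f x a|} := fun a => by
    have h2 := hJ.sub 2 _ _ _ _ (h a).1 (hJ.const 2 (f x a))
    rw [e a] at h2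
    exact hJ.zero 2 _ h2 K
  choose C hC using h1
  refine ⟨C 0 + C 1 + C 2, small_iff.2 ((smR_exists fun a => small_iff.1 (hC a)).mono'
    fun τ η hη => ?_)⟩
  by_contra hn
  simp only [mem_ofPred_eq, not_exists, not_lt] at hn hη
  have h3 : ‖f (x + η) - f x‖ ≤ ∑ a, |f (x + η) a - f x a| := by
    rw [EuclideanSpace.norm_eq]
    refine Real.sqrt_le_iff.2 ⟨by positivity, ?_⟩
    simp only [Fin.sum_univ_three, PiLp.sub_apply, Real.norm_eq_abs]
    have a0 := abs_nonneg (f (x + η) 0 - f x 0)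
    have a1 := abs_nonneg (f (x + η) 1 - f x 1)
    have a2 := abs_nonneg (f (x + η) 2 - f x 2)
    nlinarith [mul_nonneg a0 a1, mul_nonneg a0 a2, mul_nonneg a1 a2]
  rw [Fin.sum_univ_three] at h3
  nlinarith [hn 0, hn 1, hn 2]

end FW01

open FW01

theorem sFW0 (h : SFW) : SFW0 := by
  intro f φ S hS
  have h1 : ∀ᵐ x : E2, ∀ k : ℕ,
      x ∈ {x ∈ S | ∀ i j, 1 ≤ i + j → i + j ≤ k + 1 → cv (φ x) i j = 0} →
      ∀ i j, 1 ≤ i + j → i + j ≤ k + 2 → cv (φ x) i j = 0 := by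
    refine ae_all_iff.2 fun k => ?_
    filter_upwards [h f φ {x ∈ S | ∀ i j, 1 ≤ i + j → i + j ≤ k + 1 → cv (φ x) i j = 0}
      fun x hx => hS x hx.1] with x hx hxS i j hi hj
    have key : ∀ (e : Fin 2) i j, 1 ≤ i + j → i + j ≤ k + 1 → dcv (cv (φ x)) e i j = 0 := by
      intro e i j hi hj
      obtain ⟨y, t, hy, -, hl⟩ := hx hxS (k + 1) e
      exact DQ.zero (hl i j hj) (fun l => (hy l).1.2 i j hi hj) (hxS.2 i j hi hj)
    rcases Nat.lt_or_ge (i + j) (k + 2) with hlt | hge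
    · exact hxS.2 i j hi (by omega)
    rcases i with _ | i
    · obtain ⟨j, rfl⟩ : ∃ j', j = j' + 1 := ⟨j - 1, by omega⟩
      have h2 := key 1 0 j (by omega) (by omega)
      simp only [dcv, one_ne_zero, if_false] at h2
      exact (smul_eq_zero.1 h2).resolve_left (by positivity)
    · have h2 := key 0 i j (by omega) (by omega)
      simp only [dcv, if_true] at h2
      exact (smul_eq_zero.1 h2).resolve_left (by positivity)
  filter_upwards [h1] with x hx hxS h10 h01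
  have h2 : ∀ k : ℕ, ∀ i j, 1 ≤ i + j → i + j ≤ k + 1 → cv (φ x) i j = 0 := by
    intro k
    induction k with
    | zero =>
      intro i j hi hj
      rcases i with _ | i
      · rwa [show j = 1 by omega]
      · rwa [show i = 0 by omega, show j = 0 by omega]
    | succ k ih => exact hx k ⟨hxS, ih⟩
  exact flat (hS x hxS) fun i j hi => h2 (i + j) i j hi (by omega)

theorem sFW1 (h : SFW) : SFW1 := by
  intro f φ S hS
  filter_upwards [h f φ {x ∈ S | crossProduct (cv (φ x) 1 0) (cv (φ x) 0 1) = 0}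
    fun x hx => hS x hx.1, h f φ {x ∈ S | TL (cv (φ x))} fun x hx => hS x hx.1]
    with x hx hx' hxS
  refine ⟨fun hc => ⟨?_, ?_⟩, fun hT => ?_⟩
  · obtain ⟨y, t, hy, h0, hl⟩ := hx ⟨hxS, hc⟩ 1 0
    have h2 := (dq_cross (hl 1 0 le_rfl) (hl 0 1 le_rfl) (fun l => (hy l).2) h0).zero
      (fun l => (hy l).1.2) hc
    simp only [dcv, if_true, Nat.cast_one, Nat.cast_zero, zero_add, one_smul,
      one_add_one_eq_two] at h2
    exact h2
  · obtain ⟨y, t, hy, h0, hl⟩ := hx ⟨hxS, hc⟩ 1 1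
    have h2 := (dq_cross (hl 1 0 le_rfl) (hl 0 1 le_rfl) (fun l => (hy l).2) h0).zero
      (fun l => (hy l).1.2) hc
    simp only [dcv, one_ne_zero, if_false, Nat.cast_one, Nat.cast_zero, zero_add, one_smul,
      one_add_one_eq_two] at h2
    exact h2
  · have h12 : cv (φ x) 1 2 = 0 := by
      obtain ⟨y, t, hy, h0, hl⟩ := hx' ⟨hxS, hT⟩ 2 1
      have h2 := DQ.zero (hl 1 1 le_rfl) (fun l => (hy l).1.2.2.2.1) hT.2.2.1
      simp only [dcv, one_ne_zero, if_false] at h2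
      exact (smul_eq_zero.1 h2).resolve_left (by positivity)
    obtain ⟨y, t, hy, h0, hl⟩ := hx' ⟨hxS, hT⟩ 2 0
    have h30 : cv (φ x) 3 0 = 0 := by
      have h2 := DQ.eq (hl 2 0 le_rfl) (hl 0 2 le_rfl) (fun l => (hy l).1.2.2.2.2.1) hT.2.2.2.1
      simp only [dcv, if_true, zero_add, h12, smul_zero] at h2
      exact (smul_eq_zero.1 h2).resolve_left (by positivity)
    have h2 := (dq_dot (hl 2 0 le_rfl) (hl 1 0 one_le_two) (fun l => (hy l).2) h0).zero
      (fun l => (hy l).1.2.2.2.2.2.1) hT.2.2.2.2.1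
    simp only [dcv, if_true, Nat.reduceAdd, h30, smul_zero, zero_dotProduct, zero_add,
      dotProduct_smul, smul_eq_mul] at h2
    exact dotProduct_self_eq_zero.1 ((mul_eq_zero.1 h2).resolve_left (by positivity))

end Pool.Agent.MP_66cee2_co.P
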