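import Pool.Agent.MP_66cee2_co.P.Spec
import Pool.Agent.MP_66cee2_co.XJ.Sig
import Pool.Agent.MP_66cee2_co.XJ.Up
import Pool.Agent.MP_66cee2_co.XJ.Rows
import Pool.Agent.MP_66cee2_co.XJ.Gal

/-
Flat maps give a dense family of open sets with labels at unit distance.
-/

namespace Pool.Agent.MP_66cee2_co.P

open MeasureTheory Set Filter Metric Topology Matrix Pool.Agent.MP_66cee2_co.X
open scoped ENNReal RealInnerProductSpace

namespace Fam

theorem meas_c {g : E2 → E3} (hg : Measurable g) (a : Ix 3) :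
    Measurable fun x => Jv (lift (g x)) a := by
  rcases a with i | b
  · simp only [Jv, lift]
    fun_prop
  · rcases b with _ | _
    · simp only [Jv, Bool.not_false, lift]
      fun_prop
    · simp only [Jv, Bool.not_true, lift]
      fun_prop

theorem lip_c (u v : E3) (M : ℝ) (h : ‖u - v‖ ≤ M) :
    ‖Jv (lift u) - Jv (lift v)‖ ≤ (2 + 2 * ‖v‖ + M) * ‖u - v‖ := by
  have h0 := norm_nonneg (u - v)
  have h1 := norm_nonneg v
  have h2 := norm_nonneg u
  refine (pi_norm_le_iff_of_nonneg (mul_nonneg (by linarith) h0)).2 fun a => ?_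
  rw [Pi.sub_apply, Real.norm_eq_abs]
  rcases a with i | b
  · simp only [Jv, lift]
    have h3 : |u i - v i| ≤ ‖u - v‖ := by
      have := PiLp.norm_apply_le (u - v) i
      rwa [Real.norm_eq_abs, PiLp.sub_apply] at this
    rw [← mul_sub, abs_mul, abs_two]
    nlinarith
  · rcases b with _ | _
    · simp only [Jv, Bool.not_false, lift, sub_self, abs_zero]
      exact mul_nonneg (by linarith) h0
    · simp only [Jv, Bool.not_true, lift]
      have h3 := abs_le.1 (abs_norm_sub_norm_le u v)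
      rw [abs_le]
      constructor <;> nlinarith [h3.1, h3.2]

theorem flat_c {g : E2 → E3} {y : E2} (h : FlatAt g y) (K : ℕ) :
    ∃ C : ℝ, Small fun τ =>
      {η | C * τ ^ K < ‖Jv (lift (g (y + η))) - Jv (lift (g y))‖} := by
  obtain ⟨C₀, h0⟩ := h 0
  obtain ⟨C₁, h1⟩ := h K
  refine ⟨(2 + 2 * ‖g y‖ + C₀) * C₁, small_iff.2
    (((small_iff.1 h0).union (small_iff.1 h1)).mono' fun τ η hη => ?_)⟩
  by_contra hn
  simp only [mem_union, mem_ofPred_eq, not_or, not_lt, pow_zero, mul_one] at hn hη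
  have h2 := lip_c (g (y + η)) (g y) C₀ hn.1
  have h3 : 0 ≤ 2 + 2 * ‖g y‖ + C₀ := by
    linarith [norm_nonneg (g y), norm_nonneg (g (y + η) - g y), hn.1]
  have h4 := mul_le_mul_of_nonneg_left hn.2 h3
  rw [mul_assoc] at hη
  linarith

/-- a set whose complement has density zero at a point has positive area. -/
theorem pos_of_small {S : Set E2} {x : E2} (h : Small fun _ => {η | x + η ∉ S}) :
    0 < volume S := by
  rw [pos_iff_ne_zero]
  intro h0
  have h1 : ∀ᵐ η : E2, x + η ∉ S :=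
    (measurePreserving_add_left volume x).quasiMeasurePreserving.ae
      (measure_eq_zero_iff_ae_notMem.1 h0)
  obtain ⟨τ, z, -, hz⟩ :=
    (((small_iff.1 h).union (smR_of_ae h1)).exists_notMem one_pos).exists
  simp only [mem_union, mem_ofPred_eq, not_or, not_not] at hz
  exact hz.2 hz.1

/-- the vectors that are orthogonal to a given vector. -/
def perp (u : Ix 3 → ℝ) : Submodule ℝ (Ix 3 → ℝ) where
  carrier := {ζ | lz ζ u = 0}
  add_mem' := by
    intro a b ha hb
    simp only [mem_ofPred_eq, lz] at ha hb ⊢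
    rw [add_dotProduct, ha, hb, add_zero]
  zero_mem' := by simp [lz]
  smul_mem' := by
    intro t a ha
    simp only [mem_ofPred_eq, lz] at ha ⊢
    rw [smul_dotProduct, ha, smul_zero]

theorem mem_perp {u ζ : Ix 3 → ℝ} : ζ ∈ perp u ↔ lz ζ u = 0 := Iff.rfl

theorem le_Sg {I ι : Type} {Z : I → Set E2} {W : I → Submodule ℝ (ι → ℝ)} {y : E2} {i : I}
    (h : y ∈ Nb (Z i)) : W i ≤ Sg Z W y :=
  le_iSup₂_of_le (f := fun i (_ : i ∈ {i | y ∈ Nb (Z i)}) => W i) i h le_rfl

theorem ball_nb {y z : E2} {r : ℝ} (hr : 0 < r) (h : ‖y - z‖ = 1) :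
    ball z (r / 2) ⊆ Nb (ball y r) := by
  intro z' hz' h0
  refine sSig.cap 2 (y - z) (r / 2) h (half_pos hr) (measure_mono_null (fun n hn => ?_) h0)
  rw [mem_ball_iff_norm] at hz' hn
  rw [mem_ofPred_eq, mem_ball_iff_norm]
  have e : z' + n - y = (z' - z) + (n - (y - z)) := by abel
  rw [e]
  linarith [norm_add_le (z' - z) (n - (y - z))]

/-- the family from countably many pieces. -/
theorem fam_of (hK : SKit) (h2 : SOpen) {g : E2 → E3} {I : Type} [Countable I]
    (Z : I → Set E2) (W : I → Submodule ℝ (Ix 3 → ℝ)) (hZ : ∀ i, MeasurableSet (Z i))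
    (ha : ∀ᵐ y, Sg Z W y ≤ perp (lift (g y)))
    (hb : ∀ᵐ z, ∃ i, z ∈ Z i ∧ ∀ u, Sg Z W z ≤ perp u → u ∈ W i) : ∃ O, Fam O := by
  refine ⟨fun v => {y | ∃ r, 0 < r ∧ ∀ᵐ y', y' ∈ ball y r → Sg Z W y' ≤ perp (lift v)},
    fun v => ?_, ?_, ?_⟩
  · rw [Metric.isOpen_iff]
    rintro y ⟨r, hr, h⟩
    refine ⟨r / 2, half_pos hr, fun y₁ hy₁ => ⟨r / 2, half_pos hr, h.mono fun y' hy' hb => hy' ?_⟩⟩
    rw [mem_ball] at hy₁ hb ⊢
    linarith [dist_triangle y' y₁ y]
  · rw [Metric.dense_iff]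
    intro x ρ hρ
    obtain ⟨y, hy, hG, r, hr, h⟩ := h2 I (Ix 3) Z W _ x ρ hZ ha hρ
    exact ⟨y, hy, mem_iUnion.2 ⟨g y, r, hr, h.mono fun y' h1 h3 => (h1 h3).trans hG⟩⟩
  · rintro v v' y z ⟨r, hr, h⟩ ⟨r', hr', h'⟩ hyz
    have hε : 0 < min (r / 2) r' := lt_min (half_pos hr) hr'
    obtain ⟨i, hi, hpos⟩ : ∃ i, lift v' ∈ W i ∧ volume (Z i ∩ ball z (min (r / 2) r')) ≠ 0 := by
      by_contra hn
      push Not at hn
      have h3 : ∀ᵐ z', ∀ i, lift v' ∈ W i → z' ∉ Z i ∩ ball z (min (r / 2) r') := by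
        refine ae_all_iff.2 fun i => ?_
        by_cases hi : lift v' ∈ W i
        · exact (measure_eq_zero_iff_ae_notMem.1 (hn i hi)).mono fun z' h _ => h
        · exact Eventually.of_forall fun z' h => absurd h hi
      refine (measure_ball_pos volume z hε).ne' (measure_eq_zero_iff_ae_notMem.2 ?_)
      filter_upwards [h3, hb, h'] with z' h4 ⟨i, h5, h6⟩ h7 h8
      exact h4 i (h6 _ (h7 (ball_subset_ball (min_le_right _ _) h8))) ⟨h5, h8⟩
    have h3 : volume (ball y r ∩ Nb (Z i)) ≠ 0 := fun h0 => hpos (measure_mono_null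
      (inter_subset_inter_right _ ((ball_subset_ball (min_le_left _ _)).trans (ball_nb hr hyz)))
      (hK.nb_swap _ _ measurableSet_ball (hZ i) h0))
    obtain ⟨y', hy', h4⟩ := Measure.exists_mem_of_measure_ne_zero_of_ae h3 (ae_restrict_of_ae h)
    have h5 := mem_perp.1 (h4 hy'.1 (le_Sg hy'.2 hi))
    rw [lz_comm, lz_lift] at h5
    have h6 := norm_nonneg (v - v')
    nlinarith

end Fam

theorem sFam (hK : SKit) (h1 : SCnt) (h2 : SOpen) : SFam := by
  classical
  intro g hg hfl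
  have mc := Fam.meas_c hg.meas
  obtain ⟨J, ξ, mJ, mξ, nrm, orth, uniq⟩ :=
    sRows 2 (Ix 3) Unit (fun x _ => Jv (lift (g x))) fun _ a => mc a
  have hD : ∀ j, Dual (fun x (_ : Unit) => Jv (lift (g x))) J fun y => ξ y j := fun j =>
    ⟨fun _ a => mc a, mJ, mξ j, fun y y' h a ha => by rw [nrm y j a ha, nrm y' j a (h ▸ ha)],
      fun k => sUp sSig 2 _ _ _ (mξ j) mc
        (ae_of_all _ fun y => (orth y j).mono fun ω h => h k), ae_of_all _ uniq⟩
  have mξ' : Measurable ξ := measurable_pi_iff.2 fun j => measurable_pi_iff.2 (mξ j)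
  have hlev : ∀ᵐ x : E2, 0 < volume {y | ξ y = ξ x} := by
    filter_upwards [ae_all_iff.2 fun j => h1 (Ix 3) _ J _ (hD j)
      (hfl.mono fun y hy => Fam.flat_c hy)] with x hx
    refine Fam.pos_of_small (x := x) (small_iff.2
      ((smR_exists fun j => small_iff.1 (hx j)).mono' fun τ η hη => ?_))
    by_contra hn
    simp only [mem_ofPred_eq, not_exists, Far, not_or, not_lt] at hn hη
    exact hη (funext fun j => sub_eq_zero.1 (norm_le_zero_iff.1 (hn j).2))
  have hspan : ∀ (x : E2) (u : Ix 3 → ℝ), (∀ᵐ ω ∂sig 2, lz u (lift (g (x + ω))) = 0) →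
      u ∈ Submodule.span ℝ (range (ξ x)) := fun x u hu => by
    rw [gal_span (nrm x) (orth x) (uniq x) u (hu.mono fun ω h _ => h)]
    exact Submodule.sum_mem _ fun j _ =>
      Submodule.smul_mem _ _ (Submodule.subset_span (mem_range_self j))
  have hc : Countable {p : Ix 3 → Ix 3 → ℝ | 0 < volume {y | ξ y = p}} :=
    (Measure.countable_meas_level_set_pos mξ').to_subtype
  have hZ : ∀ p : Ix 3 → Ix 3 → ℝ, MeasurableSet {y | ξ y = p} := fun p =>
    mξ' (measurableSet_singleton p)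
  refine Fam.fam_of hK h2 (g := g) (I := {p : Ix 3 → Ix 3 → ℝ | 0 < volume {y | ξ y = p}})
    (fun p => {y | ξ y = p.1}) (fun p => Submodule.span ℝ (range p.1)) (fun p => hZ p.1) ?_ ?_
  · have h3 : ∀ (p : {p : Ix 3 → Ix 3 → ℝ | 0 < volume {y | ξ y = p}}) (j : Ix 3),
        ∀ᵐ y, y ∉ {y | lz (p.1 j) (lift (g y)) ≠ 0} ∩ Nb {y | ξ y = p.1} := fun p j => by
      refine measure_eq_zero_iff_ae_notMem.1 (hK.nb_swap _ _ (hZ p.1) ?_ ?_)
      · refine (measurableSet_eq_fun ?_ measurable_const).compl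
        unfold lz dotProduct
        exact Finset.measurable_sum _ fun a _ => (mc a).const_mul _
      · rw [eq_empty_of_forall_notMem (s := _ ∩ _) ?_, measure_empty]
        rintro x ⟨hx, hx'⟩
        refine hx' (measure_eq_zero_iff_ae_notMem.2 ((orth x j).mono fun ω h hn => hn ?_))
        rw [← hx]
        exact h ()
    filter_upwards [ae_all_iff.2 fun p => ae_all_iff.2 (h3 p)] with y hy
    refine iSup₂_le fun p hp => Submodule.span_le.2 ?_
    rintro _ ⟨j, rfl⟩
    by_contra hn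
    exact hy p j ⟨hn, hp⟩
  · have h3 : ∀ᵐ x : E2, 0 < volume {y | ξ y = ξ x} ∧
        lift (g x) ∈ Submodule.span ℝ (range (ξ x)) := by
      filter_upwards [hlev, hg.unit] with x hx hu
      refine ⟨hx, hspan x _ (hu.mono fun ω h => ?_)⟩
      rw [lz_lift, h]
      norm_num
    filter_upwards [hlev, sSig.right 2 _ h3] with z hz hn
    refine ⟨⟨ξ z, hz⟩, rfl, fun u hu => hspan z u ?_⟩
    have h4 : ∀ᵐ n ∂sig 2, ∀ p : {p : Ix 3 → Ix 3 → ℝ | 0 < volume {y | ξ y = p}},
        ξ (z + n) = p.1 → z ∈ Nb {y | ξ y = p.1} := by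
      refine ae_all_iff.2 fun p => ?_
      by_cases hp : z ∈ Nb {y | ξ y = p.1}
      · exact Eventually.of_forall fun _ _ => hp
      · exact (measure_eq_zero_iff_ae_notMem.1 (not_not.1 hp)).mono fun n h h' => absurd h' h
    filter_upwards [hn, h4] with n h5 h6
    rw [lz_comm]
    have h7 := h6 ⟨ξ (z + n), h5.1⟩ rfl
    have h8 := Fam.le_Sg (I := {p : Ix 3 → Ix 3 → ℝ | 0 < volume {y | ξ y = p}})
      (Z := fun p => {y | ξ y = p.1}) (W := fun p => Submodule.span ℝ (range p.1))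
      (i := ⟨ξ (z + n), h5.1⟩) h7
    exact Fam.mem_perp.1 (hu (h8 h5.2))

end Pool.Agent.MP_66cee2_co.P
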