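import Pool.Agent.MP_66cee2_co.P.Spec
import Pool.Agent.MP_66cee2_co.XI.All
import Pool.Agent.MP_66cee2_co.XJ.Sig

/-
The isometric case: one isometry on a set of positive area, and the conclusion.
-/

namespace Pool.Agent.MP_66cee2_co.P

open MeasureTheory Set Filter Metric Topology Matrix Pool.Agent.MP_66cee2_co.X
open scoped ENNReal RealInnerProductSpace

namespace Iso

/-- the linear isometry with given orthonormal columns. -/
noncomputable def mkL (a b : E3) (ha : ‖a‖ = 1) (hb : ‖b‖ = 1) (hab : ⟪a, b⟫ = 0) :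
    E2 →ₗᵢ[ℝ] E3 where
  toFun v := v 0 • a + v 1 • b
  map_add' v w := by
    simp only [PiLp.add_apply, add_smul]
    abel
  map_smul' t v := by
    simp only [PiLp.smul_apply, smul_eq_mul, mul_smul, smul_add, RingHom.id_apply]
  norm_map' v := by
    refine (sq_eq_sq₀ (norm_nonneg _) (norm_nonneg _)).1 ?_
    change ‖v 0 • a + v 1 • b‖ ^ 2 = ‖v‖ ^ 2
    rw [norm_add_sq_real, inner_smul_left, inner_smul_right, hab, norm_smul, norm_smul, ha, hb,
      EuclideanSpace.norm_sq_eq, Fin.sum_univ_two]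
    simp

theorem pick {A : Set E2} (hA : sig 2 A ≠ 0) {p : E2 → Prop} (h : ∀ᵐ n ∂sig 2, p n) :
    ∃ n ∈ A, p n :=
  Measure.exists_mem_of_measure_ne_zero_of_ae hA (ae_restrict_of_ae h)

theorem ae_ne (m : E2) : ∀ᵐ n ∂sig 2, m ≠ n ∧ m ≠ -n := by
  have h1 := measure_eq_zero_iff_ae_notMem.1 (sig_point 2 le_rfl m)
  have h2 := measure_eq_zero_iff_ae_notMem.1 (sig_point 2 le_rfl (-m))
  filter_upwards [h1, h2] with n hn hn'
  exact ⟨fun e => hn e.symm, fun e => hn' (by rw [e, neg_neg]; rfl)⟩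

end Iso

open Iso

theorem sIso (hK : SKit) (h1 : SIsoM) (h2 : SCoc) : SIso := by
  intro f hf hI
  obtain ⟨hm, a, b, ha, hb, hab⟩ := h1 f hf
  have c0 : Measurable fun v : E2 => v 0 := by fun_prop
  have c1 : Measurable fun v : E2 => v 1 := by fun_prop
  have hL : ∀ x, ∃ L : E2 →ₗᵢ[ℝ] E3, IsoAt f x → ∀ v, L v = v 0 • a x + v 1 • b x := by
    intro x
    by_cases hx : IsoAt f x
    · exact ⟨mkL (a x) (b x) (hab x hx).1 (hab x hx).2.1 (hab x hx).2.2.1, fun _ _ => rfl⟩
    · exact ⟨mkL (EuclideanSpace.single 0 1) (EuclideanSpace.single 1 1) (by simp) (by simp)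
        (by simp [EuclideanSpace.inner_single_left]), fun h => absurd h hx⟩
  choose L hL using hL
  have hae : ∀ x, IsoAt f x → ∀ᵐ n ∂sig 2, f (x + n) = f x + L x n := fun x hx => by
    filter_upwards [(hab x hx).2.2.2] with n hn
    rw [hn, hL x hx, add_assoc]
  have hsw : AePair fun y x => IsoAt f x → f y = f x + ((y - x) 0 • a x + (y - x) 1 • b x) := by
    refine sig_swap 2 (fun x y => IsoAt f x →
      f y = f x + ((y - x) 0 • a x + (y - x) 1 • b x)) ?_ (ae_of_all _ fun x => ?_)
    · simp only [imp_iff_not_or, ofPred_or]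
      refine (measurable_fst hm).compl.union (measurableSet_eq_fun (hf.comp measurable_snd)
        ((hf.comp measurable_fst).add
          (((c0.comp (measurable_snd.sub measurable_fst)).smul (ha.comp measurable_fst)).add
            ((c1.comp (measurable_snd.sub measurable_fst)).smul (hb.comp measurable_fst)))))
    · by_cases hx : IsoAt f x
      · filter_upwards [hae x hx] with n hn _
        rw [hn, add_sub_cancel_left, hL x hx]
      · exact ae_of_all _ fun n h => absurd h hx
  have hI0 : volume {x | IsoAt f x} ≠ 0 := fun h => hI (measure_eq_zero_iff_ae_notMem.1 h)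
  obtain ⟨y, hy, hy'⟩ := Measure.exists_mem_of_measure_ne_zero_of_ae (hK.nb_pos _ hm hI0)
    (ae_restrict_of_ae hsw)
  have hA : sig 2 {n | IsoAt f (y + n)} ≠ 0 := hy
  have hback : ∀ᵐ n ∂sig 2, IsoAt f (y + n) → f (y + n) = f y + L (y + n) n := by
    filter_upwards [hy'] with n hn hx
    rw [hn hx, ← hL _ hx, sub_add_cancel_left, map_neg]
    abel
  have hfw : ∀ᵐ n ∂sig 2, ∀ᵐ n' ∂sig 2, IsoAt f (y + n) →
      f (y + n + n') = f y + L (y + n) (n + n') := by
    filter_upwards [hback] with n hn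
    by_cases hx : IsoAt f (y + n)
    · filter_upwards [hae _ hx] with n' hn' _
      rw [hn', hn hx, map_add, add_assoc]
    · exact ae_of_all _ fun n' h => absurd h hx
  have hfw' : ∀ᵐ n ∂sig 2, ∀ᵐ n' ∂sig 2, IsoAt f (y + n') →
      f (y + n' + n) = f y + L (y + n') (n' + n) := by
    have hy1 : Measurable fun z : E2 × E2 => y + z.1 := measurable_fst.const_add y
    have hms : MeasurableSet {z : E2 × E2 | IsoAt f (y + z.1) → f (y + z.1 + z.2) =
        f y + ((z.1 + z.2) 0 • a (y + z.1) + (z.1 + z.2) 1 • b (y + z.1))} := by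
      simp only [imp_iff_not_or, ofPred_or]
      exact (hy1 hm).compl.union (measurableSet_eq_fun (hf.comp (hy1.add measurable_snd))
        (measurable_const.add
          (((c0.comp (measurable_fst.add measurable_snd)).smul (ha.comp hy1)).add
            ((c1.comp (measurable_fst.add measurable_snd)).smul (hb.comp hy1)))))
    have h := (Measure.ae_ae_comm (μ := sig 2) (ν := sig 2) (p := fun n n' : E2 =>
      IsoAt f (y + n) → f (y + n + n') =
        f y + ((n + n') 0 • a (y + n) + (n + n') 1 • b (y + n))) hms).1 (by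
      filter_upwards [hfw] with n hn
      filter_upwards [hn] with n' hn' hx
      rw [hn' hx, hL _ hx])
    filter_upwards [h] with n hn
    filter_upwards [hn] with n' hn' hx
    rw [hn' hx, hL _ hx]
  have hQ : ∀ᵐ n ∂sig 2, ‖n‖ = 1 ∧ ∀ᵐ n' ∂sig 2, (n ≠ n' ∧ n ≠ -n') ∧ (IsoAt f (y + n) →
      IsoAt f (y + n') → L (y + n) (n + n') = L (y + n') (n + n')) := by
    filter_upwards [hfw, hfw', sig_unit 2 (by norm_num)] with n hn hn1 hu
    refine ⟨hu, ?_⟩
    filter_upwards [hn, hn1, ae_ne n] with n' h h' hne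
    refine ⟨hne, fun hx hx' => ?_⟩
    have e := h' hx'
    rw [add_right_comm y n' n, h hx, add_comm n' n] at e
    exact add_left_cancel e
  obtain ⟨n₀, x0, u0, q0⟩ := pick hA hQ
  refine ⟨L (y + n₀), f y - L (y + n₀) y, fun h0 => ?_⟩
  have hno := hK.two_null _ y (measure_eq_zero_iff_ae_notMem.1 h0)
  obtain ⟨n₁, x1, ⟨⟨⟨u1, q1⟩, q01⟩, w1⟩, no1⟩ := pick hA (((hQ.and q0).and hfw).and hno)
  obtain ⟨n₂, x2, ⟨⟨u2, -⟩, q02⟩, q12⟩ := pick hA ((hQ.and q0).and q1)
  have sw : ∀ {m m' : E2}, m ≠ m' ∧ m ≠ -m' → m' ≠ m ∧ m' ≠ -m := fun h =>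
    ⟨h.1.symm, fun e => h.2 (by rw [e, neg_neg])⟩
  have e01 := q01.2 x0 x1
  have e02 := q02.2 x0 x2
  have e12 := q12.2 x1 x2
  have hEq : L (y + n₀) = L (y + n₁) := by
    refine h2 ![L (y + n₀), L (y + n₁), L (y + n₂)] ![n₀, n₁, n₂] (fun i => ?_)
      (fun i j hij => ?_) (fun i j => ?_)
    · fin_cases i
      exacts [u0, u1, u2]
    · fin_cases i <;> fin_cases j
      exacts [absurd rfl hij, q01.1, q02.1, sw q01.1, absurd rfl hij, q12.1, sw q02.1, sw q12.1,
        absurd rfl hij]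
    · fin_cases i <;> fin_cases j
      exacts [rfl, e01, e02, (add_comm n₀ n₁ ▸ e01).symm, rfl, e12, (add_comm n₀ n₂ ▸ e02).symm,
        (add_comm n₁ n₂ ▸ e12).symm, rfl]
  obtain ⟨n', -, g1, g2⟩ := pick hA (w1.and no1)
  refine g2 ?_
  change f (y + n₁ + n') = L (y + n₀) (y + n₁ + n') + (f y - L (y + n₀) y)
  rw [g1 x1, ← hEq, add_assoc y, map_add (L (y + n₀)) y]
  abel

theorem sPinE (hK : SKit) : SPinE := by
  classical
  intro P f hF hf ho T c h0
  have hs := XI.sSig XI.sNull
  have hP := XI.sPin hs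
  have hR := XI.sSpr hs XI.sDec
  have hG := XI.EndA.cont T c
  obtain ⟨hl, hc⟩ := hK.lev_meas f hf
  have hinj : Function.Injective (XI.aff T c) := fun u v h =>
    T.injective (add_right_cancel h)
  have hm0 : MeasurableSet ({y | f y = T y + c} \ Lev f) :=
    (measurableSet_eq_fun hf (T.continuous.add continuous_const).measurable).diff hl
  have hv0 : volume ({y | f y = T y + c} \ Lev f) ≠ 0 := fun h => h0 (by
    refine measure_mono_null (t := ({y | f y = T y + c} \ Lev f) ∪ XI.aff T c ⁻¹' (f '' Lev f))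
      (fun y hy => ?_) (measure_union_null h ((hc.preimage hinj).measure_zero _))
    by_cases hy' : y ∈ Lev f
    · exact Or.inr ⟨y, hy', hy⟩
    · exact Or.inl ⟨hy, hy'⟩)
  have hm : MeasurableSet {x | 0 < P x sI sI ∧
      ∀ a b, P x a b = P x sI sI * lift (XI.aff T c x) a * lift (XI.aff T c x) b} := by
    simp only [ofPred_and, ofPred_forall]
    exact (measurableSet_lt measurable_const (hF.meas _ _)).inter
      (MeasurableSet.iInter fun a => MeasurableSet.iInter fun b => measurableSet_eq_fun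
        (hF.meas a b) (((hF.meas _ _).mul (hG a).measurable).mul (hG b).measurable))
  have h1 := XI.EndA.pin hP le_rfl hF T c
    (fun y => (if y ∈ Lev f then (0 : ℝ) else 1) • lift (f y)) _
    (fun y (hy : y ∈ {y | f y = T y + c} \ Lev f) =>
      ⟨1, one_ne_zero, by rw [if_neg hy.2, hy.1]; rfl⟩) (by
    filter_upwards [ho] with x hx
    filter_upwards [hx] with w hw a
    rw [XI.EndA.lz_smul]
    split_ifs with h
    · exact zero_mul _
    · rw [hw h a, mul_zero])
  have h2 := XI.EndA.pin hP le_rfl hF T c (fun y => P y sI) _ (fun y (hy : 0 < P y sI sI ∧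
      ∀ a b, P y a b = P y sI sI * lift (XI.aff T c y) a * lift (XI.aff T c y) b) =>
    ⟨P y sI sI, hy.1.ne', funext fun b => by
      rw [hy.2 sI b, Pi.smul_apply, smul_eq_mul]
      simp [lift]⟩) (by
    filter_upwards [hF.orth] with x hx
    filter_upwards [hx] with w hw a using hw a sI)
  have h3 := hR 2 _ le_rfl hm (fun h => XI.EndA.pos (hs 2 le_rfl).2.1 hm0 hv0 (by
    filter_upwards [h1, measure_eq_zero_iff_ae_notMem.1 h] with x hx hx'
    by_contra hc
    exact hx' (hx hc))) h2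
  refine ⟨XI.aff T c, fun x y => ?_, ?_⟩
  · rw [XI.aff, XI.aff, add_sub_add_right_eq_sub, ← map_sub, T.norm_map]
  · filter_upwards [h3] with x hx using hx.2

end Pool.Agent.MP_66cee2_co.P
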