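import Pool.Agent.MP_66cee2_co.P.Spec
import Pool.Agent.MP_66cee2_co.XJ.Sig

/-
The isometry at a point depends measurably on the point; three isometries of the plane that agree
on three concurrent lines are equal.
-/

namespace Pool.Agent.MP_66cee2_co.P

open MeasureTheory Set Filter Metric Topology Matrix Pool.Agent.MP_66cee2_co.X
open scoped ENNReal RealInnerProductSpace

namespace IsoM

theorem norm_sq2 (n : E2) : ‖n‖ ^ 2 = n 0 ^ 2 + n 1 ^ 2 := by
  rw [EuclideanSpace.real_norm_sq_eq, Fin.sum_univ_two]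

/-- the isometry with given orthonormal columns. -/
noncomputable def mkIso {F : Type} [NormedAddCommGroup F] [InnerProductSpace ℝ F] (a b : F)
    (ha : ‖a‖ = 1) (hb : ‖b‖ = 1) (hab : ⟪a, b⟫ = 0) : E2 →ₗᵢ[ℝ] F where
  toFun n := n 0 • a + n 1 • b
  map_add' u v := by
    simp only [PiLp.add_apply, add_smul]
    abel
  map_smul' t v := by
    simp only [PiLp.smul_apply, smul_eq_mul, RingHom.id_apply, smul_add, mul_smul]
  norm_map' n := by
    have h : ‖n 0 • a + n 1 • b‖ ^ 2 = ‖n‖ ^ 2 := by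
      rw [norm_add_sq_real, norm_smul, norm_smul, ha, hb, real_inner_smul_left,
        real_inner_smul_right, hab, norm_sq2]
      simp only [Real.norm_eq_abs, mul_one, sq_abs, mul_zero, add_zero]
    exact (pow_left_inj₀ (norm_nonneg _) (norm_nonneg _) two_ne_zero).1 h

theorem mkIso_apply {F : Type} [NormedAddCommGroup F] [InnerProductSpace ℝ F] (a b : F)
    (ha : ‖a‖ = 1) (hb : ‖b‖ = 1) (hab : ⟪a, b⟫ = 0) (n : E2) :
    mkIso a b ha hb hab n = n 0 • a + n 1 • b := rfl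

/-- first basis vector. -/
noncomputable def e0 : E2 := EuclideanSpace.single 0 1

/-- second basis vector. -/
noncomputable def e1 : E2 := EuclideanSpace.single 1 1

theorem norm_e0 : ‖e0‖ = 1 := by simp [e0]

theorem norm_e1 : ‖e1‖ = 1 := by simp [e1]

theorem inner_e : ⟪e0, e1⟫ = 0 := by
  simp [e0, e1, EuclideanSpace.inner_single_left]

theorem decomp (n : E2) : n = n 0 • e0 + n 1 • e1 := by
  ext i
  fin_cases i <;> simp [e0, e1]

theorem exists_turn : ∃ A : E2 ≃ₗᵢ[ℝ] E2, ∀ n, A n 0 = -n 1 ∧ A n 1 = n 0 := by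
  have h : ⟪e1, -e0⟫ = 0 := by
    rw [inner_neg_right, real_inner_comm, inner_e, neg_zero]
  refine ⟨(mkIso e1 (-e0) norm_e1 (by rw [norm_neg, norm_e0]) h).toLinearIsometryEquiv rfl,
    fun n => ?_⟩
  rw [LinearIsometry.toLinearIsometryEquiv_apply, mkIso_apply]
  simp [e0, e1]

theorem integrable_mul (i j : Fin 2) : Integrable (fun n : E2 => n i * n j) (sig 2) := by
  refine (integrable_const (1 : ℝ)).mono' (Continuous.aestronglyMeasurable (by fun_prop)) ?_
  filter_upwards [sSig.unit 2 (by norm_num)] with n hn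
  have h1 := PiLp.norm_apply_le n i
  have h2 := PiLp.norm_apply_le n j
  rw [hn] at h1 h2
  rw [norm_mul]
  exact mul_le_one₀ h1 (norm_nonneg _) h2

theorem integral_turn (g : E2 → ℝ) (hg : Continuous g) (A : E2 ≃ₗᵢ[ℝ] E2) :
    ∫ n, g (A n) ∂sig 2 = ∫ n, g n ∂sig 2 := by
  conv_rhs => rw [← sSig.inv 2 A]
  rw [integral_map A.continuous.measurable.aemeasurable hg.aestronglyMeasurable]

/-- the second moment. -/
noncomputable def cc : ℝ := ∫ n : E2, n 0 * n 0 ∂sig 2

theorem int11 : ∫ n : E2, n 1 * n 1 ∂sig 2 = cc := by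
  obtain ⟨A, hA⟩ := exists_turn
  rw [← integral_turn (fun n : E2 => n 1 * n 1) (by fun_prop) A]
  simp only [(hA _).2, cc]

theorem int01 : ∫ n : E2, n 0 * n 1 ∂sig 2 = 0 := by
  obtain ⟨A, hA⟩ := exists_turn
  have h := integral_turn (fun n : E2 => n 0 * n 1) (by fun_prop) A
  simp only [(hA _).1, (hA _).2] at h
  have h2 : ∫ n : E2, -n 1 * n 0 ∂sig 2 = -∫ n : E2, n 0 * n 1 ∂sig 2 := by
    rw [← integral_neg]
    congr 1
    funext n
    ring
  linarith

theorem int10 : ∫ n : E2, n 1 * n 0 ∂sig 2 = 0 := by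
  rw [← int01]
  congr 1
  funext n
  ring

theorem cc_ne : cc ≠ 0 := by
  have h1 : ∫ n : E2, (n 0 * n 0 + n 1 * n 1) ∂sig 2 = cc + cc := by
    rw [integral_add (integrable_mul 0 0) (integrable_mul 1 1), int11, cc]
  have h2 : ∫ n : E2, (n 0 * n 0 + n 1 * n 1) ∂sig 2 = ∫ _ : E2, (1 : ℝ) ∂sig 2 := by
    refine integral_congr_ae ?_
    filter_upwards [sSig.unit 2 (by norm_num)] with n hn
    have := norm_sq2 n
    rw [hn] at this
    nlinarith
  rw [h2, integral_const, smul_eq_mul, mul_one] at h1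
  intro h
  rw [h, add_zero, measureReal_def, ENNReal.toReal_eq_zero_iff] at h1
  rcases h1 with h1 | h1
  · exact sSig.ne 2 (by norm_num) (Measure.measure_univ_eq_zero.1 h1)
  · exact measure_ne_top _ _ h1

/-- the column of the isometry. -/
noncomputable def col (f : E2 → E3) (i : Fin 2) (x : E2) : E3 :=
  cc⁻¹ • ∫ n : E2, n i • (f (x + n) - f x) ∂sig 2

theorem measurable_col {f : E2 → E3} (hf : Measurable f) (i : Fin 2) : Measurable (col f i) := by
  have h : StronglyMeasurable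
      (Function.uncurry fun (x n : E2) => n i • (f (x + n) - f x)) := by
    refine Measurable.stronglyMeasurable ?_
    have h1 : Measurable fun z : E2 × E2 => z.2 i := by fun_prop
    exact h1.smul ((hf.comp (measurable_fst.add measurable_snd)).sub (hf.comp measurable_fst))
  exact (h.integral_prod_right (ν := sig 2)).measurable.const_smul cc⁻¹

theorem int_col {f : E2 → E3} {x : E2} {L : E2 →ₗᵢ[ℝ] E3}
    (h : ∀ᵐ n ∂sig 2, f (x + n) = f x + L n) (i : Fin 2) :
    ∫ n : E2, n i • (f (x + n) - f x) ∂sig 2 =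
      (∫ n : E2, n i * n 0 ∂sig 2) • L e0 + (∫ n : E2, n i * n 1 ∂sig 2) • L e1 := by
  rw [← integral_smul_const, ← integral_smul_const,
    ← integral_add ((integrable_mul i 0).smul_const _) ((integrable_mul i 1).smul_const _)]
  refine integral_congr_ae ?_
  filter_upwards [h] with n hn
  rw [hn, add_sub_cancel_left]
  conv_lhs => rw [decomp n, map_add, map_smul, map_smul, ← decomp n]
  rw [smul_add, mul_smul, mul_smul]

theorem col_zero {f : E2 → E3} {x : E2} {L : E2 →ₗᵢ[ℝ] E3}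
    (h : ∀ᵐ n ∂sig 2, f (x + n) = f x + L n) : col f 0 x = L e0 := by
  rw [col, int_col h, int01, zero_smul, add_zero, ← cc, inv_smul_smul₀ cc_ne]

theorem col_one {f : E2 → E3} {x : E2} {L : E2 →ₗᵢ[ℝ] E3}
    (h : ∀ᵐ n ∂sig 2, f (x + n) = f x + L n) : col f 1 x = L e1 := by
  rw [col, int_col h, int10, int11, zero_smul, zero_add, inv_smul_smul₀ cc_ne]

theorem isoAt_iff (f : E2 → E3) (x : E2) : IsoAt f x ↔
    ‖col f 0 x‖ = 1 ∧ ‖col f 1 x‖ = 1 ∧ ⟪col f 0 x, col f 1 x⟫ = 0 ∧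
      ∀ᵐ n ∂sig 2, f (x + n) = f x + n 0 • col f 0 x + n 1 • col f 1 x := by
  constructor
  · rintro ⟨L, h⟩
    rw [col_zero h, col_one h, L.norm_map, L.norm_map, L.inner_map_map]
    refine ⟨norm_e0, norm_e1, inner_e, ?_⟩
    filter_upwards [h] with n hn
    rw [hn, add_assoc, ← map_smul, ← map_smul, ← map_add, ← decomp n]
  · rintro ⟨ha, hb, hab, h⟩
    refine ⟨mkIso _ _ ha hb hab, ?_⟩
    filter_upwards [h] with n hn
    rw [hn, mkIso_apply, add_assoc]

theorem det_ne {p q r : E2} (hp : ‖p‖ = 1) (hq : ‖q‖ = 1) (hr : ‖r‖ = 1) (h1 : p ≠ -q)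
    (h2 : p ≠ -r) (h3 : q ≠ r) : det2 (p + q) (p + r) ≠ 0 := by
  intro h
  have ep := norm_sq2 p
  have eq' := norm_sq2 q
  have er := norm_sq2 r
  rw [hp] at ep
  rw [hq] at eq'
  rw [hr] at er
  simp only [det2, PiLp.add_apply] at h
  have key : ∀ u v : E2, (u 0 - v 0) ^ 2 + (u 1 - v 1) ^ 2 = 0 → u = v := fun u v huv => by
    have a0 : u 0 - v 0 = 0 := by nlinarith [sq_nonneg (u 0 - v 0), sq_nonneg (u 1 - v 1)]
    have a1 : u 1 - v 1 = 0 := by nlinarith [sq_nonneg (u 0 - v 0), sq_nonneg (u 1 - v 1)]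
    ext i
    fin_cases i
    · exact sub_eq_zero.1 a0
    · exact sub_eq_zero.1 a1
  have n1 : (p 0 + q 0) ^ 2 + (p 1 + q 1) ^ 2 ≠ 0 := fun e => h1 (key _ _ (by simpa using e))
  have n2 : (p 0 + r 0) ^ 2 + (p 1 + r 1) ^ 2 ≠ 0 := fun e => h2 (key _ _ (by simpa using e))
  refine h3 (key _ _ ?_)
  generalize p 0 = p0 at *
  generalize p 1 = p1 at *
  obtain ⟨A0, hA0⟩ : ∃ A0, A0 = p0 + q 0 := ⟨_, rfl⟩
  obtain ⟨A1, hA1⟩ : ∃ A1, A1 = p1 + q 1 := ⟨_, rfl⟩
  obtain ⟨B0, hB0⟩ : ∃ B0, B0 = p0 + r 0 := ⟨_, rfl⟩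
  obtain ⟨B1, hB1⟩ : ∃ B1, B1 = p1 + r 1 := ⟨_, rfl⟩
  have hA : A0 ^ 2 + A1 ^ 2 = 2 * (p0 * A0 + p1 * A1) := by
    rw [hA0, hA1]; linear_combination ep - eq'
  have hB : B0 ^ 2 + B1 ^ 2 = 2 * (p0 * B0 + p1 * B1) := by
    rw [hB0, hB1]; linear_combination ep - er
  have g : (q 0 - r 0) ^ 2 + (q 1 - r 1) ^ 2 = (A0 - B0) ^ 2 + (A1 - B1) ^ 2 := by
    rw [hA0, hA1, hB0, hB1]; ring
  rw [← hA0, ← hA1] at n1
  rw [← hB0, ← hB1] at n2
  rw [← hA0, ← hA1, ← hB0, ← hB1] at h
  rw [g]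
  have k1 : B0 ^ 2 + B1 ^ 2 = A0 * B0 + A1 * B1 := by
    refine mul_left_cancel₀ n1 ?_
    linear_combination (A0 ^ 2 + A1 ^ 2) * hB - (A0 * B0 + A1 * B1) * hA +
      2 * (p1 * A0 - p0 * A1) * h
  have k2 : A0 ^ 2 + A1 ^ 2 = A0 * B0 + A1 * B1 := by
    refine mul_left_cancel₀ n2 ?_
    linear_combination (B0 ^ 2 + B1 ^ 2) * hA - (A0 * B0 + A1 * B1) * hB +
      2 * (p0 * B1 - p1 * B0) * h
  linear_combination k1 + k2

theorem cramer2 (u w s : E2) : det2 u w • s = det2 s w • u + det2 u s • w := by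
  ext i
  fin_cases i <;> simp [det2] <;> ring

end IsoM

open IsoM

theorem sIsoM : SIsoM := by
  intro f hf
  have ha := measurable_col hf 0
  have hb := measurable_col hf 1
  refine ⟨?_, col f 0, col f 1, ha, hb, fun x hx => (isoAt_iff f x).1 hx⟩
  simp only [isoAt_iff, ofPred_and]
  refine (measurableSet_eq_fun ha.norm measurable_const).inter
    ((measurableSet_eq_fun hb.norm measurable_const).inter
      ((measurableSet_eq_fun (ha.inner hb) measurable_const).inter ?_))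
  have hs : MeasurableSet {z : E2 × E2 |
      f (z.1 + z.2) = f z.1 + z.2 0 • col f 0 z.1 + z.2 1 • col f 1 z.1} := by
    have h0 : Measurable fun z : E2 × E2 => z.2 0 := by fun_prop
    have h1 : Measurable fun z : E2 × E2 => z.2 1 := by fun_prop
    exact measurableSet_eq_fun (hf.comp (measurable_fst.add measurable_snd))
      (((hf.comp measurable_fst).add (h0.smul (ha.comp measurable_fst))).add
        (h1.smul (hb.comp measurable_fst)))
  exact measurable_measure_prodMk_left (ν := sig 2) hs.compl (measurableSet_singleton 0)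

theorem sCoc : SCoc := by
  intro L n hn hne h
  have d1 : det2 (n 0 + n 1) (n 0 + n 2) ≠ 0 :=
    det_ne (hn 0) (hn 1) (hn 2) (hne 0 1 (by decide)).2 (hne 0 2 (by decide)).2
      (hne 1 2 (by decide)).1
  have d2 : det2 (n 0 + n 1) (n 1 + n 2) ≠ 0 := by
    rw [add_comm (n 0)]
    exact det_ne (hn 1) (hn 0) (hn 2) (hne 1 0 (by decide)).2 (hne 1 2 (by decide)).2
      (hne 0 2 (by decide)).1
  have h01 := h 0 1
  have h02 := h 0 2
  have h12 := h 1 2
  generalize n 0 + n 1 = u at *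
  generalize n 0 + n 2 = w at *
  generalize n 1 + n 2 = s at *
  have c1 := congrArg (L 1) (cramer2 u w s)
  have c2 := congrArg (L 2) (cramer2 u w s)
  simp only [map_add, map_smul] at c1 c2
  rw [h12, c2, ← h01, ← h02] at c1
  have c3 := congrArg (fun v => ⟪v, L 0 w⟫) c1
  simp only [inner_add_left, real_inner_smul_left] at c3
  have i1 : ⟪L 2 u, L 0 w⟫ = ⟪u, w⟫ := by rw [h02, LinearIsometry.inner_map_map]
  rw [i1, LinearIsometry.inner_map_map, LinearIsometry.inner_map_map] at c3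
  have i2 : ⟪L 1 w, L 0 w⟫ = ⟪w, w⟫ := (mul_left_cancel₀ d2 (add_left_cancel c3)).symm
  have i3 : L 1 w = L 0 w := by
    rw [← sub_eq_zero, ← sq_eq_zero_iff.trans norm_eq_zero, norm_sub_sq_real, i2,
      LinearIsometry.norm_map, LinearIsometry.norm_map, real_inner_self_eq_norm_sq]
    ring
  ext1 v
  refine smul_right_injective _ d1 ?_
  simp only
  rw [← map_smul, ← map_smul, cramer2 u w v, map_add, map_add, map_smul, map_smul, map_smul,
    map_smul, h01, i3]

end Pool.Agent.MP_66cee2_co.P
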