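import Pool.Agent.MP_66cee2_co.P.Spec
import Pool.Agent.MP_66cee2_co.XJ.Sig

/-
The measure on the circle in polar coordinates: the Jacobian bound and short arcs.
-/

namespace Pool.Agent.MP_66cee2_co.P

open MeasureTheory Set Filter Metric Topology Pool.Agent.MP_66cee2_co.X
open scoped ENNReal RealInnerProductSpace

namespace Jac

/-- coordinates of the plane. -/
noncomputable def T (p : ℝ × ℝ) : E2 := !₂[p.1, p.2]

/-- the point of the circle with a given angle. -/
noncomputable def e (θ : ℝ) : E2 := !₂[Real.cos θ, Real.sin θ]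

/-- the interval of angles. -/
def I : Set ℝ := Ioo (-Real.pi) Real.pi

theorem T_mp : MeasurePreserving T volume volume := by
  have h := (PiLp.volume_preserving_toLp (Fin 2)).comp (volume_preserving_finTwoArrow ℝ).symm
  have hT : T = WithLp.toLp 2 ∘ (MeasurableEquiv.finTwoArrow (α := ℝ)).symm := by
    funext p
    ext i
    fin_cases i <;> simp [T, MeasurableEquiv.finTwoArrow]
  rw [hT]
  exact h

theorem e_cont : Continuous e := by
  unfold e
  fun_prop

theorem e_meas : Measurable e := e_cont.measurable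

theorem e_norm (θ : ℝ) : ‖e θ‖ = 1 := by
  rw [EuclideanSpace.norm_eq]
  simp [e, Fin.sum_univ_two]

theorem T_polar (p : ℝ × ℝ) : T (polarCoord.symm p) = p.1 • e p.2 := by
  ext i
  fin_cases i <;> simp [T, e, polarCoord_symm_apply]

theorem half : ∫⁻ r in Ioi (0 : ℝ), (Iio (1 : ℝ)).indicator (fun r => ENNReal.ofReal r) r =
    ENNReal.ofReal (1 / 2) := by
  rw [lintegral_indicator measurableSet_Iio, Measure.restrict_restrict measurableSet_Iio,
    inter_comm, Ioi_inter_Iio, ← ofReal_integral_eq_lintegral_ofReal]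
  · rw [← integral_Ioc_eq_integral_Ioo, ← intervalIntegral.integral_of_le zero_le_one,
      integral_id]
    norm_num
  · exact (continuous_id.integrableOn_Icc (a := (0 : ℝ)) (b := 1)).mono_set Ioo_subset_Icc_self
  · filter_upwards [ae_restrict_mem measurableSet_Ioo] with r hr
    exact hr.1.le

theorem sig_lint {g : E2 → ℝ≥0∞} (hg : Measurable g) :
    ∫⁻ n, g n ∂sig 2 = ENNReal.ofReal (1 / 2) * ∫⁻ θ in I, g (e θ) := by
  have hF : Measurable ((ball (0 : E2) 1).indicator fun z => g (‖z‖⁻¹ • z)) :=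
    (hg.comp (sig_meas 2)).indicator measurableSet_ball
  rw [sig, lintegral_map hg (sig_meas 2), ← lintegral_indicator measurableSet_ball,
    ← T_mp.lintegral_comp hF, ← lintegral_comp_polarCoord_symm, ← half,
    ← lintegral_prod_mul (f := (Iio (1 : ℝ)).indicator fun r => ENNReal.ofReal r)
      (g := fun θ => g (e θ))
      (ENNReal.measurable_ofReal.indicator measurableSet_Iio).aemeasurable
      (hg.comp e_meas).aemeasurable, Measure.prod_restrict]
  refine setLIntegral_congr_fun polarCoord.open_target.measurableSet fun p hp => ?_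
  have hp1 : 0 < p.1 := hp.1
  have hn : ‖p.1 • e p.2‖ = p.1 := by
    rw [norm_smul, e_norm, mul_one, Real.norm_of_nonneg hp1.le]
  simp only [T_polar, smul_eq_mul]
  by_cases h1 : p.1 < 1
  · rw [indicator_of_mem (by rwa [mem_ball_zero_iff, hn]), indicator_of_mem (by exact h1), hn,
      smul_smul, inv_mul_cancel₀ hp1.ne', one_smul]
  · rw [indicator_of_notMem (by rwa [mem_ball_zero_iff, hn]), indicator_of_notMem (by exact h1)]
    simp

theorem sig_eq : sig 2 = ENNReal.ofReal (1 / 2) • (volume.restrict I).map e := by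
  ext s hs
  rw [← lintegral_indicator_one hs, sig_lint (measurable_one.indicator hs), Measure.smul_apply,
    ← lintegral_indicator_one hs, lintegral_map (measurable_one.indicator hs) e_meas, smul_eq_mul]

/-- the sum of two unit vectors in coordinates. -/
noncomputable def Φ (p : ℝ × ℝ) : ℝ × ℝ :=
  (Real.cos p.1 + Real.cos p.2, Real.sin p.1 + Real.sin p.2)

/-- the derivative. -/
noncomputable def Φ' (p : ℝ × ℝ) : ℝ × ℝ →L[ℝ] ℝ × ℝ :=
  (Matrix.toLin (.finTwoProd ℝ) (.finTwoProd ℝ)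
    !![-Real.sin p.1, -Real.sin p.2; Real.cos p.1, Real.cos p.2]).toContinuousLinearMap

/-- the determinant. -/
noncomputable def D (p : ℝ × ℝ) : ℝ := Real.cos p.1 * Real.sin p.2 - Real.sin p.1 * Real.cos p.2

theorem Φ_deriv (p : ℝ × ℝ) : HasFDerivAt Φ (Φ' p) p := by
  unfold Φ'
  rw [Matrix.toLin_finTwoProd_toContinuousLinearMap]
  exact HasFDerivAt.prodMk (𝕜 := ℝ)
    (((Real.hasDerivAt_cos p.1).comp_hasFDerivAt p hasFDerivAt_fst).add
      ((Real.hasDerivAt_cos p.2).comp_hasFDerivAt p hasFDerivAt_snd))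
    (((Real.hasDerivAt_sin p.1).comp_hasFDerivAt p hasFDerivAt_fst).add
      ((Real.hasDerivAt_sin p.2).comp_hasFDerivAt p hasFDerivAt_snd))

theorem Φ_det (p : ℝ × ℝ) : (Φ' p).det = D p := by
  unfold Φ' D
  simp only [LinearMap.det_toContinuousLinearMap, LinearMap.det_toLin, Matrix.det_fin_two_of]
  ring

theorem alg {x1 y1 x2 y2 u1 v1 u2 v2 : ℝ} (h1 : x1 ^ 2 + y1 ^ 2 = 1) (h2 : x2 ^ 2 + y2 ^ 2 = 1)
    (h3 : u1 ^ 2 + v1 ^ 2 = 1) (h4 : u2 ^ 2 + v2 ^ 2 = 1) (hx : x1 + x2 = u1 + u2)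
    (hy : y1 + y2 = v1 + v2) (hD : 0 < (x1 * y2 - y1 * x2) * (u1 * v2 - v1 * u2)) :
    x1 = u1 ∧ y1 = v1 ∧ x2 = u2 ∧ y2 = v2 := by
  have hin : x1 * x2 + y1 * y2 = u1 * u2 + v1 * v2 := by
    have : (x1 + x2) ^ 2 + (y1 + y2) ^ 2 = (u1 + u2) ^ 2 + (v1 + v2) ^ 2 := by rw [hx, hy]
    nlinarith
  have hsq : (x1 * y2 - y1 * x2) ^ 2 = (u1 * v2 - v1 * u2) ^ 2 := by
    have a1 : (x1 * y2 - y1 * x2) ^ 2 = 1 - (x1 * x2 + y1 * y2) ^ 2 := by
      linear_combination (x2 ^ 2 + y2 ^ 2) * h1 + h2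
    have a2 : (u1 * v2 - v1 * u2) ^ 2 = 1 - (u1 * u2 + v1 * v2) ^ 2 := by
      linear_combination (u2 ^ 2 + v2 ^ 2) * h3 + h4
    rw [a1, a2, hin]
  have hDD : x1 * y2 - y1 * x2 = u1 * v2 - v1 * u2 := by
    rcases sq_eq_sq_iff_eq_or_eq_neg.1 hsq with h | h
    · exact h
    · rw [h] at hD
      nlinarith [sq_nonneg (u1 * v2 - v1 * u2)]
  have hs : (x1 + x2) ^ 2 + (y1 + y2) ^ 2 ≠ 0 := by
    intro h
    have a1 : x1 + x2 = 0 := by nlinarith [sq_nonneg (x1 + x2), sq_nonneg (y1 + y2)]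
    have a2 : y1 + y2 = 0 := by nlinarith [sq_nonneg (x1 + x2), sq_nonneg (y1 + y2)]
    have a3 : x1 * y2 - y1 * x2 = 0 := by linear_combination x1 * a2 - y1 * a1
    rw [a3, zero_mul] at hD
    exact lt_irrefl _ hD
  have b1 : (x1 - x2) * ((x1 + x2) ^ 2 + (y1 + y2) ^ 2) =
      2 * (x1 * y2 - y1 * x2) * (y1 + y2) := by
    linear_combination (x1 + x2) * h1 - (x1 + x2) * h2
  have b2 : (u1 - u2) * ((u1 + u2) ^ 2 + (v1 + v2) ^ 2) =
      2 * (u1 * v2 - v1 * u2) * (v1 + v2) := by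
    linear_combination (u1 + u2) * h3 - (u1 + u2) * h4
  have b3 : (y1 - y2) * ((x1 + x2) ^ 2 + (y1 + y2) ^ 2) =
      -2 * (x1 * y2 - y1 * x2) * (x1 + x2) := by
    linear_combination (y1 + y2) * h1 - (y1 + y2) * h2
  have b4 : (v1 - v2) * ((u1 + u2) ^ 2 + (v1 + v2) ^ 2) =
      -2 * (u1 * v2 - v1 * u2) * (u1 + u2) := by
    linear_combination (v1 + v2) * h3 - (v1 + v2) * h4
  rw [← hx, ← hy, ← hDD, ← b1] at b2
  rw [← hx, ← hy, ← hDD, ← b3] at b4
  have c1 := mul_right_cancel₀ hs b2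
  have c2 := mul_right_cancel₀ hs b4
  refine ⟨?_, ?_, ?_, ?_⟩ <;> linarith

theorem ang {a b : ℝ} (ha : a ∈ I) (hb : b ∈ I) (hc : Real.cos a = Real.cos b)
    (hs : Real.sin a = Real.sin b) : a = b := by
  have h := polarCoord.symm.injOn (x₁ := (1, a)) (x₂ := (1, b)) ⟨by simp, ha⟩ ⟨by simp, hb⟩
    (by simp [polarCoord_symm_apply, hc, hs])
  exact (Prod.ext_iff.1 h).2

theorem Φ_inj {p q : ℝ × ℝ} (hp : p ∈ I ×ˢ I) (hq : q ∈ I ×ˢ I) (hD : 0 < D p * D q)
    (h : Φ p = Φ q) : p = q := by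
  obtain ⟨a1, a2, a3, a4⟩ := alg (Real.cos_sq_add_sin_sq p.1) (Real.cos_sq_add_sin_sq p.2)
    (Real.cos_sq_add_sin_sq q.1) (Real.cos_sq_add_sin_sq q.2) (Prod.ext_iff.1 h).1
    (Prod.ext_iff.1 h).2 hD
  exact Prod.ext (ang hp.1 hq.1 a1 a2) (ang hp.2 hq.2 a3 a4)

theorem D_meas : Measurable D := by
  unfold D
  fun_prop

theorem I_meas : MeasurableSet I := measurableSet_Ioo

theorem piece {N : Set E2} (hN : MeasurableSet N) {S : Set (ℝ × ℝ)} (hS : MeasurableSet S)
    (hi : InjOn Φ S) :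
    ∫⁻ p in S, ENNReal.ofReal |D p| * N.indicator 1 (T (Φ p)) ≤ volume N := by
  have h := lintegral_image_eq_lintegral_abs_det_fderiv_mul volume hS
    (fun p _ => (Φ_deriv p).hasFDerivWithinAt) hi fun q => N.indicator (1 : E2 → ℝ≥0∞) (T q)
  simp only [Φ_det] at h
  rw [← h]
  refine (setLIntegral_le_lintegral _ _).trans_eq ?_
  rw [T_mp.lintegral_comp (measurable_one.indicator hN), lintegral_indicator_one hN]

theorem whole {N : Set E2} (hN : MeasurableSet N) :
    ∫⁻ p in I ×ˢ I, ENNReal.ofReal |D p| * N.indicator 1 (T (Φ p)) ≤ 2 * volume N := by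
  have hII := I_meas.prod I_meas
  have m1 : MeasurableSet (I ×ˢ I ∩ {p | 0 < D p}) :=
    hII.inter (measurableSet_lt measurable_const D_meas)
  have m2 : MeasurableSet (I ×ˢ I ∩ {p | D p < 0}) :=
    hII.inter (measurableSet_lt D_meas measurable_const)
  have m3 : MeasurableSet {p | D p = 0} := D_meas (measurableSet_singleton 0)
  have hsub : I ×ˢ I ⊆ (I ×ˢ I ∩ {p | 0 < D p}) ∪ (I ×ˢ I ∩ {p | D p < 0}) ∪ {p | D p = 0} := by
    intro p hp
    rcases lt_trichotomy (D p) 0 with h | h | h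
    · exact Or.inl (Or.inr ⟨hp, h⟩)
    · exact Or.inr h
    · exact Or.inl (Or.inl ⟨hp, h⟩)
  have h1 := piece hN m1 fun p hp q hq h => Φ_inj hp.1 hq.1 (mul_pos hp.2 hq.2) h
  have h2 := piece hN m2 fun p hp q hq h => Φ_inj hp.1 hq.1 (mul_pos_of_neg_of_neg hp.2 hq.2) h
  have h3 : ∫⁻ p in {p | D p = 0}, ENNReal.ofReal |D p| * N.indicator 1 (T (Φ p)) = 0 := by
    rw [setLIntegral_congr_fun m3 (g := fun _ => 0) fun p hp => by
      have hp' : D p = 0 := hp
      simp [hp']]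
    simp
  refine (lintegral_mono_set hsub).trans ((lintegral_union_le _ _ _).trans ?_)
  rw [h3, add_zero, two_mul]
  exact (lintegral_union_le _ _ _).trans (add_le_add h1 h2)

end Jac

open Jac

theorem sJac : SJac := by
  refine ⟨ENNReal.ofReal (1 / 2) * (ENNReal.ofReal (1 / 2) * 2), by finiteness, fun N hN => ?_⟩
  have hd : Measurable fun z : E2 × E2 => det2 z.1 z.2 := by
    unfold det2
    fun_prop
  have hF : Measurable fun z : E2 × E2 =>
      N.indicator (1 : E2 → ℝ≥0∞) (z.1 + z.2) * ENNReal.ofReal |det2 z.1 z.2| :=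
    ((measurable_one.indicator hN).comp (measurable_fst.add measurable_snd)).mul
      (ENNReal.measurable_ofReal.comp (continuous_abs.measurable.comp hd))
  rw [sig_eq, Measure.prod_smul_left, Measure.prod_smul_right, lintegral_smul_measure,
    lintegral_smul_measure, Measure.map_prod_map _ _ e_meas e_meas,
    lintegral_map hF (e_meas.prodMap e_meas), Measure.prod_restrict, smul_eq_mul, smul_eq_mul,
    mul_assoc, mul_assoc]
  refine mul_le_mul_right (mul_le_mul_right (le_trans (le_of_eq ?_) (whole hN)) _) _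
  refine lintegral_congr fun p => ?_
  have h1 : e p.1 + e p.2 = T (Φ p) := by
    ext i
    fin_cases i <;> simp [T, e, Φ]
  have h2 : det2 (e p.1) (e p.2) = D p := by simp [det2, e, D]
  simp only [Prod.map_fst, Prod.map_snd, h1, h2]
  rw [mul_comm]

theorem sCap : SCap := by
  refine ⟨1, one_pos, fun a r ha hr hr1 => ?_⟩
  let A : E2 ≃ₗᵢ[ℝ] E2 := Submodule.reflection (ℝ ∙ (e 0 - a))ᗮ
  have hA : A (e 0) = a := Submodule.reflection_sub (by rw [e_norm, ha])
  have hpre : A ⁻¹' ball a r = ball (e 0) r := by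
    ext z
    rw [mem_preimage, ← hA, mem_ball, mem_ball, A.dist_map]
  rw [← sSig.inv 2 A, Measure.map_apply A.continuous.measurable measurableSet_ball, hpre, sig_eq,
    Measure.smul_apply, Measure.map_apply e_meas measurableSet_ball,
    Measure.restrict_apply (e_meas measurableSet_ball), smul_eq_mul]
  have hsub : Ioo (-r) r ⊆ e ⁻¹' ball (e 0) r ∩ I := by
    intro θ hθ
    have hpi := Real.two_le_pi
    refine ⟨?_, by linarith [hθ.1], by linarith [hθ.2]⟩
    rw [mem_preimage, mem_ball, EuclideanSpace.dist_eq, Real.sqrt_lt' hr]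
    have h1 := Real.one_sub_sq_div_two_le_cos (x := θ)
    have h2 := Real.cos_sq_add_sin_sq θ
    have h3 : θ ^ 2 < r ^ 2 := sq_lt_sq' hθ.1 hθ.2
    simp only [e, Fin.sum_univ_two, Real.dist_eq, sq_abs]
    simp only [Matrix.cons_val_zero, Matrix.cons_val_one, Real.cos_zero, Real.sin_zero]
    nlinarith
  refine le_trans (le_of_eq ?_) (mul_le_mul_right (measure_mono hsub) _)
  rw [Real.volume_Ioo, ← ENNReal.ofReal_mul (by norm_num)]
  congr 1
  ring

end Pool.Agent.MP_66cee2_co.P
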