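import Pool.Agent.MP_66cee2_co.P.Spec

/-
A set near a point of the circle has many neighbours that see all the frame.
-/

namespace Pool.Agent.MP_66cee2_co.P

open MeasureTheory Set Filter Metric Topology Pool.Agent.MP_66cee2_co.X
open scoped ENNReal

namespace K

theorem nsq {a : E2} (h : ‖a‖ = 1) : a 0 ^ 2 + a 1 ^ 2 = 1 := by
  have h1 := EuclideanSpace.real_norm_sq_eq a
  rw [h, Fin.sum_univ_two] at h1
  linarith

theorem det_ne {a b : E2} (ha : ‖a‖ = 1) (hb : ‖b‖ = 1) (h1 : b ≠ a) (h2 : b ≠ -a) :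
    det2 (-a) b ≠ 0 := by
  intro h
  have ha' := nsq ha
  have hb' := nsq hb
  simp only [det2, PiLp.neg_apply] at h
  have hd : a 0 * b 1 - a 1 * b 0 = 0 := by linarith
  have e0 : b 0 = (a 0 * b 0 + a 1 * b 1) * a 0 := by
    linear_combination (-b 0) * ha' - a 1 * hd
  have e1 : b 1 = (a 0 * b 0 + a 1 * b 1) * a 1 := by
    linear_combination (-b 1) * ha' + a 0 * hd
  have hs : (a 0 * b 0 + a 1 * b 1 - 1) * (a 0 * b 0 + a 1 * b 1 + 1) = 0 := by
    linear_combination (b 0 ^ 2 + b 1 ^ 2) * ha' + hb' - (a 0 * b 1 - a 1 * b 0) * hd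
  rcases mul_eq_zero.1 hs with hs | hs
  · have hs' : a 0 * b 0 + a 1 * b 1 = 1 := by linarith
    rw [hs', one_mul] at e0 e1
    refine h1 ?_
    ext i
    fin_cases i
    · exact e0
    · exact e1
  · have hs' : a 0 * b 0 + a 1 * b 1 = -1 := by linarith
    rw [hs', neg_one_mul] at e0 e1
    refine h2 ?_
    ext i
    fin_cases i
    · exact e0
    · exact e1

theorem det_near {a b : E2} (h : det2 a b ≠ 0) : ∃ δ : ℝ, 0 < δ ∧ ∀ m ∈ ball a δ, ∀ m' ∈ ball b δ,
    |det2 a b| / 2 ≤ |det2 m m'| := by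
  have hc : Continuous fun z : E2 × E2 => |det2 z.1 z.2| := by
    unfold det2
    fun_prop
  have hp : 0 < |det2 a b| := abs_pos.2 h
  have h1 : ∀ᶠ z : E2 × E2 in 𝓝 (a, b), |det2 a b| / 2 < |det2 z.1 z.2| :=
    hc.continuousAt.eventually (lt_mem_nhds (by simpa using hp))
  obtain ⟨δ, hδ, h2⟩ := Metric.eventually_nhds_iff_ball.1 h1
  refine ⟨δ, hδ, fun m hm m' hm' => (h2 (m, m') ?_).le⟩
  rw [← ball_prod_same]
  exact ⟨hm, hm'⟩

/-- few directions near `-n₀` miss the neighbours of `Z`. -/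
theorem key (hJ : SJac) (hC : SCap) (hK : SKit) {Z : Set E2} {n y n₀ : E2} (hZ : MeasurableSet Z)
    (h0 : ‖n₀‖ = 1) (hn : ‖n‖ = 1) (h1 : n ≠ n₀) (h2 : n ≠ -n₀)
    (hS : Small fun _ => {η | y + n + η ∉ Z}) {ε : ℝ} (hε : 0 < ε) :
    ∀ᶠ r in 𝓝[>] (0 : ℝ), ∀ x ∈ ball (y + n₀) r,
      sig 2 {m | m ∈ ball (-n₀) r ∧ x + m ∉ Nb Z} ≤ ENNReal.ofReal (ε * r) := by
  obtain ⟨C, hCt, hJ⟩ := hJ
  obtain ⟨c, hc, hC⟩ := hC
  have hd := det_ne h0 hn h1 h2
  obtain ⟨δ, hδ, hdet⟩ := det_near hd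
  set d := |det2 (-n₀) n| with hdd
  have hd0 : 0 < d := abs_pos.2 hd
  set V := volume (ball (0 : E2) 1) with hV
  have hVt : V ≠ ⊤ := vol_ball_ne_top
  have hCV : 0 < C.toReal * V.toReal + 1 := by positivity
  set κ := ε * c * d / (2 * (C.toReal * V.toReal + 1)) with hκ
  have hκ0 : 0 < κ := by positivity
  have hs := ((small_iff.1 hS).scale (a := 3) (by norm_num)).eventually_le (c' := 1) one_pos hκ0
  filter_upwards [hs, ev_pos, ev_lt hδ, ev_lt one_pos] with r hr hr0 hrδ hr1 x hx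
  set M : Set E2 := {m | m ∈ ball (-n₀) r ∧ x + m ∉ Nb Z} with hM
  have hMm : MeasurableSet M :=
    measurableSet_ball.inter ((hK.nb_meas Z hZ).compl.preimage (by fun_prop))
  set N : Set E2 := (fun w => w + (x - y - n)) ⁻¹' ({η | y + n + η ∉ Z} ∩ ball 0 (1 * 3 * r))
    with hN
  have hNm : MeasurableSet N :=
    ((hZ.compl.preimage (f := fun η : E2 => y + n + η) (by fun_prop)).inter
      measurableSet_ball).preimage (by fun_prop)
  have hNv : volume N ≤ ENNReal.ofReal κ * volume (ball (0 : E2) (1 * r)) := by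
    rw [hN, measure_preimage_add_right]
    exact hr
  set S : Set (E2 × E2) := {z | z.1 ∈ M ∧ z.2 ∈ ball n r ∧ x + z.1 + z.2 ∉ Z} with hSd
  have hSm : MeasurableSet S :=
    (hMm.preimage measurable_fst).inter ((measurableSet_ball.preimage measurable_snd).inter
      (hZ.compl.preimage (f := fun z : E2 × E2 => x + z.1 + z.2) (by fun_prop)))
  have hlow : sig 2 (ball n r) * sig 2 M ≤ (sig 2).prod (sig 2) S := by
    rw [Measure.prod_apply hSm, ← lintegral_indicator_const hMm]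
    refine lintegral_mono fun m => ?_
    by_cases hm : m ∈ M
    · rw [indicator_of_mem hm]
      have hz : sig 2 {m' | x + m + m' ∈ Z} = 0 := by
        have := hm.2
        simpa [Nb] using this
      rw [← measure_sdiff_null (s := ball n r) hz]
      exact measure_mono fun m' hm' => ⟨hm, hm'.1, hm'.2⟩
    · rw [indicator_of_notMem hm]
      exact zero_le
  have hup : ENNReal.ofReal (d / 2) * (sig 2).prod (sig 2) S ≤ C * volume N := by
    refine le_trans ?_ (hJ N hNm)
    rw [← lintegral_indicator_const hSm]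
    refine lintegral_mono fun z => ?_
    by_cases hz : z ∈ S
    · rw [indicator_of_mem hz]
      have hzN : z.1 + z.2 ∈ N := by
        refine ⟨?_, ?_⟩
        · have e : y + n + (z.1 + z.2 + (x - y - n)) = x + z.1 + z.2 := by abel
          show y + n + (z.1 + z.2 + (x - y - n)) ∉ Z
          rw [e]
          exact hz.2.2
        · have e : z.1 + z.2 + (x - y - n) = (x - (y + n₀)) + (z.1 - -n₀) + (z.2 - n) := by abel
          have a1 := mem_ball_iff_norm.1 hx
          have a2 := mem_ball_iff_norm.1 hz.1.1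
          have a3 := mem_ball_iff_norm.1 hz.2.1
          have a4 := norm_add₃_le (a := x - (y + n₀)) (b := z.1 - -n₀) (c := z.2 - n)
          show z.1 + z.2 + (x - y - n) ∈ ball (0 : E2) (1 * 3 * r)
          rw [mem_ball_zero_iff, e]
          linarith
      simp only [indicator_of_mem hzN, Pi.one_apply, one_mul]
      exact ENNReal.ofReal_le_ofReal
        (hdet _ (ball_subset_ball hrδ.le hz.1.1) _ (ball_subset_ball hrδ.le hz.2.1))
    · rw [indicator_of_notMem hz]
      exact zero_le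
  have hball : volume (ball (0 : E2) (1 * r)) = ENNReal.ofReal (r ^ 2) * V := by
    have := vol_ball_mul (X := E2) (c := r) (τ := 1) hr0
    rw [finrank_euclideanSpace_fin, mul_one] at this
    rw [one_mul, this]
  have hfin : C * (ENNReal.ofReal κ * (ENNReal.ofReal (r ^ 2) * V)) ≤
      ENNReal.ofReal (d / 2 * (c * r)) * ENNReal.ofReal (ε * r) := by
    rw [← ENNReal.ofReal_toReal hCt, ← ENNReal.ofReal_toReal hVt,
      ← ENNReal.ofReal_mul (by positivity), ← ENNReal.ofReal_mul hκ0.le,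
      ← ENNReal.ofReal_mul ENNReal.toReal_nonneg, ← ENNReal.ofReal_mul (by positivity)]
    refine ENNReal.ofReal_le_ofReal ?_
    have e : κ * (C.toReal * V.toReal + 1) = ε * c * d / 2 := by
      rw [hκ]
      field_simp
    have h3 : 0 ≤ κ * r ^ 2 := by positivity
    nlinarith
  have hall : ENNReal.ofReal (d / 2 * (c * r)) * sig 2 M ≤
      ENNReal.ofReal (d / 2 * (c * r)) * ENNReal.ofReal (ε * r) := by
    refine le_trans ?_ hfin
    rw [← hball, ENNReal.ofReal_mul (by positivity), mul_assoc]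
    refine le_trans ?_ (hup.trans (by gcongr))
    refine le_trans ?_ (mul_le_mul_right hlow _)
    gcongr
    exact hC n r hn hr0 hr1.le
  have hp : 0 < d / 2 * (c * r) := by positivity
  exact (ENNReal.mul_le_mul_iff_right (by simpa using hp) ENNReal.ofReal_ne_top).1 hall

end K

theorem sK (hJ : SJac) (hC : SCap) (hK : SKit) : SK := by
  intro I F Z n y n₀ hZ h0 hF
  obtain ⟨c, hc, hC'⟩ := id hC
  have hF1 : (0 : ℝ) < F.card + 1 := by positivity
  have hε : 0 < c / (F.card + 1) := by positivity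
  have hev : ∀ᶠ r in 𝓝[>] (0 : ℝ), r < 1 ∧ ∀ i ∈ F, ∀ x ∈ ball (y + n₀) r,
      sig 2 {m | m ∈ ball (-n₀) r ∧ x + m ∉ Nb (Z i)} ≤
        ENNReal.ofReal (c / (F.card + 1) * r) :=
    (ev_lt one_pos).and ((Finset.eventually_all F).2 fun i hi =>
      K.key hJ hC hK (hZ i) h0 (hF i hi).1 (hF i hi).2.1 (hF i hi).2.2.1 (hF i hi).2.2.2 hε)
  obtain ⟨r₀, hr₀, hsub⟩ := mem_nhdsGT_iff_exists_Ioc_subset.1 hev
  refine ⟨r₀, hr₀, fun r hr hrr A hA hAb hAv hnull => ?_⟩
  obtain ⟨hr1, hkey⟩ := hsub ⟨hr, hrr⟩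
  set G : Set E2 := ball y (2 * r) ∩ ⋂ i ∈ F, Nb (Z i) with hG
  have hGm : MeasurableSet G :=
    measurableSet_ball.inter (F.measurableSet_biInter fun i _ => hK.nb_meas _ (hZ i))
  have h1 : volume (A ∩ Nb G) = 0 := by
    refine hK.nb_swap G A hGm hA (measure_mono_null (fun w hw => ?_) hnull)
    exact ⟨hw.1.1, hw.2, fun i hi => mem_iInter₂.1 hw.1.2 i hi⟩
  obtain ⟨x, hxA, hx⟩ : ∃ x ∈ A, x ∉ Nb G := by
    by_contra h
    push Not at h
    exact hAv (measure_mono_null (fun w hw => mem_inter hw (h w hw)) h1)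
  have hx0 : sig 2 {m | x + m ∈ G} = 0 := by simpa [Nb] using hx
  have hcov : ball (-n₀) r \ {m | x + m ∈ G} ⊆
      ⋃ i ∈ F, {m | m ∈ ball (-n₀) r ∧ x + m ∉ Nb (Z i)} := by
    intro m hm
    by_contra h
    refine hm.2 ⟨?_, mem_iInter₂.2 fun i hi => ?_⟩
    · have e : x + m - y = (x - (y + n₀)) + (m - -n₀) := by abel
      have a1 := mem_ball_iff_norm.1 (hAb hxA)
      have a2 := mem_ball_iff_norm.1 hm.1
      have a3 := norm_add_le (x - (y + n₀)) (m - -n₀)
      rw [mem_ball_iff_norm, e]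
      linarith
    · by_contra h'
      exact h (mem_iUnion₂.2 ⟨i, hi, hm.1, h'⟩)
  have hle : ENNReal.ofReal (c * r) ≤ ENNReal.ofReal (F.card * (c / (F.card + 1) * r)) := by
    refine (hC' (-n₀) r (by simpa using h0) hr hr1.le).trans ?_
    rw [← measure_sdiff_null (s := ball (-n₀) r) hx0]
    refine (measure_mono hcov).trans ((measure_biUnion_finset_le F _).trans ?_)
    refine (Finset.sum_le_sum fun i hi => hkey i hi x (hAb hxA)).trans ?_
    rw [Finset.sum_const, nsmul_eq_mul, ENNReal.ofReal_mul (Nat.cast_nonneg _),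
      ENNReal.ofReal_natCast]
  have h2 := (ENNReal.ofReal_le_ofReal_iff (by positivity)).1 hle
  have e : (F.card + 1) * (c / (F.card + 1) * r) = c * r := by field_simp
  have h3 : 0 < c / (F.card + 1) * r := by positivity
  nlinarith

end Pool.Agent.MP_66cee2_co.P
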