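import Pool.Agent.MP_66cee2_co.P.Spec
import Pool.Agent.MP_66cee2_co.XJ.Sig
import Pool.Agent.MP_66cee2_co.XJ.App
import Pool.Agent.MP_66cee2_co.XJ.Up

/-
Maps of the plane into three dimensional space: elementary facts.
-/

namespace Pool.Agent.MP_66cee2_co.P

open MeasureTheory Set Filter Metric Topology Matrix Pool.Agent.MP_66cee2_co.X
open scoped ENNReal RealInnerProductSpace

namespace Kit

theorem nsq (n : E2) : ‖n‖ ^ 2 = n 0 ^ 2 + n 1 ^ 2 := by
  rw [EuclideanSpace.real_norm_sq_eq, Fin.sum_univ_two]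

theorem rot0 (n : E2) : Rot n 0 = n 0 / 2 - √3 / 2 * n 1 := by
  simp [Rot, Jr]
  ring

theorem rot1 (n : E2) : Rot n 1 = n 1 / 2 + √3 / 2 * n 0 := by
  simp [Rot, Jr]
  ring

theorem ext2 {a b : E2} (h0 : a 0 = b 0) (h1 : a 1 = b 1) : a = b := by
  ext i
  fin_cases i
  · exact h0
  · exact h1

theorem s3 : √3 * √3 = (3 : ℝ) := Real.mul_self_sqrt (by norm_num)

theorem rot_norm (n : E2) : ‖Rot n‖ = ‖n‖ := by
  rw [← sq_eq_sq₀ (norm_nonneg _) (norm_nonneg _), nsq, nsq, rot0, rot1]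
  linear_combination (n 0 ^ 2 + n 1 ^ 2) / 4 * s3

theorem rot_rot (n : E2) : Rot (Rot n) = Rot n - n := by
  apply ext2
  · rw [PiLp.sub_apply, rot0, rot0, rot1]
    linear_combination (-(n 0) / 4) * s3
  · rw [PiLp.sub_apply, rot1, rot0, rot1]
    linear_combination (-(n 1) / 4) * s3

theorem rot3 (n : E2) : Rot (Rot (Rot n)) = -n := by
  rw [rot_rot (Rot n), rot_rot n]
  abel

/-- the rotation as a linear isometry. -/
noncomputable def RL : E2 →ₗᵢ[ℝ] E2 where
  toFun := Rot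
  map_add' a b := by
    apply ext2
    · simp only [PiLp.add_apply, rot0]
      ring
    · simp only [PiLp.add_apply, rot1]
      ring
  map_smul' t a := by
    apply ext2
    · simp only [PiLp.smul_apply, rot0, smul_eq_mul, RingHom.id_apply]
      ring
    · simp only [PiLp.smul_apply, rot1, smul_eq_mul, RingHom.id_apply]
      ring
  norm_map' := rot_norm

theorem rot_meas : Measurable Rot := RL.continuous.measurable

theorem rot_map : (sig 2).map Rot = sig 2 :=
  sSig.inv 2 (RL.toLinearIsometryEquiv rfl)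

theorem rot_ae (p : E2 → Prop) (h : ∀ᵐ n ∂sig 2, p n) : ∀ᵐ n ∂sig 2, p (Rot n) := by
  rw [← rot_map] at h
  exact ae_of_ae_map rot_meas.aemeasurable h

theorem neg_map : (sig 2).map (fun n => -n) = sig 2 :=
  sSig.inv 2 (LinearIsometryEquiv.neg ℝ)

theorem neg_ae (p : E2 → Prop) (h : ∀ᵐ n ∂sig 2, p n) : ∀ᵐ n ∂sig 2, p (-n) := by
  rw [← neg_map] at h
  exact ae_of_ae_map measurable_neg.aemeasurable h

theorem hex (p : E2 → E2 → Prop) (hp : MeasurableSet {z : E2 × E2 | p z.1 z.2}) (h : AePair p) :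
    ∀ᵐ x : E2, ∀ᵐ n ∂sig 2, p (x + n) (x + Rot n) := by
  have h1 : ∀ᵐ x : E2, ∀ᵐ n ∂sig 2, p x (x + Rot (Rot n)) :=
    h.mono fun x hx => rot_ae (fun n => p x (x + Rot n)) (rot_ae (fun n => p x (x + n)) hx)
  have m1 : MeasurableSet {z : E2 × E2 | p z.1 (z.1 + Rot (Rot z.2))} :=
    (measurable_fst.prodMk (measurable_fst.add (rot_meas.comp (rot_meas.comp measurable_snd)))) hp
  have m2 : MeasurableSet {z : E2 × E2 | p (z.1 + z.2) (z.1 + Rot z.2)} :=
    ((measurable_fst.add measurable_snd).prodMk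
      (measurable_fst.add (rot_meas.comp measurable_snd))) hp
  have h2 := (Measure.ae_ae_comm (p := fun x n : E2 => p x (x + Rot (Rot n))) m1).1 h1
  refine (Measure.ae_ae_comm (p := fun x n : E2 => p (x + n) (x + Rot n)) m2).2 ?_
  filter_upwards [h2] with n hn
  filter_upwards [(measurePreserving_add_right volume n).quasiMeasurePreserving.ae hn] with x hx
  have e : x + n + Rot (Rot n) = x + Rot n := by
    rw [rot_rot]
    abel
  rwa [e] at hx

theorem not_nb {Z : Set E2} {y : E2} : y ∉ Nb Z ↔ ∀ᵐ n ∂sig 2, y + n ∉ Z := by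
  rw [ae_iff]
  simp [Nb]

theorem meas_ae {α : Type} [MeasurableSpace α] {p : α → E2 → Prop}
    (hp : MeasurableSet {z : α × E2 | p z.1 z.2}) : MeasurableSet {x | ∀ᵐ n ∂sig 2, p x n} := by
  have h := measurable_measure_prodMk_left (ν := sig 2) hp.compl
  have e : {x | ∀ᵐ n ∂sig 2, p x n} =
      (fun x => sig 2 (Prod.mk x ⁻¹' {z : α × E2 | p z.1 z.2}ᶜ)) ⁻¹' {0} := by
    ext x
    exact ae_iff
  rw [e]
  exact h (measurableSet_singleton 0)

theorem nb_meas (Z : Set E2) (hZ : MeasurableSet Z) : MeasurableSet (Nb Z) := by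
  have e : Nb Z = {y | ∀ᵐ n ∂sig 2, y + n ∉ Z}ᶜ := by
    ext y
    rw [mem_compl_iff, mem_ofPred_eq, ← not_nb, not_not]
  rw [e]
  exact (meas_ae (p := fun y n : E2 => y + n ∉ Z)
    ((measurable_fst.add measurable_snd) hZ.compl)).compl

theorem nb_null (Z : Set E2) (hZ : volume Z = 0) : volume (Nb Z) = 0 := by
  rw [measure_eq_zero_iff_ae_notMem] at hZ ⊢
  filter_upwards [sSig.right 2 (fun y => y ∉ Z) hZ] with x hx using not_nb.2 hx

theorem nb_swap (A B : Set E2) (hA : MeasurableSet A) (hB : MeasurableSet B)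
    (h : volume (A ∩ Nb B) = 0) : volume (B ∩ Nb A) = 0 := by
  rw [measure_eq_zero_iff_ae_notMem] at h ⊢
  have m : MeasurableSet {z : E2 × E2 | z.1 ∉ A ∨ z.2 ∉ B} :=
    (measurable_fst hA.compl).union (measurable_snd hB.compl)
  have h1 : AePair fun x y : E2 => x ∉ A ∨ y ∉ B := by
    filter_upwards [h] with x hx
    by_cases hxA : x ∈ A
    · exact (not_nb.1 fun hn => hx ⟨hxA, hn⟩).mono fun n hn => Or.inr hn
    · exact Eventually.of_forall fun n => Or.inl hxA
  filter_upwards [sSig.swap 2 _ m h1] with x hx hx'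
  exact not_nb.2 (hx.mono fun n hn => hn.resolve_right fun hb => hb hx'.1) hx'.2

theorem nb_pos (Z : Set E2) (hZ : MeasurableSet Z) (h0 : volume Z ≠ 0) : volume (Nb Z) ≠ 0 := by
  intro h
  have h1 := nb_swap univ Z MeasurableSet.univ hZ (by rwa [univ_inter])
  have e : Nb univ = univ := by
    refine eq_univ_of_forall fun y => ?_
    have := sSig.ne 2 (by norm_num)
    simpa [Nb] using this
  rw [e, inter_univ] at h1
  exact h0 h1

theorem nb_back (A : Set E2) (hA : MeasurableSet A) :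
    ∀ᵐ x : E2, x ∈ A → ∀ᵐ n ∂sig 2, x + n ∈ Nb A := by
  have h := nb_swap (Nb A)ᶜ A (nb_meas A hA).compl hA (by simp)
  rw [measure_eq_zero_iff_ae_notMem] at h
  filter_upwards [h] with x hx hxA
  exact (not_nb.1 fun hn => hx ⟨hxA, hn⟩).mono fun n hn => not_not.1 hn

theorem det_ne {a b : E2} (ha : ‖a‖ = 1) (hb : ‖b‖ = 1) (h1 : b ≠ a) (h2 : b ≠ -a) :
    det2 a b ≠ 0 := by
  intro h
  have ea := nsq a
  have eb := nsq b
  rw [ha] at ea
  rw [hb] at eb
  unfold det2 at h
  have hc : (a 0 * b 0 + a 1 * b 1 - 1) * (a 0 * b 0 + a 1 * b 1 + 1) = 0 := by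
    linear_combination (-(b 0 ^ 2 + b 1 ^ 2)) * ea - eb - (a 0 * b 1 - a 1 * b 0) * h
  rcases mul_eq_zero.1 hc with hc | hc
  · refine h1 (ext2 ?_ ?_)
    · linear_combination (b 0) * ea + a 0 * hc - a 1 * h
    · linear_combination (b 1) * ea + a 1 * hc + a 0 * h
  · refine h2 (ext2 ?_ ?_)
    · rw [PiLp.neg_apply]
      linear_combination (b 0) * ea + a 0 * hc - a 1 * h
    · rw [PiLp.neg_apply]
      linear_combination (b 1) * ea + a 1 * hc + a 0 * h

theorem ae_ne (a : E2) : ∀ᵐ n ∂sig 2, n ≠ a := by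
  rw [ae_iff]
  simpa using sSig.point 2 le_rfl a

theorem two_null (hJ : SJac) (p : E2 → Prop) (y : E2) (h : ∀ᵐ x : E2, p x) :
    ∀ᵐ n ∂sig 2, ∀ᵐ n' ∂sig 2, p (y + n + n') := by
  obtain ⟨C, -, hC⟩ := hJ
  have h' : ∀ᵐ x : E2, p (y + x) :=
    (measurePreserving_add_left volume y).quasiMeasurePreserving.ae h
  obtain ⟨N, hN, mN, zN⟩ := exists_measurable_superset_of_null (ae_iff.1 h')
  have h1 := hC N mN
  rw [zN, mul_zero, nonpos_iff_eq_zero] at h1
  have md : Measurable fun z : E2 × E2 => det2 z.1 z.2 := by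
    unfold det2
    fun_prop
  have m : Measurable fun z : E2 × E2 =>
      N.indicator (1 : E2 → ℝ≥0∞) (z.1 + z.2) * ENNReal.ofReal |det2 z.1 z.2| :=
    ((measurable_one.indicator mN).comp (measurable_fst.add measurable_snd)).mul
      (ENNReal.measurable_ofReal.comp (continuous_abs.measurable.comp md))
  have h2 := Measure.ae_ae_of_ae_prod ((lintegral_eq_zero_iff m).1 h1)
  filter_upwards [h2, sSig.unit 2 (by norm_num)] with n hn un
  filter_upwards [hn, sSig.unit 2 (by norm_num), ae_ne n, ae_ne (-n)] with n' hn' un' n1 n2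
  by_contra hp
  have hm : n + n' ∈ N := hN (by simpa [add_assoc] using hp)
  simp only [indicator_of_mem hm, Pi.one_apply, one_mul, Pi.zero_apply, ENNReal.ofReal_eq_zero,
    abs_nonpos_iff] at hn'
  exact det_ne un un' n1 n2 hn'

theorem all (f : E2 → E3) (hf : UP f) : AllPair fun x y => ‖f x - f y‖ = 1 := by
  have hm := hf.meas
  have m1 : ∀ a, Measurable fun y => lift (f y) a := by
    rintro (i | _ | _)
    · exact (EuclideanSpace.proj i : E3 →L[ℝ] ℝ).continuous.measurable.comp hm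
    · exact measurable_const.sub (hm.norm.pow_const 2)
    · exact measurable_const
  have m2 : ∀ a, Measurable fun y => Jv (lift (f y)) a := by
    rintro (i | b)
    · exact (m1 _).const_mul 2
    · exact m1 _
  have h := sUp sSig 2 (Ix 3) (fun y => lift (f y)) (fun y => Jv (lift (f y))) m1 m2 (by
    filter_upwards [hf.unit] with x hx
    filter_upwards [hx] with n hn
    have := lz_lift (f x) (f (x + n))
    rw [hn] at this
    simpa [lz] using this)
  intro w hw
  filter_upwards [h w hw] with x hx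
  have := lz_lift (f x) (f (x + w))
  rw [lz, hx] at this
  have h0 := norm_nonneg (f x - f (x + w))
  nlinarith

theorem lev_count (f : E2 → E3) (hf : Measurable f) :
    {t : E3 | volume {y | f y = t} ≠ 0}.Countable := by
  simpa only [pos_iff_ne_zero] using
    Measure.countable_meas_level_set_pos (μ := (volume : Measure E2)) hf

theorem lev_meas (f : E2 → E3) (hf : Measurable f) :
    MeasurableSet (Lev f) ∧ (f '' Lev f).Countable := by
  refine ⟨hf (lev_count f hf).measurableSet, (lev_count f hf).mono ?_⟩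
  rintro _ ⟨x, hx, rfl⟩
  exact hx

theorem lev_dens (f : E2 → E3) (hf : Measurable f) :
    ∀ᵐ x : E2, x ∈ Lev f → Small fun _ => {η | f (x + η) ≠ f x} := by
  have h := (ae_ball_iff (lev_count f hf)).2 fun t _ =>
    sApp.dens 2 (f ⁻¹' {t}) (hf (measurableSet_singleton t))
  filter_upwards [h] with x hx hL
  exact hx (f x) hL rfl

theorem two_iff (g : E2 → E3) : (∃ q q' : E3, ∀ᵐ n ∂sig 2, g n = q ∨ g n = q') ↔
    ∀ᵐ a ∂sig 2, ∀ᵐ b ∂sig 2, ∀ᵐ c ∂sig 2, g a = g b ∨ g a = g c ∨ g b = g c := by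
  constructor
  · rintro ⟨q, q', h⟩
    filter_upwards [h] with a ha
    filter_upwards [h] with b hb
    filter_upwards [h] with c hc
    rcases ha with ha | ha <;> rcases hb with hb | hb <;> rcases hc with hc | hc <;>
      simp [ha, hb, hc]
  · intro h
    have : NeZero (sig 2) := ⟨sSig.ne 2 (by norm_num)⟩
    obtain ⟨a, ha⟩ := h.exists
    by_cases hb : ∀ᵐ b ∂sig 2, g b = g a
    · exact ⟨g a, g a, hb.mono fun b hb => Or.inl hb⟩
    · obtain ⟨b, hb1, hb2⟩ := ((not_eventually.1 hb).and_eventually ha).exists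
      refine ⟨g a, g b, hb2.mono fun c hc => ?_⟩
      rcases hc with hc | hc | hc
      · exact absurd hc.symm hb1
      · exact Or.inl hc.symm
      · exact Or.inr hc.symm

theorem two_meas (f : E2 → E3) (hf : Measurable f) : MeasurableSet {x | Two f x} := by
  have e : {x | Two f x} = {x | ∀ᵐ a ∂sig 2, ∀ᵐ b ∂sig 2, ∀ᵐ c ∂sig 2,
      f (x + a) = f (x + b) ∨ f (x + a) = f (x + c) ∨ f (x + b) = f (x + c)} ∩
      {x | ∀ᵐ n ∂sig 2, ‖f (x + n) - f (x + Rot n)‖ = 1} := by
    ext x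
    rw [mem_inter_iff, mem_ofPred_eq, mem_ofPred_eq, mem_ofPred_eq, ← two_iff fun n => f (x + n)]
    constructor
    · rintro ⟨q, q', h⟩
      exact ⟨⟨q, q', h.mono fun n hn => hn.1⟩, h.mono fun n hn => hn.2⟩
    · rintro ⟨⟨q, q', h⟩, h'⟩
      exact ⟨q, q', h.and h'⟩
  rw [e]
  have hr := rot_meas
  refine MeasurableSet.inter ?_ ?_
  · refine meas_ae (p := fun x a : E2 => ∀ᵐ b ∂sig 2, ∀ᵐ c ∂sig 2,
      f (x + a) = f (x + b) ∨ f (x + a) = f (x + c) ∨ f (x + b) = f (x + c)) ?_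
    refine meas_ae (p := fun (z : E2 × E2) (b : E2) => ∀ᵐ c ∂sig 2,
      f (z.1 + z.2) = f (z.1 + b) ∨ f (z.1 + z.2) = f (z.1 + c) ∨ f (z.1 + b) = f (z.1 + c)) ?_
    refine meas_ae (p := fun (z : (E2 × E2) × E2) (c : E2) =>
      f (z.1.1 + z.1.2) = f (z.1.1 + z.2) ∨ f (z.1.1 + z.1.2) = f (z.1.1 + c) ∨
        f (z.1.1 + z.2) = f (z.1.1 + c)) ?_
    have m1 : Measurable fun z : ((E2 × E2) × E2) × E2 => f (z.1.1.1 + z.1.1.2) := by fun_prop
    have m2 : Measurable fun z : ((E2 × E2) × E2) × E2 => f (z.1.1.1 + z.1.2) := by fun_prop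
    have m3 : Measurable fun z : ((E2 × E2) × E2) × E2 => f (z.1.1.1 + z.2) := by fun_prop
    exact (measurableSet_eq_fun m1 m2).union
      ((measurableSet_eq_fun m1 m3).union (measurableSet_eq_fun m2 m3))
  · refine meas_ae (p := fun x n : E2 => ‖f (x + n) - f (x + Rot n)‖ = 1) ?_
    exact measurableSet_eq_fun (by fun_prop) measurable_const

end Kit

theorem sKit (hJ : SJac) : SKit where
  rot_unit n hn := ⟨by rw [Kit.rot_norm, hn], by
    rw [← Kit.rot_rot, Kit.rot_norm, Kit.rot_norm, hn]⟩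
  rot3 := Kit.rot3
  rot_ae := Kit.rot_ae
  neg_ae := Kit.neg_ae
  neg_map := Kit.neg_map
  hex := Kit.hex
  nb_meas := Kit.nb_meas
  nb_null := Kit.nb_null
  nb_pos := Kit.nb_pos
  nb_swap := Kit.nb_swap
  nb_back := Kit.nb_back
  two_null := Kit.two_null hJ
  all := Kit.all
  lev_meas := Kit.lev_meas
  lev_dens := Kit.lev_dens
  two_meas := Kit.two_meas

end Pool.Agent.MP_66cee2_co.P
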