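import Pool.Agent.MP_66cee2_co.P.Spec

/-
The arc of sixty degrees and the parity lemma.
-/

namespace Pool.Agent.MP_66cee2_co.P

open MeasureTheory Set Filter Metric Topology Pool.Agent.MP_66cee2_co.X
open scoped RealInnerProductSpace

namespace LA

theorem sq_of_unit {u : E2} (hu : ‖u‖ = 1) : u 0 ^ 2 + u 1 ^ 2 = 1 := by
  have h := EuclideanSpace.real_norm_sq_eq u
  rw [hu, Fin.sum_univ_two] at h
  linarith

theorem unit_comb {u : E2} (hu : ‖u‖ = 1) {a b : ℝ} (h : a ^ 2 + b ^ 2 = 1) :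
    ‖a • Jr u + b • u‖ = 1 := by
  have h1 := sq_of_unit hu
  have h2 : ‖a • Jr u + b • u‖ ^ 2 = 1 := by
    rw [EuclideanSpace.real_norm_sq_eq, Fin.sum_univ_two]
    simp only [Jr, PiLp.add_apply, PiLp.smul_apply, smul_eq_mul, Matrix.cons_val_zero,
      Matrix.cons_val_one]
    linear_combination (a ^ 2 + b ^ 2) * h1 + h
  exact (pow_eq_one_iff_of_nonneg (norm_nonneg _) two_ne_zero).1 h2

theorem inner_comb {u : E2} (hu : ‖u‖ = 1) (a b : ℝ) : ⟪a • Jr u + b • u, u⟫ = b := by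
  have h1 := sq_of_unit hu
  simp only [PiLp.inner_apply, Fin.sum_univ_two, Jr, PiLp.add_apply, PiLp.smul_apply, smul_eq_mul,
    Matrix.cons_val_zero, Matrix.cons_val_one, RCLike.inner_apply, conj_trivial]
  linear_combination b * h1

/-- the point of the unit circle at the angle `θ`. -/
noncomputable def nn (e : E2) (θ : ℝ) : E2 := Real.cos θ • Jr e + Real.sin θ • e

theorem nn_cont (e : E2) : Continuous (nn e) := by
  unfold nn
  fun_prop

theorem nn_step {e : E2} (he : ‖e‖ = 1) (θ : ℝ) : ‖nn e (θ + Real.pi / 3) - nn e θ‖ = 1 := by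
  have : nn e (θ + Real.pi / 3) - nn e θ =
      (Real.cos (θ + Real.pi / 3) - Real.cos θ) • Jr e +
        (Real.sin (θ + Real.pi / 3) - Real.sin θ) • e := by
    unfold nn
    module
  rw [this]
  refine unit_comb he ?_
  rw [Real.cos_add, Real.sin_add, Real.cos_pi_div_three, Real.sin_pi_div_three]
  have h3 : √3 ^ 2 = 3 := Real.sq_sqrt (by norm_num)
  have h4 := Real.sin_sq_add_cos_sq θ
  linear_combination (1 / 4 : ℝ) * (Real.sin θ ^ 2 + Real.cos θ ^ 2) * h3 + h4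

theorem abs_sin_le {θ : ℝ} (h : θ ∈ Icc (-(Real.pi / 3)) (Real.pi / 3)) :
    |Real.sin θ| ≤ √3 / 2 := by
  have hp := Real.pi_pos
  rw [abs_le, ← Real.sin_pi_div_three, ← Real.sin_neg]
  exact ⟨Real.sin_le_sin_of_le_of_le_pi_div_two (by linarith) (by linarith [h.2]) h.1,
    Real.sin_le_sin_of_le_of_le_pi_div_two (by linarith [h.1]) (by linarith) h.2⟩

/-- the apex over a short segment in the direction `Jr u`. -/
noncomputable def ap (u : E2) (α : ℝ) : E2 := (α / 2) • Jr u + √(1 - α ^ 2 / 4) • u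

theorem ap_cont (u : E2) : Continuous (ap u) := by
  unfold ap
  fun_prop

theorem ap_zero (u : E2) : ap u 0 = u := by simp [ap]

theorem ap_unit {u : E2} (hu : ‖u‖ = 1) {α : ℝ} (h : |α| < 2) :
    ‖ap u α‖ = 1 ∧ ‖ap u α - α • Jr u‖ = 1 := by
  have h0 : 0 ≤ 1 - α ^ 2 / 4 := by
    obtain ⟨h1, h2⟩ := abs_lt.1 h
    nlinarith
  have h1 := Real.sq_sqrt h0
  refine ⟨unit_comb hu (by linarith), ?_⟩
  have : ap u α - α • Jr u = (-(α / 2)) • Jr u + √(1 - α ^ 2 / 4) • u := by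
    unfold ap
    module
  rw [this]
  exact unit_comb hu (by linarith)

theorem exists_shift {U : Set E2} (ho : IsOpen U) (hd : Dense U) {W : Set E2} (hW : W ∈ 𝓝 0)
    (p q r : E2) : ∃ η ∈ W, p + η ∈ U ∧ q + η ∈ U ∧ r + η ∈ U := by
  have h1 : ∀ p : E2, Dense ((fun η => p + η) ⁻¹' U) := fun p =>
    hd.preimage (isOpenMap_add_left p)
  have h2 : ∀ p : E2, IsOpen ((fun η => p + η) ⁻¹' U) := fun p =>
    ho.preimage (by fun_prop)
  obtain ⟨η, hη, h⟩ :=
    ((h1 p).inter_of_isOpen_left ((h1 q).inter_of_isOpen_left (h1 r) (h2 q)) (h2 p)).inter_nhds_nonempty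
      hW
  exact ⟨η, h, hη⟩

theorem ev_shift {S : Set E2} {p : E2} (h : S ∈ 𝓝 p) : ∀ᶠ η in 𝓝 (0 : E2), p + η ∈ S := by
  have hc : ContinuousAt (fun η : E2 => p + η) 0 := by fun_prop
  exact hc.eventually_mem (by simpa using h)

theorem decomp (u w h : E2) (hd : det2 u w ≠ 0) :
    h = ((h 0 * w 0 + h 1 * w 1) / det2 u w) • Jr u +
      (-(h 0 * u 0 + h 1 * u 1) / det2 u w) • Jr w := by
  ext i
  fin_cases i
  · simp only [Jr, PiLp.add_apply, PiLp.smul_apply, smul_eq_mul, Fin.zero_eta,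
      Matrix.cons_val_zero]
    field_simp
    unfold det2
    ring
  · simp only [Jr, PiLp.add_apply, PiLp.smul_apply, smul_eq_mul, Fin.mk_one,
      Matrix.cons_val_one, Matrix.cons_val_zero]
    field_simp
    unfold det2
    ring

/-- two points near `y` are joined by a path of four unit steps inside `B`. -/
theorem path {B : Set E2} (hB : IsOpen B) {y m : E2} (hy : y ∈ B) (hm : ‖m‖ = 1)
    (hym : y + m ∈ B) : ∃ V ∈ 𝓝 y, ∀ a ∈ V, ∀ b ∈ V, ∃ c z z' : E2,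
      a ∈ B ∧ b ∈ B ∧ c ∈ B ∧ z ∈ B ∧ z' ∈ B ∧
        ‖a - z‖ = 1 ∧ ‖c - z‖ = 1 ∧ ‖c - z'‖ = 1 ∧ ‖b - z'‖ = 1 := by
  have e1 : ∀ᶠ γ in 𝓝 (0 : ℝ), y + ap m γ ∈ B ∧ |γ| < 2 := by
    refine Eventually.and ?_ ?_
    · have hc : ContinuousAt (fun γ : ℝ => y + ap m γ) 0 :=
        (continuous_const.add (ap_cont m)).continuousAt
      exact hc.eventually_mem (hB.mem_nhds (by simpa [ap_zero] using hym))
    · have hc : ContinuousAt (fun γ : ℝ => |γ|) 0 := by fun_prop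
      exact hc.eventually_lt continuousAt_const (by simp)
  obtain ⟨γ, ⟨hγB, hγ2⟩, hγ0⟩ :=
    ((e1.filter_mono (nhdsWithin_le_nhds (s := {0}ᶜ))).and self_mem_nhdsWithin).exists
  have hγ : γ ≠ 0 := hγ0
  set w := ap m γ with hw
  have hwu : ‖w‖ = 1 := (ap_unit hm hγ2).1
  have hd : det2 m w ≠ 0 := by
    have h1 := sq_of_unit hm
    have : det2 m w = γ / 2 := by
      simp only [hw, det2, ap, Jr, PiLp.add_apply, PiLp.smul_apply, smul_eq_mul,
        Matrix.cons_val_zero, Matrix.cons_val_one]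
      linear_combination (γ / 2) * h1
    rw [this]
    exact div_ne_zero hγ two_ne_zero
  set α : E2 × E2 → ℝ := fun x => ((x.2 - x.1) 0 * w 0 + (x.2 - x.1) 1 * w 1) / det2 m w with hα
  set β : E2 × E2 → ℝ := fun x => -((x.2 - x.1) 0 * m 0 + (x.2 - x.1) 1 * m 1) / det2 m w with hβ
  have cα : Continuous α := by
    rw [hα]
    fun_prop
  have cβ : Continuous β := by
    rw [hβ]
    fun_prop
  have α0 : α (y, y) = 0 := by simp [hα]
  have β0 : β (y, y) = 0 := by simp [hβ]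
  have key : ∀ F : E2 × E2 → E2, Continuous F → F (y, y) ∈ B → ∀ᶠ x in 𝓝 (y, y), F x ∈ B :=
    fun F hF h => hF.continuousAt.eventually_mem (hB.mem_nhds h)
  have k1 := key (fun x => x.1) continuous_fst hy
  have k2 := key (fun x => x.2) continuous_snd hy
  have k3 := key (fun x => x.1 + α x • Jr m) (by fun_prop) (by simpa [α0] using hy)
  have k4 := key (fun x => x.1 + ap m (α x)) (continuous_fst.add ((ap_cont m).comp cα))
    (by simpa [α0, ap_zero] using hym)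
  have k5 := key (fun x => x.1 + α x • Jr m + ap w (β x))
    ((by fun_prop : Continuous fun x : E2 × E2 => x.1 + α x • Jr m).add ((ap_cont w).comp cβ))
    (by simpa [α0, β0, ap_zero] using hγB)
  have k6 : ∀ᶠ x in 𝓝 (y, y), |α x| < 2 :=
    cα.abs.continuousAt.eventually_lt continuousAt_const (by simp [α0])
  have k7 : ∀ᶠ x in 𝓝 (y, y), |β x| < 2 :=
    cβ.abs.continuousAt.eventually_lt continuousAt_const (by simp [β0])
  obtain ⟨V, hV, V', hV', h⟩ :=
    mem_nhds_prod_iff.1 (k1.and (k2.and (k3.and (k4.and (k5.and (k6.and k7))))))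
  refine ⟨V ∩ V', inter_mem hV hV', fun a ha b hb => ?_⟩
  obtain ⟨h1, h2, h3, h4, h5, h6, h7⟩ := h (mk_mem_prod ha.1 hb.2)
  refine ⟨_, _, _, h1, h2, h3, h4, h5, ?_, ?_, ?_, ?_⟩
  · rw [norm_sub_rev]
    simpa using (ap_unit hm h6).1
  · rw [norm_sub_rev, ← (ap_unit hm h6).2]
    congr 1
    abel
  · rw [norm_sub_rev]
    simpa using (ap_unit hwu h7).1
  · rw [norm_sub_rev, ← (ap_unit hwu h7).2]
    congr 1
    have hb' : b - a = α (a, b) • Jr m + β (a, b) • Jr w := decomp m w (b - a) hd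
    rw [sub_eq_iff_eq_add'] at hb'
    simp only
    nth_rewrite 3 [hb']
    abel

end LA

open LA

theorem sArc6 : SArc6 := by
  intro B ζ e hB he h
  have hp := Real.pi_pos
  have hK : IsCompact ((fun θ => ζ + nn e θ) '' Icc (-(Real.pi / 3)) (Real.pi / 3)) :=
    isCompact_Icc.image (continuous_const.add (nn_cont e))
  obtain ⟨δ, hδ, hs⟩ := hK.exists_thickening_subset_open hB (by
    rintro _ ⟨θ, hθ, rfl⟩
    refine h _ (unit_comb he (Real.cos_sq_add_sin_sq θ)) ?_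
    rw [nn, inner_comb he]
    exact abs_sin_le hθ)
  have hin : ∀ θ ∈ Icc (-(Real.pi / 3)) (Real.pi / 3), ∀ η ∈ ball (0 : E2) δ,
      ζ + nn e θ + η ∈ B := fun θ hθ η hη =>
    hs (mem_thickening_iff.2 ⟨_, ⟨θ, hθ, rfl⟩, by simpa [dist_eq_norm] using hη⟩)
  refine ⟨(fun x : ℝ × E2 => ζ + nn e x.1 + x.2) '' (Icc (-(Real.pi / 3)) 0 ×ˢ ball 0 δ),
    ?_, ?_, ?_, ?_, ?_⟩
  · rw [isOpen_iff_mem_nhds]
    rintro _ ⟨⟨θ, η⟩, ⟨hθ, hη⟩, rfl⟩
    refine mem_of_superset ((isOpenMap_add_left (ζ + nn e θ)).image_mem_nhds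
      (isOpen_ball.mem_nhds hη)) ?_
    rintro _ ⟨η', hη', rfl⟩
    exact ⟨(θ, η'), ⟨hθ, hη'⟩, rfl⟩
  · refine (isPreconnected_Icc.prod (convex_ball 0 δ).isPreconnected).image _ ?_
    exact ((continuous_const.add ((nn_cont e).comp continuous_fst)).add continuous_snd).continuousOn
  · rintro _ ⟨⟨θ, η⟩, ⟨hθ, hη⟩, rfl⟩
    exact hin θ ⟨hθ.1, by linarith [hθ.2]⟩ η hη
  · refine ⟨_, ⟨(0, 0), ⟨⟨by linarith, le_rfl⟩, mem_ball_self hδ⟩, rfl⟩,
      _, ⟨(-(Real.pi / 3), 0), ⟨⟨le_rfl, by linarith⟩, mem_ball_self hδ⟩, rfl⟩, ?_⟩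
    have := nn_step he (-(Real.pi / 3))
    simpa using this
  · rintro _ ⟨⟨θ, η⟩, ⟨hθ, hη⟩, rfl⟩
    refine ⟨_, nn_step he θ, ?_⟩
    have := hin (θ + Real.pi / 3) ⟨by linarith [hθ.1], by linarith [hθ.2]⟩ η hη
    convert this using 1
    simp only
    abel

theorem sLA : SLA := by
  intro O hO B G hB _ hG hGB ⟨y, hy, z, hz, hyz⟩ hm s H
  have hU : IsOpen (⋃ v, O v) := isOpen_iUnion hO.opn
  have hstep : ∀ v v' a b, a ∈ O v → a ∈ B → b ∈ O v' → b ∈ B → ‖a - b‖ = 1 → s v ≠ s v' :=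
    fun v v' a b h1 h2 h3 h4 h5 => H v v' ⟨a, h1, h2⟩ ⟨b, h3, h4⟩ (hO.unit v v' a b h1 h3 h5)
  let A : Bool → Set E2 := fun t => {x | ∀ᶠ a in 𝓝 x, ∀ v, a ∈ O v → s v = t}
  have hA : ∀ t, IsOpen (A t) := fun t => isOpen_setOfPred_eventually_nhds
  have hdis : Disjoint (A true) (A false) := by
    rw [Set.disjoint_left]
    intro x h1 h2
    obtain ⟨a, ha, h3, h4⟩ := hO.dense.inter_nhds_nonempty (Eventually.and h1 h2)
    obtain ⟨v, hv⟩ := mem_iUnion.1 ha
    have := (h3 v hv).symm.trans (h4 v hv)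
    simp at this
  have hcov : G ⊆ A true ∪ A false := by
    intro x hx
    obtain ⟨m, hm1, hm2⟩ := hm x hx
    obtain ⟨V, hV, hp⟩ := path hB (hGB hx) hm1 hm2
    obtain ⟨a, ha, haV⟩ := hO.dense.inter_nhds_nonempty hV
    obtain ⟨v, hv⟩ := mem_iUnion.1 ha
    have hx' : x ∈ A (s v) := by
      filter_upwards [hV] with b hb v' hv'
      obtain ⟨c, w, w', h1, h2, h3, h4, h5, d1, d2, d3, d4⟩ := hp a haV b hb
      obtain ⟨η, ⟨g1, g2, g3, g4, g5, g6, g7⟩, u1, u2, u3⟩ := exists_shift hU hO.dense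
        ((ev_shift (hB.mem_nhds h1)).and ((ev_shift (hB.mem_nhds h2)).and
          ((ev_shift (hB.mem_nhds h3)).and ((ev_shift (hB.mem_nhds h4)).and
          ((ev_shift (hB.mem_nhds h5)).and ((ev_shift ((hO.opn v).mem_nhds hv)).and
          (ev_shift ((hO.opn v').mem_nhds hv')))))))) c w w'
      obtain ⟨p, hp1⟩ := mem_iUnion.1 u1
      obtain ⟨q, hq⟩ := mem_iUnion.1 u2
      obtain ⟨q', hq'⟩ := mem_iUnion.1 u3
      have f1 := hstep v q _ _ g6 g1 hq g4 (by simpa using d1)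
      have f2 := hstep p q _ _ hp1 g3 hq g4 (by simpa using d2)
      have f3 := hstep p q' _ _ hp1 g3 hq' g5 (by simpa using d3)
      have f4 := hstep v' q' _ _ g7 g2 hq' g5 (by simpa using d4)
      revert f1 f2 f3 f4
      cases s v <;> cases s v' <;> cases s p <;> cases s q <;> cases s q' <;> simp
    revert hx'
    cases s v
    · exact Or.inr
    · exact Or.inl
  obtain ⟨t, ht⟩ : ∃ t, G ⊆ A t := by
    rcases hG.subset_or_subset (hA true) (hA false) hdis hcov with h | h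
    · exact ⟨_, h⟩
    · exact ⟨_, h⟩
  obtain ⟨η, ⟨g1, g2, g3, g4⟩, u1, u2, -⟩ := exists_shift hU hO.dense
    ((ev_shift (hB.mem_nhds (hGB hy))).and ((ev_shift (hB.mem_nhds (hGB hz))).and
      ((ev_shift (ht hy)).and (ev_shift (ht hz))))) y z z
  obtain ⟨v, hv⟩ := mem_iUnion.1 u1
  obtain ⟨v', hv'⟩ := mem_iUnion.1 u2
  exact hstep v v' _ _ hv g1 hv' g2 (by simpa using hyz) ((g3 v hv).trans (g4 v' hv').symm)

end Pool.Agent.MP_66cee2_co.P
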