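import Pool.Agent.MP_66cee2_co.P.Spec

/-
The expansion of a rational normal field at the circular point.
-/

namespace Pool.Agent.MP_66cee2_co.P

open Matrix

namespace Laur

theorem rank1 {k a b c d : Fin 3 → ℂ} (hk : k ≠ 0) (hkk : k ⬝ᵥ k = 0) (ha : k ⬝ᵥ a = 0)
    (hb : k ⬝ᵥ b = 0) (hc : k ⬝ᵥ c = 0) (hd : k ⬝ᵥ d = 0) :
    (a ⬝ᵥ b) * (c ⬝ᵥ d) = (a ⬝ᵥ d) * (c ⬝ᵥ b) := by
  simp only [dotProduct, Fin.sum_univ_three] at *
  by_contra hne
  have hne' := sub_ne_zero.2 hne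
  apply hk
  have u01 : k 0 * (a 2 * c 0 - a 0 * c 2) = k 1 * (a 1 * c 2 - a 2 * c 1) := by
    linear_combination a 2 * hc - c 2 * ha
  have u12 : k 1 * (a 0 * c 1 - a 1 * c 0) = k 2 * (a 2 * c 0 - a 0 * c 2) := by
    linear_combination a 0 * hc - c 0 * ha
  have u20 : k 2 * (a 1 * c 2 - a 2 * c 1) = k 0 * (a 0 * c 1 - a 1 * c 0) := by
    linear_combination a 1 * hc - c 1 * ha
  have v01 : k 0 * (b 2 * d 0 - b 0 * d 2) = k 1 * (b 1 * d 2 - b 2 * d 1) := by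
    linear_combination b 2 * hd - d 2 * hb
  have v12 : k 1 * (b 0 * d 1 - b 1 * d 0) = k 2 * (b 2 * d 0 - b 0 * d 2) := by
    linear_combination b 0 * hd - d 0 * hb
  have v20 : k 2 * (b 1 * d 2 - b 2 * d 1) = k 0 * (b 0 * d 1 - b 1 * d 0) := by
    linear_combination b 1 * hd - d 1 * hb
  set u0 := a 1 * c 2 - a 2 * c 1 with hu0
  set u1 := a 2 * c 0 - a 0 * c 2 with hu1
  set u2 := a 0 * c 1 - a 1 * c 0 with hu2
  set v0 := b 1 * d 2 - b 2 * d 1 with hv0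
  set v1 := b 2 * d 0 - b 0 * d 2 with hv1
  set v2 := b 0 * d 1 - b 1 * d 0 with hv2
  have e : (a 0 * b 0 + a 1 * b 1 + a 2 * b 2) * (c 0 * d 0 + c 1 * d 1 + c 2 * d 2) -
      (a 0 * d 0 + a 1 * d 1 + a 2 * d 2) * (c 0 * b 0 + c 1 * b 1 + c 2 * b 2) =
      u0 * v0 + u1 * v1 + u2 * v2 := by
    simp only [hu0, hu1, hu2, hv0, hv1, hv2]; ring
  rw [e] at hne'
  have z0 : k 0 ^ 2 * (u0 * v0 + u1 * v1 + u2 * v2) = 0 := by
    linear_combination u0 * v0 * hkk + k 0 * v1 * u01 + k 1 * u0 * v01 - k 0 * v2 * u20 -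
      k 2 * u0 * v20
  have z1 : k 1 ^ 2 * (u0 * v0 + u1 * v1 + u2 * v2) = 0 := by
    linear_combination u1 * v1 * hkk + k 1 * v2 * u12 + k 2 * u1 * v12 - k 1 * v0 * u01 -
      k 0 * u1 * v01
  have z2 : k 2 ^ 2 * (u0 * v0 + u1 * v1 + u2 * v2) = 0 := by
    linear_combination u2 * v2 * hkk + k 2 * v0 * u20 + k 0 * u2 * v20 - k 2 * v1 * u12 -
      k 1 * u2 * v12
  funext i
  fin_cases i
  · exact pow_eq_zero_iff two_ne_zero |>.1 ((mul_eq_zero.1 z0).resolve_right hne')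
  · exact pow_eq_zero_iff two_ne_zero |>.1 ((mul_eq_zero.1 z1).resolve_right hne')
  · exact pow_eq_zero_iff two_ne_zero |>.1 ((mul_eq_zero.1 z2).resolve_right hne')

theorem par {k v : Fin 3 → ℂ} (hk : k ≠ 0) (hkk : k ⬝ᵥ k = 0) (hkv : k ⬝ᵥ v = 0)
    (hvv : v ⬝ᵥ v = 0) : ∃ l : ℂ, v = l • k := by
  simp only [dotProduct, Fin.sum_univ_three] at *
  have e0 : k 1 * v 2 - k 2 * v 1 = 0 := pow_eq_zero_iff two_ne_zero |>.1 (by
    linear_combination (v 1 ^ 2 + v 2 ^ 2) * hkk - k 0 ^ 2 * hvv +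
      (k 0 * v 0 - k 1 * v 1 - k 2 * v 2) * hkv)
  have e1 : k 2 * v 0 - k 0 * v 2 = 0 := pow_eq_zero_iff two_ne_zero |>.1 (by
    linear_combination (v 0 ^ 2 + v 2 ^ 2) * hkk - k 1 ^ 2 * hvv +
      (k 1 * v 1 - k 0 * v 0 - k 2 * v 2) * hkv)
  have e2 : k 0 * v 1 - k 1 * v 0 = 0 := pow_eq_zero_iff two_ne_zero |>.1 (by
    linear_combination (v 0 ^ 2 + v 1 ^ 2) * hkk - k 2 ^ 2 * hvv +
      (k 2 * v 2 - k 0 * v 0 - k 1 * v 1) * hkv)
  obtain ⟨i, hi⟩ := Function.ne_iff.1 hk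
  have hi' : k i ≠ 0 := hi
  refine ⟨v i / k i, funext fun j => ?_⟩
  rw [Pi.smul_apply, smul_eq_mul, div_mul_eq_mul_div, eq_div_iff hi']
  fin_cases i <;> fin_cases j <;> simp only [Fin.zero_eta, Fin.mk_one, Fin.reduceFinMk] <;>
    first
    | rfl
    | linear_combination e0
    | linear_combination -e0
    | linear_combination e1
    | linear_combination -e1
    | linear_combination e2
    | linear_combination -e2

theorem ze_sq : ze ^ 2 = ze - 1 := by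
  have h : ((√3 : ℝ) : ℂ) ^ 2 = 3 := by
    rw [← Complex.ofReal_pow, Real.sq_sqrt (by norm_num)]; norm_num
  unfold ze
  push_cast
  linear_combination (-1 / 4 : ℂ) * h + (((√3 : ℝ) : ℂ) ^ 2 / 4) * Complex.I_sq

theorem ze_ne : ze ≠ 0 := fun h => by
  have := ze_sq
  rw [h] at this
  norm_num at this

theorem ze_ne_two : 2 - ze ≠ 0 := fun h => by
  have h1 := ze_sq
  have h2 : ze = 2 := by linear_combination -h
  rw [h2] at h1
  norm_num at h1

/-- the algebra of the coefficients. -/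
theorem coeffs (K : CJ) (rk : (K.A ⬝ᵥ K.A) * (K.B ⬝ᵥ K.B) ≠ (K.A ⬝ᵥ K.B) ^ 2)
    (w : ℕ → Fin 3 → ℂ) (p : ℕ) (hp : p ≠ 0) (hk : w 0 ≠ 0)
    (h1 : ∀ n, ∑ i ∈ Finset.range (n + 1), w i ⬝ᵥ w (n - i) = if n = 2 * p then 1 else 0)
    (h2 : ∀ n, ∑ i ∈ Finset.range (n + 1), ze ^ (n - i) * (w i ⬝ᵥ w (n - i)) =
      if n = 2 * p then ze ^ p / 2 else 0)
    (a0 : w 0 ⬝ᵥ K.A = 0) (a2 : w 2 ⬝ᵥ K.A = w 0 ⬝ᵥ K.B) (a3 : w 3 ⬝ᵥ K.A = w 1 ⬝ᵥ K.B)
    (b0 : w 0 ⬝ᵥ K.A2 = 0) (b1 : p = 1 → 2 * w 1 ⬝ᵥ K.A2 = K.A ⬝ᵥ K.A)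
    (b3 : p = 2 → w 3 ⬝ᵥ K.A2 - w 1 ⬝ᵥ K.B1 - w 0 ⬝ᵥ K.B = 0) : K.A ⬝ᵥ K.A = 0 := by
  have z := ze_sq
  have r0 := h1 0
  have r1 := h1 1
  have r2 := h1 2
  have r3 := h1 3
  have r4 := h1 4
  have r5 := h1 5
  have t2 := h2 2
  have t4 := h2 4
  have t5 := h2 5
  simp only [Finset.sum_range_succ, Finset.sum_range_zero, zero_add, Nat.reduceSub,
    Nat.sub_zero, Nat.sub_self, pow_zero, pow_one, one_mul] at r0 r1 r2 r3 r4 r5 t2 t4 t5
  rw [if_neg (by omega)] at r0 r1 r3 r5 t5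
  rw [dotProduct_comm (w 1) (w 0)] at r1
  rw [dotProduct_comm (w 2) (w 0)] at r2 t2
  rw [dotProduct_comm (w 3) (w 0), dotProduct_comm (w 2) (w 1)] at r3
  rw [dotProduct_comm (w 4) (w 0), dotProduct_comm (w 3) (w 1)] at r4 t4
  rw [dotProduct_comm (w 5) (w 0), dotProduct_comm (w 4) (w 1),
    dotProduct_comm (w 3) (w 2)] at r5 t5
  have s01 : w 0 ⬝ᵥ w 1 = 0 := by linear_combination r1 / 2
  have hβ : w 0 ⬝ᵥ K.B ≠ 0 := fun h => rk (by
    rw [rank1 hk r0 a0 a0 h h, dotProduct_comm K.B K.A, sq])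
  by_cases p1 : p = 1
  · rw [if_pos (by omega)] at r2 t2
    rw [p1, pow_one] at t2
    have s11 : w 1 ⬝ᵥ w 1 = 0 := mul_left_cancel₀ ze_ne (by
      linear_combination 2 * t2 - ze * r2 - 2 * (w 0 ⬝ᵥ w 2) * z)
    obtain ⟨l, hl⟩ := par hk r0 s01 s11
    rw [← b1 p1, hl, smul_dotProduct, b0]
    simp
  exfalso
  rw [if_neg (by omega)] at r2 t2
  have s11 : w 1 ⬝ᵥ w 1 = 0 := mul_left_cancel₀ ze_ne (by
    linear_combination 2 * t2 - ze * r2 - 2 * (w 0 ⬝ᵥ w 2) * z)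
  have s02 : w 0 ⬝ᵥ w 2 = 0 := by linear_combination r2 / 2 - s11 / 2
  obtain ⟨l, hl⟩ := par hk r0 s01 s11
  have m : ∀ x, w 1 ⬝ᵥ x = l * (w 0 ⬝ᵥ x) := fun x => by
    rw [hl, smul_dotProduct, smul_eq_mul]
  have s03 : w 0 ⬝ᵥ w 3 = 0 := by
    rw [m, s02] at r3
    linear_combination r3 / 2
  rw [m, s03] at r4 t4
  have z2 : ze ^ 2 ≠ 0 := pow_ne_zero 2 ze_ne
  by_cases p2 : p = 2
  · rw [if_pos (by omega)] at r4 t4
    rw [p2] at t4
    have t4' : w 2 ⬝ᵥ w 2 - w 0 ⬝ᵥ w 4 = 1 / 2 := mul_left_cancel₀ z2 (by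
      linear_combination t4 - (ze ^ 2 + ze + 1) * (w 0 ⬝ᵥ w 4) * z)
    have s04 : w 0 ⬝ᵥ w 4 = 1 / 6 := by linear_combination r4 / 3 - t4' / 3
    have s22 : w 2 ⬝ᵥ w 2 = 2 / 3 := by linear_combination t4' + s04
    rw [m, s04] at r5 t5
    have t5' : w 0 ⬝ᵥ w 5 = w 2 ⬝ᵥ w 3 := mul_left_cancel₀ ze_ne_two (by
      linear_combination t5 - ((ze ^ 3 + ze ^ 2 - 1) * (w 0 ⬝ᵥ w 5) +
        (ze ^ 2 + ze) * (l * (1 / 6)) + (ze + 2) * (w 2 ⬝ᵥ w 3)) * z)
    have q1 := rank1 hk r0 s02 s03 a0 s02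
    rw [dotProduct_comm K.A (w 2), dotProduct_comm K.A (w 3), a2, a3, m, s22] at q1
    have s23 : w 2 ⬝ᵥ w 3 = 2 / 3 * l := mul_right_cancel₀ hβ (by linear_combination q1)
    have l0 : l = 0 := by
      linear_combination (1 / 3 : ℂ) * r5 - (2 / 3 : ℂ) * t5' - (4 / 3 : ℂ) * s23
    have q2 := rank1 hk r0 s03 s03 s02 a0
    rw [a2, a3, m, l0] at q2
    have s33 : w 3 ⬝ᵥ w 3 = 0 := mul_right_cancel₀ hβ (by linear_combination q2)
    obtain ⟨l', hl'⟩ := par hk r0 s03 s33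
    have := b3 p2
    rw [hl', smul_dotProduct, b0, m, l0] at this
    exact hβ (by simpa using this)
  · rw [if_neg (by omega)] at r4 t4
    have t4' : w 2 ⬝ᵥ w 2 - w 0 ⬝ᵥ w 4 = 0 := mul_left_cancel₀ z2 (by
      linear_combination t4 - (ze ^ 2 + ze + 1) * (w 0 ⬝ᵥ w 4) * z)
    have s22 : w 2 ⬝ᵥ w 2 = 0 := by linear_combination r4 / 3 + 2 / 3 * t4'
    obtain ⟨l', hl'⟩ := par hk r0 s02 s22
    apply hβ
    rw [← a2, hl', smul_dotProduct, a0, smul_zero]

open PowerSeries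

theorem co_dot (W V : Fin 3 → ℂ⟦X⟧) (n : ℕ) :
    coeff n (∑ a, W a * V a) = ∑ i ∈ Finset.range (n + 1),
      (fun a => coeff i (W a)) ⬝ᵥ fun a => coeff (n - i) (V a) := by
  simp only [map_sum, coeff_mul, Finset.Nat.sum_antidiagonal_eq_sum_range_succ_mk, dotProduct]
  exact Finset.sum_comm

theorem co_mul (W : ℂ⟦X⟧) (m n : ℕ) (c : ℂ) :
    coeff n (W * (X ^ m * C c)) = if m ≤ n then coeff (n - m) W * c else 0 := by
  rw [show W * (X ^ m * C c) = W * C c * X ^ m by ring, coeff_mul_X_pow', coeff_mul_C]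

/-- the first coefficient as a series. -/
noncomputable def q1 (K : CJ) (a : Fin 3) : ℂ⟦X⟧ := C (K.A a) - X ^ 2 * C (K.B a)

/-- the second coefficient as a series. -/
noncomputable def q2 (K : CJ) (a : Fin 3) : ℂ⟦X⟧ :=
  C (K.A2 a) - X ^ 2 * C (K.B1 a) + X ^ 4 * C (K.C0 a) - X ^ 3 * C (K.B a)

theorem series (K : CJ) (rk : (K.A ⬝ᵥ K.A) * (K.B ⬝ᵥ K.B) ≠ (K.A ⬝ᵥ K.B) ^ 2) (p : ℕ) :
    ∀ W : Fin 3 → ℂ⟦X⟧, ∑ a, W a * W a = X ^ (2 * p) →
      ∑ a, W a * rescale ze (W a) = X ^ (2 * p) * C (ze ^ p / 2) →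
      ∑ a, W a * q1 K a = 0 →
      2 * ∑ a, W a * q2 K a = (∑ a, q1 K a * q1 K a) * X ^ p → K.A ⬝ᵥ K.A = 0 := by
  induction p with
  | zero =>
    intro W h1 h2 _ _
    have e1 := congrArg (coeff 0) h1
    have e2 := congrArg (coeff 0) h2
    rw [co_dot] at e1 e2
    simp only [coeff_rescale, zero_add, Finset.range_one, Finset.sum_singleton, Nat.sub_self,
      pow_zero, one_mul, mul_zero, coeff_zero_C, coeff_zero_one] at e1 e2
    rw [e1] at e2
    norm_num at e2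
  | succ p ih =>
    intro W h1 h2 h3 h4
    by_cases hk : (fun a => coeff 0 (W a)) = 0
    · have hd : ∀ a, ∃ V, W a = X * V := fun a => X_dvd_iff.2 (by
        rw [← coeff_zero_eq_constantCoeff_apply]; exact congrFun hk a)
      choose V hV using hd
      have hX : (X : ℂ⟦X⟧) ≠ 0 := X_ne_zero
      have hz : (C ze : ℂ⟦X⟧) ≠ 0 := fun h => ze_ne (by simpa using congrArg (coeff 0) h)
      simp only [hV, Fin.sum_univ_three, map_mul, rescale_X] at h1 h2 h3 h4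
      refine ih V ?_ ?_ ?_ ?_ <;> simp only [Fin.sum_univ_three]
      · exact mul_left_cancel₀ (pow_ne_zero 2 hX) (by linear_combination h1)
      · refine mul_left_cancel₀ (mul_ne_zero (pow_ne_zero 2 hX) hz) ?_
        rw [show ze ^ (p + 1) / 2 = ze * (ze ^ p / 2) by ring, map_mul] at h2
        linear_combination h2
      · exact mul_left_cancel₀ hX (by linear_combination h3)
      · exact mul_left_cancel₀ hX (by linear_combination h4)
    have c3 : ∀ n, ∑ a, coeff n (W a * q1 K a) = 0 := fun n => by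
      rw [← map_sum, h3, map_zero]
    have c4 : ∀ n, 2 * ∑ a, coeff n (W a * q2 K a) =
        if p + 1 ≤ n then ∑ a, coeff (n - (p + 1)) (q1 K a * q1 K a) else 0 := fun n => by
      rw [← map_sum, ← map_sum, ← coeff_mul_X_pow', ← h4, two_mul, two_mul, map_add]
    have g0 : ∀ a, coeff 0 (q1 K a * q1 K a) = K.A a * K.A a := fun a => by simp [q1]
    have g1 : ∀ a, coeff 1 (q1 K a) = 0 := fun a => by
      simp [q1, coeff_mul_C, coeff_X_pow]
    refine coeffs K rk (fun i a => coeff i (W a)) (p + 1) (by omega) hk (fun n => ?_)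
      (fun n => ?_) ?_ ?_ ?_ ?_ (fun hp => ?_) fun hp => ?_
    · rw [← co_dot, h1, coeff_X_pow]
    · have := congrArg (coeff n) h2
      rw [co_dot, coeff_mul_C, coeff_X_pow, ite_mul, one_mul, zero_mul] at this
      rw [← this]
      refine Finset.sum_congr rfl fun i _ => ?_
      simp only [dotProduct, coeff_rescale, Finset.mul_sum]
      exact Finset.sum_congr rfl fun a _ => by ring
    · have := c3 0
      simpa only [q1, mul_sub, map_sub, co_mul, coeff_mul_C, dotProduct, Nat.reduceLeDiff,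
        if_false, sub_zero] using this
    · have := c3 2
      simp only [q1, mul_sub, map_sub, co_mul, coeff_mul_C, le_refl, if_true, Nat.sub_self,
        Finset.sum_sub_distrib] at this
      exact sub_eq_zero.1 this
    · have := c3 3
      simp only [q1, mul_sub, map_sub, co_mul, coeff_mul_C, Nat.reduceLeDiff, if_true,
        Nat.reduceSub, Finset.sum_sub_distrib] at this
      exact sub_eq_zero.1 this
    · have := c4 0
      rw [if_neg (by omega)] at this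
      simp only [q2, mul_sub, mul_add, map_sub, map_add, co_mul, coeff_mul_C, Nat.reduceLeDiff,
        if_false, sub_zero, add_zero] at this
      exact (mul_eq_zero.1 this).resolve_left two_ne_zero
    · have := c4 1
      rw [hp, if_pos le_rfl] at this
      simp only [q2, mul_sub, mul_add, map_sub, map_add, co_mul, coeff_mul_C, Nat.reduceLeDiff,
        if_false, sub_zero, add_zero, Nat.sub_self, g0] at this
      exact this
    · have := c4 3
      rw [hp, if_pos (by norm_num)] at this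
      simp only [q2, mul_sub, mul_add, map_sub, map_add, co_mul, coeff_mul_C, Nat.reduceLeDiff,
        if_false, if_true, le_refl, add_zero, Nat.sub_self, Nat.reduceSub,
        coeff_one_mul, g1, zero_mul, Finset.sum_const_zero, Finset.sum_sub_distrib] at this
      simp only [dotProduct]
      linear_combination this / 2

theorem poly_eq {Θ : Set ℂ} (h : Θ.Infinite) {f g : Polynomial ℂ}
    (e : ∀ τ ∈ Θ, f.eval τ = g.eval τ) : (f : ℂ⟦X⟧) = g :=
  congrArg _ (Polynomial.eq_of_infinite_eval_eq f g (h.mono e))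

theorem coe_scale (f : Polynomial ℂ) :
    ((f.comp (Polynomial.C ze * Polynomial.X) : Polynomial ℂ) : ℂ⟦X⟧) = rescale ze f := by
  ext n
  rw [Polynomial.coeff_coe, Polynomial.comp_C_mul_X_coeff, coeff_rescale, Polynomial.coeff_coe,
    mul_comm]

end Laur

open Laur PowerSeries in
theorem sLaur : SLaur := by
  intro K Θ ν H ⟨D, N, hD, hN⟩
  obtain ⟨D0, hD0, hD1⟩ := Polynomial.exists_eq_pow_rootMultiplicity_mul_and_not_dvd D hD 0
  generalize D.rootMultiplicity 0 = p at hD0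
  rw [map_zero, sub_zero] at hD0 hD1
  have hu : constantCoeff (D0 : ℂ⟦X⟧) ≠ 0 := fun h => hD1 (Polynomial.X_dvd_iff.2 (by
    rwa [Polynomial.constantCoeff_coe] at h))
  have hi := PowerSeries.mul_inv_cancel _ hu
  set I : ℂ⟦X⟧ := (D0 : ℂ⟦X⟧)⁻¹
  have hi' : rescale ze (D0 : ℂ⟦X⟧) * rescale ze I = 1 := by rw [← map_mul, hi, map_one]
  have hc : (D : ℂ⟦X⟧) = (X : ℂ⟦X⟧) ^ p * (D0 : ℂ⟦X⟧) := by
    rw [hD0, Polynomial.coe_mul, Polynomial.coe_pow, Polynomial.coe_X]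
  set P1 : Fin 3 → Polynomial ℂ := fun a =>
    Polynomial.C (K.A a) - (Polynomial.X : Polynomial ℂ) ^ 2 * Polynomial.C (K.B a) with hP1
  set P2 : Fin 3 → Polynomial ℂ := fun a =>
    Polynomial.C (K.A2 a) - (Polynomial.X : Polynomial ℂ) ^ 2 * Polynomial.C (K.B1 a) +
      (Polynomial.X : Polynomial ℂ) ^ 4 * Polynomial.C (K.C0 a) -
      (Polynomial.X : Polynomial ℂ) ^ 3 * Polynomial.C (K.B a) with hP2
  have c1 : ∀ a, (P1 a : ℂ⟦X⟧) = q1 K a := fun a => by simp [hP1, q1]; ring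
  have c2 : ∀ a, (P2 a : ℂ⟦X⟧) = q2 K a := fun a => by simp [hP2, q2]; ring
  have v1 : ∀ τ a, (P1 a).eval τ = K.p1 τ a := fun τ a => by simp [hP1, CJ.p1]; ring
  have v2 : ∀ τ a, (P2 a).eval τ = K.p2 τ a := fun τ a => by simp [hP2, CJ.p2]; ring
  have i1 := poly_eq H.inf (f := N 0 * N 0 + N 1 * N 1 + N 2 * N 2) (g := D * D) fun τ hτ => by
    have := H.nrm τ hτ
    simp only [dotProduct, Fin.sum_univ_three] at this
    simp only [Polynomial.eval_add, Polynomial.eval_mul, ← hN τ hτ]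
    linear_combination D.eval τ ^ 2 * this
  have i2 := poly_eq H.inf
    (f := N 0 * (N 0).comp (Polynomial.C ze * Polynomial.X) +
      N 1 * (N 1).comp (Polynomial.C ze * Polynomial.X) +
      N 2 * (N 2).comp (Polynomial.C ze * Polynomial.X))
    (g := D * D.comp (Polynomial.C ze * Polynomial.X) * Polynomial.C (1 / 2)) fun τ hτ => by
    have := H.hex τ hτ
    simp only [dotProduct, Fin.sum_univ_three] at this
    simp only [Polynomial.eval_add, Polynomial.eval_mul, Polynomial.eval_comp, Polynomial.eval_C,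
      Polynomial.eval_X, ← hN τ hτ, ← hN _ (H.rot τ hτ)]
    linear_combination D.eval τ * D.eval (ze * τ) * this
  have i3 := poly_eq H.inf (f := N 0 * P1 0 + N 1 * P1 1 + N 2 * P1 2) (g := 0) fun τ hτ => by
    have := H.e1 τ hτ
    simp only [dotProduct, Fin.sum_univ_three] at this
    simp only [Polynomial.eval_add, Polynomial.eval_mul, ← hN τ hτ, v1, Polynomial.eval_zero]
    linear_combination D.eval τ * this
  have i4 := poly_eq H.inf
    (f := N 0 * P2 0 + N 1 * P2 1 + N 2 * P2 2 + (N 0 * P2 0 + N 1 * P2 1 + N 2 * P2 2))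
    (g := D * (P1 0 * P1 0 + P1 1 * P1 1 + P1 2 * P1 2)) fun τ hτ => by
    have := H.e2 τ hτ
    simp only [dotProduct, Fin.sum_univ_three] at this
    simp only [Polynomial.eval_add, Polynomial.eval_mul, ← hN τ hτ, v1, v2]
    linear_combination D.eval τ * this
  simp only [Polynomial.coe_add, Polynomial.coe_mul, Polynomial.coe_zero, coe_scale, c1, c2, hc,
    Polynomial.coe_C, map_mul, map_pow, rescale_X] at i1 i2 i3 i4
  refine series K H.rk p (fun a => N a * I) ?_ ?_ ?_ ?_ <;> simp only [Fin.sum_univ_three, map_mul]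
  · linear_combination I ^ 2 * i1 + X ^ (2 * p) * (D0 * I + 1) * hi
  · rw [show ze ^ p / 2 = ze ^ p * (1 / 2) by ring, map_mul, map_pow]
    linear_combination I * rescale ze I * i2 + X ^ (2 * p) * C ze ^ p * C (1 / 2 : ℂ) *
      (rescale ze (D0 : ℂ⟦X⟧) * rescale ze I * hi + hi')
  · linear_combination I * i3
  · linear_combination I * i4 + (q1 K 0 * q1 K 0 + q1 K 1 * q1 K 1 + q1 K 2 * q1 K 2) * X ^ p * hi

end Pool.Agent.MP_66cee2_co.P
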