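import Pool.Agent.MP_66cee2_co.P.Spec
import Pool.Agent.MP_66cee2_co.XJ.Poly
import Pool.Agent.MP_66cee2_co.XJ.Jet

/-
Every unit pair of points with jets satisfies the three equations along the circle.
-/

namespace Pool.Agent.MP_66cee2_co.P

open MeasureTheory Set Filter Metric Topology Matrix Asymptotics Pool.Agent.MP_66cee2_co.X
open scoped ENNReal RealInnerProductSpace

namespace PairE

/-- expansions of order four in one variable with a continuous remainder. -/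
def Ex (A : ℝ → ℝ) (a0 a1 a2 a3 : ℝ) : Prop :=
  ∃ R : ℝ → ℝ, Continuous R ∧
    ∀ τ, A τ = a0 + a1 * τ + a2 * τ ^ 2 + a3 * τ ^ 3 + τ ^ 4 * R τ

theorem Ex.const (c : ℝ) : Ex (fun _ => c) c 0 0 0 :=
  ⟨fun _ => 0, continuous_const, fun τ => by ring⟩

theorem Ex.add {A B : ℝ → ℝ} {a0 a1 a2 a3 b0 b1 b2 b3 : ℝ} (hA : Ex A a0 a1 a2 a3)
    (hB : Ex B b0 b1 b2 b3) :
    Ex (fun τ => A τ + B τ) (a0 + b0) (a1 + b1) (a2 + b2) (a3 + b3) := by
  obtain ⟨R, hR, e⟩ := hA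
  obtain ⟨S, hS, e'⟩ := hB
  exact ⟨fun τ => R τ + S τ, hR.add hS, fun τ => by simp only [e, e']; ring⟩

theorem Ex.mul {A B : ℝ → ℝ} {a0 a1 a2 a3 b0 b1 b2 b3 : ℝ} (hA : Ex A a0 a1 a2 a3)
    (hB : Ex B b0 b1 b2 b3) :
    Ex (fun τ => A τ * B τ) (a0 * b0) (a0 * b1 + a1 * b0) (a0 * b2 + a1 * b1 + a2 * b0)
      (a0 * b3 + a1 * b2 + a2 * b1 + a3 * b0) := by
  obtain ⟨R, hR, e⟩ := hA
  obtain ⟨S, hS, e'⟩ := hB
  refine ⟨fun τ => (a1 * b3 + a2 * b2 + a3 * b1) + (a2 * b3 + a3 * b2) * τ + a3 * b3 * τ ^ 2 +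
    (a0 + a1 * τ + a2 * τ ^ 2 + a3 * τ ^ 3) * S τ +
    R τ * (b0 + b1 * τ + b2 * τ ^ 2 + b3 * τ ^ 3 + τ ^ 4 * S τ), by fun_prop, fun τ => ?_⟩
  simp only [e, e']
  ring

theorem Ex.congr {A B : ℝ → ℝ} {a0 a1 a2 a3 b0 b1 b2 b3 : ℝ} (hA : Ex A a0 a1 a2 a3)
    (h : ∀ τ, B τ = A τ) (h0 : b0 = a0) (h1 : b1 = a1) (h2 : b2 = a2) (h3 : b3 = a3) :
    Ex B b0 b1 b2 b3 := by
  obtain ⟨R, hR, e⟩ := hA
  exact ⟨R, hR, fun τ => by rw [h, e, h0, h1, h2, h3]⟩

theorem zero_of {F : ℝ → ℝ} (hF : Continuous F) {k : ℕ} (hk : k < 4)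
    (h : (fun τ => τ ^ k * F τ) =O[𝓝[>] 0] fun τ : ℝ => τ ^ 4) : F 0 = 0 := by
  obtain ⟨j, hj⟩ := Nat.exists_eq_add_of_lt hk
  obtain ⟨C, hC⟩ := isBigO_iff.1 h
  have h4 : ∀ᶠ τ in 𝓝[>] (0 : ℝ), |F τ| ≤ C * τ ^ (j + 1) := by
    filter_upwards [hC, ev_pos] with τ hτ hp
    rw [hj, norm_mul, Real.norm_of_nonneg (pow_pos hp _).le,
      Real.norm_of_nonneg (pow_pos hp _).le, Real.norm_eq_abs] at hτ
    refine le_of_mul_le_mul_left (hτ.trans_eq ?_) (pow_pos hp k)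
    ring
  have h5 : Tendsto (fun τ : ℝ => C * τ ^ (j + 1)) (𝓝[>] 0) (𝓝 0) := by
    have : Continuous fun τ : ℝ => C * τ ^ (j + 1) := by fun_prop
    simpa using (this.tendsto 0).mono_left (nhdsWithin_le_nhds (s := Ioi 0))
  have h6 : Tendsto (fun τ : ℝ => |F τ|) (𝓝[>] 0) (𝓝 |F 0|) :=
    (hF.abs.tendsto 0).mono_left nhdsWithin_le_nhds
  exact abs_nonpos_iff.1 (le_of_tendsto_of_tendsto h6 h5 h4)

theorem Ex.zero {A : ℝ → ℝ} {a0 a1 a2 a3 : ℝ} (hA : Ex A a0 a1 a2 a3)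
    (h : A =O[𝓝[>] 0] fun τ : ℝ => τ ^ 4) : a0 = 0 ∧ a1 = 0 ∧ a2 = 0 ∧ a3 = 0 := by
  obtain ⟨R, hR, e⟩ := hA
  have h0 : a0 = 0 := by
    linear_combination zero_of (k := 0)
      (F := fun τ => a0 + a1 * τ + a2 * τ ^ 2 + a3 * τ ^ 3 + τ ^ 4 * R τ) (by fun_prop)
      (by norm_num) (h.congr_left fun τ => by rw [e]; ring)
  have h1 : a1 = 0 := by
    linear_combination zero_of (k := 1) (F := fun τ => a1 + a2 * τ + a3 * τ ^ 2 + τ ^ 3 * R τ)
      (by fun_prop) (by norm_num) (h.congr_left fun τ => by rw [e, h0]; ring)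
  have h2 : a2 = 0 := by
    linear_combination zero_of (k := 2) (F := fun τ => a2 + a3 * τ + τ ^ 2 * R τ)
      (by fun_prop) (by norm_num) (h.congr_left fun τ => by rw [e, h0, h1]; ring)
  have h3 : a3 = 0 := by
    linear_combination zero_of (k := 3) (F := fun τ => a3 + τ * R τ)
      (by fun_prop) (by norm_num) (h.congr_left fun τ => by rw [e, h0, h1, h2]; ring)
  exact ⟨h0, h1, h2, h3⟩

/-- the coordinates of the circle. -/
theorem ex_curve (p q : ℝ) :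
    Ex (fun τ => (1 + τ ^ 2 / 4)⁻¹ * (τ * p + τ ^ 2 / 2 * q)) 0 p (q / 2) (-p / 4) := by
  have h0 : ∀ τ : ℝ, 1 + τ ^ 2 / 4 ≠ 0 := fun τ => by positivity
  refine ⟨fun τ => (1 + τ ^ 2 / 4)⁻¹ * (τ * p / 16 - q / 8), ?_, fun τ => ?_⟩
  · exact (Continuous.inv₀ (by fun_prop) h0).mul (by fun_prop)
  · have := h0 τ
    field_simp
    ring

variable {d : ℕ}

/-- translation by a short vector that depends on the scale. -/
theorem shift {h : ℝ → E d} (hh : ∀ τ, 0 < τ → ‖h τ‖ ≤ τ) :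
    Tendsto (fun z : ℝ × E d => (2 * z.1, z.2 + h z.1)) (jet_L d) (jet_L d) := by
  intro U hU
  have h1 : SmR (1 * 2) fun τ => {η | (2 * τ, η) ∉ U} :=
    SmR.scale (S := fun τ => {η | (τ, η) ∉ U}) hU two_pos
  refine tendsto_of_tendsto_of_tendsto_of_le_of_le' tendsto_const_nhds h1
    (Eventually.of_forall fun _ => zero_le) (ev_pos.mono fun τ hτ => ?_)
  refine ENNReal.div_le_div_right ?_ _
  rw [← measure_preimage_add_right volume (h τ) ({η | (2 * τ, η) ∉ U} ∩ _)]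
  refine measure_mono fun η hη => ⟨hη.1, ?_⟩
  have h2 := mem_ball_zero_iff.1 hη.2
  have h3 := norm_add_le η (h τ)
  have h4 := hh τ hτ
  rw [mem_ball_zero_iff]
  linarith

/-- a small family of polynomials of bounded degree is small at the origin. -/
theorem key {F : ℝ → E d → ℝ} {D k : ℕ} (hF : ∀ τ, IsPoly D (F τ))
    (h : (fun z : ℝ × E d => F z.1 z.2) =O[jet_L d] fun z => z.1 ^ k) :
    (fun τ => F τ 0) =O[𝓝[>] 0] fun τ : ℝ => τ ^ k := by
  obtain ⟨C, hC⟩ := sPoly d D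
  obtain ⟨C₀, h0, h1⟩ := h.exists_pos
  have h2 := (small_iff.1 (jet_ev.1 h1.bound)).half one_pos
  refine IsBigO.of_bound (C * C₀) ?_
  filter_upwards [h2, ev_pos] with τ hτ hp
  obtain ⟨p, hp1, hp2⟩ := hF τ
  simp only [one_mul, not_le, hp2, Real.norm_eq_abs] at hτ
  have h3 := hC p τ _ hp1 hp (by positivity) hτ 0
  rw [hp2, ev_at_zero, Real.norm_eq_abs, Real.norm_eq_abs, mul_assoc]
  simpa using h3

/-- the cubic polynomial with given coefficients. -/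
noncomputable def tr (c : ℕ → ℕ → ℝ) : MvPolynomial (Fin 2) ℝ :=
  ∑ i ∈ Finset.range 4, ∑ j ∈ Finset.range (4 - i),
    MvPolynomial.monomial (Finsupp.single 0 i + Finsupp.single 1 j) (c i j)

theorem mon_eq (m : Fin 2 →₀ ℕ) : Finsupp.single 0 (m 0) + Finsupp.single 1 (m 1) = m := by
  ext i
  fin_cases i <;> simp

theorem coeff_tr (c : ℕ → ℕ → ℝ) {m : Fin 2 →₀ ℕ} (hm : m.degree < 4) :
    (tr c).coeff m = c (m 0) (m 1) := by
  rw [Finsupp.degree_eq_sum, Fin.sum_univ_two] at hm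
  rw [tr, MvPolynomial.coeff_sum, Finset.sum_eq_single (m 0), MvPolynomial.coeff_sum,
    Finset.sum_eq_single (m 1), MvPolynomial.coeff_monomial, if_pos (mon_eq m)]
  · intro j _ hj
    rw [MvPolynomial.coeff_monomial, if_neg fun e => hj (by simpa using DFunLike.congr_fun e 1)]
  · intro h
    exact absurd (Finset.mem_range.2 (by omega)) h
  · intro i _ hi
    rw [MvPolynomial.coeff_sum]
    exact Finset.sum_eq_zero fun j _ => by
      rw [MvPolynomial.coeff_monomial, if_neg fun e => hi (by simpa using DFunLike.congr_fun e 0)]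
  · intro h
    exact absurd (Finset.mem_range.2 (by omega)) h

theorem ev_tr (c : ℕ → ℕ → ℝ) (η : E2) :
    ev (tr c) η = c 0 0 + (η 0 * c 1 0 + η 1 * c 0 1) +
      (η 0 * η 0 * c 2 0 + η 0 * η 1 * c 1 1 + η 1 * η 1 * c 0 2) +
      (η 0 * η 0 * η 0 * c 3 0 + η 0 * η 0 * η 1 * c 2 1 + η 0 * η 1 * η 1 * c 1 2 +
        η 1 * η 1 * η 1 * c 0 3) := by
  have h : ∀ (i j : ℕ) (r : ℝ), ev (MvPolynomial.monomial
      (Finsupp.single 0 i + Finsupp.single 1 j) r) η = r * η 0 ^ i * η 1 ^ j := by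
    intro i j r
    rw [ev, MvPolynomial.eval_monomial, Finsupp.prod_fintype _ _ fun _ => pow_zero _,
      Fin.prod_univ_two]
    simp [mul_assoc]
  simp only [tr, ev_sum, h]
  simp only [Finset.sum_range_succ, Finset.sum_range_zero]
  ring

theorem tay_tr {g : E2 → ℝ} {φ : MvPowerSeries (Fin 2) ℝ} (h : Jet g φ) :
    (fun z : ℝ × E2 => g z.2 - ev (tr fun i j =>
      MvPowerSeries.coeff (Finsupp.single 0 i + Finsupp.single 1 j) φ) z.2) =O[jet_L 2]
      fun z => z.1 ^ 4 := by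
  obtain ⟨T, a, b⟩ := h 4
  have h1 := jet_small (p := T - tr fun i j =>
      MvPowerSeries.coeff (Finsupp.single 0 i + Finsupp.single 1 j) φ) (k := 4) fun m hm => by
    rw [MvPolynomial.coeff_sub, a m hm, coeff_tr _ hm, mon_eq, sub_self]
  exact ((jet_nat.1 b).add h1).congr_left fun z => by simp

/-- the estimate along a curve on the circle. -/
theorem est {f : E2 → E3} (hf : AllPair fun x y => ‖f x - f y‖ = 1) {x n : E2}
    {T S : Fin 3 → MvPolynomial (Fin 2) ℝ}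
    (hT : ∀ a, (fun z : ℝ × E2 => f (x + z.2) a - ev (T a) z.2) =O[jet_L 2] fun z => z.1 ^ 4)
    (hS : ∀ a, (fun z : ℝ × E2 => f (x + n + z.2) a - ev (S a) z.2) =O[jet_L 2] fun z => z.1 ^ 4)
    {h : ℝ → E2} (hh : ∀ τ, 0 < τ → ‖h τ‖ ≤ τ) (hn : ∀ τ, ‖n - h τ‖ = 1) :
    (fun τ => ∑ a, (ev (T a) (h τ) - ev (S a) 0) ^ 2 - 1) =O[𝓝[>] 0] fun τ : ℝ => τ ^ 4 := by
  have h1 : ∀ᶠ z : ℝ × E2 in jet_L 2, ‖f (x + (z.2 + h z.1)) - f (x + n + z.2)‖ = 1 := by
    refine smR_of_null (Eventually.of_forall fun τ => measure_mono_null inter_subset_left ?_)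
    refine ((measurePreserving_add_right volume (x + h τ)).quasiMeasurePreserving.ae
      (hf _ (hn τ))).mono fun η hη => ?_
    rw [show x + (η + h τ) = η + (x + h τ) by abel,
      show x + n + η = η + (x + h τ) + (n - h τ) by abel]
    exact hη
  have h2 : ∀ a, (fun z : ℝ × E2 => (ev (T a) (z.2 + h z.1) - ev (S a) z.2) -
      (f (x + (z.2 + h z.1)) a - f (x + n + z.2) a)) =O[jet_L 2] fun z => z.1 ^ 4 := by
    intro a
    have h3 : (fun z : ℝ × E2 => (2 * z.1) ^ 4) =O[jet_L 2] fun z => z.1 ^ 4 :=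
      (isBigO_const_mul_self (16 : ℝ) _ _).congr_left fun z => by ring
    exact ((hS a).sub (((hT a).comp_tendsto (shift hh)).trans h3)).congr_left fun z => by
      simp only [Function.comp]
      ring
  have h3 : ∀ a, (fun z : ℝ × E2 => f (x + (z.2 + h z.1)) a - f (x + n + z.2) a) =O[jet_L 2]
      fun _ => (1 : ℝ) := fun a => IsBigO.of_bound' (h1.mono fun z hz => by
    rw [norm_one, ← hz]
    exact PiLp.norm_apply_le (f (x + (z.2 + h z.1)) - f (x + n + z.2)) a)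
  have h4 : (fun z : ℝ × E2 => ∑ a, (ev (T a) (z.2 + h z.1) - ev (S a) z.2) ^ 2 - 1) =O[jet_L 2]
      fun z => z.1 ^ 4 := by
    have h5 := IsBigO.fun_sum (s := Finset.univ) fun a _ => (h2 a).mul
      ((((h2 a).trans (jet_pow (Nat.zero_le 4))).congr_right fun z => pow_zero _).add
        ((h3 a).const_mul_left 2))
    refine h5.congr' (h1.mono fun z hz => ?_) (Eventually.of_forall fun z => mul_one _)
    have h6 := EuclideanSpace.real_norm_sq_eq (f (x + (z.2 + h z.1)) - f (x + n + z.2))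
    rw [hz] at h6
    simp only [Fin.sum_univ_three, PiLp.sub_apply] at h6 ⊢
    linear_combination h6
  have h5 := key (F := fun τ η => ∑ a, (ev (T a) (η + h τ) - ev (S a) η) ^ 2 - 1)
    (D := (∑ a, ((T a).totalDegree + (S a).totalDegree)) * 2) (fun τ => ?_) h4
  · simpa only [zero_add] using h5
  · refine (isPoly_sum _ fun a _ => IsPoly.pow ?_ 2).sub (isPoly_const _ 1)
    have h6 := Finset.single_le_sum (f := fun a => (T a).totalDegree + (S a).totalDegree)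
      (fun _ _ => Nat.zero_le _) (Finset.mem_univ a)
    exact ((isPoly_ev (T a) (by omega)).shift (h τ)).sub (isPoly_ev (S a) (by omega))

/-- the circle with centre `n` through the origin. -/
noncomputable def cur (n : E2) (τ : ℝ) : E2 :=
  (1 + τ ^ 2 / 4)⁻¹ • (τ • Jr n + (τ ^ 2 / 2) • n)

theorem cur_apply (n : E2) (τ : ℝ) (i : Fin 2) :
    cur n τ i = (1 + τ ^ 2 / 4)⁻¹ * (τ * Jr n i + τ ^ 2 / 2 * n i) := by
  simp only [cur, PiLp.smul_apply, PiLp.add_apply, smul_eq_mul]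

theorem cur_unit {n : E2} (hn : n 0 ^ 2 + n 1 ^ 2 = 1) (τ : ℝ) : ‖n - cur n τ‖ = 1 := by
  refine (pow_eq_one_iff_of_nonneg (norm_nonneg _) two_ne_zero).1 ?_
  have h0 : 1 + τ ^ 2 / 4 ≠ 0 := by positivity
  rw [EuclideanSpace.real_norm_sq_eq, Fin.sum_univ_two, PiLp.sub_apply, PiLp.sub_apply,
    cur_apply, cur_apply, show Jr n 0 = -n 1 from rfl, show Jr n 1 = n 0 from rfl]
  refine Eq.trans ?_ hn
  field_simp
  ring

theorem cur_le {n : E2} (hn : n 0 ^ 2 + n 1 ^ 2 = 1) (τ : ℝ) (hτ : 0 < τ) : ‖cur n τ‖ ≤ τ := by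
  refine le_of_sq_le_sq ?_ hτ.le
  have h0 : 0 < 1 + τ ^ 2 / 4 := by positivity
  have h1 : ‖cur n τ‖ ^ 2 = τ ^ 2 / (1 + τ ^ 2 / 4) * (n 0 ^ 2 + n 1 ^ 2) := by
    rw [EuclideanSpace.real_norm_sq_eq, Fin.sum_univ_two, cur_apply, cur_apply,
      show Jr n 0 = -n 1 from rfl, show Jr n 1 = n 0 from rfl]
    field_simp
    ring
  rw [h1, hn, mul_one]
  exact div_le_self (sq_nonneg τ) (by nlinarith)

/-- the expansion of a cubic map along the circle. -/
theorem ex_tr (c : ℕ → ℕ → Fin 3 → ℝ) (n : E2) (a : Fin 3) (v : ℝ) :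
    Ex (fun τ => ev (tr fun i j => c i j a) (cur n τ) - v) (c 0 0 a - v) (Lm c (Jr n) a)
      (((1 / 2 : ℝ) • Lm c n + Qm c (Jr n) (Jr n)) a)
      ((Qm c (Jr n) n + Cm c (Jr n)) a - Lm c (Jr n) a / 4) := by
  have p := ex_curve (Jr n 0) (n 0)
  have q := ex_curve (Jr n 1) (n 1)
  have k := Ex.const
  refine (((((k (c 0 0 a)).add ((p.mul (k (c 1 0 a))).add (q.mul (k (c 0 1 a))))).add
    ((((p.mul p).mul (k (c 2 0 a))).add ((p.mul q).mul (k (c 1 1 a)))).add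
      ((q.mul q).mul (k (c 0 2 a))))).add
    ((((((p.mul p).mul p).mul (k (c 3 0 a))).add (((p.mul p).mul q).mul (k (c 2 1 a)))).add
      (((p.mul q).mul q).mul (k (c 1 2 a)))).add (((q.mul q).mul q).mul (k (c 0 3 a))))).add
    (k (-v))).congr (fun τ => ?_) ?_ ?_ ?_ ?_
  · rw [ev_tr, cur_apply, cur_apply, sub_eq_add_neg]
  · ring
  all_goals
    simp only [Lm, Qm, Cm, Pi.add_apply, Pi.smul_apply, smul_eq_mul]
    ring

end PairE

open PairE in
theorem sPairE : SPairE := by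
  intro f hf x n φ ψ hn hφ hψ
  have hn2 : n 0 ^ 2 + n 1 ^ 2 = 1 := by
    rw [← Fin.sum_univ_two fun i => n i ^ 2, ← EuclideanSpace.real_norm_sq_eq, hn, one_pow]
  have h1 := est hf (fun a => tay_tr (hφ a).1) (fun a => tay_tr (hψ a).1) (cur_le hn2)
    (cur_unit hn2)
  have h2 : ∀ a, ev (tr fun i j => MvPowerSeries.coeff
      (Finsupp.single 0 i + Finsupp.single 1 j) (ψ a)) 0 = f (x + n) a := fun a => by
    rw [ev_tr, ← (hψ a).2]
    simp
  have h3 : ∀ a, cv φ 0 0 a = f x a := fun a => by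
    rw [cv, ← (hφ a).2]
    simp
  have e := fun a => ex_tr (cv φ) n a (f (x + n) a)
  obtain ⟨-, e1, e2, e3⟩ := (((((e 0).mul (e 0)).add ((e 1).mul (e 1))).add
    ((e 2).mul (e 2))).add (Ex.const (-1))).zero (h1.congr_left fun τ => by
      simp only [h2, Fin.sum_univ_three, cv]
      ring)
  simp only [h3] at e1 e2 e3
  constructor <;> simp only [dotProduct, Fin.sum_univ_three]
  · linear_combination (-1 / 2) * e1
  · simp only [Pi.add_apply, Pi.smul_apply, smul_eq_mul] at e2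
    linear_combination (-1) * e2
  · linear_combination (-1 / 2) * e3 + (-1 / 8) * e1

end Pool.Agent.MP_66cee2_co.P
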