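import Pool.Agent.MP_66cee2_co.P.Spec
import Pool.Agent.MP_66cee2_co.XJ.All

/-
Maps of the plane into three dimensional space: calculus of regular functions.
-/

namespace Pool.Agent.MP_66cee2_co.P

open MeasureTheory Set Filter Metric Topology Asymptotics Pool.Agent.MP_66cee2_co.X

namespace Reg

theorem apc_of {f : E2 → ℝ} {c : ℝ} (h : Tendsto (fun z => f z.2) (jet_L 2) (𝓝 c)) :
    ApC f c := by
  intro ε hε
  have h1 : ∀ᶠ z in jet_L 2, ¬ ε < |f z.2 - c| :=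
    (Metric.tendsto_nhds.1 h ε hε).mono fun z hz => not_lt.2 (le_of_lt hz)
  simpa only [jet_ev, not_not] using h1

theorem tay_const (c : ℝ) (k : ℕ) : HasTay (fun _ : E2 => c) k :=
  ⟨MvPolynomial.C c, jet_nat.2 (by simpa using isBigO_zero _ _)⟩

theorem tay_add {g h : E2 → ℝ} {k : ℕ} (hg : HasTay g k) (hh : HasTay h k) :
    HasTay (fun η => g η + h η) k := by
  obtain ⟨T, a⟩ := hg
  obtain ⟨T', b⟩ := hh
  refine ⟨T + T', jet_nat.2 (((jet_nat.1 a).add (jet_nat.1 b)).congr_left fun z => ?_)⟩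
  rw [ev_add]
  ring

theorem tay_mul {g h : E2 → ℝ} {k : ℕ} (hg : HasTay g k) (hh : HasTay h k) :
    HasTay (fun η => g η * h η) k := by
  obtain ⟨T, a⟩ := hg
  obtain ⟨T', b⟩ := hh
  exact ⟨T * T', jet_mul a b⟩

theorem tay_pow {g : E2 → ℝ} {k : ℕ} (hg : HasTay g k) (i : ℕ) :
    HasTay (fun η => g η ^ i) k := by
  induction i with
  | zero => simpa using tay_const 1 k
  | succ i ih => simpa only [pow_succ] using tay_mul ih hg

theorem tay_sum {g : ℕ → E2 → ℝ} {k : ℕ} (hg : ∀ i, HasTay (g i) k) (n : ℕ) :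
    HasTay (fun η => ∑ i ∈ Finset.range n, g i η) k := by
  induction n with
  | zero => simpa using tay_const 0 k
  | succ n ih => simpa only [Finset.sum_range_succ] using tay_add ih (hg n)

theorem lip {h : E2 → ℝ} (hh : Reg h) :
    (fun z : ℝ × E2 => h z.2 - h 0) =O[jet_L 2] fun z => z.1 := by
  obtain ⟨T, a⟩ := hh.1 1
  have b := (sJet sPoly).low 2 h T _ (by simp) a
  rw [jet_val (by simp) a hh.2] at b
  simpa using jet_nat.1 b

theorem tay_comp {u : ℝ → ℝ} {h : E2 → ℝ} (hu : AnalyticAt ℝ u (h 0)) (hh : Reg h) (k : ℕ) :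
    HasTay (fun η => u (h η)) k := by
  obtain ⟨p, hp⟩ := hu
  have t0 : Tendsto (fun z : ℝ × E2 => h z.2 - h 0) (jet_L 2) (𝓝 0) := by
    simpa using (jet_apc hh.2).sub_const (h 0)
  have h1 := (hp.isBigO_sub_partialSum_pow k).comp_tendsto t0
  have h2 : (fun z : ℝ × E2 => ‖h z.2 - h 0‖ ^ k) =O[jet_L 2] fun z => z.1 ^ k :=
    (lip hh).norm_left.pow k
  have h3 := h1.trans h2
  obtain ⟨T, hT⟩ : HasTay (fun η => ∑ i ∈ Finset.range k, (h η + -h 0) ^ i * p.coeff i) k :=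
    tay_sum (fun i => tay_mul (tay_pow (tay_add (hh.1 k) (tay_const _ k)) i) (tay_const _ k)) k
  refine ⟨T, jet_nat.2 ((h3.add (jet_nat.1 hT)).congr_left fun z => ?_)⟩
  simp only [Function.comp, FormalMultilinearSeries.partialSum,
    FormalMultilinearSeries.apply_eq_pow_smul_coeff, smul_eq_mul, sub_eq_add_neg]
  simp

end Reg

theorem sReg : SReg where
  const c := ⟨Reg.tay_const c, Reg.apc_of tendsto_const_nhds⟩
  add _ _ hg hh := ⟨fun k => Reg.tay_add (hg.1 k) (hh.1 k),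
    Reg.apc_of ((jet_apc hg.2).add (jet_apc hh.2))⟩
  mul _ _ hg hh := ⟨fun k => Reg.tay_mul (hg.1 k) (hh.1 k),
    Reg.apc_of ((jet_apc hg.2).mul (jet_apc hh.2))⟩
  comp _ _ hu hh := ⟨Reg.tay_comp hu hh,
    Reg.apc_of (hu.continuousAt.tendsto.comp (jet_apc hh.2))⟩
  congr g h hg hs h0 := by
    have h1 : ∀ᶠ z in jet_L 2, g z.2 = h z.2 := jet_ev.2 hs
    refine ⟨fun k => ?_, Reg.apc_of (h0 ▸ (jet_apc hg.2).congr' h1)⟩
    obtain ⟨T, b⟩ := hg.1 k
    exact ⟨T, jet_nat.2 ((jet_nat.1 b).congr' (h1.mono fun z hz => by simp only [hz])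
      EventuallyEq.rfl)⟩
  jet f x h := by
    choose φ hφ using fun a => (sJet sPoly).ex 2 _ (h a).1
    refine ⟨φ, fun a => ⟨hφ a, ?_⟩⟩
    simpa using (sJet sPoly).jval 2 _ _ _ (hφ a) (h a).2

theorem sRowR : SRowR := by
  intro P hP
  obtain ⟨JA, JB, A, B, hG⟩ := sGal sSig (sUp sSig) sRows 2 3 P hP
  refine ⟨JA, JB, A, B, hG, fun j => ?_⟩
  have h := main_tay (sJet sPoly)
    (sBase sApp sPoly (sTele sPoly) sCoreAll (sBaseA sSig sApp (sPair sSig)))
    (sStep sApp (sJet sPoly) (sTele sPoly) sCoreAll) le_rfl hG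
  filter_upwards [ae_all_iff.2 fun m => (h m).1 j,
    ae_all_iff.2 fun a => sApp.apc 2 _ ((hG.dA j).mξ a)] with x hx hx' a
  refine ⟨fun k => ?_, by simpa using hx' a⟩
  obtain ⟨T, hT⟩ := hx (3 * k) a
  refine ⟨T, jet_mono ?_ hT⟩
  push_cast
  linarith

end Pool.Agent.MP_66cee2_co.P
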