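import Pool.Agent.MP_66cee2_co.P.Spec

/-
The normal component in the conformal case.
-/

namespace Pool.Agent.MP_66cee2_co.P

open Matrix Polynomial

namespace Rfin

theorem ze_sq : ze ^ 2 = ze - 1 := by
  have h : ((√3 / 2 : ℝ) : ℂ) ^ 2 = 3 / 4 := by
    rw [← Complex.ofReal_pow, div_pow, Real.sq_sqrt (by norm_num)]
    push_cast; norm_num
  unfold ze
  linear_combination ((√3 / 2 : ℝ) : ℂ) ^ 2 * Complex.I_sq - h

theorem ze_cube : ze ^ 3 = -1 := by linear_combination (ze + 1) * ze_sq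

theorem ze_ne : ze ≠ 0 := fun h => by
  have := ze_cube
  rw [h] at this
  norm_num at this

theorem ze_norm : ‖ze‖ = 1 := by
  have h : ‖ze‖ ^ 3 = 1 := by rw [← norm_pow, ze_cube, norm_neg, norm_one]
  exact (pow_eq_one_iff_of_nonneg (norm_nonneg _) (by norm_num)).1 h

/-- the Gram determinant. -/
theorem gram {A B : Fin 3 → ℂ} (hA : A ⬝ᵥ A = 0) (hB : B ⬝ᵥ B = 0) (u v : Fin 3 → ℂ) :
    (u ⬝ᵥ crossProduct A B) * (v ⬝ᵥ crossProduct A B) =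
      -(A ⬝ᵥ B) ^ 2 * (u ⬝ᵥ v) + (A ⬝ᵥ B) * ((u ⬝ᵥ A) * (v ⬝ᵥ B) + (u ⬝ᵥ B) * (v ⬝ᵥ A)) := by
  have h : (u ⬝ᵥ crossProduct A B) * (v ⬝ᵥ crossProduct A B) =
      -(A ⬝ᵥ B) ^ 2 * (u ⬝ᵥ v) + (A ⬝ᵥ B) * ((u ⬝ᵥ A) * (v ⬝ᵥ B) + (u ⬝ᵥ B) * (v ⬝ᵥ A)) +
      (u ⬝ᵥ v) * (A ⬝ᵥ A) * (B ⬝ᵥ B) - (u ⬝ᵥ A) * (v ⬝ᵥ A) * (B ⬝ᵥ B) -
      (u ⬝ᵥ B) * (v ⬝ᵥ B) * (A ⬝ᵥ A) := by
    simp only [cross_apply, dotProduct, Fin.sum_univ_three, Matrix.cons_val_zero,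
      Matrix.cons_val_one, Matrix.cons_val_two, Matrix.head_cons, Matrix.tail_cons]
    ring
  rw [h, hA, hB]; ring

variable {K : CJ} {Θ : Set ℂ} {ν : ℂ → Fin 3 → ℂ}

theorem BB (h : CHex K Θ ν) (hA : K.A ⬝ᵥ K.A = 0) : K.B ⬝ᵥ K.B = 0 := by
  have h1 : star (K.A ⬝ᵥ K.A) = star K.A ⬝ᵥ star K.A := by
    simp only [dotProduct, star_sum, star_mul', Pi.star_apply]
  rw [h.hB, ← h1, hA, star_zero]

theorem g_ne (h : CHex K Θ ν) (hA : K.A ⬝ᵥ K.A = 0) : K.A ⬝ᵥ K.B ≠ 0 := fun h0 =>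
  h.rk (by rw [hA, h0]; ring)

theorem tau_ne (h : CHex K Θ ν) {τ : ℂ} (hτ : τ ∈ Θ) : τ ≠ 0 := fun h0 => by
  have := h.unit τ hτ
  rw [h0, norm_zero] at this
  exact zero_ne_one this

theorem nuA (h : CHex K Θ ν) {τ : ℂ} (hτ : τ ∈ Θ) : ν τ ⬝ᵥ K.A = τ ^ 2 * (ν τ ⬝ᵥ K.B) := by
  have := h.e1 τ hτ
  rw [CJ.p1, dotProduct_sub, dotProduct_smul, smul_eq_mul] at this
  linear_combination this

theorem nrm (h : CHex K Θ ν) (hA : K.A ⬝ᵥ K.A = 0) {τ : ℂ} (hτ : τ ∈ Θ) :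
    (ν τ ⬝ᵥ crossProduct K.A K.B) ^ 2 =
      -(K.A ⬝ᵥ K.B) ^ 2 + 2 * (K.A ⬝ᵥ K.B) * (τ * (ν τ ⬝ᵥ K.B)) ^ 2 := by
  have := gram hA (BB h hA) (ν τ) (ν τ)
  rw [h.nrm τ hτ, nuA h hτ] at this
  linear_combination this

theorem hex (h : CHex K Θ ν) (hA : K.A ⬝ᵥ K.A = 0) {τ : ℂ} (hτ : τ ∈ Θ) :
    (ν τ ⬝ᵥ crossProduct K.A K.B) * (ν (ze * τ) ⬝ᵥ crossProduct K.A K.B) =
      -(K.A ⬝ᵥ K.B) ^ 2 / 2 +
        (K.A ⬝ᵥ K.B) * ((τ * (ν τ ⬝ᵥ K.B)) * (ze * τ * (ν (ze * τ) ⬝ᵥ K.B))) := by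
  have := gram hA (BB h hA) (ν τ) (ν (ze * τ))
  rw [h.hex τ hτ, nuA h hτ, nuA h (h.rot τ hτ)] at this
  linear_combination this +
    (K.A ⬝ᵥ K.B) * τ ^ 2 * (ν τ ⬝ᵥ K.B) * (ν (ze * τ) ⬝ᵥ K.B) * ze_sq

theorem p1_sq (h : CHex K Θ ν) (hA : K.A ⬝ᵥ K.A = 0) (τ : ℂ) :
    K.p1 τ ⬝ᵥ K.p1 τ = -2 * τ ^ 2 * (K.A ⬝ᵥ K.B) := by
  simp only [CJ.p1, dotProduct_sub, sub_dotProduct, dotProduct_smul, smul_dotProduct, smul_eq_mul,
    hA, BB h hA, dotProduct_comm K.B K.A]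
  ring

/-- two polynomials related by the rotation. -/
theorem poly_zero {V W : ℂ[X]}
    (h : (V.comp (C ze * X) * W) * (V.comp (C ze * X) * W) +
      (V * W.comp (C ze * X)) * (V * W.comp (C ze * X)) =
      C 4 * ((V.comp (C ze * X) * W) * (V * W.comp (C ze * X)))) : V = 0 ∨ W = 0 := by
  by_contra hn
  obtain ⟨hV, hW⟩ := not_or.1 hn
  have d1 : (C ze * X : ℂ[X]).natDegree = 1 := natDegree_C_mul_X _ ze_ne
  have l1 : (C ze * X : ℂ[X]).leadingCoeff = ze := leadingCoeff_C_mul_X _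
  have lc : ∀ p : ℂ[X], (p.comp (C ze * X)).leadingCoeff = p.leadingCoeff * ze ^ p.natDegree :=
    fun p => by rw [leadingCoeff_comp (by rw [d1]; exact one_ne_zero), l1]
  have nz : ∀ p : ℂ[X], p ≠ 0 → p.comp (C ze * X) ≠ 0 := fun p hp => by
    rw [← leadingCoeff_ne_zero, lc]
    exact mul_ne_zero (leadingCoeff_ne_zero.2 hp) (pow_ne_zero _ ze_ne)
  have dP : (V.comp (C ze * X) * W).natDegree = V.natDegree + W.natDegree := by
    rw [natDegree_mul (nz V hV) hW, natDegree_comp, d1, mul_one]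
  have dQ : (V * W.comp (C ze * X)).natDegree = V.natDegree + W.natDegree := by
    rw [natDegree_mul hV (nz W hW), natDegree_comp, d1, mul_one]
  have lP : (V.comp (C ze * X) * W).leadingCoeff =
      ze ^ V.natDegree * (V.leadingCoeff * W.leadingCoeff) := by
    rw [leadingCoeff_mul, lc]; ring
  have lQ : (V * W.comp (C ze * X)).leadingCoeff =
      ze ^ W.natDegree * (V.leadingCoeff * W.leadingCoeff) := by
    rw [leadingCoeff_mul, lc]; ring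
  generalize V.comp (C ze * X) * W = P at *
  generalize V * W.comp (C ze * X) = Q at *
  have e1 := coeff_mul_degree_add_degree P P
  have e2 := coeff_mul_degree_add_degree Q Q
  have e3 := coeff_mul_degree_add_degree P Q
  rw [dQ] at e2 e3
  rw [dP] at e1 e3
  have e4 := congrArg (fun p : ℂ[X] =>
    p.coeff (V.natDegree + W.natDegree + (V.natDegree + W.natDegree))) h
  simp only [coeff_add, coeff_C_mul] at e4
  rw [e1, e2, e3, lP, lQ] at e4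
  have ht : V.leadingCoeff * W.leadingCoeff ≠ 0 :=
    mul_ne_zero (leadingCoeff_ne_zero.2 hV) (leadingCoeff_ne_zero.2 hW)
  have e5 : ze ^ V.natDegree * ze ^ V.natDegree + ze ^ W.natDegree * ze ^ W.natDegree =
      4 * (ze ^ V.natDegree * ze ^ W.natDegree) :=
    mul_right_cancel₀ (mul_ne_zero ht ht) (by linear_combination e4)
  have e6 := norm_add_le (ze ^ V.natDegree * ze ^ V.natDegree) (ze ^ W.natDegree * ze ^ W.natDegree)
  rw [e5] at e6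
  simp only [norm_mul, norm_pow, ze_norm, one_pow, Complex.norm_ofNat] at e6
  norm_num at e6

/-- on a half hexagon of tangential values the vector is determined. -/
theorem half (h : CHex K Θ ν) (hA : K.A ⬝ᵥ K.A = 0) {τ : ℂ} (hτ : τ ∈ Θ)
    (m0 : ν τ ⬝ᵥ crossProduct K.A K.B = 0) (m1 : ν (ze * τ) ⬝ᵥ crossProduct K.A K.B = 0)
    (m2 : ν (ze * (ze * τ)) ⬝ᵥ crossProduct K.A K.B = 0)
    (m3 : ν (ze * (ze * (ze * τ))) ⬝ᵥ crossProduct K.A K.B = 0) :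
    2 * K.A ⬝ᵥ K.B = 1 ∧ ν τ = τ • K.B + τ⁻¹ • K.A := by
  have hg := g_ne h hA
  have h0 := tau_ne h hτ
  have step : ∀ σ ∈ Θ, ν σ ⬝ᵥ crossProduct K.A K.B = 0 →
      ze * σ * (ν (ze * σ) ⬝ᵥ K.B) = σ * (ν σ ⬝ᵥ K.B) := by
    intro σ hσ hm
    have a1 := nrm h hA hσ
    have a2 := hex h hA hσ
    rw [hm] at a1 a2
    have a3 : σ * (ν σ ⬝ᵥ K.B) ≠ 0 := fun h1 => by
      rw [h1] at a1
      exact hg (pow_eq_zero_iff two_ne_zero |>.1 (by linear_combination a1))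
    refine mul_left_cancel₀ (mul_ne_zero hg a3) ?_
    linear_combination a1 / 2 - a2
  have vec : ∀ σ ∈ Θ, ν σ ⬝ᵥ crossProduct K.A K.B = 0 → ∀ v : Fin 3 → ℂ,
      (K.A ⬝ᵥ K.B) * (ν σ ⬝ᵥ v) = (ν σ ⬝ᵥ K.B) * (σ ^ 2 * (v ⬝ᵥ K.B) + v ⬝ᵥ K.A) := by
    intro σ hσ hm v
    have a1 := gram hA (BB h hA) (ν σ) v
    rw [hm, nuA h hσ] at a1
    refine mul_left_cancel₀ hg ?_
    linear_combination a1
  have t1 := h.rot τ hτ
  have t2 := h.rot _ t1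
  have t3 := h.rot _ t2
  have s0 := step τ hτ m0
  have s1 := step _ t1 m1
  have s2 := step _ t2 m2
  have e : ze * (ze * (ze * τ)) = -τ := by linear_combination τ * ze_cube
  rw [e] at t3 m3 s2
  have b3 : ν (-τ) ⬝ᵥ K.B = -(ν τ ⬝ᵥ K.B) :=
    mul_left_cancel₀ h0 (by linear_combination -s2 - s1 - s0)
  have q0 := h.e2 τ hτ
  have q3 := h.e2 _ t3
  rw [p1_sq h hA] at q0 q3
  have r0 : K.p2 τ = (K.A2 - τ ^ 2 • K.B1 + τ ^ 4 • K.C0) - τ ^ 3 • K.B := rfl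
  have r3 : K.p2 (-τ) = (K.A2 - τ ^ 2 • K.B1 + τ ^ 4 • K.C0) + τ ^ 3 • K.B := by
    rw [CJ.p2, show (-τ) ^ 2 = τ ^ 2 by ring, show (-τ) ^ 4 = τ ^ 4 by ring,
      show (-τ) ^ 3 = -τ ^ 3 by ring, neg_smul, sub_neg_eq_add]
  rw [r0, dotProduct_sub, dotProduct_smul, smul_eq_mul] at q0
  rw [r3, dotProduct_add, dotProduct_smul, smul_eq_mul, b3] at q3
  have v0 := vec τ hτ m0 (K.A2 - τ ^ 2 • K.B1 + τ ^ 4 • K.C0)
  have v3 := vec _ t3 m3 (K.A2 - τ ^ 2 • K.B1 + τ ^ 4 • K.C0)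
  rw [b3] at v3
  generalize K.A2 - τ ^ 2 • K.B1 + τ ^ 4 • K.C0 = E at *
  have y1 : τ * (ν τ ⬝ᵥ K.B) = K.A ⬝ᵥ K.B := by
    refine mul_left_cancel₀ (mul_ne_zero hg (pow_ne_zero 2 h0)) ?_
    linear_combination (v0 + v3) / 2 - (K.A ⬝ᵥ K.B) * (q0 + q3) / 4
  refine ⟨?_, funext fun i => ?_⟩
  · have a1 := nrm h hA hτ
    rw [m0, y1] at a1
    refine mul_left_cancel₀ (pow_ne_zero 2 hg) ?_
    linear_combination -a1
  · have a1 := vec τ hτ m0 (Pi.single i 1)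
    simp only [dotProduct_single, single_dotProduct, mul_one, one_mul] at a1
    simp only [Pi.add_apply, Pi.smul_apply, smul_eq_mul]
    refine mul_left_cancel₀ (mul_ne_zero hg h0) ?_
    have a2 : τ * τ⁻¹ = 1 := mul_inv_cancel₀ h0
    linear_combination τ * a1 + (τ ^ 2 * K.B i + K.A i) * y1 - (K.A ⬝ᵥ K.B) * K.A i * a2

end Rfin

open Rfin in
theorem sRfin : SRfin := by
  intro K Θ ν h ⟨D, N, hD, hN⟩ hA
  have hg := g_ne h hA
  obtain ⟨r, hr⟩ := IsAlgClosed.exists_pow_nat_eq (2 / (K.A ⬝ᵥ K.B)) two_pos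
  have hr' : r ^ 2 * (K.A ⬝ᵥ K.B) = 2 := by rw [hr]; field_simp
  obtain ⟨V, hV⟩ : ∃ V : ℂ[X], ∀ τ ∈ Θ,
      V.eval τ = D.eval τ * (ν τ ⬝ᵥ crossProduct K.A K.B) :=
    ⟨∑ a, N a * C (crossProduct K.A K.B a), fun τ hτ => by
      simp only [eval_finsetSum, eval_mul, eval_C, dotProduct, Finset.mul_sum, ← hN τ hτ,
        mul_assoc]⟩
  obtain ⟨W, hW⟩ : ∃ W : ℂ[X], ∀ τ ∈ Θ,
      W.eval τ = D.eval τ * (1 + r * (τ * (ν τ ⬝ᵥ K.B))) :=
    ⟨D + C r * X * ∑ a, N a * C (K.B a), fun τ hτ => by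
      simp only [eval_add, eval_mul, eval_C, eval_X, dotProduct, Fin.sum_univ_three, ← hN τ hτ]
      ring⟩
  have key : V = 0 ∨ W = 0 := by
    refine poly_zero (eq_of_infinite_eval_eq _ _ (h.inf.mono fun τ hτ => ?_))
    have t1 := h.rot τ hτ
    simp only [Set.mem_ofPred_eq, eval_add, eval_mul, eval_comp, eval_C, eval_X, hV τ hτ, hW τ hτ,
      hV _ t1, hW _ t1]
    have a0 := nrm h hA hτ
    have a1 := nrm h hA t1
    have a2 := hex h hA hτ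
    generalize ν τ ⬝ᵥ crossProduct K.A K.B = m at *
    generalize ν (ze * τ) ⬝ᵥ crossProduct K.A K.B = m' at *
    generalize τ * (ν τ ⬝ᵥ K.B) = w at *
    generalize ze * τ * (ν (ze * τ) ⬝ᵥ K.B) = w' at *
    generalize K.A ⬝ᵥ K.B = g at *
    have b0 : m ^ 2 = -g ^ 2 * (1 - (r * w) ^ 2) := by linear_combination a0 - g * w ^ 2 * hr'
    have b1 : m' ^ 2 = -g ^ 2 * (1 - (r * w') ^ 2) := by linear_combination a1 - g * w' ^ 2 * hr'
    have b2 : 2 * (m * m') = -g ^ 2 * (1 - (r * w) * (r * w')) := by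
      linear_combination 2 * a2 - g * w * w' * hr'
    linear_combination (D.eval τ * D.eval (ze * τ)) ^ 2 *
      ((1 + r * w') ^ 2 * b0 + (1 + r * w) ^ 2 * b1 - 2 * (1 + r * w) * (1 + r * w') * b2)
  refine (finite_setOfPred_isRoot hD).subset fun τ hτ => ?_
  obtain ⟨hτ, hm⟩ := hτ
  by_contra hd
  have hd' : D.eval τ ≠ 0 := hd
  rcases key with rfl | rfl
  · exact mul_ne_zero hd' hm (by rw [← hV τ hτ, eval_zero])
  · have a1 : 1 + r * (τ * (ν τ ⬝ᵥ K.B)) = 0 :=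
      (mul_eq_zero.1 (by rw [← hW τ hτ, eval_zero])).resolve_left hd'
    have a0 := nrm h hA hτ
    refine hm (pow_eq_zero_iff two_ne_zero |>.1 ?_)
    linear_combination a0 - (K.A ⬝ᵥ K.B) * (τ * (ν τ ⬝ᵥ K.B)) ^ 2 * hr' +
      (K.A ⬝ᵥ K.B) ^ 2 * (r * (τ * (ν τ ⬝ᵥ K.B)) - 1) * a1

open Rfin in
theorem sEndA : SEndA := by
  intro K Θ ν h hA
  have hg := g_ne h hA
  refine ⟨fun h2 h1 τ hτ => ?_, fun hF => ?_⟩
  · have y1 : ∀ σ ∈ Θ, σ * (ν σ ⬝ᵥ K.B) = K.A ⬝ᵥ K.B := by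
      intro σ hσ
      have q0 := h.e2 σ hσ
      rw [p1_sq h hA, CJ.p2, h.hC, h2, h1] at q0
      simp only [star_zero, smul_zero, sub_zero, add_zero, zero_sub, dotProduct_neg,
        dotProduct_smul, smul_eq_mul] at q0
      refine mul_left_cancel₀ (pow_ne_zero 2 (tau_ne h hσ)) ?_
      linear_combination -q0 / 2
    have t1 := h.rot τ hτ
    have a0 := nrm h hA hτ
    have a1 := nrm h hA t1
    have a2 := hex h hA hτ
    rw [y1 _ t1] at a1 a2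
    rw [y1 τ hτ] at a0 a2
    generalize ν τ ⬝ᵥ crossProduct K.A K.B = m at *
    generalize ν (ze * τ) ⬝ᵥ crossProduct K.A K.B = m' at *
    have b1 : 2 * (m * m') = m ^ 2 := by linear_combination 2 * a2 - a0
    have b2 : m' ^ 2 = m ^ 2 := by linear_combination a1 - a0
    refine pow_eq_zero_iff (n := 4) (by norm_num) |>.1 ?_
    linear_combination (2 * (m * m') + m ^ 2) / 3 * b1 - 4 / 3 * m ^ 2 * b2
  · have inj : Function.Injective fun τ : ℂ => ze * τ := mul_right_injective₀ ze_ne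
    have f1 := hF.preimage inj.injOn
    have f2 := f1.preimage inj.injOn
    have f3 := f2.preimage inj.injOn
    have fin := ((hF.union f1).union f2).union f3
    have good : ∀ τ ∈ Θ, τ ∉ _ → 2 * K.A ⬝ᵥ K.B = 1 ∧ ν τ = τ • K.B + τ⁻¹ • K.A :=
      fun τ hτ (hn : τ ∉ fin.toFinset) => by
        have t1 := h.rot τ hτ
        have t2 := h.rot _ t1
        have t3 := h.rot _ t2
        simp only [Set.Finite.mem_toFinset, Set.mem_union, Set.mem_preimage, Set.mem_ofPred_eq,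
          not_or, not_and, not_not] at hn
        exact half h hA hτ (hn.1.1.1 hτ) (hn.1.1.2 t1) (hn.1.2 t2) (hn.2 t3)
    obtain ⟨τ, hτ, hn⟩ := h.inf.exists_notMem_finset fin.toFinset
    refine ⟨(good τ hτ hn).1, fin.toFinset.finite_toSet.subset fun σ hσ => ?_⟩
    by_contra hn'
    exact hσ.2 (good σ hσ.1 hn').2

end Pool.Agent.MP_66cee2_co.P
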