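import Pool.Agent.MP_66cee2_co.P.Spec

/-
The case of a first derivative of rank one.
-/

namespace Pool.Agent.MP_66cee2_co.P

open Set Matrix Pool.Agent.MP_66cee2_co.X

namespace Rk1

/-- a vector orthogonal to `m` is orthogonal to every vector parallel to `m`. -/
theorem par (m x ν : Fin 3 → ℝ) (hm : m ⬝ᵥ m ≠ 0) (hx : crossProduct x m = 0) (h : ν ⬝ᵥ m = 0) :
    ν ⬝ᵥ x = 0 := by
  have h0 := congrFun hx 0
  have h1 := congrFun hx 1
  have h2 := congrFun hx 2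
  simp [cross_apply] at h0 h1 h2
  simp only [dotProduct, Fin.sum_univ_three] at hm h ⊢
  apply mul_left_cancel₀ hm
  linear_combination (m 0 * x 0 + m 1 * x 1 + m 2 * x 2) * h +
    (ν 1 * m 2 - ν 2 * m 1) * h0 + (ν 2 * m 0 - ν 0 * m 2) * h1 + (ν 0 * m 1 - ν 1 * m 0) * h2

/-- a vector parallel to a nonzero vector is a multiple of it. -/
theorem mult (m x : Fin 3 → ℝ) (hm : m ⬝ᵥ m ≠ 0) (hx : crossProduct m x = 0) :
    x = ((m ⬝ᵥ x) / (m ⬝ᵥ m)) • m := by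
  have h0 := congrFun hx 0
  have h1 := congrFun hx 1
  have h2 := congrFun hx 2
  simp [cross_apply] at h0 h1 h2
  funext a
  rw [Pi.smul_apply, smul_eq_mul, div_mul_eq_mul_div, eq_div_iff hm]
  simp only [dotProduct, Fin.sum_univ_three]
  fin_cases a
  · simp only [Fin.zero_eta]
    linear_combination (m 2) * h1 - (m 1) * h2
  · simp only [Fin.mk_one]
    linear_combination (m 0) * h2 - (m 2) * h0
  · simp only [Fin.reduceFinMk]
    linear_combination (m 1) * h0 - (m 0) * h1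

/-- at most two unit vectors satisfy two independent linear equations. -/
theorem two (m w : Fin 3 → ℝ) (k : ℝ) (hm : m ⬝ᵥ m ≠ 0) (hk : k ≠ 0) :
    ∃ q q' : Fin 3 → ℝ, ∀ ν : Fin 3 → ℝ, ν ⬝ᵥ m = 0 → ν ⬝ᵥ w = k → ν ⬝ᵥ ν = 1 →
      ν = q ∨ ν = q' := by
  by_cases hex : ∃ ν : Fin 3 → ℝ, ν ⬝ᵥ m = 0 ∧ ν ⬝ᵥ w = k ∧ ν ⬝ᵥ ν = 1
  swap
  · exact ⟨0, 0, fun ν h1 h2 h3 => absurd ⟨ν, h1, h2, h3⟩ hex⟩
  obtain ⟨p, p1, p2, p3⟩ := hex
  set u : Fin 3 → ℝ := crossProduct w m with hu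
  have hu0 : u ≠ 0 := fun h => hk (p2 ▸ par m w p hm h p1)
  have huu : u ⬝ᵥ u ≠ 0 := fun h => hu0 (dotProduct_self_eq_zero.1 h)
  refine ⟨p, p - (2 * (p ⬝ᵥ u) / (u ⬝ᵥ u)) • u, fun ν h1 h2 h3 => ?_⟩
  have d1 : (ν - p) ⬝ᵥ m = 0 := by rw [sub_dotProduct, h1, p1, sub_zero]
  have d2 : (ν - p) ⬝ᵥ w = 0 := by rw [sub_dotProduct, h2, p2, sub_self]
  have hc : crossProduct u (ν - p) = 0 := by
    simp only [dotProduct, Fin.sum_univ_three] at d1 d2
    funext a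
    rw [hu]
    fin_cases a
    · simp [cross_apply] at d1 d2 ⊢
      linear_combination (m 0) * d2 - (w 0) * d1
    · simp [cross_apply] at d1 d2 ⊢
      linear_combination (m 1) * d2 - (w 1) * d1
    · simp [cross_apply] at d1 d2 ⊢
      linear_combination (m 2) * d2 - (w 2) * d1
  have hs := mult u (ν - p) huu hc
  set t : ℝ := (u ⬝ᵥ (ν - p)) / (u ⬝ᵥ u) with ht
  have hν : ν = p + t • u := by rw [← hs]; abel
  have hq : t * (2 * (p ⬝ᵥ u) + t * (u ⬝ᵥ u)) = 0 := by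
    rw [hν] at h3
    simp only [add_dotProduct, dotProduct_add, smul_dotProduct, dotProduct_smul, smul_eq_mul,
      dotProduct_comm u p] at h3
    linear_combination h3 - p3
  rcases mul_eq_zero.1 hq with h | h
  · left
    rw [hν, h, zero_smul, add_zero]
  · right
    have : t = -(2 * (p ⬝ᵥ u) / (u ⬝ᵥ u)) := by
      field_simp
      linear_combination h
    rw [hν, this, neg_smul, sub_eq_add_neg]

theorem nsq (n : E2) (h : ‖n‖ = 1) : n 0 ^ 2 + n 1 ^ 2 = 1 := by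
  have := EuclideanSpace.real_norm_sq_eq n
  rw [h, Fin.sum_univ_two] at this
  linarith

/-- a line through the origin meets the unit circle in a finite set. -/
theorem fin (l0 l1 : ℝ) (hl : l0 = 1 ∨ l1 = 1) :
    {n : E2 | ‖n‖ = 1 ∧ l1 * n 0 - l0 * n 1 = 0}.Finite := by
  by_cases hex : ∃ p : E2, ‖p‖ = 1 ∧ l1 * p 0 - l0 * p 1 = 0
  swap
  · convert finite_empty
    exact eq_empty_of_forall_notMem fun n hn => hex ⟨n, hn⟩
  obtain ⟨p, p1, p2⟩ := hex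
  refine (toFinite ({p, -p} : Set E2)).subset fun n hn => ?_
  obtain ⟨n1, n2⟩ := hn
  have a1 := nsq p p1
  have a2 := nsq n n1
  have hd : n 0 * p 1 - n 1 * p 0 = 0 := by
    rcases hl with h | h
    · rw [h] at p2 n2
      linear_combination (p 0) * n2 - (n 0) * p2
    · rw [h] at p2 n2
      linear_combination (p 1) * n2 - (n 1) * p2
  have hs : (n 0 * p 0 + n 1 * p 1 - 1) * (n 0 * p 0 + n 1 * p 1 + 1) = 0 := by
    linear_combination (p 0 ^ 2 + p 1 ^ 2) * a2 + a1 - (n 0 * p 1 - n 1 * p 0) * hd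
  rcases mul_eq_zero.1 hs with h | h
  · left
    ext i
    fin_cases i
    · simp only [Fin.zero_eta]
      linear_combination (p 0) * h + (p 1) * hd - (n 0) * a1
    · simp only [Fin.mk_one]
      linear_combination (p 1) * h - (p 0) * hd - (n 1) * a1
  · right
    rw [mem_singleton_iff]
    ext i
    fin_cases i
    · simp only [Fin.zero_eta, PiLp.neg_apply]
      linear_combination (p 0) * h + (p 1) * hd - (n 0) * a1
    · simp only [Fin.mk_one, PiLp.neg_apply]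
      linear_combination (p 1) * h - (p 0) * hd - (n 1) * a1

/-- the statement for a normalised direction. -/
theorem main (c : ℕ → ℕ → Fin 3 → ℝ) (Θ : Set E2) (ν : E2 → Fin 3 → ℝ) (H : Hex c Θ ν)
    (m : Fin 3 → ℝ) (l0 l1 : ℝ) (hm : m ⬝ᵥ m ≠ 0) (hl : l0 = 1 ∨ l1 = 1)
    (ha : c 1 0 = l0 • m) (hb : c 0 1 = l1 • m)
    (h1 : crossProduct ((2 : ℝ) • c 2 0) (c 0 1) + crossProduct (c 1 0) (c 1 1) = 0)
    (h2 : crossProduct (c 1 1) (c 0 1) + crossProduct (c 1 0) ((2 : ℝ) • c 0 2) = 0) :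
    ∃ q q' : Fin 3 → ℝ, {n ∈ Θ | ν n ≠ q ∧ ν n ≠ q'}.Finite := by
  have g1 : crossProduct ((2 * l1) • c 2 0 - l0 • c 1 1) m = 0 := by
    rw [ha, hb] at h1
    rw [← h1]
    funext a
    fin_cases a <;> simp [cross_apply] <;> ring
  have g2 : crossProduct (l1 • c 1 1 - (2 * l0) • c 0 2) m = 0 := by
    rw [ha, hb] at h2
    rw [← h2]
    funext a
    fin_cases a <;> simp [cross_apply] <;> ring
  have key : ∃ w : Fin 3 → ℝ, ∀ n ∈ Θ, l1 * n 0 - l0 * n 1 ≠ 0 →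
      ν n ⬝ᵥ m = 0 ∧ ν n ⬝ᵥ w = m ⬝ᵥ m / 2 := by
    have base : ∀ n ∈ Θ, l1 * n 0 - l0 * n 1 ≠ 0 → ν n ⬝ᵥ m = 0 ∧
        2 * l1 * (ν n ⬝ᵥ c 2 0) = l0 * (ν n ⬝ᵥ c 1 1) ∧
        l1 * (ν n ⬝ᵥ c 1 1) = 2 * l0 * (ν n ⬝ᵥ c 0 2) ∧
        2 * (n 1 ^ 2 * (ν n ⬝ᵥ c 2 0) - n 0 * n 1 * (ν n ⬝ᵥ c 1 1) + n 0 ^ 2 * (ν n ⬝ᵥ c 0 2)) =
          (l1 * n 0 - l0 * n 1) ^ 2 * (m ⬝ᵥ m) := by
      intro n hn hne
      have e1 := (H.eqs n hn).e1
      have e2 := (H.eqs n hn).e2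
      have j0 : Jr n 0 = -n 1 := rfl
      have j1 : Jr n 1 = n 0 := rfl
      simp only [Lm, Qm, ha, hb, j0, j1, add_dotProduct, dotProduct_add, smul_dotProduct,
        dotProduct_smul, smul_eq_mul] at e1 e2
      have z : ν n ⬝ᵥ m = 0 := by
        apply mul_left_cancel₀ hne
        linear_combination e1
      have k1 := par m _ (ν n) hm g1 z
      have k2 := par m _ (ν n) hm g2 z
      simp only [dotProduct_sub, dotProduct_smul, smul_eq_mul] at k1 k2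
      refine ⟨z, by linear_combination k1, by linear_combination k2, ?_⟩
      rw [z] at e2
      linear_combination e2
    rcases hl with h | h
    · refine ⟨c 2 0, fun n hn hne => ?_⟩
      obtain ⟨z, k1, k2, k3⟩ := base n hn hne
      refine ⟨z, ?_⟩
      apply mul_left_cancel₀ (pow_ne_zero 2 hne)
      rw [h] at k1 k2 k3 ⊢
      linear_combination (1 / 2 : ℝ) * k3 + (n 0 ^ 2 * l1 / 2 - n 0 * n 1) * k1 +
        (n 0 ^ 2 / 2) * k2
    · refine ⟨c 0 2, fun n hn hne => ?_⟩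
      obtain ⟨z, k1, k2, k3⟩ := base n hn hne
      refine ⟨z, ?_⟩
      apply mul_left_cancel₀ (pow_ne_zero 2 hne)
      rw [h] at k1 k2 k3 ⊢
      linear_combination (1 / 2 : ℝ) * k3 + (n 0 * n 1 - n 1 ^ 2 * l0 / 2) * k2 -
        (n 1 ^ 2 / 2) * k1
  obtain ⟨w, hw⟩ := key
  obtain ⟨q, q', hq⟩ := two m w (m ⬝ᵥ m / 2) hm (div_ne_zero hm two_ne_zero)
  refine ⟨q, q', (fin l0 l1 hl).subset fun n hn => ⟨H.unit n hn.1, ?_⟩⟩
  by_contra hne
  obtain ⟨z1, z2⟩ := hw n hn.1 hne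
  rcases hq (ν n) z1 z2 (H.nrm n hn.1) with h | h
  · exact hn.2.1 h
  · exact hn.2.2 h

end Rk1

theorem sRk1 : SRk1 := by
  intro c Θ ν H h0 hne h1 h2
  by_cases ha : c 1 0 = 0
  · have hb : c 0 1 ≠ 0 := fun h => hne ⟨ha, h⟩
    exact Rk1.main c Θ ν H (c 0 1) 0 1 (fun h => hb (dotProduct_self_eq_zero.1 h)) (Or.inr rfl)
      (by rw [ha, zero_smul]) (by rw [one_smul]) h1 h2
  · have hm : c 1 0 ⬝ᵥ c 1 0 ≠ 0 := fun h => ha (dotProduct_self_eq_zero.1 h)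
    exact Rk1.main c Θ ν H (c 1 0) 1 _ hm (Or.inl rfl) (by rw [one_smul])
      (Rk1.mult _ _ hm h0) h1 h2

end Pool.Agent.MP_66cee2_co.P
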