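import Pool.Agent.MP_66cee2_co.P.Spec
import Pool.Agent.MP_66cee2_co.XJ.App
import Pool.Agent.MP_66cee2_co.XJ.Sig

/-
The selection with jets, and the reduction to flat maps.
-/

namespace Pool.Agent.MP_66cee2_co.P

open MeasureTheory Set Filter Metric Topology Matrix Pool.Agent.MP_66cee2_co.X
open scoped ENNReal RealInnerProductSpace

namespace Sel

theorem small_mono {S S' : ℝ → Set E2} (h : Small S') (hs : ∀ τ, S τ ⊆ S' τ) : Small S :=
  small_iff.2 ((small_iff.1 h).mono' hs)

theorem small_union {S S' : ℝ → Set E2} (h : Small S) (h' : Small S') :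
    Small fun τ => S τ ∪ S' τ :=
  small_iff.2 ((small_iff.1 h).union (small_iff.1 h'))

theorem flat_of_lev {f : E2 → E3} {x : E2} (h : Small fun _ => {η | f (x + η) ≠ f x}) :
    FlatAt f x := by
  intro K
  refine ⟨0, small_mono h fun τ η hη => ?_⟩
  intro e
  have h1 : (0 : ℝ) * τ ^ K < ‖f (x + η) - f x‖ := hη
  rw [e] at h1
  simp at h1

theorem flat_congr {f g : E2 → E3} {U : Set E2} {x : E2} (hfg : ∀ y, y ∉ U → g y = f y)
    (hx : x ∉ U) (hd : Small fun _ => {η | x + η ∉ Uᶜ}) (h : FlatAt f x) : FlatAt g x := by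
  intro K
  obtain ⟨C, hC⟩ := h K
  refine ⟨C, small_mono (small_union hC hd) fun τ η hη => ?_⟩
  by_cases hu : x + η ∈ U
  · exact Or.inr fun h' => h' hu
  · left
    have h1 : C * τ ^ K < ‖g (x + η) - g x‖ := hη
    rw [hfg _ hu, hfg _ hx] at h1
    exact h1

end Sel

theorem sSel (hK : SKit) (hR : SReg) (h0 : SSel0) (h2 : STV2) : SSel := by
  intro P hP
  obtain ⟨f, U, hm, hU, hind, htwo, hun, hreg, hpin⟩ := h0 P hP
  obtain ⟨g, hg, hoff, hon⟩ := h2 f U hm hU hind htwo hun
  refine ⟨g, hg, ?_, ?_⟩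
  · filter_upwards [hreg, hon, sApp.dens 2 Uᶜ hU.compl, hK.lev_dens g hg.meas] with x hr ho hd hl
    refine hR.jet g x fun a => ?_
    by_cases hx : x ∈ U
    · refine hR.congr (fun _ => g x a) _ (hR.const _)
        (Sel.small_mono (hl (ho hx)) fun τ η hη => ?_) (by simp)
      intro e
      exact hη (by simp only [e])
    · refine hR.congr (fun η => f (x + η) a) _ (hr hx a)
        (Sel.small_mono (hd hx) fun τ η hη => ?_) (by simp only [add_zero, hoff x hx])
      intro hu
      exact hη (by simp only [hoff _ hu])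
  · filter_upwards [hpin, sSig.right 2 (fun y => y ∈ U → y ∈ Lev g) hon] with x h1 h3
    filter_upwards [h1, h3] with n h1 h3 hy a
    have hu : x + n ∉ U := fun h => hy (h3 h)
    rw [hoff _ hu]
    exact h1 hu a

theorem sFlat (hK : SKit) (h1 : STV1) (h2 : STV2) : SFlat := by
  intro f hf hae
  have hU : MeasurableSet ({x | Two f x} \ Lev f) :=
    (hK.two_meas f hf.meas).diff (hK.lev_meas f hf.meas).1
  have htwo : ∀ᵐ x, x ∈ {x | Two f x} \ Lev f → Two f x :=
    Eventually.of_forall fun x hx => hx.1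
  have hnb := h1 f _ hf.meas hU htwo
  have hind : volume (({x | Two f x} \ Lev f) ∩ Nb ({x | Two f x} \ Lev f)) = 0 := by
    refine measure_mono_null ?_ (ae_iff.1 hnb)
    intro y hy h
    exact hy.1.2 (h hy.2)
  obtain ⟨g, hg, hoff, hon⟩ := h2 f _ hf.meas hU hind htwo (by
    filter_upwards [hf.unit] with x hx
    filter_upwards [hx] with n hn _ _
    exact hn)
  refine ⟨g, hg, ?_⟩
  filter_upwards [hae, hon, sApp.dens 2 _ hU.compl, hK.lev_dens g hg.meas,
    hK.lev_dens f hf.meas] with x hx ho hd hl hl'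
  by_cases hxU : x ∈ {x | Two f x} \ Lev f
  · exact Sel.flat_of_lev (hl (ho hxU))
  · refine Sel.flat_congr hoff hxU (hd hxU) ?_
    rcases hx with hx | hx
    · exact hx
    · refine Sel.flat_of_lev (hl' ?_)
      by_contra hn
      exact hxU ⟨hx, hn⟩

end Pool.Agent.MP_66cee2_co.P
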