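import Pool.Agent.MP_66cee2_co.P.Spec
import Pool.Agent.MP_66cee2_co.XJ.Sig
import Pool.Agent.MP_66cee2_co.XJ.App

/-
Maps of the plane into three dimensional space: the selection off an independent set.
-/

namespace Pool.Agent.MP_66cee2_co.P

open MeasureTheory Set Filter Metric Topology Matrix Pool.Agent.MP_66cee2_co.X
open scoped ENNReal RealInnerProductSpace

namespace Sel0

theorem lz_smul (c : ℝ) (a v : Ix 3 → ℝ) : lz (c • a) v = c * lz a v := by
  simp only [lz, smul_dotProduct, smul_eq_mul]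

theorem lz_add (a b v : Ix 3 → ℝ) : lz (a + b) v = lz a v + lz b v := by
  simp only [lz, add_dotProduct]

theorem lz_sub (a b v : Ix 3 → ℝ) : lz (a - b) v = lz a v - lz b v := by
  simp only [lz, sub_dotProduct]

theorem lz_sum (s : Finset (Ix 3)) (a : Ix 3 → Ix 3 → ℝ) (v : Ix 3 → ℝ) :
    lz (∑ j ∈ s, a j) v = ∑ j ∈ s, lz (a j) v := by
  simp only [lz, sum_dotProduct]

/-- an enumeration of the sets with one or two elements. -/
theorem exists_enum : ∃ j l : Finset (Ix 3) → Ix 3, ∀ S : Finset (Ix 3),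
    (S.card = 1 → S = {j S}) ∧ (S.card = 2 → j S ≠ l S ∧ S = {j S, l S}) := by
  have h : ∀ S : Finset (Ix 3), ∃ j l : Ix 3,
      (S.card = 1 → S = {j}) ∧ (S.card = 2 → j ≠ l ∧ S = {j, l}) := by
    intro S
    by_cases h1 : S.card = 1
    · obtain ⟨j, hj⟩ := Finset.card_eq_one.1 h1
      exact ⟨j, j, fun _ => hj, fun h2 => by omega⟩
    · by_cases h2 : S.card = 2
      · obtain ⟨j, l, hjl, hS⟩ := Finset.card_eq_two.1 h2
        exact ⟨j, l, fun h => absurd h h1, fun _ => ⟨hjl, hS⟩⟩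
      · exact ⟨sI, sI, fun h => absurd h h1, fun h => absurd h h2⟩
  choose j l h using h
  exact ⟨j, l, h⟩

theorem meas_piece {J : E2 → Finset (Ix 3)} (hJ : ∀ S, MeasurableSet {y | J y = S})
    {g : Finset (Ix 3) → E2 → E3} (hg : ∀ S, Measurable (g S)) :
    Measurable fun x => g (J x) x := by
  intro T hT
  have e : (fun x => g (J x) x) ⁻¹' T = ⋃ S, {y | J y = S} ∩ g S ⁻¹' T := by
    ext x
    simp only [mem_preimage, mem_iUnion, mem_inter_iff, mem_ofPred_eq]
    exact ⟨fun h => ⟨J x, rfl, h⟩, fun ⟨S, hS, h⟩ => hS ▸ h⟩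
  rw [e]
  exact MeasurableSet.iUnion fun S => (hJ S).inter (hg S hT)

/-- the direction has a non zero Euclidean coordinate. -/
theorem del_ne {M N : Matrix (Ix 3) (Ix 3) ℝ} {j l : Ix 3} {ξ ξ' : Ix 3 → ℝ}
    (hM : 0 < M sI sI) (hs : M sI = M sI j • ξ + M sI l • ξ') (h1 : ξ j = 1) (h2 : ξ l = 0)
    (h3 : ξ' j = 0) (h4 : ξ' l = 1) {J' : Finset (Ix 3)} {A' : Ix 3 → Ix 3 → ℝ}
    (hN : 0 < N sI sI) (hs' : N sI = ∑ k ∈ J', N sI k • A' k)
    (ho : ∀ k, lz ξ (A' k) = 0) (ho' : ∀ k, lz ξ' (A' k) = 0) :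
    ∃ i, del ξ ξ' (Sum.inl i) ≠ 0 := by
  by_contra hc
  push Not at hc
  have hd : del ξ ξ' sI = 0 := by
    simp only [del, Pi.sub_apply, Pi.smul_apply, smul_eq_mul]
    ring
  have ht : del ξ ξ' (Sum.inr false) ≠ 0 := by
    intro ht
    have hz : ∀ a, del ξ ξ' a = 0 := by
      rintro (i | b)
      · exact hc i
      · cases b
        · exact ht
        · exact hd
    have a1 := hz j
    have a2 := hz l
    simp only [del, Pi.sub_apply, Pi.smul_apply, smul_eq_mul, h1, h2, h3, h4] at a1 a2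
    have a3 := congrFun hs sI
    simp only [Pi.add_apply, Pi.smul_apply, smul_eq_mul] at a3
    have b1 : ξ' sI = 0 := by linarith
    have b2 : ξ sI = 0 := by linarith
    rw [b1, b2] at a3
    linarith
  have hk : ∀ k, A' k sI = 0 := by
    intro k
    have e1 : lz (del ξ ξ') (A' k) = 0 := by
      rw [del, lz_sub, lz_smul, lz_smul, ho, ho']
      ring
    rw [lz_eq] at e1
    simp only [hc, zero_mul, Finset.sum_const_zero, mul_zero, zero_add] at e1
    rw [show del ξ ξ' (Sum.inr true) = 0 from hd, zero_mul, zero_add] at e1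
    exact (mul_eq_zero.1 e1).resolve_left ht
  have e2 := congrFun hs' sI
  simp only [Finset.sum_apply, Pi.smul_apply, smul_eq_mul, hk, mul_zero,
    Finset.sum_const_zero] at e2
  linarith

end Sel0

open Sel0 in
theorem sSel0 (hK : SKit) (hA : SSelA) (hR : SReg) (hJ : SSelJ) (hL : SSelL) (hW : SRowR) :
    SSel0 := by
  classical
  intro P hP
  obtain ⟨JA, JB, A, B, hG, hreg⟩ := hW P hP
  obtain ⟨j, l, hjl⟩ := exists_enum
  have mJ : ∀ S, MeasurableSet {y | JA y = S} := (hG.dA sI).mJ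
  have mA : ∀ k a, Measurable fun y => A y k a := fun k => (hG.dA k).mξ
  have hne : (ae (sig 2)).NeBot := ae_neBot.2 (sSig.ne 2 (by norm_num))
  set g : Finset (Ix 3) → E2 → E3 := fun S x =>
    if S.card = 1 then sel1 (A x (j S)) else
      if S.card = 2 then sel2 (A x (j S)) (A x (l S)) else 0 with hg
  have mg : ∀ S, Measurable (g S) := by
    intro S
    by_cases h1 : S.card = 1
    · simp only [hg, if_pos h1]
      exact (hJ.1 (fun x => A x (j S)) (mA _)).1
    · by_cases h2 : S.card = 2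
      · simp only [hg, if_neg h1, if_pos h2]
        exact (hJ.2 (fun x => A x (j S)) (fun x => A x (l S)) (mA _) (mA _)).1
      · simp only [hg, if_neg h1, if_neg h2]
        exact measurable_const
  set f : E2 → E3 := fun x => g (JA x) x with hf
  have mf : Measurable f := meas_piece mJ mg
  set U : Set E2 := {x | 3 ≤ (JA x).card} with hU
  have mU : MeasurableSet U := by
    have e : U = ⋃ S : {S : Finset (Ix 3) // 3 ≤ S.card}, {y | JA y = S.1} := by
      ext x
      simp only [hU, mem_ofPred_eq, mem_iUnion]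
      exact ⟨fun h => ⟨⟨JA x, h⟩, rfl⟩, fun ⟨S, hS⟩ => hS ▸ S.2⟩
    rw [e]
    exact MeasurableSet.iUnion fun S => mJ S.1
  -- the pointwise facts
  have hpt : ∀ᵐ x, x ∉ U →
      (∀ v, (∀ k, lz (A x k) v = 0) → lz (lift (f x)) v = 0) ∧
      (((JA x).card = 1 ∧ A x (j (JA x)) sI ≠ 0) ∨
        ((JA x).card = 2 ∧ A x (j (JA x)) sI ^ 2 + A x (l (JA x)) sI ^ 2 ≠ 0 ∧
          0 < qf (del (A x (j (JA x))) (A x (l (JA x)))) (del (A x (j (JA x))) (A x (l (JA x)))) ∧
          0 ≤ disc (A x (j (JA x))) (A x (l (JA x))))) := by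
    filter_upwards [hP.pos, hG.span, hG.orth, sSig.right 2 _ hP.pos, sSig.right 2 _ hG.span]
      with x hx hs ho hp' hs' hxU
    simp only [hU, mem_ofPred_eq, not_le] at hxU
    have h0 : (JA x).card ≠ 0 := by
      intro h0
      have := congrFun (hs sI) sI
      rw [Finset.card_eq_zero.1 h0] at this
      simp only [Finset.sum_empty, Pi.zero_apply] at this
      linarith [hx.2.1]
    by_cases h1 : (JA x).card = 1
    · have hS := (hjl (JA x)).1 h1
      have hs1 : ∀ a, P x a = P x a (j (JA x)) • A x (j (JA x)) := by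
        intro a
        have := hs a
        rw [hS, Finset.sum_singleton] at this
        exact this
      obtain ⟨b1, b2⟩ := (hA (P x) hx.1 hx.2.1 hx.2.2).1 _ _ hs1
      refine ⟨fun v hv => ?_, Or.inl ⟨h1, b1⟩⟩
      have e : f x = sel1 (A x (j (JA x))) := by simp only [hf, hg, if_pos h1]
      rw [e, b2, lz_smul, hv, mul_zero]
    · have h2 : (JA x).card = 2 := by omega
      obtain ⟨hne', hS⟩ := (hjl (JA x)).2 h2
      have hs2 : ∀ a, P x a = P x a (j (JA x)) • A x (j (JA x)) +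
          P x a (l (JA x)) • A x (l (JA x)) := by
        intro a
        have := hs a
        rw [hS, Finset.sum_pair hne'] at this
        exact this
      have mj : j (JA x) ∈ JA x := hS.ge (Finset.mem_insert_self _ _)
      have ml : l (JA x) ∈ JA x :=
        hS.ge (Finset.mem_insert_of_mem (Finset.mem_singleton_self _))
      obtain ⟨ω, hω1, hω2, hω3⟩ := (ho.and (hp'.and hs')).exists
      have hd : ∃ i, del (A x (j (JA x))) (A x (l (JA x))) (Sum.inl i) ≠ 0 :=
        del_ne hx.2.1 (hs2 sI) (by rw [hG.nrm x _ _ mj, if_pos rfl])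
          (by rw [hG.nrm x _ _ ml, if_neg hne'.symm]) (by rw [hG.nrm x _ _ mj, if_neg hne'])
          (by rw [hG.nrm x _ _ ml, if_pos rfl]) hω2.2.1 (hω3 sI) (hω1 _) (hω1 _)
      obtain ⟨b1, b2, b3, b4⟩ := (hA (P x) hx.1 hx.2.1 hx.2.2).2 _ _ _ _ hs2 hd
      refine ⟨fun v hv => ?_, Or.inr ⟨h2, b1, b2, b3⟩⟩
      have e : f x = sel2 (A x (j (JA x))) (A x (l (JA x))) := by
        simp only [hf, hg, if_neg h1, if_pos h2]
      rw [e, b4, bas, del]
      simp only [lz_add, lz_smul, lz_sub, hv, mul_zero, add_zero, sub_zero]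
  -- the rows at `x` are orthogonal to the lifts of the values at the neighbours
  have hO : AePair fun x y => y ∉ U → ∀ k, lz (A x k) (lift (f y)) = 0 := by
    filter_upwards [hG.orth, sSig.right 2 _ hpt] with x ho hy
    filter_upwards [ho, hy] with ω ho hy hyU k
    rw [lz_comm]
    exact (hy hyU).1 _ fun k' => by rw [lz_comm]; exact ho k k'
  have hunit : AePair fun x y => x ∉ U → y ∉ U → ‖f x - f y‖ = 1 := by
    filter_upwards [hO, hpt] with x ho hx
    filter_upwards [ho] with ω ho hxU hyU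
    have e := (hx hxU).1 _ (ho hyU)
    rw [lz_lift] at e
    have e2 : ‖f x - f (x + ω)‖ ^ 2 = 1 ^ 2 := by linarith
    exact (pow_left_inj₀ (norm_nonneg _) zero_le_one two_ne_zero).1 e2
  have hind : ∀ᵐ x, x ∈ U → ∀ᵐ ω ∂sig 2, x + ω ∉ U := by
    filter_upwards [hG.orth] with x ho hxU
    filter_upwards [ho] with ω ho
    have := (hL (JA x) (A x) hxU (hG.nrm x)).1 (JA (x + ω)) (A (x + ω)) (hG.nrm _) ho
    simp only [hU, mem_ofPred_eq, not_le]
    omega
  refine ⟨f, U, mf, mU, ?_, ?_, hunit, ?_, ?_⟩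
  · rw [measure_eq_zero_iff_ae_notMem]
    filter_upwards [hind] with x hx hxU
    refine hxU.2 ?_
    have := ae_iff.1 (hx hxU.1)
    simpa only [not_not] using this
  · have mp : MeasurableSet {z : E2 × E2 | z.1 ∉ U → z.2 ∉ U → ‖f z.1 - f z.2‖ = 1} :=
      (measurable_fst mU).compl.imp ((measurable_snd mU).compl.imp
        (measurableSet_eq_fun ((mf.comp measurable_fst).sub (mf.comp measurable_snd)).norm
          measurable_const))
    filter_upwards [hind, hO, hK.hex _ mp hunit] with x hx ho hh hxU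
    have hQ : ∀ᵐ n ∂sig 2, x + n ∉ U ∧ ∀ k, lz (A x k) (lift (f (x + n))) = 0 := by
      filter_upwards [hx hxU, ho] with n h1 h2
      exact ⟨h1, h2 h1⟩
    have hQ' := hK.rot_ae _ hQ
    have hN : ∀ᵐ n ∂sig 2, ‖f (x + n) - f (x + Rot n)‖ = 1 := by
      filter_upwards [hQ, hQ', hh] with n h1 h2 h3
      exact h3 h1.1 h2.1
    obtain ⟨n₀, c1, c2, c3⟩ := (hQ.and (hQ'.and hN)).exists
    have hq : f (x + n₀) ≠ f (x + Rot n₀) := by
      intro h
      rw [h, sub_self, norm_zero] at c3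
      exact zero_ne_one c3
    refine ⟨f (x + n₀), f (x + Rot n₀), ?_⟩
    filter_upwards [hQ, hN] with n h1 h2
    exact ⟨(hL (JA x) (A x) hxU (hG.nrm x)).2 _ _ _ hq c1.2 c2.2 h1.2, h2⟩
  · have hd : ∀ᵐ x : E2, ∀ S, x ∈ {y | JA y = S} → Small fun _ => {η | x + η ∉ {y | JA y = S}} :=
      ae_all_iff.2 fun S => sApp.dens 2 _ (mJ S)
    have h1 : ∀ᵐ x : E2, ∀ S, A x (j S) sI ≠ 0 → ∀ i, Reg fun η => sel1 (A (x + η) (j S)) i :=
      ae_all_iff.2 fun S => (hJ.1 (fun x => A x (j S)) (mA _)).2 (hreg _)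
    have h2 : ∀ᵐ x : E2, ∀ S, A x (j S) sI ^ 2 + A x (l S) sI ^ 2 ≠ 0 →
        0 < qf (del (A x (j S)) (A x (l S))) (del (A x (j S)) (A x (l S))) →
        0 ≤ disc (A x (j S)) (A x (l S)) →
        ∀ i, Reg fun η => sel2 (A (x + η) (j S)) (A (x + η) (l S)) i :=
      ae_all_iff.2 fun S =>
        (hJ.2 (fun x => A x (j S)) (fun x => A x (l S)) (mA _) (mA _)).2 (hreg _) (hreg _)
    filter_upwards [hpt, hd, h1, h2] with x hx hd h1 h2 hxU a
    have hr : Reg fun η => g (JA x) (x + η) a := by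
      rcases (hx hxU).2 with ⟨c1, c2⟩ | ⟨c1, c2, c3, c4⟩
      · simp only [hg, if_pos c1]
        exact h1 _ c2 a
      · have c0 : ¬ (JA x).card = 1 := by omega
        simp only [hg, if_neg c0, if_pos c1]
        exact h2 _ c2 c3 c4 a
    refine hR.congr _ _ hr ?_ ?_
    · refine small_iff.2 ((small_iff.1 (hd (JA x) rfl)).mono' fun τ η hη => ?_)
      simp only [mem_ofPred_eq] at hη ⊢
      intro he
      exact hη (by simp only [hf, he])
    · simp only [hf, add_zero]
  · filter_upwards [hO, hG.span] with x ho hs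
    filter_upwards [ho] with ω ho hyU a
    rw [hs a, lz_sum]
    exact Finset.sum_eq_zero fun k _ => by rw [lz_smul, ho hyU k, mul_zero]

end Pool.Agent.MP_66cee2_co.P
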