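import Pool.Agent.MP_66cee2_co.P.Spec

/-
Maps of the plane into three dimensional space: the linear algebra of the selection.
-/

namespace Pool.Agent.MP_66cee2_co.P

open Matrix Pool.Agent.MP_66cee2_co.X

namespace SelB

theorem lz3 (a b : Ix 3 → ℝ) : lz a b = 2 * (a (.inl 0) * b (.inl 0) + a (.inl 1) * b (.inl 1) +
    a (.inl 2) * b (.inl 2)) + a (.inr true) * b (.inr false) + a (.inr false) * b (.inr true) := by
  rw [lz_eq, Fin.sum_univ_three]

theorem trJ3 (M : Matrix (Ix 3) (Ix 3) ℝ) : trJ M = 2 * (M (.inl 0) (.inl 0) + M (.inl 1) (.inl 1) +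
    M (.inl 2) (.inl 2)) + M (.inr true) (.inr false) + M (.inr false) (.inr true) := by
  simp only [trJ, Fintype.sum_sum_type, Fin.sum_univ_three, Fintype.sum_bool, Jv, Bool.not_true,
    Bool.not_false]
  ring

theorem lift_eq (v : Ix 3 → ℝ) (h1 : v sI = 1) (h2 : lz v v = 1) :
    lift (WithLp.toLp 2 fun i => v (Sum.inl i) : E3) = v := by
  funext a
  rcases a with i | b
  · rfl
  · cases b
    · rw [lz3] at h2
      simp only [sI] at h1
      simp only [lift, EuclideanSpace.real_norm_sq_eq, Fin.sum_univ_three]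
      rw [h1] at h2
      nlinarith
    · exact h1.symm

end SelB

open SelB

theorem sSelA' : SSelA := by
  intro M hM hs ht
  have sy : ∀ a b, M a b = M b a := fun a b => by simpa using (hM.1.apply a b).symm
  refine ⟨fun j ξ h => ?_, fun j l ξ ξ' h ⟨i, hi⟩ => ?_⟩
  · have e : ∀ a b, M a b = M a j * ξ b := fun a b => by
      have := congrFun (h a) b
      simpa using this
    have h0 : ξ sI ≠ 0 := fun h0 => by rw [e, h0, mul_zero] at hs; exact lt_irrefl _ hs
    have hm : M sI j ≠ 0 := fun h0 => by rw [e, h0, zero_mul] at hs; exact lt_irrefl _ hs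
    have e2 : ∀ a, M a j = M sI j / ξ sI * ξ a := fun a => by
      have := e a sI
      rw [sy, e] at this
      field_simp
      linarith
    refine ⟨h0, ?_⟩
    have : sel1 ξ = WithLp.toLp 2 fun i => ((ξ sI)⁻¹ • ξ) (Sum.inl i) := by
      simp only [sel1, Pi.smul_apply, smul_eq_mul, div_eq_inv_mul]
    rw [this]
    refine lift_eq _ (by simp [h0]) ?_
    rw [trJ3, e (.inl 0), e (.inl 1), e (.inl 2), e (.inr true) (.inr false), e (.inr false),
      e sI sI, e2 (.inl 0), e2 (.inl 1), e2 (.inl 2), e2 (.inr false)] at ht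
    rw [lz3]
    simp only [Pi.smul_apply, smul_eq_mul]
    simp only [sI] at *
    field_simp at ht ⊢
    linarith
  · have e : ∀ a b, M a b = M a j * ξ b + M a l * ξ' b := fun a b => by
      have := congrFun (h a) b
      simpa using this
    have hN : ξ sI ^ 2 + ξ' sI ^ 2 ≠ 0 := fun h0 => by
      have h1 : ξ sI = 0 := by nlinarith [sq_nonneg (ξ sI), sq_nonneg (ξ' sI)]
      have h2 : ξ' sI = 0 := by nlinarith [sq_nonneg (ξ sI), sq_nonneg (ξ' sI)]
      rw [e, h1, h2] at hs
      simp at hs
    set u := bas ξ ξ' with hu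
    set w := del ξ ξ' with hw
    have us : u sI = 1 := by
      simp only [hu, bas, Pi.smul_apply, Pi.add_apply, smul_eq_mul]
      field_simp
    have ws : w sI = 0 := by
      simp only [hw, del, Pi.smul_apply, Pi.sub_apply, smul_eq_mul]
      ring
    have e1 : ∀ a, ∃ y, ∀ b, M a b = M sI a * u b + y * w b := fun a => by
      refine ⟨(M a j * ξ' sI - M a l * ξ sI) / (ξ sI ^ 2 + ξ' sI ^ 2), fun b => ?_⟩
      rw [sy sI a, e a b, e a sI]
      simp only [hu, hw, bas, del, Pi.smul_apply, Pi.add_apply, Pi.sub_apply, smul_eq_mul]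
      field_simp
      ring
    choose y hy using e1
    obtain ⟨γ, hγ⟩ : ∃ γ, ∀ a, y a = y sI * u a + γ * w a := by
      refine ⟨(y (.inl i) - y sI * u (.inl i)) / w (.inl i), fun a => ?_⟩
      have h1 := hy a (.inl i)
      rw [sy, hy (.inl i) a, hy sI (.inl i), hy sI a] at h1
      field_simp
      linarith
    have e3 : ∀ a b, M a b = M sI sI * u a * u b + y sI * (w a * u b + u a * w b) +
        γ * w a * w b := fun a b => by
      rw [hy a b, hy sI a, hγ a]
      ring
    have ha : 0 < qf w w := by
      rw [qf, lz3, ws]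
      have := mul_self_pos.2 hi
      fin_cases i <;> simp only [Fin.zero_eta, Fin.mk_one, Fin.reduceFinMk] at this <;>
        nlinarith [mul_self_nonneg (w (.inl 0)), mul_self_nonneg (w (.inl 1)),
          mul_self_nonneg (w (.inl 2))]
    have htr : M sI sI * qf u u + 2 * y sI * qf u w + γ * qf w w = 0 := by
      rw [trJ3, e3 (.inl 0), e3 (.inl 1), e3 (.inl 2), e3 (.inr true) (.inr false),
        e3 (.inr false)] at ht
      simp only [qf, lz3, us, ws]
      simp only [sI] at *
      rw [us, ws] at *
      linarith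
    have hd : 0 ≤ disc ξ ξ' := by
      have h1 := hM.dotProduct_mulVec_nonneg (Pi.single sI (qf u w - qf w w * u (.inl i) / w (.inl i)) +
        Pi.single (.inl i) (qf w w / w (.inl i)))
      simp only [star_trivial, mulVec_add, add_dotProduct, dotProduct_add, single_dotProduct,
        mulVec_single, Pi.smul_apply, col_apply, smul_eq_mul, MulOpposite.smul_eq_mul_unop,
        MulOpposite.unop_op] at h1
      rw [e3 (.inl i) (.inl i), e3 (.inl i) sI, e3 sI (.inl i), us, ws] at h1
      have h2 : 0 ≤ M sI sI * qf u w ^ 2 + 2 * y sI * qf u w * qf w w + γ * qf w w ^ 2 := by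
        refine h1.trans (le_of_eq ?_)
        field_simp
        ring
      have h3 : 0 ≤ M sI sI * disc ξ ξ' := by
        rw [disc, ← hu, ← hw]
        nlinarith
      exact nonneg_of_mul_nonneg_right h3 hs |> fun h => by nlinarith
    refine ⟨hN, ha, hd, lift_eq _ (by simp [← hu, ← hw, us, ws]) ?_⟩
    have hq := Real.sq_sqrt hd
    have hr : qf w w * root ξ ξ' = -qf u w + √(disc ξ ξ') := by
      rw [root, ← hu, ← hw]
      field_simp
    have h4 : qf u u + 2 * root ξ ξ' * qf u w + root ξ ξ' ^ 2 * qf w w = 0 := by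
      have : qf w w * (qf u u + 2 * root ξ ξ' * qf u w + root ξ ξ' ^ 2 * qf w w) = 0 := by
        rw [disc, ← hu, ← hw] at hq hr
        have : (qf w w * root ξ ξ' + qf u w) ^ 2 = qf u w ^ 2 - qf w w * qf u u := by
          rw [← hq, hr]; ring
        linarith
      exact (mul_eq_zero.1 this).resolve_left ha.ne'
    simp only [qf, lz3, us, ws] at h4
    rw [lz3]
    simp only [Pi.add_apply, Pi.smul_apply, smul_eq_mul, ← hu, ← hw, us, ws]
    linarith

namespace SelB

theorem Jv_lin (a b : Ix 3 → ℝ) (s t : ℝ) : Jv (s • a + t • b) = s • Jv a + t • Jv b := by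
  funext i
  rcases i with i | c <;> simp [Jv]
  ring

/-- the form as a bilinear form. -/
noncomputable def LB : LinearMap.BilinForm ℝ (Ix 3 → ℝ) :=
  LinearMap.mk₂ ℝ lz (fun a b c => by simp only [lz3, Pi.add_apply]; ring)
    (fun s a b => by simp only [lz3, Pi.smul_apply, smul_eq_mul]; ring)
    (fun a b c => by simp only [lz3, Pi.add_apply]; ring)
    (fun s a b => by simp only [lz3, Pi.smul_apply, smul_eq_mul]; ring)

theorem LB_apply (a b : Ix 3 → ℝ) : LB a b = lz a b := rfl

theorem LB_refl : LB.IsRefl := fun a b h => by rwa [LB_apply, lz_comm] at h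

theorem LB_nd : LB.Nondegenerate := by
  refine LB_refl.nondegenerate_iff_separatingLeft.2 fun a h => ?_
  funext i
  rcases i with i | c
  · have := h (Pi.single (.inl i) 1)
    rw [LB_apply, lz3] at this
    fin_cases i <;> simpa using this
  · have := h (Pi.single (.inr !c) 1)
    rw [LB_apply, lz3] at this
    cases c <;> simpa using this

theorem indep (J : Finset (Ix 3)) (A : Ix 3 → Ix 3 → ℝ)
    (h : ∀ j, ∀ a ∈ J, A j a = if a = j then 1 else 0) :
    LinearIndependent ℝ fun j : J => A j := by
  rw [Fintype.linearIndependent_iff]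
  intro g hg i
  have := congrFun hg i
  simp only [Finset.sum_apply, Pi.smul_apply, smul_eq_mul, Pi.zero_apply] at this
  rw [Finset.sum_eq_single i (fun b _ hb => by
    rw [h b i i.2, if_neg fun e => hb (Subtype.ext e.symm), mul_zero]) (by simp), h i i i.2] at this
  simpa using this

theorem bound (J : Finset (Ix 3)) (A : Ix 3 → Ix 3 → ℝ) (hJ : 3 ≤ J.card)
    (h : ∀ j, ∀ a ∈ J, A j a = if a = j then 1 else 0) {κ : Type} [Fintype κ] (v : κ → Ix 3 → ℝ)
    (hv : LinearIndependent ℝ v) (ho : ∀ j k, lz (A j) (v k) = 0) : Fintype.card κ ≤ 2 := by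
  have h1 := finrank_span_eq_card (indep J A h)
  have h2 := finrank_span_eq_card hv
  have h3 := LinearMap.BilinForm.finrank_orthogonal LB_nd
    (Submodule.span ℝ (Set.range fun j : J => A j))
  have h4 : Submodule.span ℝ (Set.range v) ≤
      LB.orthogonal (Submodule.span ℝ (Set.range fun j : J => A j)) := by
    rw [Submodule.span_le]
    rintro _ ⟨k, rfl⟩ n hn
    induction hn using Submodule.span_induction with
    | mem x hx => obtain ⟨j, rfl⟩ := hx; exact ho j k
    | zero => simp
    | add x y _ _ hx hy =>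
      simp only [map_add, LinearMap.add_apply] at *
      rw [hx, hy, add_zero]
    | smul s x _ hx =>
      simp only [map_smul, LinearMap.smul_apply] at *
      rw [hx, smul_zero]
  have h5 := Submodule.finrank_mono h4
  simp only [Module.finrank_fintype_fun_eq_card, Fintype.card_sum, Fintype.card_fin,
    Fintype.card_bool, Fintype.card_coe] at h1 h3
  omega

end SelB

theorem sSelL' : SSelL := by
  intro J A hJ h
  refine ⟨fun J' A' h' ho => ?_, fun u u' v hne h1 h2 h3 => ?_⟩
  · simpa using bound J A hJ h _ (indep J' A' h') fun j k => ho j k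
  · by_contra hc
    push Not at hc
    have : LinearIndependent ℝ ![lift v, lift u, lift u'] := by
      rw [Fintype.linearIndependent_iff]
      intro g hg
      simp only [Fin.sum_univ_three, cons_val_zero, cons_val_one, cons_val] at hg
      have s := congrFun hg sI
      simp only [Pi.add_apply, Pi.smul_apply, smul_eq_mul, lift, mul_one, Pi.zero_apply] at s
      have e : ∀ z : E3, g 0 * ‖v - z‖ ^ 2 + g 1 * ‖u - z‖ ^ 2 + g 2 * ‖u' - z‖ ^ 2 = 0 := fun z => by
        have := congrArg (fun a => LB a (lift z)) hg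
        simp only [map_add, map_smul, LinearMap.add_apply, LinearMap.smul_apply, LB_apply, lz_lift,
          smul_eq_mul, map_zero, LinearMap.zero_apply] at this
        linarith
      have a0 := e v
      have a1 := e u
      have a2 := e u'
      rw [sub_self, norm_zero] at a0 a1 a2
      rw [norm_sub_rev u v, norm_sub_rev u' v] at a0
      rw [norm_sub_rev u' u] at a1
      have p0 : 0 < ‖v - u‖ ^ 2 := pow_pos (norm_pos_iff.2 (sub_ne_zero.2 hc.1)) 2
      have p1 : 0 < ‖v - u'‖ ^ 2 := pow_pos (norm_pos_iff.2 (sub_ne_zero.2 hc.2)) 2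
      have p2 : 0 < ‖u - u'‖ ^ 2 := pow_pos (norm_pos_iff.2 (sub_ne_zero.2 hne)) 2
      have g0 : g 0 = 0 := by
        have : g 0 * (2 * ‖v - u‖ ^ 2 * ‖v - u'‖ ^ 2) = 0 := by
          linear_combination ‖v - u'‖ ^ 2 * a1 + ‖v - u‖ ^ 2 * a2 - ‖u - u'‖ ^ 2 * a0
        exact (mul_eq_zero.1 this).resolve_right (by positivity)
      have g2 : g 2 = 0 := by
        rw [g0] at a1
        exact (mul_eq_zero.1 (by linarith : g 2 * ‖u - u'‖ ^ 2 = 0)).resolve_right p2.ne'
      intro i
      fin_cases i
      · exact g0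
      · simp only [Fin.mk_one]
        linarith
      · exact g2
    have := bound J A hJ h _ this fun j k => by
      fin_cases k
      · exact h3 j
      · exact h1 j
      · exact h2 j
    simp at this

end Pool.Agent.MP_66cee2_co.P
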