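import Pool.Agent.MP_66cee2_co.P.Spec
import Pool.Agent.MP_66cee2_co.XJ.App

/-
The two selections are measurable and regular.
-/

namespace Pool.Agent.MP_66cee2_co.P

open MeasureTheory Set Filter Metric Topology Matrix Pool.Agent.MP_66cee2_co.X

namespace SelJ

theorem rc {g h : E2 → ℝ} (hg : Reg g) (e : ∀ η, g η = h η) : Reg h := by
  have : g = h := funext e
  exact this ▸ hg

theorem rneg (hR : SReg) {g : E2 → ℝ} (hg : Reg g) : Reg fun η => -g η :=
  rc (hR.mul _ _ (hR.const (-1)) hg) fun η => by ring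

theorem rsub (hR : SReg) {g h : E2 → ℝ} (hg : Reg g) (hh : Reg h) : Reg fun η => g η - h η :=
  rc (hR.add _ _ hg (rneg hR hh)) fun η => by ring

theorem rinv (hR : SReg) {g : E2 → ℝ} (hg : Reg g) (h0 : g 0 ≠ 0) : Reg fun η => (g η)⁻¹ :=
  hR.comp (fun t => t⁻¹) g (analyticAt_inv h0) hg

theorem rdiv (hR : SReg) {g h : E2 → ℝ} (hg : Reg g) (hh : Reg h) (h0 : h 0 ≠ 0) :
    Reg fun η => g η / h η :=
  rc (hR.mul _ _ hg (rinv hR hh h0)) fun _ => (div_eq_mul_inv _ _).symm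

theorem rsq (hR : SReg) {g : E2 → ℝ} (hg : Reg g) : Reg fun η => g η ^ 2 :=
  rc (hR.mul _ _ hg hg) fun η => by ring

theorem rsqrt (hR : SReg) {g : E2 → ℝ} (hg : Reg g) (h0 : g 0 ≠ 0) : Reg fun η => √(g η) :=
  hR.comp Real.sqrt g (Real.contDiffAt_sqrt h0).analyticAt hg

theorem qf_eq (a b : Ix 3 → ℝ) : qf a b =
    2 * (a (Sum.inl 0) * b (Sum.inl 0) + a (Sum.inl 1) * b (Sum.inl 1) +
      a (Sum.inl 2) * b (Sum.inl 2)) + a (Sum.inr true) * b (Sum.inr false) +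
      a (Sum.inr false) * b (Sum.inr true) - a sI * b sI := by
  rw [qf, lz_eq, Fin.sum_univ_three]

theorem rqf (hR : SReg) {a b : E2 → Ix 3 → ℝ} (ha : ∀ i, Reg fun η => a η i)
    (hb : ∀ i, Reg fun η => b η i) : Reg fun η => qf (a η) (b η) := by
  have m : ∀ i j, Reg fun η => a η i * b η j := fun i j => hR.mul _ _ (ha i) (hb j)
  exact rc (rsub hR (hR.add _ _ (hR.add _ _ (hR.mul _ _ (hR.const 2)
    (hR.add _ _ (hR.add _ _ (m _ _) (m _ _)) (m _ _))) (m _ _)) (m _ _)) (m _ _))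
    fun η => (qf_eq _ _).symm

theorem mqf {a b : E2 → Ix 3 → ℝ} (ha : ∀ i, Measurable fun x => a x i)
    (hb : ∀ i, Measurable fun x => b x i) : Measurable fun x => qf (a x) (b x) := by
  have m : ∀ i j, Measurable fun x => a x i * b x j := fun i j => (ha i).mul (hb j)
  simp only [qf_eq]
  exact (((measurable_const.mul (((m _ _).add (m _ _)).add (m _ _))).add (m _ _)).add
    (m _ _)).sub (m _ _)

theorem del_eq (a b : Ix 3 → ℝ) (i : Ix 3) : del a b i = b sI * a i - a sI * b i := rfl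

theorem bas_eq (a b : Ix 3 → ℝ) (i : Ix 3) :
    bas a b i = (a sI ^ 2 + b sI ^ 2)⁻¹ * (a sI * a i + b sI * b i) := rfl

theorem sel2_eq (a b : Ix 3 → ℝ) (i : Fin 3) :
    sel2 a b i = bas a b (Sum.inl i) + root a b * del a b (Sum.inl i) := rfl

theorem rdel (hR : SReg) {a b : E2 → Ix 3 → ℝ} (ha : ∀ i, Reg fun η => a η i)
    (hb : ∀ i, Reg fun η => b η i) (i : Ix 3) : Reg fun η => del (a η) (b η) i :=
  rsub hR (hR.mul _ _ (hb _) (ha _)) (hR.mul _ _ (ha _) (hb _))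

theorem rbas (hR : SReg) {a b : E2 → Ix 3 → ℝ} (ha : ∀ i, Reg fun η => a η i)
    (hb : ∀ i, Reg fun η => b η i) (h0 : a 0 sI ^ 2 + b 0 sI ^ 2 ≠ 0) (i : Ix 3) :
    Reg fun η => bas (a η) (b η) i :=
  hR.mul _ _ (rinv hR (hR.add _ _ (rsq hR (ha _)) (rsq hR (hb _))) h0)
    (hR.add _ _ (hR.mul _ _ (ha _) (ha _)) (hR.mul _ _ (hb _) (hb _)))

theorem mdel {a b : E2 → Ix 3 → ℝ} (ha : ∀ i, Measurable fun x => a x i)
    (hb : ∀ i, Measurable fun x => b x i) (i : Ix 3) : Measurable fun x => del (a x) (b x) i :=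
  ((hb _).mul (ha _)).sub ((ha _).mul (hb _))

theorem mbas {a b : E2 → Ix 3 → ℝ} (ha : ∀ i, Measurable fun x => a x i)
    (hb : ∀ i, Measurable fun x => b x i) (i : Ix 3) : Measurable fun x => bas (a x) (b x) i :=
  (((ha _).pow_const 2).add ((hb _).pow_const 2)).inv.mul
    (((ha _).mul (ha _)).add ((hb _).mul (hb _)))

theorem mdisc {a b : E2 → Ix 3 → ℝ} (ha : ∀ i, Measurable fun x => a x i)
    (hb : ∀ i, Measurable fun x => b x i) : Measurable fun x => disc (a x) (b x) :=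
  ((mqf (mbas ha hb) (mdel ha hb)).pow_const 2).sub
    ((mqf (mdel ha hb) (mdel ha hb)).mul (mqf (mbas ha hb) (mbas ha hb)))

theorem mroot {a b : E2 → Ix 3 → ℝ} (ha : ∀ i, Measurable fun x => a x i)
    (hb : ∀ i, Measurable fun x => b x i) : Measurable fun x => root (a x) (b x) :=
  ((mqf (mbas ha hb) (mdel ha hb)).neg.add (mdisc ha hb).sqrt).div
    (mqf (mdel ha hb) (mdel ha hb))

theorem rroot (hR : SReg) {a b : E2 → Ix 3 → ℝ} (ha : ∀ i, Reg fun η => a η i)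
    (hb : ∀ i, Reg fun η => b η i) (h0 : a 0 sI ^ 2 + b 0 sI ^ 2 ≠ 0)
    (h1 : qf (del (a 0) (b 0)) (del (a 0) (b 0)) ≠ 0)
    (h2 : disc (a 0) (b 0) = 0 → Small fun _ => {η | disc (a η) (b η) ≠ 0}) :
    Reg fun η => root (a η) (b η) := by
  have hbd := rqf hR (rbas hR ha hb h0) (rdel hR ha hb)
  have hdd := rqf hR (rdel hR ha hb) (rdel hR ha hb)
  have hbb := rqf hR (rbas hR ha hb h0) (rbas hR ha hb h0)
  have hs : Reg fun η => √(disc (a η) (b η)) := by
    by_cases h : disc (a 0) (b 0) = 0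
    · refine hR.congr _ _ (hR.const 0) ?_ (by simp [h])
      refine small_iff.2 ((small_iff.1 (h2 h)).mono' fun τ η hη h' => hη ?_)
      simp [h']
    · exact rsqrt hR (g := fun η => disc (a η) (b η))
        (rsub hR (rsq hR hbd) (hR.mul _ _ hdd hbb)) h
  exact rdiv hR (hR.add _ _ (rneg hR hbd) hs) hdd h1

end SelJ

open SelJ in
theorem sSelJ (hR : SReg) : SSelJ := by
  refine ⟨fun ξ hξ => ⟨?_, fun h => ?_⟩, fun ξ ξ' hξ hξ' => ⟨?_, fun h h' => ?_⟩⟩
  · exact (WithLp.measurable_toLp 2 _).comp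
      (measurable_pi_lambda _ fun i => (hξ _).div (hξ _))
  · filter_upwards [h] with x hx h0 i
    exact rdiv hR (hx (Sum.inl i)) (hx sI) (by simpa using h0)
  · exact (WithLp.measurable_toLp 2 _).comp
      (measurable_pi_lambda _ fun i => (mbas hξ hξ' _).add ((mroot hξ hξ').mul (mdel hξ hξ' _)))
  · have hZ : MeasurableSet {x | disc (ξ x) (ξ' x) = 0} :=
      (mdisc hξ hξ') (measurableSet_singleton 0)
    filter_upwards [h, h', sApp.dens 2 _ hZ] with x hx hx' hd h0 h1 _ i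
    have h0' : ξ (x + 0) sI ^ 2 + ξ' (x + 0) sI ^ 2 ≠ 0 := by simpa using h0
    have hr : Reg fun η => root (ξ (x + η)) (ξ' (x + η)) :=
      rroot hR (a := fun η => ξ (x + η)) (b := fun η => ξ' (x + η)) hx hx' h0'
        (by simpa using h1.ne') fun hz => hd (by simpa using hz)
    exact hR.add _ _ (rbas hR (a := fun η => ξ (x + η)) (b := fun η => ξ' (x + η)) hx hx' h0' _)
      (hR.mul _ _ hr (rdel hR (a := fun η => ξ (x + η)) (b := fun η => ξ' (x + η)) hx hx' _))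

end Pool.Agent.MP_66cee2_co.P
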