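import Pool.Agent.MP_66cee2_co.P.Spec

/-
The topological theorem: no dense family of open sets has labels in space at unit distance.
-/

namespace Pool.Agent.MP_66cee2_co.P

open MeasureTheory Set Filter Metric Topology Matrix Pool.Agent.MP_66cee2_co.X
open scoped ENNReal RealInnerProductSpace

namespace TT

theorem half : ¬ IsIntegral ℤ (1 / 2 : ℂ) := by
  intro h
  have e : (1 / 2 : ℂ) = algebraMap ℚ ℂ (1 / 2) := by simp
  rw [e, isIntegral_algebraMap_iff (algebraMap ℚ ℂ).injective] at h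
  obtain ⟨y, hy⟩ := IsIntegrallyClosed.isIntegral_iff.1 h
  have h2 : (2 * y : ℚ) = 1 := by
    have : (y : ℚ) = 1 / 2 := by simpa using hy
    rw [this]; norm_num
  have h3 : 2 * y = 1 := by exact_mod_cast h2
  omega

theorem sq_of (m : E2) (hm : ‖m‖ = 1) : m 0 ^ 2 + m 1 ^ 2 = 1 := by
  have h := EuclideanSpace.real_norm_sq_eq m
  rw [hm, Fin.sum_univ_two] at h
  linarith

theorem norm_of (m : E2) (hm : m 0 ^ 2 + m 1 ^ 2 = 1) : ‖m‖ = 1 := by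
  have h := EuclideanSpace.real_norm_sq_eq m
  rw [Fin.sum_univ_two, hm] at h
  have := norm_nonneg m
  nlinarith

theorem inner_eq (m e : E2) : ⟪m, e⟫ = m 0 * e 0 + m 1 * e 1 := by
  simp only [PiLp.inner_apply, RCLike.inner_apply, conj_trivial, Fin.sum_univ_two]
  ring

/-- a unit vector near `m` that is not parallel to `e`. -/
theorem near (U : Set E2) (hU : IsOpen U) (m e : E2) (hm : ‖m‖ = 1) (he : ‖e‖ = 1)
    (hmU : m ∈ U) : ∃ n ∈ U, ‖n‖ = 1 ∧ |⟪n, e⟫| < 1 := by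
  have h1 := sq_of m hm
  have h2 := sq_of e he
  let n : ℝ → E2 := fun t => Real.cos t • m + Real.sin t • Jr m
  have n0 : ∀ t, n t 0 = Real.cos t * m 0 - Real.sin t * m 1 := fun t => by
    simp [n, Jr]; ring
  have n1 : ∀ t, n t 1 = Real.cos t * m 1 + Real.sin t * m 0 := fun t => by
    simp [n, Jr]
  have hn : ∀ t, ‖n t‖ = 1 := fun t => norm_of _ (by
    rw [n0, n1]
    have := Real.sin_sq_add_cos_sq t
    linear_combination (m 0 ^ 2 + m 1 ^ 2) * this + h1)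
  have key : ∀ t, Real.sin t * (m 0 * e 0 + m 1 * e 1) ≠ Real.cos t * (m 0 * e 1 - m 1 * e 0) →
      |⟪n t, e⟫| < 1 := fun t ht => by
    rw [inner_eq, n0, n1, ← sq_lt_one_iff_abs_lt_one]
    have h3 := Real.sin_sq_add_cos_sq t
    have h4 := sq_pos_of_ne_zero (sub_ne_zero.2 ht)
    have h5 : ((Real.cos t * m 0 - Real.sin t * m 1) * e 0 +
        (Real.cos t * m 1 + Real.sin t * m 0) * e 1) ^ 2 +
        (Real.sin t * (m 0 * e 0 + m 1 * e 1) - Real.cos t * (m 0 * e 1 - m 1 * e 0)) ^ 2 = 1 := by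
      linear_combination ((m 0 ^ 2 + m 1 ^ 2) * (e 0 ^ 2 + e 1 ^ 2)) * h3 +
        (e 0 ^ 2 + e 1 ^ 2) * h1 + h2
    linarith
  have e0 : n 0 = m := by simp [n]
  by_cases hB : m 0 * e 1 - m 1 * e 0 = 0
  · have hc : Continuous n := by fun_prop
    have hopen : IsOpen (n ⁻¹' U) := hU.preimage hc
    obtain ⟨ε, hε, hb⟩ := Metric.isOpen_iff.1 hopen 0 (by simpa [e0] using hmU)
    have ht : min (ε / 2) 1 ∈ ball (0 : ℝ) ε := by
      have : 0 < min (ε / 2) 1 := lt_min (by linarith) one_pos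
      rw [mem_ball_zero_iff, Real.norm_eq_abs, abs_of_pos this]
      exact (min_le_left _ _).trans_lt (by linarith)
    refine ⟨n _, hb ht, hn _, key _ ?_⟩
    have hs : 0 < Real.sin (min (ε / 2) 1) :=
      Real.sin_pos_of_pos_of_lt_pi (lt_min (by linarith) one_pos)
        ((min_le_right _ _).trans_lt (by linarith [Real.pi_gt_three]))
    have hA : m 0 * e 0 + m 1 * e 1 ≠ 0 := by
      intro h
      have : (m 0 * e 0 + m 1 * e 1) ^ 2 + (m 0 * e 1 - m 1 * e 0) ^ 2 = 1 := by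
        linear_combination (e 0 ^ 2 + e 1 ^ 2) * h1 + h2
      rw [h, hB] at this
      norm_num at this
    rw [hB, mul_zero]
    exact mul_ne_zero hs.ne' hA
  · refine ⟨n 0, e0 ▸ hmU, hn 0, key 0 ?_⟩
    rw [Real.sin_zero, Real.cos_zero, zero_mul, one_mul]
    exact fun h => hB h.symm

/-- the band at a contact point. -/
theorem band (h2 : SBand) (h3 : SArc6) (h4 : SLA) (h5 : SCol) {O : E3 → Set E2} (hO : Fam O)
    {q : E3} {c e : E2} {ρ : ℝ} (hρ : 0 < ρ) (he : ‖e‖ = 1) (hb : ball c ρ ⊆ O q)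
    (hc : ∀ δ : ℝ, 0 < δ → ∃ (q' : E3) (ζ : E2), q' ≠ q ∧ ζ ∈ O q' ∧ ‖ζ - (c + ρ • e)‖ < δ)
    {β δ₀ : ℝ} (hβ : β < 1) (hβ' : √3 / 2 ≤ β) (hδ₀ : 0 < δ₀) :
    ∃ (q' : E3) (ζ : E2) (B G : Set E2) (a : ℂ), q ≠ q' ∧ ζ ∈ O q' ∧ ‖ζ - (c + ρ • e)‖ < δ₀ ∧
      IsOpen B ∧ (∀ v, (O v ∩ B).Nonempty → v ∈ gam q q') ∧
      (∀ n : E2, ‖n‖ = 1 → |⟪n, e⟫| ≤ β → ζ + n ∈ B) ∧
      IsOpen G ∧ IsPreconnected G ∧ G ⊆ B ∧ (∃ y ∈ G, ∃ z ∈ G, ‖y - z‖ = 1) ∧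
      (∀ y ∈ G, ∃ m : E2, ‖m‖ = 1 ∧ y + m ∈ B) ∧ IsIntegral ℤ a ∧ a * (2 * cs q q') = 1 := by
  obtain ⟨δ, hδ, hN⟩ := h2.2 c e ρ β hρ he hβ
  obtain ⟨q', ζ, hq, hζ, hd⟩ := hc (min δ δ₀) (lt_min hδ hδ₀)
  have hB : IsOpen (No (ball c ρ) ∩ No (O q')) :=
    (h2.1 _ isOpen_ball).inter (h2.1 _ (hO.opn q'))
  have hg : ∀ v, (O v ∩ (No (ball c ρ) ∩ No (O q'))).Nonempty → v ∈ gam q q' := by
    rintro v ⟨y, hy, ⟨w, hw, h1⟩, ⟨w', hw', h1'⟩⟩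
    exact ⟨hO.unit _ _ _ _ hy (hb hw) h1, hO.unit _ _ _ _ hy hw' h1'⟩
  have hn : ∀ n : E2, ‖n‖ = 1 → |⟪n, e⟫| ≤ β → ζ + n ∈ No (ball c ρ) ∩ No (O q') :=
    fun n h1 h => ⟨hN ζ n (hd.trans_le (min_le_left _ _)) h1 h, ζ, hζ, by simpa using h1⟩
  obtain ⟨G, g1, g2, g3, g4, g5⟩ := h3 _ ζ e hB he fun n h1 h => hn n h1 (h.trans hβ')
  obtain ⟨a, ha, ha'⟩ := h5 q q' hq.symm fun s hs =>
    h4 O hO _ G hB g1 g2 g3 g4 g5 s fun v v' hv hv' h => hs v (hg v hv) v' (hg v' hv') h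
  exact ⟨q', ζ, _, G, a, hq.symm, hζ, hd.trans_le (min_le_right _ _), hB, hg, hn, g1, g2, g3, g4,
    g5, ha, ha'⟩

theorem s3 : √3 / 2 < (1 : ℝ) := by
  have : √3 < 2 := by
    rw [Real.sqrt_lt' (by norm_num)]
    norm_num
  linarith

end TT

open TT in
theorem sTT (h1 : SCL) (h2 : SBand) (h3 : SArc6) (h4 : SLA) (h5 : SCol) (h6 : SRel) : STT := by
  intro O₀ hO₀
  obtain ⟨O, hO, hreg⟩ := h1.1 O₀ hO₀
  obtain ⟨p, c, e, ρ, hρ, he, hb, -, -, hc⟩ := h1.2 O hO hreg univ isOpen_univ isPreconnected_univ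
    ⟨EuclideanSpace.single 0 1, mem_univ _, 0, mem_univ _, by simp⟩
  obtain ⟨p', ζ, B, G, a, hp, -, -, hB, hg, -, g1, g2, g3, g4, g5, ha, ha1⟩ :=
    band h2 h3 h4 h5 hO hρ he hb hc s3 le_rfl one_pos
  obtain ⟨q, c', e', ρ', hρ', he', hb', hc1, hc2, hc'⟩ := h1.2 O hO hreg G g1 g2 g4
  obtain ⟨m, hm, hmB⟩ := g5 _ hc2
  obtain ⟨n, hnB, hn, hne⟩ := near {n | c' + ρ' • e' + n ∈ B}
    (hB.preimage (by fun_prop : Continuous fun n : E2 => c' + ρ' • e' + n)) m e' hm he' hmB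
  obtain ⟨r₁, hr₁, hb₁⟩ := Metric.isOpen_iff.1 hB _ (g3 hc2)
  obtain ⟨r₂, hr₂, hb₂⟩ := Metric.isOpen_iff.1 hB _ hnB
  obtain ⟨q', ζ', B', -, a', hq, hζ', hd, hB', hg', hn', -, -, -, -, -, ha', ha1'⟩ :=
    band h2 h3 h4 h5 hO hρ' he' hb' hc' (max_lt hne s3) (le_max_right _ _) (lt_min hr₁ hr₂)
  have m1 : ζ' ∈ B := hb₁ (by
    rw [mem_ball, dist_eq_norm]; exact hd.trans_le (min_le_left _ _))
  have m2 : ζ' + n ∈ B := hb₂ (by
    rw [mem_ball, dist_eq_norm, add_sub_add_right_eq_sub]; exact hd.trans_le (min_le_right _ _))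
  obtain ⟨y, ⟨hy1, hy2⟩, hy3⟩ := hO.dense.inter_open_nonempty _ (hB.inter hB')
    ⟨ζ' + n, m2, hn' n hn (le_max_left _ _)⟩
  obtain ⟨w, hw⟩ := mem_iUnion.1 hy3
  have hr := h6 p p' q q' w hp hq (hg q ⟨c', hb' (mem_ball_self hρ'), g3 hc1⟩)
    (hg q' ⟨ζ', hζ', m1⟩) (hg w ⟨y, hw, hy1⟩) (hg' w ⟨y, hw, hy2⟩)
  have hr' : (cs q q' : ℂ) * (1 - cs p p') = -cs p p' := by exact_mod_cast hr
  have hs : a + a' = 1 / 2 := by
    linear_combination (-a' + a' * (cs q q' : ℂ)) * ha1 + (-a + 1 / 2) * ha1' + 2 * a * a' * hr'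
  exact half (hs ▸ ha.add ha')

end Pool.Agent.MP_66cee2_co.P
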