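import Pool.Agent.MP_66cee2_co.P.Spec
import Pool.Agent.MP_66cee2_co.XJ.Sig

/-
The neighbours of a set of points with two values lie in level sets of positive area.
-/

namespace Pool.Agent.MP_66cee2_co.P

open MeasureTheory Set Pool.Agent.MP_66cee2_co.X

namespace TV1

theorem ae_pos (μ : Measure E2) (A : Set E2) : ∀ᵐ n ∂μ, n ∈ A → μ A ≠ 0 := by
  by_cases h : μ A = 0
  · filter_upwards [measure_eq_zero_iff_ae_notMem.1 h] with n hn hn' using absurd hn' hn
  · exact Filter.Eventually.of_forall fun _ _ => h

theorem meas {f : E2 → E3} {U : Set E2} (hf : Measurable f) (hU : MeasurableSet U) :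
    MeasurableSet {z : E2 × E2 | z.1 ∈ U → sig 2 {m | f (z.1 + m) = f z.2} ≠ 0} := by
  have hS : MeasurableSet {w : (E2 × E2) × E2 | f (w.1.1 + w.2) = f w.1.2} :=
    measurableSet_eq_fun (hf.comp (measurable_fst.fst.add measurable_snd))
      (hf.comp measurable_fst.snd)
  have h1 : Measurable fun z : E2 × E2 => sig 2 {m | f (z.1 + m) = f z.2} :=
    measurable_measure_prodMk_left hS
  have h2 := (h1 (measurableSet_singleton 0)).compl
  have h3 := (measurable_fst (β := E2) hU).compl.union h2
  convert h3 using 1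
  ext z
  simp only [mem_ofPred_eq, mem_union, mem_compl_iff, mem_preimage, mem_singleton_iff]
  exact imp_iff_not_or

end TV1

theorem sTV1 (hK : SKit) : STV1 := by
  intro f U hf hU hT
  have h1 : AePair fun x y : E2 => x ∈ U → sig 2 {m | f (x + m) = f y} ≠ 0 := by
    filter_upwards [hT] with x hx
    by_cases hxU : x ∈ U
    · obtain ⟨q, q', h⟩ := hx hxU
      filter_upwards [h, TV1.ae_pos (sig 2) {m | f (x + m) = q},
        TV1.ae_pos (sig 2) {m | f (x + m) = q'}] with n hn h1 h2 _
      rcases hn.1 with e | e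
      · rw [e]; exact h1 e
      · rw [e]; exact h2 e
    · exact Filter.Eventually.of_forall fun _ h => absurd h hxU
  filter_upwards [sSig.swap 2 _ (TV1.meas hf hU) h1] with y hy hyU h0
  refine hyU (measure_eq_zero_iff_ae_notMem.2 ?_)
  filter_upwards [hy, hK.two_null (fun z => ¬ f z = f y) y
    (measure_eq_zero_iff_ae_notMem.1 h0)] with n hn hn' hU'
  exact hn hU' (measure_eq_zero_iff_ae_notMem.2 hn')

end Pool.Agent.MP_66cee2_co.P
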