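import Pool.Agent.MP_66cee2_co.P.Spec
import Pool.Agent.MP_66cee2_co.XJ.Sig

/-
The change of the map on an independent set of points with two values.
-/

namespace Pool.Agent.MP_66cee2_co.P

open MeasureTheory Set Filter Metric Topology Pool.Agent.MP_66cee2_co.X
open scoped ENNReal RealInnerProductSpace

namespace TV2

theorem exists_normal (d : E3) : ∃ w : E3, ‖w‖ = 1 ∧ ⟪d, w⟫ = 0 := by
  have h1 : Module.finrank ℝ (ℝ ∙ d) ≤ 1 := by
    simpa using finrank_span_le_card (R := ℝ) ({d} : Set E3)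
  have h2 := Submodule.finrank_add_finrank_orthogonal (ℝ ∙ d)
  have h3 : Module.finrank ℝ E3 = 3 := by simp
  have h4 : (ℝ ∙ d)ᗮ ≠ ⊥ := by
    intro h
    rw [h, finrank_bot] at h2
    omega
  obtain ⟨w, hw, hw0⟩ := Submodule.exists_mem_ne_zero_of_ne_bot h4
  refine ⟨‖w‖⁻¹ • w, ?_, ?_⟩
  · rw [norm_smul, norm_inv, norm_norm, inv_mul_cancel₀ (norm_ne_zero_iff.2 hw0)]
  · rw [inner_smul_right, Submodule.mem_orthogonal_singleton_iff_inner_right.1 hw, mul_zero]

theorem norm_comb {d w : E3} (hd : ‖d‖ = 1) (hw : ‖w‖ = 1) (h : ⟪d, w⟫ = 0) {a : ℝ}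
    (ha : a ^ 2 = 1 / 4) : ‖a • d + (√3 / 2 : ℝ) • w‖ = 1 := by
  have h3 : (√3 : ℝ) ^ 2 = 3 := Real.sq_sqrt (by norm_num)
  have : ‖a • d + (√3 / 2 : ℝ) • w‖ ^ 2 = 1 := by
    rw [norm_add_sq_real, inner_smul_left, inner_smul_right, h, norm_smul, norm_smul, hd, hw,
      mul_one, mul_one, Real.norm_eq_abs, Real.norm_eq_abs, sq_abs, sq_abs, ha, div_pow, h3]
    norm_num
  exact (pow_eq_one_iff_of_nonneg (norm_nonneg _) two_ne_zero).1 this

theorem exists_apex (p : E3 × E3) :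
    ∃ c : E3, ‖p.1 - p.2‖ = 1 → ‖c - p.1‖ = 1 ∧ ‖c - p.2‖ = 1 := by
  obtain ⟨w, hw, h⟩ := exists_normal (p.1 - p.2)
  refine ⟨p.2 + ((1 / 2 : ℝ) • (p.1 - p.2) + (√3 / 2 : ℝ) • w), fun hd => ⟨?_, ?_⟩⟩
  · have : p.2 + ((1 / 2 : ℝ) • (p.1 - p.2) + (√3 / 2 : ℝ) • w) - p.1 =
        (-1 / 2 : ℝ) • (p.1 - p.2) + (√3 / 2 : ℝ) • w := by module
    rw [this]
    exact norm_comb hd hw h (by norm_num)
  · rw [add_sub_cancel_left]
    exact norm_comb hd hw h (by norm_num)

/-- the values on the unit circle are the two given points. -/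
def On (f : E2 → E3) (p : E3 × E3) (x : E2) : Prop :=
  ‖p.1 - p.2‖ = 1 ∧ ∀ᵐ n ∂sig 2, f (x + n) = p.1 ∨ f (x + n) = p.2

theorem on_meas (hK : SKit) {f : E2 → E3} (hf : Measurable f) (p : E3 × E3) :
    MeasurableSet {x | On f p x} := by
  have h1 : MeasurableSet {y | ¬ (f y = p.1 ∨ f y = p.2)} :=
    ((hf (measurableSet_singleton p.1)).union (hf (measurableSet_singleton p.2))).compl
  have h2 : {x | On f p x} =
      {_x | ‖p.1 - p.2‖ = 1} ∩ (Nb {y | ¬ (f y = p.1 ∨ f y = p.2)})ᶜ := by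
    ext x
    simp only [On, Nb, mem_ofPred_eq, mem_inter_iff, mem_compl_iff, not_not, ae_iff]
  rw [h2]
  exact (MeasurableSet.const _).inter (hK.nb_meas _ h1).compl

theorem exists_on (hK : SKit) (h1 : STV1) {f : E2 → E3} {U : Set E2} (hf : Measurable f)
    (hU : MeasurableSet U) (hT : ∀ᵐ x, x ∈ U → Two f x) :
    ∀ᵐ x, x ∈ U → ∃ p ∈ (f '' Lev f) ×ˢ (f '' Lev f), On f p x := by
  filter_upwards [hT, hK.nb_back U hU, sSig.right 2 _ (h1 f U hf hU hT)] with x a1 a2 a3 hx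
  obtain ⟨q, q', hq⟩ := a1 hx
  have b1 : ∀ᵐ n ∂sig 2, (f (x + n) = q ∨ f (x + n) = q') ∧ x + n ∈ Lev f := by
    filter_upwards [hq, a2 hx, a3] with n c1 c2 c3 using ⟨c1.1, c3 c2⟩
  have : (ae (sig 2)).NeBot := ae_neBot.2 (sSig.ne 2 (by norm_num))
  obtain ⟨n, c1, c2, c3⟩ := (hq.and (b1.and (hK.rot_ae _ b1))).exists
  refine ⟨(f (x + n), f (x + Rot n)), ⟨⟨_, c2.2, rfl⟩, ⟨_, c3.2, rfl⟩⟩, c1.2, ?_⟩
  have hne : f (x + n) ≠ f (x + Rot n) := by
    intro h
    have := c1.2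
    rw [h, sub_self, norm_zero] at this
    exact zero_ne_one this
  filter_upwards [hq] with m hm
  rcases c2.1 with e1 | e1 <;> rcases c3.1 with e2 | e2
  · exact absurd (e1.trans e2.symm) hne
  · rw [e1, e2]; exact hm.1
  · rw [e1, e2]; exact hm.1.symm
  · exact absurd (e1.trans e2.symm) hne

end TV2

open TV2 in
theorem sTV2 (hK : SKit) (h1 : STV1) : STV2 := by
  classical
  intro f U hf hU hI hT hP
  choose c hc using exists_apex
  have hV := (hK.lev_meas f hf).2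
  obtain ⟨e, he⟩ := ((hV.prod hV).insert (0, 0)).exists_eq_range (insert_nonempty _ _)
  have hex : ∀ x, ∃ i, On f (e i) x ∨ ¬ ∃ j, On f (e j) x := fun x => by
    by_cases h : ∃ j, On f (e j) x
    · exact h.imp fun _ => Or.inl
    · exact ⟨0, Or.inr h⟩
  have hm : ∀ i, MeasurableSet {x | On f (e i) x ∨ ¬ ∃ j, On f (e j) x} := fun i => by
    have h2 : MeasurableSet {x | ∃ j, On f (e j) x} := by
      rw [ofPred_exists]
      exact MeasurableSet.iUnion fun j => on_meas hK hf _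
    exact (on_meas hK hf _).union h2.compl
  set k : E2 → ℕ := fun x => Nat.find (hex x) with hk
  have hkm : Measurable k := measurable_find hex hm
  have hon : ∀ᵐ x, x ∈ U → On f (e (k x)) x := by
    filter_upwards [exists_on hK h1 hf hU hT] with x a1 hx
    obtain ⟨p, hp, hp'⟩ := a1 hx
    obtain ⟨j, rfl⟩ : p ∈ range e := he ▸ mem_insert_of_mem _ hp
    exact (Nat.find_spec (hex x)).resolve_right (not_not.2 ⟨j, hp'⟩)
  set g : E2 → E3 := fun x => if x ∈ U then c (e (k x)) else f x with hg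
  have hgm : Measurable g :=
    Measurable.ite hU ((measurable_from_nat (f := fun i => c (e i))).comp hkm) hf
  have hoff : ∀ x, x ∉ U → g x = f x := fun x hx => if_neg hx
  have hin : ∀ x, x ∈ U → g x = c (e (k x)) := fun x hx => if_pos hx
  have hleft : AePair fun x y => x ∈ U → ‖g x - g y‖ = 1 := by
    filter_upwards [hon, measure_eq_zero_iff_ae_notMem.1 hI] with x a1 a2
    by_cases hx : x ∈ U
    · have b1 : ∀ᵐ n ∂sig 2, x + n ∉ U := by
        have : sig 2 {n | x + n ∈ U} = 0 := by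
          by_contra h
          exact a2 ⟨hx, h⟩
        exact measure_eq_zero_iff_ae_notMem.1 this
      obtain ⟨b2, b3⟩ := a1 hx
      filter_upwards [b1, b3] with n c1 c2 _
      rw [hin x hx, hoff _ c1]
      rcases c2 with c2 | c2 <;> rw [c2]
      · exact (hc _ b2).1
      · exact (hc _ b2).2
    · exact Eventually.of_forall fun n h => absurd h hx
  have hright : AePair fun x y => y ∈ U → ‖g y - g x‖ = 1 := by
    refine sSig.swap 2 (fun x y => x ∈ U → ‖g x - g y‖ = 1) ?_ hleft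
    have b1 : MeasurableSet {z : E2 × E2 | ‖g z.1 - g z.2‖ = 1} :=
      ((hgm.comp measurable_fst).sub (hgm.comp measurable_snd)).norm (measurableSet_singleton 1)
    have b2 : {z : E2 × E2 | z.1 ∈ U → ‖g z.1 - g z.2‖ = 1} =
        (Prod.fst ⁻¹' U)ᶜ ∪ {z : E2 × E2 | ‖g z.1 - g z.2‖ = 1} := by
      ext z
      simp only [mem_ofPred_eq, mem_union, mem_compl_iff, mem_preimage]
      tauto
    rw [b2]
    exact (measurable_fst hU).compl.union b1
  refine ⟨g, ⟨hgm, ?_⟩, hoff, ?_⟩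
  · filter_upwards [hleft, hright, hP] with x a1 a2 a3
    filter_upwards [a1, a2, a3] with n b1 b2 b3
    by_cases hx : x ∈ U
    · exact b1 hx
    by_cases hy : x + n ∈ U
    · rw [norm_sub_rev]; exact b2 hy
    · rw [hoff _ hx, hoff _ hy]; exact b3 hx hy
  · have b1 : ∀ᵐ x, ∀ i, x ∈ {y | y ∈ U ∧ k y = i} → volume {y | y ∈ U ∧ k y = i} ≠ 0 := by
      refine ae_all_iff.2 fun i => ?_
      by_cases h : volume {y | y ∈ U ∧ k y = i} = 0
      · filter_upwards [measure_eq_zero_iff_ae_notMem.1 h] with x hx hx' using absurd hx' hx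
      · exact Eventually.of_forall fun _ _ => h
    filter_upwards [b1] with x hx hxU h
    refine hx (k x) ⟨hxU, rfl⟩ (measure_mono_null ?_ h)
    rintro y ⟨hy, hy'⟩
    show g y = g x
    rw [hin y hy, hin x hxU, hy']

end Pool.Agent.MP_66cee2_co.P
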