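import Pool.Agent.MP_66cee2_co.P.Spec

/-
The tangential part of the quadratic term vanishes.
-/

namespace Pool.Agent.MP_66cee2_co.P

open Matrix Polynomial

namespace U0

/-- the function `l`. -/
noncomputable def ll (u w t : ℂ) : ℂ := 1 - u / t - w * t

/-- the relation between the three parameters. -/
def FF (s k c d v : ℂ) : ℂ :=
  (s * (1 + (c * v) ^ 2) - 2 * k * (c * v)) * (1 - v ^ 2) * (1 - (d * v) ^ 2) +
    (s * (1 + (d * v) ^ 2) - 2 * k * (d * v)) * (1 - v ^ 2) * (1 - (c * v) ^ 2) -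
    (s * (1 + v ^ 2) - 2 * k * v) * (1 - (c * v) ^ 2) * (1 - (d * v) ^ 2) -
    (1 - v ^ 2) * (1 - (c * v) ^ 2) * (1 - (d * v) ^ 2)

theorem fin_FF (s k c d : ℂ) (hc : c ≠ 0) (hd : d ≠ 0) : {v | FF s k c d v = 0}.Finite := by
  let p : ℂ[X] :=
    (C s * (1 + (C c * X) ^ 2) - 2 * C k * (C c * X)) * (1 - X ^ 2) * (1 - (C d * X) ^ 2) +
    (C s * (1 + (C d * X) ^ 2) - 2 * C k * (C d * X)) * (1 - X ^ 2) * (1 - (C c * X) ^ 2) -
    (C s * (1 + X ^ 2) - 2 * C k * X) * (1 - (C c * X) ^ 2) * (1 - (C d * X) ^ 2) -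
    (1 - X ^ 2) * (1 - (C c * X) ^ 2) * (1 - (C d * X) ^ 2)
  have hev : ∀ v, p.eval v = FF s k c d v := by
    intro v
    simp [p, FF]
  have hp : p ≠ 0 := by
    intro h
    have h0 : ∀ v, FF s k c d v = 0 := fun v => by rw [← hev, h, eval_zero]
    have a0 := h0 0
    have a1 := h0 1
    have a2 := h0 2
    have a3 := h0 3
    have b1 := h0 (-1)
    have b2 := h0 (-2)
    have b3 := h0 (-3)
    unfold FF at a0 a1 a2 a3 b1 b2 b3
    have hs : s = 1 := by linear_combination a0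
    have h6 : 720 * (c ^ 2 * d ^ 2 * (s + 1)) = 0 := by
      linear_combination a3 + b3 - 6 * (a2 + b2) + 15 * (a1 + b1) - 20 * a0
    rw [hs] at h6
    have : c ^ 2 * d ^ 2 = 0 := by linear_combination h6 / 1440
    exact mul_ne_zero (pow_ne_zero 2 hc) (pow_ne_zero 2 hd) this
  refine (finite_setOf_isRoot hp).subset ?_
  intro v hv
  simpa [IsRoot, hev] using hv

theorem fin_ll (u w a : ℂ) (hu : u ≠ 0) : {t | t ≠ 0 ∧ ll u w t = a}.Finite := by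
  let p : ℂ[X] := C w * X ^ 2 + C (a - 1) * X + C u
  have hp : p ≠ 0 := by
    intro h
    have : p.eval 0 = 0 := by rw [h, eval_zero]
    apply hu
    simpa [p] using this
  refine (finite_setOf_isRoot hp).subset ?_
  rintro t ⟨ht, h⟩
  have h1 : u / t * t = u := div_mul_cancel₀ u ht
  simp only [Set.mem_setOf_eq, IsRoot, p, eval_add, eval_mul, eval_C, eval_pow, eval_X]
  unfold ll at h
  linear_combination (-t) * h - h1

theorem param (Y M : ℂ) (h : Y ^ 2 + M ^ 2 = 1) (hY : Y ≠ -1) :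
    ∃ v, Y * (1 + v ^ 2) = 1 - v ^ 2 ∧ M * (1 + v ^ 2) = 2 * v := by
  have hd : 1 + Y ≠ 0 := fun h => hY (by linear_combination h)
  have hV : M / (1 + Y) * (1 + Y) = M := div_mul_cancel₀ M hd
  generalize M / (1 + Y) = v at hV
  have h2 : (1 + v ^ 2) * (1 + Y) = 2 := by
    apply mul_right_cancel₀ hd
    linear_combination (v * (1 + Y) + M) * hV + h
  exact ⟨v, by linear_combination h2, by linear_combination v * h2 - (1 + v ^ 2) * hV⟩

theorem nb (Y M Y' M' v v' r : ℂ) (hr : r * r = 3) (h : Y * Y' + 2 * M * M' = 1)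
    (a : Y * (1 + v ^ 2) = 1 - v ^ 2) (b : M * (1 + v ^ 2) = 2 * v)
    (a' : Y' * (1 + v' ^ 2) = 1 - v' ^ 2) (b' : M' * (1 + v' ^ 2) = 2 * v') :
    ∃ c ∈ ({2 + r, 2 - r} : Set ℂ), v' = c * v := by
  have h1 : (v' - (2 + r) * v) * (v' - (2 - r) * v) = 0 := by
    linear_combination (-(1 + v ^ 2) * (1 + v' ^ 2) / 2) * h + (Y' * (1 + v' ^ 2) / 2) * a +
      ((1 - v ^ 2) / 2) * a' + (M' * (1 + v' ^ 2)) * b + (2 * v) * b' - v ^ 2 * hr
  rcases mul_eq_zero.1 h1 with h2 | h2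
  · exact ⟨2 + r, by simp, by linear_combination h2⟩
  · exact ⟨2 - r, by simp, by linear_combination h2⟩

theorem core (Θ : Set ℂ) (z u w s k : ℂ) (hz : z ^ 2 - z + 1 = 0) (hu : u ≠ 0)
    (h0 : ∀ t ∈ Θ, t ≠ 0) (hrot : ∀ t ∈ Θ, z * t ∈ Θ) (Y M : ℂ → ℂ)
    (hn : ∀ t ∈ Θ, Y t ^ 2 + M t ^ 2 = 1)
    (hh : ∀ t ∈ Θ, Y t * Y (z * t) + 2 * M t * M (z * t) = 1)
    (he : ∀ t ∈ Θ, Y t * ll u w t + k * M t = s) : Θ.Finite := by
  obtain ⟨r, hr⟩ := IsAlgClosed.exists_eq_mul_self (3 : ℂ)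
  replace hr := hr.symm
  have hz0 : z ≠ 0 := by
    rintro rfl
    simp at hz
  let Cs : Set ℂ := {2 + r, 2 - r}
  have hCf : Cs.Finite := Set.toFinite _
  have hC : ∀ c ∈ Cs, c ^ 2 - 4 * c + 1 = 0 := by
    rintro c (rfl | rfl)
    · linear_combination hr
    · linear_combination hr
  have hC0 : ∀ c ∈ Cs, c ≠ 0 := by
    intro c hc h
    have := hC c hc
    rw [h] at this
    simp at this
  let S : Set ℂ := ⋃ c ∈ Cs, ⋃ d ∈ Cs, {v | FF s k c d v = 0}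
  have hS : S.Finite :=
    hCf.biUnion fun c hc => hCf.biUnion fun d hd => fin_FF s k c d (hC0 c hc) (hC0 d hd)
  let S' : Set ℂ := S ∪ Set.image2 (· * ·) Cs S
  have hS' : S'.Finite := hS.union (hCf.image2 _ hS)
  let L : Set ℂ := insert (-s) ((fun v => (s * (1 + v ^ 2) - 2 * k * v) / (1 - v ^ 2)) '' S')
  have hL : L.Finite := (hS'.image _).insert _
  let G : Set ℂ := ⋃ a ∈ L, {t | t ≠ 0 ∧ ll u w t = a}
  have hG : G.Finite := hL.biUnion fun a _ => fin_ll u w a hu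
  have inG : ∀ t ∈ Θ, ll u w t ∈ L → t ∈ G := fun t ht h =>
    Set.mem_biUnion h ⟨h0 t ht, rfl⟩
  have neg : ∀ t ∈ Θ, Y t = -1 → t ∈ G := by
    intro t ht h
    apply inG t ht
    left
    have h1 := hn t ht
    have h2 := he t ht
    rw [h] at h1 h2
    have h3 : M t = 0 := pow_eq_zero_iff (two_ne_zero) |>.1 (by linear_combination h1)
    rw [h3] at h2
    linear_combination -h2
  have val : ∀ t ∈ Θ, ∀ v, Y t * (1 + v ^ 2) = 1 - v ^ 2 → M t * (1 + v ^ 2) = 2 * v →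
      ll u w t * (1 - v ^ 2) = s * (1 + v ^ 2) - 2 * k * v := by
    intro t ht v a b
    linear_combination (1 + v ^ 2) * he t ht - ll u w t * a - k * b
  have val' : ∀ t ∈ Θ, ∀ v ∈ S', 1 - v ^ 2 ≠ 0 →
      ll u w t * (1 - v ^ 2) = s * (1 + v ^ 2) - 2 * k * v → t ∈ G := by
    intro t ht v hv hq h
    apply inG t ht
    right
    exact ⟨v, hv, (eq_div_of_mul_eq hq h).symm⟩
  have key : ∀ t ∈ Θ, t ∈ G ∨ z * t ∈ G ∨ z * (z * t) ∈ G := by
    intro t ht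
    have ht1 := hrot t ht
    have ht2 := hrot _ ht1
    by_cases y0 : Y t = -1
    · exact Or.inl (neg t ht y0)
    by_cases y1 : Y (z * t) = -1
    · exact Or.inr (Or.inl (neg _ ht1 y1))
    by_cases y2 : Y (z * (z * t)) = -1
    · exact Or.inr (Or.inr (neg _ ht2 y2))
    obtain ⟨v0, a0, b0⟩ := param _ _ (hn t ht) y0
    obtain ⟨v, a1, b1⟩ := param _ _ (hn _ ht1) y1
    obtain ⟨v2, a2, b2⟩ := param _ _ (hn _ ht2) y2
    obtain ⟨c, hc, rfl⟩ := nb (Y (z * t)) (M (z * t)) (Y t) (M t) v v0 r hr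
      (by linear_combination hh t ht) a1 b1 a0 b0
    obtain ⟨d, hd, rfl⟩ := nb _ _ _ _ v v2 r hr (hh _ ht1) a1 b1 a2 b2
    have e0 := val t ht _ a0 b0
    have e1 := val _ ht1 _ a1 b1
    have e2 := val _ ht2 _ a2 b2
    have hl : ll u w t + ll u w (z * (z * t)) - ll u w (z * t) = 1 := by
      have ht0 := h0 t ht
      unfold ll
      field_simp
      linear_combination (-u - w * t ^ 2 * z ^ 2) * hz
    have hv : v ∈ S := by
      refine Set.mem_biUnion hc (Set.mem_biUnion hd ?_)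
      show FF s k c d v = 0
      unfold FF
      linear_combination (-(1 - v ^ 2) * (1 - (d * v) ^ 2)) * e0 -
        ((1 - v ^ 2) * (1 - (c * v) ^ 2)) * e2 + ((1 - (c * v) ^ 2) * (1 - (d * v) ^ 2)) * e1 +
        ((1 - v ^ 2) * (1 - (c * v) ^ 2) * (1 - (d * v) ^ 2)) * hl
    by_cases hq : 1 - v ^ 2 = 0
    · left
      refine val' t ht (c * v) (Or.inr (Set.mem_image2_of_mem hc hv)) ?_ e0
      intro h
      have h1 := hC c hc
      have h2 : c ^ 2 = 1 := by linear_combination c ^ 2 * hq - h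
      have h3 : c = 1 / 2 := by linear_combination (h2 - h1) / 4
      rw [h3] at h2
      norm_num at h2
    · exact Or.inr (Or.inl (val' _ ht1 v (Or.inl hv) hq e1))
  have hi : Function.Injective fun t : ℂ => z * t := mul_right_injective₀ hz0
  have hG1 : ((fun t : ℂ => z * t) ⁻¹' G).Finite := hG.preimage hi.injOn
  have hG2 : ((fun t : ℂ => z * t) ⁻¹' ((fun t : ℂ => z * t) ⁻¹' G)).Finite :=
    hG1.preimage hi.injOn
  exact (hG.union (hG1.union hG2)).subset key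

theorem gram (A B v w : Fin 3 → ℂ) (hA : A ⬝ᵥ A = 0) (hB : B ⬝ᵥ B = 0) :
    (A ⬝ᵥ B) ^ 2 * (v ⬝ᵥ w) = (A ⬝ᵥ B) * ((v ⬝ᵥ A) * (w ⬝ᵥ B) + (v ⬝ᵥ B) * (w ⬝ᵥ A)) -
      (v ⬝ᵥ crossProduct A B) * (w ⬝ᵥ crossProduct A B) := by
  have h : (v ⬝ᵥ crossProduct A B) * (w ⬝ᵥ crossProduct A B) =
      (v ⬝ᵥ w) * ((A ⬝ᵥ A) * (B ⬝ᵥ B) - (A ⬝ᵥ B) ^ 2) -
        (v ⬝ᵥ A) * ((w ⬝ᵥ A) * (B ⬝ᵥ B) - (A ⬝ᵥ B) * (w ⬝ᵥ B)) +
        (v ⬝ᵥ B) * ((w ⬝ᵥ A) * (A ⬝ᵥ B) - (A ⬝ᵥ A) * (w ⬝ᵥ B)) := by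
    simp only [cross_apply, dotProduct, Fin.sum_univ_three, cons_val_zero, cons_val_one,
      cons_val_two, Nat.succ_eq_add_one, tail_cons, head_cons]
    ring
  rw [h, hA, hB]
  ring

theorem ze_eq : ze ^ 2 - ze + 1 = 0 := by
  have h3 : ((√3 : ℝ) : ℂ) ^ 2 = 3 := by
    rw [← Complex.ofReal_pow, Real.sq_sqrt (by norm_num)]
    norm_num
  unfold ze
  push_cast
  linear_combination (Complex.I ^ 2 / 4) * h3 + (3 / 4) * Complex.I_sq

theorem star_dot (a b : Fin 3 → ℂ) : star a ⬝ᵥ star b = star (a ⬝ᵥ b) := by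
  simp [dotProduct, Fin.sum_univ_three]

end U0

open U0 in
theorem sU0 : SU0 := by
  intro K Θ ν H hA hB1 u hu
  by_contra hu0
  apply H.inf
  have hB : K.B ⬝ᵥ K.B = 0 := by rw [H.hB, star_dot, hA, star_zero]
  have hBB : K.B1 ⬝ᵥ K.B = 0 := by
    rw [H.hB, ← H.hB1, star_dot, dotProduct_comm, hB1, star_zero]
  have hAB : K.B1 ⬝ᵥ K.A = 0 := by rw [dotProduct_comm, hB1]
  have hC : K.C0 = star u • K.B := by rw [H.hC, hu, star_smul, H.hB]
  have hg : K.A ⬝ᵥ K.B ≠ 0 := by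
    intro h
    apply H.rk
    rw [hA, h]
    simp
  have h0 : ∀ t ∈ Θ, t ≠ 0 := by
    intro t ht h
    have := H.unit t ht
    rw [h] at this
    simp at this
  have G := fun v w => gram K.A K.B v w hA hB
  have hBA : K.B ⬝ᵥ K.A = K.A ⬝ᵥ K.B := dotProduct_comm _ _
  have e1 : ∀ t ∈ Θ, ν t ⬝ᵥ K.A = t ^ 2 * (ν t ⬝ᵥ K.B) := by
    intro t ht
    have := H.e1 t ht
    simp only [CJ.p1, dotProduct_sub, dotProduct_smul, smul_eq_mul] at this
    linear_combination this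
  generalize hc : crossProduct K.A K.B = c at G
  obtain ⟨s, hs⟩ := IsAlgClosed.exists_eq_mul_self (2 * K.A ⬝ᵥ K.B)
  have hI := Complex.I_sq
  have hz := ze_eq
  refine core Θ ze u (star u) s (Complex.I * s * (K.B1 ⬝ᵥ c) / (K.A ⬝ᵥ K.B) ^ 2) hz hu0 h0 H.rot
    (fun t => s * (t * (ν t ⬝ᵥ K.B)) / (K.A ⬝ᵥ K.B))
    (fun t => Complex.I * (ν t ⬝ᵥ c) / (K.A ⬝ᵥ K.B)) ?_ ?_ ?_
  · intro t ht
    have h1 := G (ν t) (ν t)
    rw [H.nrm t ht, e1 t ht] at h1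
    generalize K.A ⬝ᵥ K.B = g at *
    field_simp
    linear_combination -h1 - (t * (ν t ⬝ᵥ K.B)) ^ 2 * hs + (ν t ⬝ᵥ c) ^ 2 * hI
  · intro t ht
    have h1 := G (ν t) (ν (ze * t))
    rw [H.hex t ht, e1 t ht, e1 _ (H.rot t ht)] at h1
    generalize K.A ⬝ᵥ K.B = g at *
    generalize ν (ze * t) = n' at h1 ⊢
    field_simp
    linear_combination (-2) * h1 - (ze * t ^ 2 * (ν t ⬝ᵥ K.B) * (n' ⬝ᵥ K.B)) * hs +
      2 * (ν t ⬝ᵥ c) * (n' ⬝ᵥ c) * hI -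
      2 * g * t ^ 2 * (ν t ⬝ᵥ K.B) * (n' ⬝ᵥ K.B) * hz
  · intro t ht
    have h1 := G (ν t) K.B1
    rw [hBB, hAB] at h1
    have h2 := H.e2 t ht
    simp only [CJ.p1, CJ.p2, hu, hC, dotProduct_sub, dotProduct_add, dotProduct_smul,
      sub_dotProduct, smul_dotProduct, smul_eq_mul, hA, hB, hBA, e1 t ht] at h2
    have ht0 := h0 t ht
    have h3 : u * (ν t ⬝ᵥ K.B) - ν t ⬝ᵥ K.B1 + t ^ 2 * star u * (ν t ⬝ᵥ K.B) -
        t * (ν t ⬝ᵥ K.B) + K.A ⬝ᵥ K.B = 0 := by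
      apply mul_left_cancel₀ (pow_ne_zero 2 ht0)
      linear_combination h2 / 2
    unfold ll
    generalize K.A ⬝ᵥ K.B = g at *
    field_simp
    linear_combination (-s * g ^ 2) * h3 - s * h1 + s * (K.B1 ⬝ᵥ c) * (ν t ⬝ᵥ c) * hI

end Pool.Agent.MP_66cee2_co.P
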