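import Pool.Agent.MP_66cee2_co.P.Bridge
import Pool.Agent.MP_66cee2_co.P.Jac
import Pool.Agent.MP_66cee2_co.P.Kit
import Pool.Agent.MP_66cee2_co.P.TV1
import Pool.Agent.MP_66cee2_co.P.TV2
import Pool.Agent.MP_66cee2_co.P.SelB
import Pool.Agent.MP_66cee2_co.P.Reg
import Pool.Agent.MP_66cee2_co.P.SelJ
import Pool.Agent.MP_66cee2_co.P.Sel0
import Pool.Agent.MP_66cee2_co.P.Sel
import Pool.Agent.MP_66cee2_co.P.PairE
import Pool.Agent.MP_66cee2_co.P.FW
import Pool.Agent.MP_66cee2_co.P.FW01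
import Pool.Agent.MP_66cee2_co.P.Rk1
import Pool.Agent.MP_66cee2_co.P.Alg
import Pool.Agent.MP_66cee2_co.P.CaseS
import Pool.Agent.MP_66cee2_co.P.Laur
import Pool.Agent.MP_66cee2_co.P.Rfin
import Pool.Agent.MP_66cee2_co.P.U0
import Pool.Agent.MP_66cee2_co.P.Cls
import Pool.Agent.MP_66cee2_co.P.IsoM
import Pool.Agent.MP_66cee2_co.P.Iso
import Pool.Agent.MP_66cee2_co.P.Cnt
import Pool.Agent.MP_66cee2_co.P.Quad
import Pool.Agent.MP_66cee2_co.P.Chord
import Pool.Agent.MP_66cee2_co.P.CntD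
import Pool.Agent.MP_66cee2_co.P.K
import Pool.Agent.MP_66cee2_co.P.Open
import Pool.Agent.MP_66cee2_co.P.Fam
import Pool.Agent.MP_66cee2_co.P.CL
import Pool.Agent.MP_66cee2_co.P.LA
import Pool.Agent.MP_66cee2_co.P.Col
import Pool.Agent.MP_66cee2_co.P.TT

/-
Maps of the plane into three dimensional space: the theorem.
-/

namespace Pool.Agent.MP_66cee2_co.P

theorem sM23 : SM23 :=
  have hK : SKit := sKit sJac
  have h1 : STV1 := sTV1 hK
  have h2 : STV2 := sTV2 hK h1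
  sM23_of (sSel hK sReg (sSel0 hK sSelA' sReg (sSelJ sReg) sSelL' sRowR) h2)
    (sCls hK sPairE (sFW0 sFW) (sFW1 sFW) sRk1 (sAlg sBridge sCaseS sLaur sRfin sU0 sEndA))
    (sIso hK sIsoM sCoc) (sPinE hK) (sFlat hK h1 h2)
    (sFam hK (sCnt sCntF (sCntD sJac sCap (sQuad sArc) sChord)) (sOpen hK (sK sJac sCap hK)))
    (sTT sCL sBand sArc6 sLA sCol sRel)

theorem allIso : XT.AllIso 2 3 := allIso_of sM23

end Pool.Agent.MP_66cee2_co.P
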