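import Pool.Agent.MP_66cee2_co.P.Spec

/-
The linear algebra of the selection.
-/

namespace Pool.Agent.MP_66cee2_co.P

open Matrix Pool.Agent.MP_66cee2_co.X

namespace SelA

theorem lz3 (a b : Ix 3 → ℝ) :
    lz a b = 2 * (a (Sum.inl 0) * b (Sum.inl 0) + a (Sum.inl 1) * b (Sum.inl 1) +
      a (Sum.inl 2) * b (Sum.inl 2)) + a (Sum.inr true) * b (Sum.inr false) +
      a (Sum.inr false) * b (Sum.inr true) := by
  rw [lz_eq, Fin.sum_univ_three]

theorem trJ3 (M : Matrix (Ix 3) (Ix 3) ℝ) :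
    trJ M = 2 * (M (Sum.inl 0) (Sum.inl 0) + M (Sum.inl 1) (Sum.inl 1) +
      M (Sum.inl 2) (Sum.inl 2)) + M (Sum.inr true) (Sum.inr false) +
      M (Sum.inr false) (Sum.inr true) := by
  simp only [trJ, Fintype.sum_sum_type, Jv, Fintype.sum_bool, Bool.not_true, Bool.not_false,
    Fin.sum_univ_three]
  ring

theorem lift_of (v : Ix 3 → ℝ) (h1 : v sI = 1) (h2 : qf v v = 0) :
    lift (WithLp.toLp 2 fun i => v (Sum.inl i) : E3) = v := by
  funext a
  rcases a with i | b
  · rfl
  · cases b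
    · simp only [lift, EuclideanSpace.real_norm_sq_eq, Fin.sum_univ_three]
      rw [qf, lz3] at h2
      have h1' : v (Sum.inr true) = 1 := h1
      simp only [sI, h1'] at h2
      linarith
    · exact h1.symm

theorem one (M : Matrix (Ix 3) (Ix 3) ℝ) (hM : M.PosSemidef) (h0 : 0 < M sI sI)
    (ht : trJ M = M sI sI) (j : Ix 3) (ξ : Ix 3 → ℝ) (h : ∀ a, M a = M a j • ξ) :
    ξ sI ≠ 0 ∧ lift (sel1 ξ) = (ξ sI)⁻¹ • ξ := by
  have hs : ∀ a b, M a b = M b a := fun a b => by simpa using hM.1.apply b a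
  have he : ∀ a b, M a b = M a j * ξ b := fun a b => by
    have := congrFun (h a) b
    simpa using this
  have hx : ξ sI ≠ 0 := by
    intro hz
    rw [he, hz, mul_zero] at h0
    exact lt_irrefl _ h0
  refine ⟨hx, ?_⟩
  obtain ⟨μ, hμ⟩ : ∃ μ, μ = M sI j / ξ sI := ⟨_, rfl⟩
  have hm : ∀ a b, M a b = μ * ξ a * ξ b := fun a b => by
    have e : M a j * ξ sI = M sI j * ξ a := by rw [← he, ← he, hs]
    have e' : M a j = μ * ξ a := by
      rw [hμ]
      field_simp
      exact e
    rw [he, e']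
  have hμ0 : μ ≠ 0 := by
    intro hz
    rw [hm, hz] at h0
    simp at h0
  have hq : qf ξ ξ = 0 := by
    rw [trJ3] at ht
    simp only [hm] at ht
    apply mul_left_cancel₀ hμ0
    rw [qf, lz3]
    linarith
  have hv : lift (WithLp.toLp 2 fun i => ((ξ sI)⁻¹ • ξ) (Sum.inl i) : E3) = (ξ sI)⁻¹ • ξ := by
    apply lift_of
    · simp [hx]
    · have : qf ((ξ sI)⁻¹ • ξ) ((ξ sI)⁻¹ • ξ) = (ξ sI)⁻¹ ^ 2 * qf ξ ξ := by
        simp only [qf, lz3, Pi.smul_apply, smul_eq_mul]
        ring
      rw [this, hq, mul_zero]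
  rw [← hv]
  unfold sel1
  congr 2
  funext i
  simp only [Pi.smul_apply, smul_eq_mul]
  rw [div_eq_inv_mul]

theorem minor (M : Matrix (Ix 3) (Ix 3) ℝ) (hM : M.PosSemidef) (a b : Ix 3) (s t : ℝ) :
    0 ≤ s * s * M a a + s * t * M a b + t * s * M b a + t * t * M b b := by
  have := hM.dotProduct_mulVec_nonneg (s • Pi.single a 1 + t • Pi.single b 1)
  simp only [star_trivial, mulVec_add, mulVec_smul, add_dotProduct, dotProduct_add,
    smul_dotProduct, dotProduct_smul, single_dotProduct, mulVec_single_one, smul_eq_mul,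
    one_mul, Matrix.col_apply] at this
  linarith

theorem two (M : Matrix (Ix 3) (Ix 3) ℝ) (hM : M.PosSemidef) (h0 : 0 < M sI sI)
    (ht : trJ M = M sI sI) (j l : Ix 3) (ξ ξ' : Ix 3 → ℝ)
    (h : ∀ a, M a = M a j • ξ + M a l • ξ') (hd : ∃ i, del ξ ξ' (Sum.inl i) ≠ 0) :
    ξ sI ^ 2 + ξ' sI ^ 2 ≠ 0 ∧ 0 < qf (del ξ ξ') (del ξ ξ') ∧ 0 ≤ disc ξ ξ' ∧
      lift (sel2 ξ ξ') = bas ξ ξ' + root ξ ξ' • del ξ ξ' := by
  have hs : ∀ a b, M a b = M b a := fun a b => by simpa using hM.1.apply b a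
  have he : ∀ a b, M a b = M a j * ξ b + M a l * ξ' b := fun a b => by
    have := congrFun (h a) b
    simpa using this
  have hN : ξ sI ^ 2 + ξ' sI ^ 2 ≠ 0 := by
    intro hz
    have h1 : ξ sI = 0 := by nlinarith [sq_nonneg (ξ sI), sq_nonneg (ξ' sI)]
    have h2 : ξ' sI = 0 := by nlinarith [sq_nonneg (ξ sI), sq_nonneg (ξ' sI)]
    rw [he, h1, h2] at h0
    simp at h0
  obtain ⟨i, hi⟩ := hd
  have hD : del ξ ξ' sI = 0 := by
    simp only [del, Pi.sub_apply, Pi.smul_apply, smul_eq_mul]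
    ring
  have hB : bas ξ ξ' sI = 1 := by
    simp only [bas, Pi.add_apply, Pi.smul_apply, smul_eq_mul]
    field_simp
  obtain ⟨q, hq⟩ : ∃ q : Ix 3 → ℝ, ∀ a b, M a b = M a sI * bas ξ ξ' b + q a * del ξ ξ' b := by
    refine ⟨fun a => (M a j * ξ' sI - M a l * ξ sI) / (ξ sI ^ 2 + ξ' sI ^ 2), fun a b => ?_⟩
    rw [he a b, he a sI]
    simp only [bas, del, Pi.add_apply, Pi.sub_apply, Pi.smul_apply, smul_eq_mul]
    field_simp
    ring
  unfold sel2 root disc
  generalize bas ξ ξ' = B at *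
  generalize del ξ ξ' = D at *
  obtain ⟨al, hal⟩ : ∃ al, al = M sI sI := ⟨_, rfl⟩
  obtain ⟨be, hbe⟩ : ∃ be, be = q sI := ⟨_, rfl⟩
  have hp : ∀ a, M a sI = al * B a + be * D a := fun a => by rw [hs, hq sI a, hal, hbe]
  obtain ⟨ga, hga⟩ : ∃ ga, ∀ a, q a = be * B a + ga * D a := by
    refine ⟨(q (Sum.inl i) - be * B (Sum.inl i)) / D (Sum.inl i), fun a => ?_⟩
    have e := hs a (Sum.inl i)
    rw [hq a, hq (Sum.inl i), hp, hp] at e
    field_simp
    linarith
  have hm : ∀ a b, M a b = (al * B a + be * D a) * B b + (be * B a + ga * D a) * D b :=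
    fun a b => by rw [hq a b, hp, hga]
  rw [← hal] at h0 ht
  have hD' : D (Sum.inr true) = 0 := hD
  have hB' : B (Sum.inr true) = 1 := hB
  have ha : 0 < qf D D := by
    have h3 : 0 < ∑ k : Fin 3, D (Sum.inl k) ^ 2 :=
      Finset.sum_pos' (fun k _ => sq_nonneg _) ⟨i, Finset.mem_univ _, by positivity⟩
    rw [Fin.sum_univ_three] at h3
    rw [qf, lz3]
    simp only [sI, hD']
    nlinarith
  have hdet : 0 ≤ al * ga - be ^ 2 := by
    have e := minor M hM sI (Sum.inl i) (-be * D (Sum.inl i) - al * B (Sum.inl i)) al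
    simp only [hm, hD, hB] at e
    have e2 : 0 ≤ (al * D (Sum.inl i) ^ 2) * (al * ga - be ^ 2) := by nlinarith
    exact (mul_nonneg_iff_of_pos_left (by positivity)).1 e2
  have hrel : al * qf B B + 2 * be * qf B D + ga * qf D D = 0 := by
    rw [trJ3] at ht
    simp only [hm, hD', hB'] at ht
    simp only [qf, lz3, sI, hD', hB']
    linarith
  have hdisc : 0 ≤ qf B D ^ 2 - qf D D * qf B B := by
    have e : al ^ 2 * (qf B D ^ 2 - qf D D * qf B B) =
        (al * qf B D + be * qf D D) ^ 2 + qf D D ^ 2 * (al * ga - be ^ 2) := by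
      linear_combination (-al * qf D D) * hrel
    have e2 : 0 ≤ al ^ 2 * (qf B D ^ 2 - qf D D * qf B B) := by
      rw [e]
      positivity
    exact (mul_nonneg_iff_of_pos_left (by positivity)).1 e2
  refine ⟨hN, ha, hdisc, ?_⟩
  obtain ⟨r, hr⟩ : ∃ r, r = (-qf B D + √(qf B D ^ 2 - qf D D * qf B B)) / qf D D := ⟨_, rfl⟩
  rw [← hr]
  apply lift_of
  · simp [hD, hB]
  · have e : qf (B + r • D) (B + r • D) = qf B B + 2 * r * qf B D + r ^ 2 * qf D D := by
      simp only [qf, lz3, Pi.add_apply, Pi.smul_apply, smul_eq_mul]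
      ring
    have e1 : r * qf D D = -qf B D + √(qf B D ^ 2 - qf D D * qf B B) := by
      rw [hr]
      field_simp
    have e2 := Real.sq_sqrt hdisc
    rw [e]
    apply mul_left_cancel₀ ha.ne'
    generalize √(qf B D ^ 2 - qf D D * qf B B) = w at *
    linear_combination (r * qf D D + qf B D + w) * e1 + e2

theorem card_le (J : Finset (Ix 3)) (A : Ix 3 → Ix 3 → ℝ) (hJ : 3 ≤ J.card)
    (hA : ∀ j, ∀ a ∈ J, A j a = if a = j then 1 else 0) {ι : Type} [Fintype ι]
    (w : ι → Ix 3 → ℝ) (hw : LinearIndependent ℝ w) (ho : ∀ j k, lz (A j) (w k) = 0) :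
    Fintype.card ι ≤ 2 := by
  let φ : (Ix 3 → ℝ) →ₗ[ℝ] (J → ℝ) :=
    { toFun := fun v j => lz (A j) v
      map_add' := fun u v => by
        funext j
        simp only [lz3, Pi.add_apply]
        ring
      map_smul' := fun c v => by
        funext j
        simp only [lz3, Pi.smul_apply, smul_eq_mul, RingHom.id_apply]
        ring }
  have hsurj : LinearMap.range φ = ⊤ := by
    rw [LinearMap.range_eq_top]
    intro t
    let u : Ix 3 → ℝ := fun a => if h : a ∈ J then t ⟨a, h⟩ else 0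
    let v : Ix 3 → ℝ := fun a => Sum.rec (fun i => u (Sum.inl i) / 2) (fun b => u (Sum.inr !b)) a
    have hv : Jv v = u := by
      funext a
      rcases a with i | b
      · simp only [Jv, v]
        ring
      · simp [Jv, v]
    refine ⟨v, funext fun j => ?_⟩
    change lz (A j) v = t j
    rw [lz, hv, dotProduct, Finset.sum_eq_single (j : Ix 3)]
    · simp [hA j j j.2, u]
    · intro b _ hb
      by_cases hbJ : b ∈ J
      · simp [hA j b hbJ, hb]
      · simp [u, hbJ]
    · simp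
  have hdim := LinearMap.finrank_range_add_finrank_ker φ
  rw [hsurj, finrank_top] at hdim
  simp only [Module.finrank_fintype_fun_eq_card, Fintype.card_coe, Fintype.card_sum,
    Fintype.card_fin, Fintype.card_bool] at hdim
  let w' : ι → LinearMap.ker φ := fun k => ⟨w k, funext fun j => ho j k⟩
  have hw' : LinearIndependent ℝ w' := LinearIndependent.of_comp (LinearMap.ker φ).subtype hw
  have := hw'.fintype_card_le_finrank
  omega

end SelA

theorem sSelA : SSelA := fun M hM h0 ht =>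
  ⟨SelA.one M hM h0 ht, SelA.two M hM h0 ht⟩

theorem sSelL : SSelL := by
  intro J A hJ hA
  refine ⟨fun J' A' hA' ho => ?_, fun u u' v huu h1 h2 h3 => ?_⟩
  · have := SelA.card_le J A hJ hA (fun k : J' => A' k) ?_ fun j k => ho j k
    · simpa using this
    rw [Fintype.linearIndependent_iff]
    intro g hg k
    have e := congrFun hg k
    rw [Finset.sum_apply, Finset.sum_eq_single k] at e
    · simpa [hA' k k k.2] using e
    · intro b _ hb
      have : (k : Ix 3) ≠ b := fun h => hb (Subtype.ext h.symm)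
      simp [hA' b k k.2, this]
    · simp
  · by_contra hcon
    rw [not_or] at hcon
    have := SelA.card_le J A hJ hA ![lift u, lift u', lift v] ?_ (fun j k => by
      fin_cases k
      · exact h1 j
      · exact h2 j
      · exact h3 j)
    · simp at this
    rw [Fintype.linearIndependent_iff]
    intro g hg
    rw [Fin.sum_univ_three] at hg
    simp only [cons_val_zero, cons_val_one, cons_val_two, Nat.succ_eq_add_one, Nat.reduceAdd,
      tail_cons, head_cons] at hg
    have key : ∀ z : E3, g 0 * ‖u - z‖ ^ 2 + g 1 * ‖u' - z‖ ^ 2 + g 2 * ‖v - z‖ ^ 2 = 0 := by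
      intro z
      have e0 := congrFun hg sI
      have e1 : lz (g 0 • lift u + g 1 • lift u' + g 2 • lift v) (lift z) =
          g 0 * lz (lift u) (lift z) + g 1 * lz (lift u') (lift z) + g 2 * lz (lift v) (lift z) := by
        simp only [SelA.lz3, Pi.add_apply, Pi.smul_apply, smul_eq_mul]
        ring
      rw [hg, lz_lift, lz_lift, lz_lift] at e1
      simp only [lz, zero_dotProduct] at e1
      simp only [lift, Pi.add_apply, Pi.smul_apply, smul_eq_mul, Pi.zero_apply] at e0
      linarith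
    have k1 := key u
    have k2 := key u'
    have k3 := key v
    rw [norm_sub_rev u' u, norm_sub_rev v u] at k1
    rw [norm_sub_rev v u'] at k2
    simp only [sub_self, norm_zero, ne_eq, OfNat.ofNat_ne_zero, not_false_eq_true, zero_pow,
      mul_zero, zero_add, add_zero] at k1 k2 k3
    have p1 : 0 < ‖u - u'‖ ^ 2 := pow_pos (norm_pos_iff.2 (sub_ne_zero.2 huu)) 2
    have p2 : 0 < ‖u - v‖ ^ 2 := pow_pos (norm_pos_iff.2 (sub_ne_zero.2 (Ne.symm hcon.1))) 2
    have p3 : 0 < ‖u' - v‖ ^ 2 := pow_pos (norm_pos_iff.2 (sub_ne_zero.2 (Ne.symm hcon.2))) 2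
    generalize ‖u - u'‖ ^ 2 = a at *
    generalize ‖u - v‖ ^ 2 = b at *
    generalize ‖u' - v‖ ^ 2 = c at *
    have g2 : g 2 = 0 := by
      have e : g 2 * (2 * b * c) = 0 := by linear_combination c * k1 + b * k2 - a * k3
      exact (mul_eq_zero.1 e).resolve_right (by positivity)
    have g1 : g 1 = 0 := by
      have e : g 1 * a = 0 := by linear_combination k1 - b * g2
      exact (mul_eq_zero.1 e).resolve_right p1.ne'
    have g0 : g 0 = 0 := by
      have e : g 0 * a = 0 := by linear_combination k2 - c * g2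
      exact (mul_eq_zero.1 e).resolve_right p1.ne'
    intro k
    fin_cases k
    · exact g0
    · exact g1
    · exact g2

end Pool.Agent.MP_66cee2_co.P
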