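import Pool.Agent.MP_66cee2_co.X.BasicJ

/-
Maps of the plane into three dimensional space: definitions and statements.
-/

namespace Pool.Agent.MP_66cee2_co.P

open MeasureTheory Set Filter Metric Topology Matrix Pool.Agent.MP_66cee2_co.X
open scoped ENNReal RealInnerProductSpace

/-- the plane. -/
abbrev E2 : Type := E 2

/-- the space. -/
abbrev E3 : Type := E 3

/-- the quarter turn. -/
noncomputable def Jr (n : E2) : E2 := !₂[-n 1, n 0]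

/-- the rotation by sixty degrees. -/
noncomputable def Rot (n : E2) : E2 := (1 / 2 : ℝ) • n + (√3 / 2 : ℝ) • Jr n

/-- the determinant of two vectors. -/
def det2 (a b : E2) : ℝ := a 0 * b 1 - a 1 * b 0

/-- the points whose unit circle meets `Z` in positive measure. -/
def Nb (Z : Set E2) : Set E2 := {y | sig 2 {n | y + n ∈ Z} ≠ 0}

/-- measurable maps that preserve almost every unit distance. -/
structure UP (f : E2 → E3) : Prop where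
  meas : Measurable f
  unit : AePair fun x y => ‖f x - f y‖ = 1

/-- the union of the level sets of positive area. -/
def Lev (f : E2 → E3) : Set E2 := {x | volume {y | f y = f x} ≠ 0}

/-- two values on the unit circle. -/
def Two (f : E2 → E3) (x : E2) : Prop :=
  ∃ q q' : E3, ∀ᵐ n ∂sig 2, (f (x + n) = q ∨ f (x + n) = q') ∧ ‖f (x + n) - f (x + Rot n)‖ = 1

/-- isometric on the unit circle. -/
def IsoAt (f : E2 → E3) (x : E2) : Prop :=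
  ∃ L : E2 →ₗᵢ[ℝ] E3, ∀ᵐ n ∂sig 2, f (x + n) = f x + L n

/-- flat at a point. -/
def FlatAt (f : E2 → E3) (x : E2) : Prop :=
  ∀ K : ℕ, ∃ C : ℝ, Small fun τ => {η | C * τ ^ K < ‖f (x + η) - f x‖}

/-- the jet of a map at a point. -/
def JetV (f : E2 → E3) (x : E2) (φ : Fin 3 → MvPowerSeries (Fin 2) ℝ) : Prop :=
  ∀ a, Jet (fun η : E2 => f (x + η) a) (φ a) ∧ MvPowerSeries.constantCoeff (φ a) = f x a

/-! ### Measure theory in the plane -/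

/-- the Jacobian of the sum of two unit vectors. -/
def SJac : Prop :=
  ∃ C : ℝ≥0∞, C ≠ ⊤ ∧ ∀ N : Set E2, MeasurableSet N →
    ∫⁻ z : E2 × E2, N.indicator 1 (z.1 + z.2) * ENNReal.ofReal |det2 z.1 z.2|
      ∂(sig 2).prod (sig 2) ≤ C * volume N

/-- the measure of short arcs. -/
def SCap : Prop :=
  ∃ c : ℝ, 0 < c ∧ ∀ (a : E2) (r : ℝ), ‖a‖ = 1 → 0 < r → r ≤ 1 →
    ENNReal.ofReal (c * r) ≤ sig 2 (ball a r)

/-- elementary facts. -/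
structure SKit : Prop where
  rot_unit : ∀ n : E2, ‖n‖ = 1 → ‖Rot n‖ = 1 ∧ ‖Rot n - n‖ = 1
  rot3 : ∀ n : E2, Rot (Rot (Rot n)) = -n
  rot_ae : ∀ p : E2 → Prop, (∀ᵐ n ∂sig 2, p n) → ∀ᵐ n ∂sig 2, p (Rot n)
  neg_ae : ∀ p : E2 → Prop, (∀ᵐ n ∂sig 2, p n) → ∀ᵐ n ∂sig 2, p (-n)
  neg_map : (sig 2).map (fun n => -n) = sig 2
  hex : ∀ p : E2 → E2 → Prop, MeasurableSet {z : E2 × E2 | p z.1 z.2} → AePair p →
    ∀ᵐ x : E2, ∀ᵐ n ∂sig 2, p (x + n) (x + Rot n)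
  nb_meas : ∀ Z : Set E2, MeasurableSet Z → MeasurableSet (Nb Z)
  nb_null : ∀ Z : Set E2, volume Z = 0 → volume (Nb Z) = 0
  nb_pos : ∀ Z : Set E2, MeasurableSet Z → volume Z ≠ 0 → volume (Nb Z) ≠ 0
  nb_swap : ∀ A B : Set E2, MeasurableSet A → MeasurableSet B → volume (A ∩ Nb B) = 0 →
    volume (B ∩ Nb A) = 0
  nb_back : ∀ A : Set E2, MeasurableSet A → ∀ᵐ x : E2, x ∈ A → ∀ᵐ n ∂sig 2, x + n ∈ Nb A
  two_null : ∀ (p : E2 → Prop) (y : E2), (∀ᵐ x : E2, p x) →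
    ∀ᵐ n ∂sig 2, ∀ᵐ n' ∂sig 2, p (y + n + n')
  all : ∀ f : E2 → E3, UP f → AllPair fun x y => ‖f x - f y‖ = 1
  lev_meas : ∀ f : E2 → E3, Measurable f → MeasurableSet (Lev f) ∧ (f '' Lev f).Countable
  lev_dens : ∀ f : E2 → E3, Measurable f →
    ∀ᵐ x : E2, x ∈ Lev f → Small fun _ => {η | f (x + η) ≠ f x}
  two_meas : ∀ f : E2 → E3, Measurable f → MeasurableSet {x | Two f x}

/-- the neighbours of a set of points with two values lie in level sets of positive area. -/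
def STV1 : Prop :=
  ∀ (f : E2 → E3) (U : Set E2), Measurable f → MeasurableSet U → (∀ᵐ x, x ∈ U → Two f x) →
    ∀ᵐ y, y ∈ Nb U → y ∈ Lev f

/-- the change of the map on an independent set of points with two values. -/
def STV2 : Prop :=
  ∀ (f : E2 → E3) (U : Set E2), Measurable f → MeasurableSet U → volume (U ∩ Nb U) = 0 →
    (∀ᵐ x, x ∈ U → Two f x) → (AePair fun x y => x ∉ U → y ∉ U → ‖f x - f y‖ = 1) →
    ∃ g : E2 → E3, UP g ∧ (∀ x, x ∉ U → g x = f x) ∧ ∀ᵐ x, x ∈ U → x ∈ Lev g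

/-! ### The selection -/

/-- the form whose null vectors are the multiples of lifts. -/
def qf (a b : Ix 3 → ℝ) : ℝ := lz a b - a sI * b sI

/-- the point on a line. -/
noncomputable def sel1 (ξ : Ix 3 → ℝ) : E3 := WithLp.toLp 2 fun i => ξ (Sum.inl i) / ξ sI

/-- the direction in a plane. -/
def del (ξ ξ' : Ix 3 → ℝ) : Ix 3 → ℝ := ξ' sI • ξ - ξ sI • ξ'

/-- the base point in a plane. -/
noncomputable def bas (ξ ξ' : Ix 3 → ℝ) : Ix 3 → ℝ :=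
  (ξ sI ^ 2 + ξ' sI ^ 2)⁻¹ • (ξ sI • ξ + ξ' sI • ξ')

/-- the discriminant. -/
noncomputable def disc (ξ ξ' : Ix 3 → ℝ) : ℝ :=
  qf (bas ξ ξ') (del ξ ξ') ^ 2 - qf (del ξ ξ') (del ξ ξ') * qf (bas ξ ξ') (bas ξ ξ')

/-- the root. -/
noncomputable def root (ξ ξ' : Ix 3 → ℝ) : ℝ :=
  (-qf (bas ξ ξ') (del ξ ξ') + √(disc ξ ξ')) / qf (del ξ ξ') (del ξ ξ')

/-- the point in a plane. -/
noncomputable def sel2 (ξ ξ' : Ix 3 → ℝ) : E3 :=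
  WithLp.toLp 2 fun i => (bas ξ ξ' + root ξ ξ' • del ξ ξ') (Sum.inl i)

/-- the algebra of the selection. -/
def SSelA : Prop :=
  ∀ M : Matrix (Ix 3) (Ix 3) ℝ, M.PosSemidef → 0 < M sI sI → trJ M = M sI sI →
    (∀ (j : Ix 3) (ξ : Ix 3 → ℝ), (∀ a, M a = M a j • ξ) →
      ξ sI ≠ 0 ∧ lift (sel1 ξ) = (ξ sI)⁻¹ • ξ) ∧
    ∀ (j l : Ix 3) (ξ ξ' : Ix 3 → ℝ), (∀ a, M a = M a j • ξ + M a l • ξ') →
      (∃ i, del ξ ξ' (Sum.inl i) ≠ 0) →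
      ξ sI ^ 2 + ξ' sI ^ 2 ≠ 0 ∧ 0 < qf (del ξ ξ') (del ξ ξ') ∧ 0 ≤ disc ξ ξ' ∧
        lift (sel2 ξ ξ') = bas ξ ξ' + root ξ ξ' • del ξ ξ'

/-- expansions of every order and approximate continuity at the origin. -/
def Reg (h : E2 → ℝ) : Prop := (∀ k : ℕ, HasTay h k) ∧ ApC h (h 0)

/-- calculus of regular functions. -/
structure SReg : Prop where
  const : ∀ c : ℝ, Reg fun _ => c
  add : ∀ g h, Reg g → Reg h → Reg fun η => g η + h η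
  mul : ∀ g h, Reg g → Reg h → Reg fun η => g η * h η
  comp : ∀ (u : ℝ → ℝ) (h : E2 → ℝ), AnalyticAt ℝ u (h 0) → Reg h → Reg fun η => u (h η)
  congr : ∀ g h, Reg g → (Small fun _ => {η | g η ≠ h η}) → g 0 = h 0 → Reg h
  jet : ∀ (f : E2 → E3) (x : E2), (∀ a, Reg fun η => f (x + η) a) → ∃ φ, JetV f x φ

/-- the two selections are measurable and regular. -/
def SSelJ : Prop :=
  (∀ ξ : E2 → Ix 3 → ℝ, (∀ a, Measurable fun x => ξ x a) →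
    (Measurable fun x => sel1 (ξ x)) ∧
    ((∀ᵐ x : E2, ∀ a, Reg fun η => ξ (x + η) a) →
      ∀ᵐ x : E2, ξ x sI ≠ 0 → ∀ i, Reg fun η => sel1 (ξ (x + η)) i)) ∧
  ∀ ξ ξ' : E2 → Ix 3 → ℝ, (∀ a, Measurable fun x => ξ x a) → (∀ a, Measurable fun x => ξ' x a) →
    (Measurable fun x => sel2 (ξ x) (ξ' x)) ∧
    ((∀ᵐ x : E2, ∀ a, Reg fun η => ξ (x + η) a) → (∀ᵐ x : E2, ∀ a, Reg fun η => ξ' (x + η) a) →
      ∀ᵐ x : E2, ξ x sI ^ 2 + ξ' x sI ^ 2 ≠ 0 → 0 < qf (del (ξ x) (ξ' x)) (del (ξ x) (ξ' x)) →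
        0 ≤ disc (ξ x) (ξ' x) → ∀ i, Reg fun η => sel2 (ξ (x + η)) (ξ' (x + η)) i)

/-- linear algebra at the points where the subspace has dimension at least three. -/
def SSelL : Prop :=
  ∀ (J : Finset (Ix 3)) (A : Ix 3 → Ix 3 → ℝ), 3 ≤ J.card →
    (∀ j, ∀ a ∈ J, A j a = if a = j then 1 else 0) →
    (∀ (J' : Finset (Ix 3)) (A' : Ix 3 → Ix 3 → ℝ),
      (∀ j, ∀ a ∈ J', A' j a = if a = j then 1 else 0) → (∀ j k, lz (A j) (A' k) = 0) →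
      J'.card ≤ 2) ∧
    ∀ u u' v : E3, u ≠ u' → (∀ j, lz (A j) (lift u) = 0) → (∀ j, lz (A j) (lift u') = 0) →
      (∀ j, lz (A j) (lift v) = 0) → v = u ∨ v = u'

/-- the rows of the closure are regular. -/
def SRowR : Prop :=
  ∀ P : E2 → Matrix (Ix 3) (Ix 3) ℝ, Field P → ∃ JA JB A B, Gal P JA JB A B ∧
    ∀ j, ∀ᵐ x : E2, ∀ a, Reg fun η => A (x + η) j a

/-- the selection off an independent set. -/
def SSel0 : Prop :=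
  ∀ P : E2 → Matrix (Ix 3) (Ix 3) ℝ, Field P → ∃ (f : E2 → E3) (U : Set E2), Measurable f ∧
    MeasurableSet U ∧ volume (U ∩ Nb U) = 0 ∧ (∀ᵐ x, x ∈ U → Two f x) ∧
    (AePair fun x y => x ∉ U → y ∉ U → ‖f x - f y‖ = 1) ∧
    (∀ᵐ x : E2, x ∉ U → ∀ a, Reg fun η => f (x + η) a) ∧
    AePair fun x y => y ∉ U → ∀ a, lz (P x a) (lift (f y)) = 0

/-- the selection. -/
def SSel : Prop :=
  ∀ P : E2 → Matrix (Ix 3) (Ix 3) ℝ, Field P → ∃ f : E2 → E3, UP f ∧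
    (∀ᵐ x, ∃ φ, JetV f x φ) ∧ AePair fun x y => y ∉ Lev f → ∀ a, lz (P x a) (lift (f y)) = 0

/-! ### Jets -/

/-- the vector of the coefficients of `η₀ ^ i η₁ ^ j`. -/
noncomputable def cv (φ : Fin 3 → MvPowerSeries (Fin 2) ℝ) (i j : ℕ) : Fin 3 → ℝ :=
  fun a => MvPowerSeries.coeff (Finsupp.single 0 i + Finsupp.single 1 j) (φ a)

/-- the coefficients of a partial derivative. -/
def dcv (c : ℕ → ℕ → Fin 3 → ℝ) (e : Fin 2) (i j : ℕ) : Fin 3 → ℝ :=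
  if e = 0 then ((i : ℝ) + 1) • c (i + 1) j else ((j : ℝ) + 1) • c i (j + 1)

/-- the linear part. -/
def Lm (c : ℕ → ℕ → Fin 3 → ℝ) (v : E2) : Fin 3 → ℝ := v 0 • c 1 0 + v 1 • c 0 1

/-- the quadratic part as a symmetric bilinear map. -/
noncomputable def Qm (c : ℕ → ℕ → Fin 3 → ℝ) (v w : E2) : Fin 3 → ℝ :=
  (v 0 * w 0) • c 2 0 + ((v 0 * w 1 + v 1 * w 0) / 2) • c 1 1 + (v 1 * w 1) • c 0 2

/-- the cubic part. -/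
def Cm (c : ℕ → ℕ → Fin 3 → ℝ) (v : E2) : Fin 3 → ℝ :=
  v 0 ^ 3 • c 3 0 + (v 0 ^ 2 * v 1) • c 2 1 + (v 0 * v 1 ^ 2) • c 1 2 + v 1 ^ 3 • c 0 3

/-- the circle with centre `n` through the origin goes to the unit sphere with centre `ν`,
to third order. -/
structure Eqs (c : ℕ → ℕ → Fin 3 → ℝ) (n : E2) (ν : Fin 3 → ℝ) : Prop where
  e1 : ν ⬝ᵥ Lm c (Jr n) = 0
  e2 : ν ⬝ᵥ Lm c n + 2 * ν ⬝ᵥ Qm c (Jr n) (Jr n) = Lm c (Jr n) ⬝ᵥ Lm c (Jr n)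
  e3 : ν ⬝ᵥ (Qm c (Jr n) n + Cm c (Jr n)) =
    Lm c (Jr n) ⬝ᵥ ((1 / 2 : ℝ) • Lm c n + Qm c (Jr n) (Jr n))

/-- every unit pair of points with jets satisfies the equations. -/
def SPairE : Prop :=
  ∀ f : E2 → E3, (AllPair fun x y => ‖f x - f y‖ = 1) → ∀ (x n : E2) φ ψ, ‖n‖ = 1 →
    JetV f x φ → JetV f (x + n) ψ → Eqs (cv φ) n fun a => f (x + n) a - f x a

/-- first order compatibility of the jets along an arbitrary set. -/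
def SFW : Prop :=
  ∀ (f : E2 → E3) (φ : E2 → Fin 3 → MvPowerSeries (Fin 2) ℝ) (S : Set E2),
    (∀ x ∈ S, JetV f x (φ x)) → ∀ᵐ x, x ∈ S → ∀ (D : ℕ) (e : Fin 2),
      ∃ (y : ℕ → E2) (t : ℕ → ℝ), (∀ l, y l ∈ S ∧ t l ≠ 0) ∧ Tendsto t atTop (𝓝 0) ∧
        ∀ i j, i + j ≤ D → Tendsto (fun l => (t l)⁻¹ • (cv (φ (y l)) i j - cv (φ x) i j)) atTop
          (𝓝 (dcv (cv (φ x)) e i j))

/-- the data on the unit circle. -/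
structure Hex (c : ℕ → ℕ → Fin 3 → ℝ) (Θ : Set E2) (ν : E2 → Fin 3 → ℝ) : Prop where
  inf : Θ.Infinite
  unit : ∀ n ∈ Θ, ‖n‖ = 1
  rot : ∀ n ∈ Θ, Rot n ∈ Θ
  eqs : ∀ n ∈ Θ, Eqs c n (ν n)
  nrm : ∀ n ∈ Θ, ν n ⬝ᵥ ν n = 1
  hex : ∀ n ∈ Θ, ν n ⬝ᵥ ν (Rot n) = 1 / 2

/-- conformal, with a quadratic part that is normal and umbilic. -/
def TL (c : ℕ → ℕ → Fin 3 → ℝ) : Prop :=
  c 1 0 ⬝ᵥ c 1 0 = c 0 1 ⬝ᵥ c 0 1 ∧ c 1 0 ⬝ᵥ c 0 1 = 0 ∧ c 1 1 = 0 ∧ c 2 0 = c 0 2 ∧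
    c 2 0 ⬝ᵥ c 1 0 = 0 ∧ c 2 0 ⬝ᵥ c 0 1 = 0

/-- the isometric case. -/
def IsoC (c : ℕ → ℕ → Fin 3 → ℝ) (Θ : Set E2) (ν : E2 → Fin 3 → ℝ) : Prop :=
  c 1 0 ⬝ᵥ c 1 0 = 1 ∧ c 0 1 ⬝ᵥ c 0 1 = 1 ∧ c 1 0 ⬝ᵥ c 0 1 = 0 ∧ {n ∈ Θ | ν n ≠ Lm c n}.Finite

/-- a vanishing first derivative gives flatness. -/
def SFW0 : Prop :=
  ∀ (f : E2 → E3) (φ : E2 → Fin 3 → MvPowerSeries (Fin 2) ℝ) (S : Set E2),
    (∀ x ∈ S, JetV f x (φ x)) →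
    ∀ᵐ x, x ∈ S → cv (φ x) 1 0 = 0 → cv (φ x) 0 1 = 0 → FlatAt f x

/-- derivatives of two systems of equations. -/
def SFW1 : Prop :=
  ∀ (f : E2 → E3) (φ : E2 → Fin 3 → MvPowerSeries (Fin 2) ℝ) (S : Set E2),
    (∀ x ∈ S, JetV f x (φ x)) → ∀ᵐ x, x ∈ S →
    (crossProduct (cv (φ x) 1 0) (cv (φ x) 0 1) = 0 →
      crossProduct ((2 : ℝ) • cv (φ x) 2 0) (cv (φ x) 0 1) +
        crossProduct (cv (φ x) 1 0) (cv (φ x) 1 1) = 0 ∧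
      crossProduct (cv (φ x) 1 1) (cv (φ x) 0 1) +
        crossProduct (cv (φ x) 1 0) ((2 : ℝ) • cv (φ x) 0 2) = 0) ∧
    (TL (cv (φ x)) → cv (φ x) 2 0 = 0)

/-- rank one. -/
def SRk1 : Prop :=
  ∀ c Θ ν, Hex c Θ ν → crossProduct (c 1 0) (c 0 1) = 0 → ¬ (c 1 0 = 0 ∧ c 0 1 = 0) →
    crossProduct ((2 : ℝ) • c 2 0) (c 0 1) + crossProduct (c 1 0) (c 1 1) = 0 →
    crossProduct (c 1 1) (c 0 1) + crossProduct (c 1 0) ((2 : ℝ) • c 0 2) = 0 →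
    ∃ q q' : Fin 3 → ℝ, {n ∈ Θ | ν n ≠ q ∧ ν n ≠ q'}.Finite

/-- rank two. -/
def SAlg : Prop :=
  ∀ c Θ ν, Hex c Θ ν → crossProduct (c 1 0) (c 0 1) ≠ 0 →
    (IsoC c Θ ν ∨ TL c) ∧ (TL c → c 2 0 = 0 → IsoC c Θ ν)

/-- the jet in the coordinates `z`, `w = conj z`. -/
structure CJ where
  (A B A2 B1 C0 A3 B2 C1 D0 : Fin 3 → ℂ)

/-- first coefficient along the circle. -/
def CJ.p1 (K : CJ) (τ : ℂ) : Fin 3 → ℂ := K.A - τ ^ 2 • K.B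

/-- second coefficient along the circle. -/
def CJ.p2 (K : CJ) (τ : ℂ) : Fin 3 → ℂ := K.A2 - τ ^ 2 • K.B1 + τ ^ 4 • K.C0 - τ ^ 3 • K.B

/-- third coefficient along the circle. -/
def CJ.p3 (K : CJ) (τ : ℂ) : Fin 3 → ℂ :=
  K.A3 - τ ^ 2 • K.B2 + τ ^ 4 • K.C1 - τ ^ 6 • K.D0 - τ ^ 4 • K.B - τ ^ 3 • K.B1 +
    (2 * τ ^ 5) • K.C0

/-- a primitive sixth root of unity. -/
noncomputable def ze : ℂ := 1 / 2 + (√3 / 2 : ℝ) * Complex.I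

/-- the data on the unit circle in complex form. -/
structure CHex (K : CJ) (Θ : Set ℂ) (ν : ℂ → Fin 3 → ℂ) : Prop where
  hB : K.B = star K.A
  hC : K.C0 = star K.A2
  hB1 : star K.B1 = K.B1
  rk : (K.A ⬝ᵥ K.A) * (K.B ⬝ᵥ K.B) ≠ (K.A ⬝ᵥ K.B) ^ 2
  inf : Θ.Infinite
  unit : ∀ τ ∈ Θ, ‖τ‖ = 1
  rot : ∀ τ ∈ Θ, ze * τ ∈ Θ
  real : ∀ τ ∈ Θ, star (ν τ) = ν τ
  e1 : ∀ τ ∈ Θ, ν τ ⬝ᵥ K.p1 τ = 0
  e2 : ∀ τ ∈ Θ, 2 * ν τ ⬝ᵥ K.p2 τ = K.p1 τ ⬝ᵥ K.p1 τ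
  e3 : ∀ τ ∈ Θ, ν τ ⬝ᵥ K.p3 τ = K.p1 τ ⬝ᵥ K.p2 τ
  nrm : ∀ τ ∈ Θ, ν τ ⬝ᵥ ν τ = 1
  hex : ∀ τ ∈ Θ, ν τ ⬝ᵥ ν (ze * τ) = 1 / 2

/-- a point of the plane as a complex number. -/
noncomputable def toC (n : E2) : ℂ := n 0 + n 1 * Complex.I

/-- a complex number as a point of the plane. -/
noncomputable def ofC (τ : ℂ) : E2 := !₂[τ.re, τ.im]

/-- the jet in complex coordinates. -/
noncomputable def toCJ (c : ℕ → ℕ → Fin 3 → ℝ) : CJ where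
  A a := (c 1 0 a + Complex.I * c 0 1 a) / 2
  B a := (c 1 0 a - Complex.I * c 0 1 a) / 2
  A2 a := (c 2 0 a - c 0 2 a + Complex.I * c 1 1 a) / 4
  B1 a := (c 2 0 a + c 0 2 a) / 2
  C0 a := (c 2 0 a - c 0 2 a - Complex.I * c 1 1 a) / 4
  A3 a := (c 3 0 a + Complex.I * c 2 1 a - c 1 2 a - Complex.I * c 0 3 a) / 8
  B2 a := (3 * c 3 0 a + Complex.I * c 2 1 a + c 1 2 a + 3 * Complex.I * c 0 3 a) / 8
  C1 a := (3 * c 3 0 a - Complex.I * c 2 1 a + c 1 2 a - 3 * Complex.I * c 0 3 a) / 8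
  D0 a := (c 3 0 a - Complex.I * c 2 1 a - c 1 2 a + Complex.I * c 0 3 a) / 8

/-- from real to complex data. -/
def SBridge : Prop :=
  ∀ c Θ ν, Hex c Θ ν → crossProduct (c 1 0) (c 0 1) ≠ 0 →
    CHex (toCJ c) (toC '' Θ) fun τ a => (ν (ofC τ) a : ℂ)

/-- `ν` is a rational function. -/
def RatN (Θ : Set ℂ) (ν : ℂ → Fin 3 → ℂ) : Prop :=
  ∃ (D : Polynomial ℂ) (N : Fin 3 → Polynomial ℂ), D ≠ 0 ∧
    ∀ τ ∈ Θ, ∀ a, D.eval τ * ν τ a = (N a).eval τ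

/-- the dichotomy, and the case of circles that go to circles. -/
def SCaseS : Prop :=
  ∀ K Θ ν, CHex K Θ ν → RatN Θ ν ∨
    (K.A ⬝ᵥ K.A = 0 ∧ K.A ⬝ᵥ K.B1 = 0 ∧ ∃ u : ℂ, K.A2 = u • K.A)

/-- the expansion at the circular point. -/
def SLaur : Prop := ∀ K Θ ν, CHex K Θ ν → RatN Θ ν → K.A ⬝ᵥ K.A = 0

/-- the normal component of a rational `ν` vanishes. -/
def SRfin : Prop :=
  ∀ K Θ ν, CHex K Θ ν → RatN Θ ν → K.A ⬝ᵥ K.A = 0 →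
    {τ ∈ Θ | ν τ ⬝ᵥ crossProduct K.A K.B ≠ 0}.Finite

/-- the tangential part of the quadratic term vanishes. -/
def SU0 : Prop :=
  ∀ K Θ ν, CHex K Θ ν → K.A ⬝ᵥ K.A = 0 → K.A ⬝ᵥ K.B1 = 0 → ∀ u : ℂ, K.A2 = u • K.A → u = 0

/-- the two last steps. -/
def SEndA : Prop :=
  ∀ K Θ ν, CHex K Θ ν → K.A ⬝ᵥ K.A = 0 →
    (K.A2 = 0 → K.B1 = 0 → ∀ τ ∈ Θ, ν τ ⬝ᵥ crossProduct K.A K.B = 0) ∧
    ({τ ∈ Θ | ν τ ⬝ᵥ crossProduct K.A K.B ≠ 0}.Finite →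
      2 * K.A ⬝ᵥ K.B = 1 ∧ {τ ∈ Θ | ν τ ≠ τ • K.B + τ⁻¹ • K.A}.Finite)

/-- the classification of the points. -/
def SCls : Prop :=
  ∀ f : E2 → E3, UP f → (∀ᵐ x, ∃ φ, JetV f x φ) → ∀ᵐ x, FlatAt f x ∨ Two f x ∨ IsoAt f x

/-- the isometry at a point depends measurably on the point. -/
def SIsoM : Prop :=
  ∀ f : E2 → E3, Measurable f → MeasurableSet {x | IsoAt f x} ∧
    ∃ a b : E2 → E3, Measurable a ∧ Measurable b ∧ ∀ x, IsoAt f x →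
      ‖a x‖ = 1 ∧ ‖b x‖ = 1 ∧ ⟪a x, b x⟫ = 0 ∧
        ∀ᵐ n ∂sig 2, f (x + n) = f x + n 0 • a x + n 1 • b x

/-- three isometries that agree on three concurrent lines are equal. -/
def SCoc : Prop :=
  ∀ (L : Fin 3 → E2 →ₗᵢ[ℝ] E3) (n : Fin 3 → E2), (∀ i, ‖n i‖ = 1) →
    (∀ i j, i ≠ j → n i ≠ n j ∧ n i ≠ -n j) →
    (∀ i j, L i (n i + n j) = L j (n i + n j)) → L 0 = L 1

/-- one isometry on a set of positive area. -/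
def SIso : Prop :=
  ∀ f : E2 → E3, Measurable f → (¬ ∀ᵐ x, ¬ IsoAt f x) →
    ∃ (T : E2 →ₗᵢ[ℝ] E3) (c : E3), volume {y | f y = T y + c} ≠ 0

/-- the end of the isometric case. -/
def SPinE : Prop :=
  ∀ (P : E2 → Matrix (Ix 3) (Ix 3) ℝ) (f : E2 → E3), Field P → Measurable f →
    (AePair fun x y => y ∉ Lev f → ∀ a, lz (P x a) (lift (f y)) = 0) →
    ∀ (T : E2 →ₗᵢ[ℝ] E3) (c : E3), volume {y | f y = T y + c} ≠ 0 →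
    ∃ g : E2 → E3, Iso g ∧ ∀ᵐ x, ∀ a b, P x a b = P x sI sI * lift (g x) a * lift (g x) b

/-- reduction to flat maps. -/
def SFlat : Prop :=
  ∀ f : E2 → E3, UP f → (∀ᵐ x, FlatAt f x ∨ Two f x) → ∃ g : E2 → E3, UP g ∧ ∀ᵐ x, FlatAt g x

/-! ### Flat maps -/

/-- the points where the row is not within `t` of its value at `x`. -/
def Far {ι : Type} [Fintype ι] (J : E2 → Finset ι) (ξ : E2 → ι → ℝ) (x : E2) (t : ℝ) : Set E2 :=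
  {η | J (x + η) ≠ J x ∨ t < ‖ξ (x + η) - ξ x‖}

/-- the rows are flat. -/
def SCntF : Prop :=
  ∀ (ι : Type) [Fintype ι] (c : E2 → ι → ℝ) (J : E2 → Finset ι) (ξ : E2 → ι → ℝ),
    Dual (fun x (_ : Unit) => c x) J ξ →
    (∀ᵐ y : E2, ∀ K : ℕ, ∃ C : ℝ, Small fun τ => {η | C * τ ^ K < ‖c (y + η) - c y‖}) →
    ∀ᵐ x : E2, ∀ K : ℕ, ∃ C : ℝ, Small fun τ => Far J ξ x (C * τ ^ K)

/-- the directions far from any given axis still determine the row. -/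
def SArc : Prop :=
  ∀ (ι : Type) [Fintype ι] (c : E2 → ι → ℝ) (J : Finset ι),
    (∀ ζ : ι → ℝ, (∀ᵐ n ∂sig 2, ζ ⬝ᵥ c n = 0) → (∀ a ∈ J, ζ a = 0) → ζ = 0) →
    ∃ β : ℝ, 0 < β ∧ β < 1 ∧ ∀ e : E2, ‖e‖ = 1 → ∀ ζ : ι → ℝ,
      (∀ᵐ n ∂sig 2, |⟪n, e⟫| ≤ β → ζ ⬝ᵥ c n = 0) → (∀ a ∈ J, ζ a = 0) → ζ = 0

/-- a quantitative form that holds at most points near almost every point. -/
def SQuad : Prop :=
  ∀ (ι : Type) [Fintype ι] (c : E2 → ι → ℝ) (J : E2 → Finset ι),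
    (∀ a, Measurable fun x => c x a) → (∀ x, ‖c x‖ ≤ 1) →
    (∀ᵐ y : E2, ∀ ζ : ι → ℝ, (∀ᵐ n ∂sig 2, ζ ⬝ᵥ c (y + n) = 0) → (∀ a ∈ J y, ζ a = 0) → ζ = 0) →
    ∀ᵐ x : E2, ∃ β μ : ℝ, 0 < β ∧ β < 1 ∧ 0 < μ ∧ Small fun _ => {η | ¬ ∀ e : E2, ‖e‖ = 1 →
      ∀ ζ : ι → ℝ, (∀ a ∈ J x, ζ a = 0) →
        μ * ‖ζ‖ ^ 2 ≤ ∫ n in {n | |⟪n, e⟫| ≤ β}, (ζ ⬝ᵥ c (x + η + n)) ^ 2 ∂sig 2}

/-- a chord of a small disc on a unit circle through a point near the disc. -/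
def SChord : Prop :=
  ∀ β : ℝ, 0 < β → β < 1 → ∃ lam c τ₀ : ℝ, 1 < lam ∧ 0 < c ∧ 0 < τ₀ ∧ c * τ₀ ≤ 1 ∧
    ∀ (τ : ℝ) (η n : E2), 0 < τ → τ ≤ τ₀ → ‖η‖ < lam * τ → ‖n‖ = 1 → |⟪n, η⟫| ≤ β * ‖η‖ →
      ∃ b : E2, ‖b‖ = 1 ∧ ∀ n' : E2, ‖n'‖ = 1 → ‖n' - b‖ < c * τ →
        ‖η + n + n'‖ < τ ∧ c * τ ≤ |det2 n n'|

/-- the doubling inequality. -/
def SCntD : Prop :=
  ∀ (ι : Type) [Fintype ι] (c : E2 → ι → ℝ) (J : E2 → Finset ι) (ξ : E2 → ι → ℝ),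
    Dual (fun x (_ : Unit) => c x) J ξ →
    ∀ᵐ x : E2, ∃ κ₀ C lam : ℝ, 0 < κ₀ ∧ 0 < C ∧ 1 < lam ∧ ∀ κ, 0 < κ → κ ≤ κ₀ →
      ∃ τ₀, 0 < τ₀ ∧ ∀ τ t : ℝ, 0 < τ → τ ≤ τ₀ → 0 ≤ t →
        volume (Far J ξ x t ∩ ball 0 τ) ≤ ENNReal.ofReal κ * volume (ball (0 : E2) τ) →
        volume (Far J ξ x (C * t) ∩ ball 0 (lam * τ)) ≤
          ENNReal.ofReal κ * volume (ball (0 : E2) (lam * τ))

/-- the rows are constant on a set of density one. -/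
def SCnt : Prop :=
  ∀ (ι : Type) [Fintype ι] (c : E2 → ι → ℝ) (J : E2 → Finset ι) (ξ : E2 → ι → ℝ),
    Dual (fun x (_ : Unit) => c x) J ξ →
    (∀ᵐ y : E2, ∀ K : ℕ, ∃ C : ℝ, Small fun τ => {η | C * τ ^ K < ‖c (y + η) - c y‖}) →
    ∀ᵐ x : E2, Small fun _ => Far J ξ x 0

/-- a set near a point of the circle has many neighbours that see all the frame. -/
def SK : Prop :=
  ∀ (I : Type) (F : Finset I) (Z : I → Set E2) (n : I → E2) (y n₀ : E2),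
    (∀ i, MeasurableSet (Z i)) → ‖n₀‖ = 1 →
    (∀ i ∈ F, ‖n i‖ = 1 ∧ n i ≠ n₀ ∧ n i ≠ -n₀ ∧ Small fun _ => {η | y + n i + η ∉ Z i}) →
    ∃ r₀ : ℝ, 0 < r₀ ∧ ∀ r, 0 < r → r ≤ r₀ → ∀ A : Set E2, MeasurableSet A →
      A ⊆ ball (y + n₀) r → volume A ≠ 0 →
      volume {y' | y' ∈ ball y (2 * r) ∧ y' ∈ Nb A ∧ ∀ i ∈ F, y' ∈ Nb (Z i)} ≠ 0

/-- the sum of the subspaces that are seen from a point. -/
noncomputable def Sg {I ι : Type} (Z : I → Set E2) (W : I → Submodule ℝ (ι → ℝ)) (y : E2) :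
    Submodule ℝ (ι → ℝ) := ⨆ i ∈ {i | y ∈ Nb (Z i)}, W i

/-- points where the sum is locally maximal. -/
def SOpen : Prop :=
  ∀ (I ι : Type) [Countable I] [Fintype ι] (Z : I → Set E2) (W : I → Submodule ℝ (ι → ℝ))
    (G : E2 → Prop) (x₀ : E2) (ρ : ℝ), (∀ i, MeasurableSet (Z i)) → (∀ᵐ x, G x) → 0 < ρ →
    ∃ y ∈ ball x₀ ρ, G y ∧ ∃ r : ℝ, 0 < r ∧ ∀ᵐ y', y' ∈ ball y r → Sg Z W y' ≤ Sg Z W y

/-- a dense family of open sets with labels at unit distance. -/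
structure Fam (O : E3 → Set E2) : Prop where
  opn : ∀ v, IsOpen (O v)
  dense : Dense (⋃ v, O v)
  unit : ∀ v v' y z, y ∈ O v → z ∈ O v' → ‖y - z‖ = 1 → ‖v - v'‖ = 1

/-- flat maps give a family. -/
def SFam : Prop := ∀ g : E2 → E3, UP g → (∀ᵐ x, FlatAt g x) → ∃ O, Fam O

/-! ### The topological theorem -/

/-- the points at unit distance from a point of `S`. -/
def No (S : Set E2) : Set E2 := {y | ∃ w ∈ S, ‖y - w‖ = 1}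

/-- regular families, and contact points. -/
def SCL : Prop :=
  (∀ O, Fam O → ∃ O', Fam O' ∧ ∀ v, interior (closure (O' v)) = O' v) ∧
  ∀ O, Fam O → (∀ v, interior (closure (O v)) = O v) → ∀ G : Set E2, IsOpen G →
    IsPreconnected G → (∃ y ∈ G, ∃ z ∈ G, ‖y - z‖ = 1) →
    ∃ (q : E3) (c e : E2) (ρ : ℝ), 0 < ρ ∧ ‖e‖ = 1 ∧ ball c ρ ⊆ O q ∧ c ∈ G ∧ c + ρ • e ∈ G ∧
      ∀ δ : ℝ, 0 < δ → ∃ (q' : E3) (ζ : E2), q' ≠ q ∧ ζ ∈ O q' ∧ ‖ζ - (c + ρ • e)‖ < δ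

/-- unit circles through a point near the boundary of a disc meet the disc. -/
def SBand : Prop :=
  (∀ S : Set E2, IsOpen S → IsOpen (No S)) ∧
  ∀ (c e : E2) (ρ β : ℝ), 0 < ρ → ‖e‖ = 1 → β < 1 → ∃ δ : ℝ, 0 < δ ∧ ∀ ζ n : E2,
    ‖ζ - (c + ρ • e)‖ < δ → ‖n‖ = 1 → |⟪n, e⟫| ≤ β → ζ + n ∈ No (ball c ρ)

/-- the arc of sixty degrees whose points have partners in the arc of 120 degrees. -/
def SArc6 : Prop :=
  ∀ (B : Set E2) (ζ e : E2), IsOpen B → ‖e‖ = 1 →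
    (∀ n : E2, ‖n‖ = 1 → |⟪n, e⟫| ≤ √3 / 2 → ζ + n ∈ B) →
    ∃ G : Set E2, IsOpen G ∧ IsPreconnected G ∧ G ⊆ B ∧ (∃ y ∈ G, ∃ z ∈ G, ‖y - z‖ = 1) ∧
      ∀ y ∈ G, ∃ m : E2, ‖m‖ = 1 ∧ y + m ∈ B

/-- the parity lemma. -/
def SLA : Prop :=
  ∀ O, Fam O → ∀ B G : Set E2, IsOpen B → IsOpen G → IsPreconnected G → G ⊆ B →
    (∃ y ∈ G, ∃ z ∈ G, ‖y - z‖ = 1) → (∀ y ∈ G, ∃ m : E2, ‖m‖ = 1 ∧ y + m ∈ B) →
    ∀ s : E3 → Bool,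
      ¬ ∀ v v', (O v ∩ B).Nonempty → (O v' ∩ B).Nonempty → ‖v - v'‖ = 1 → s v ≠ s v'

/-- the circle of the points at unit distance from two points. -/
def gam (p p' : E3) : Set E3 := {v | ‖v - p‖ = 1 ∧ ‖v - p'‖ = 1}

/-- the cosine of the angle of a unit chord. -/
noncomputable def cs (p p' : E3) : ℝ := 1 - 1 / (2 * (1 - ‖p - p'‖ ^ 2 / 4))

/-- a circle whose graph of unit chords is not bipartite. -/
def SCol : Prop :=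
  ∀ p p' : E3, p ≠ p' →
    (∀ s : E3 → Bool, ¬ ∀ v ∈ gam p p', ∀ v' ∈ gam p p', ‖v - v'‖ = 1 → s v ≠ s v') →
    ∃ a : ℂ, IsIntegral ℤ a ∧ a * (2 * cs p p') = 1

/-- the relation between the two angles. -/
def SRel : Prop :=
  ∀ p p' q q' w : E3, p ≠ p' → q ≠ q' → q ∈ gam p p' → q' ∈ gam p p' → w ∈ gam p p' →
    w ∈ gam q q' → cs q q' * (1 - cs p p') = -cs p p'

/-- the topological theorem. -/
def STT : Prop := ∀ O, ¬ Fam O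

/-- the measurable theorem. -/
def SM23 : Prop :=
  ∀ P : E2 → Matrix (Ix 3) (Ix 3) ℝ, Field P → ∃ g : E2 → E3, Iso g ∧
    ∀ᵐ x, ∀ a b, P x a b = P x sI sI * lift (g x) a * lift (g x) b

theorem sM23_of (h1 : SSel) (h2 : SCls) (h3 : SIso) (h4 : SPinE) (h5 : SFlat) (h6 : SFam)
    (h7 : STT) : SM23 := by
  intro P hP
  obtain ⟨f, hf, hj, hp⟩ := h1 P hP
  by_cases hI : ∀ᵐ x, ¬ IsoAt f x
  · obtain ⟨g, hg, hfl⟩ := h5 f hf (by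
      filter_upwards [h2 f hf hj, hI] with x hx hx'
      tauto)
    obtain ⟨O, hO⟩ := h6 g hg hfl
    exact absurd hO (h7 O)
  · obtain ⟨T, c, h⟩ := h3 f hf.meas hI
    exact h4 P f hP hf.meas hp T c h

end Pool.Agent.MP_66cee2_co.P
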